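import Pool.Agent.Lib.MP_17a322_nt.EF.Defs

/-!
Closed subschemes of a family over an abelian variety: definitions.
-/

universe u

namespace Pool.Agent.Lib.MP_17a322_nt.EF

open MvPolynomial Height
open Pool.Agent.Lib.MP_17a322_nt.VA
open Pool.Agent.Lib.MP_17a322_nt.SL

section

variable {K : Type u} [Field K] {N n m s q : ℕ}

/-- The equations of the intersection of the closed subschemes with the equations `f j l`, `l < q`,
for `j ∈ U`. -/
def cut (f : Fin s → Fin q → MvPolynomial (Fin n) (MvPolynomial (Fin (N + 1)) K))
    (U : Finset (Fin s)) : Set (MvPolynomial (Fin n) (MvPolynomial (Fin (N + 1)) K)) :=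
  {g | ∃ j ∈ U, ∃ l, g = f j l}

variable (A : AV K N)

/-- On the generic fibre of the closed subset with the equations `H i`, which has dimension `t - 1`,
the closed subset with the equations in `G` has codimension at least `i` (for `i = t`: it is empty).
The prime ideals are those of irreducible closed subsets of the affine cone. -/
def Codim (H : Fin m → MvPolynomial (Fin n) (MvPolynomial (Fin (N + 1)) K)) (t : ℕ)
    (G : Set (MvPolynomial (Fin n) (MvPolynomial (Fin (N + 1)) K))) (i : ℕ) : Prop :=
  ∀ (L : Type u) [Field L] [IsAlgClosed L] [Algebra K L] (P : A.Pts L), Gen A P →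
    ∀ p : Ideal (MvPolynomial (Fin n) L), p.IsPrime → fib A H P ≤ p →
      (∀ g ∈ G, sp A P g ∈ p) → Algebra.trdeg L (MvPolynomial (Fin n) L ⧸ p) + i ≤ t

/-- The local height of the point `(P, X)` with respect to the closed subscheme with the equations
`f l`, `l < q`, which are forms of degree `d` whose coefficients are forms of degree `D`. -/
noncomputable def lamY {L : Type u} [Field L] [Algebra K L] (v : AbsoluteValue L ℝ) (D d : ℕ)
    (f : Fin q → MvPolynomial (Fin n) (MvPolynomial (Fin (N + 1)) K)) (P : A.Pts L)
    (X : Fin n → L) : ℝ :=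
  d * Real.log (⨆ l, v (X l)) + D * Real.log (⨆ i, v (A.x P i)) -
    Real.log (⨆ l, v (eval X (sp A P (f l))))

end

section

variable {K : Type u} [Field K] [NumberField K] {N n m : ℕ}

/-- The height of a subspace of `K ^ M`: the height of its Pluecker coordinates. -/
noncomputable def hSub {M : ℕ} (V : Submodule K (Fin M → K)) : ℝ :=
  logHeight fun e : Fin (Module.finrank K V) ↪o Fin M =>
    (Matrix.of fun a b => (Module.finBasis K V a : Fin M → K) (e b)).det

/-- The forms of degree `k` in the ideal `I`, as vectors of coefficients. -/
noncomputable def part (I : Ideal (MvPolynomial (Fin n) K)) (k : ℕ) :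
    Submodule K (Fin (Mo n k).card → K) :=
  Submodule.span K {c | ∃ f ∈ I, f.IsHomogeneous k ∧ c = cf k f}

/-- The normalised height of the fibre at `P` of the closed subset with the equations `H i`: the
infimum over `k ≥ 1` of `t` times the height of the space of the forms of degree `k` in its ideal
divided by `k` times the dimension of the space of the forms of degree `k` modulo its ideal. -/
noncomputable def slope (A : AV K N)
    (H : Fin m → MvPolynomial (Fin n) (MvPolynomial (Fin (N + 1)) K)) (t : ℕ) (P : A.Pts K) : ℝ :=
  ⨅ k : ℕ, t * hSub (part (fib A H P) (k + 1)) /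
    ((k + 1 : ℕ) * rk (fib A H P) (k + 1))

end

end Pool.Agent.Lib.MP_17a322_nt.EF
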