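import Pool.Agent.Lib.MP_17a322_nt.EF.Defs

/-!
Cramer's rule with parameters.
-/

universe u

namespace Pool.Agent.Lib.MP_17a322_nt.EF

open MvPolynomial Height
open Pool.Agent.Lib.MP_17a322_nt.VA
open Pool.Agent.Lib.MP_17a322_nt.SL

/-- Independent rows have a nonzero minor. -/
theorem R0_minor {L : Type*} [Field L] {κ : Type*} [Finite κ] {p : ℕ} (W : Fin p → κ → L)
    (h : LinearIndependent L W) :
    ∃ e : Fin p → κ, (Matrix.of fun i j : Fin p => W i (e j)).det ≠ 0 := by
  classical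
  have := Fintype.ofFinite κ
  obtain ⟨M, hM⟩ : ∃ M : Matrix (Fin p) κ L, M = Matrix.of W := ⟨_, rfl⟩
  have h1 : M.rank = p := by
    have h2 : LinearIndependent L M.row := by
      rw [hM]
      exact h
    rw [h2.rank_matrix, Fintype.card_fin]
  rw [Matrix.rank_eq_finrank_span_cols] at h1
  obtain ⟨f, hf1, -, hf3⟩ := Submodule.exists_fun_fin_finrank_span_eq L (Set.range M.col)
  choose e he using hf1
  refine ⟨fun j => e (Fin.cast h1.symm j), ?_⟩
  have h2 : LinearIndependent L
      (Matrix.of fun i j : Fin p => W i (e (Fin.cast h1.symm j))).col := by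
    have h3 : (Matrix.of fun i j : Fin p => W i (e (Fin.cast h1.symm j))).col =
        fun j => f (Fin.cast h1.symm j) := by
      funext j
      rw [← he (Fin.cast h1.symm j)]
      subst hM
      rfl
    rw [h3]
    exact hf3.comp _ (Fin.cast_injective _)
  rw [Matrix.linearIndependent_cols_iff_isUnit, Matrix.isUnit_iff_isUnit_det] at h2
  exact h2.ne_zero

/-- The determinant of a matrix whose rows consist of forms. -/
theorem R0_det {R : Type*} [CommRing R] {σ : Type*} {p : ℕ}
    (M : Matrix (Fin p) (Fin p) (MvPolynomial σ R)) (D : Fin p → ℕ)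
    (h : ∀ i j, (M i j).IsHomogeneous (D i)) : M.det.IsHomogeneous (∑ i, D i) := by
  rw [Matrix.det_apply]
  refine IsHomogeneous.sum _ _ _ fun τ _ => ?_
  have h1 := IsHomogeneous.prod Finset.univ (fun i => M (τ i) i) (fun i => D (τ i))
    fun i _ => h (τ i) i
  rw [Equiv.sum_comp τ D] at h1
  rcases Int.units_eq_one_or (Equiv.Perm.sign τ) with h2 | h2
  · rw [h2, one_smul]
    exact h1
  · rw [h2, Units.neg_smul, one_smul]
    exact h1.neg

theorem R0_pt {K : Type u} [Field K] {N : ℕ} (A : AV K N) {L : Type u} [Field L] [Algebra K L]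
    (P : A.Pts L) (f : MvPolynomial (Fin (N + 1)) K) (hf : f ∈ A.I) : aeval (A.x P) f = 0 :=
  P.2 f hf

/-- Cramer's rule. -/
theorem R0_cram {K : Type u} [Field K] {N : ℕ} (A : AV K N) {ι κ α : Type*} [Finite ι] [Finite κ]
    (w : ι → κ → MvPolynomial (Fin (N + 1)) K) (D : ι → ℕ)
    (hw : ∀ i l, (w i l).IsHomogeneous (D i)) (w₀ : α → κ → MvPolynomial (Fin (N + 1)) K)
    (hw₀ : ∀ a l, (w₀ a l).IsHomogeneous 0) {L : Type u} [Field L] [Algebra K L] (P₀ : A.Pts L)
    (hP₀ : Gen A P₀)
    (h : ∀ a, (fun l => aeval (A.x P₀) (w₀ a l)) ∈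
      Submodule.span L (Set.range fun i l => aeval (A.x P₀) (w i l))) :
    ∃ (p : ℕ) (b : Fin p → ι) (R : MvPolynomial (Fin (N + 1)) K) (ρ : ℕ)
      (r : α → Fin p → MvPolynomial (Fin (N + 1)) K) (δ : Fin p → ℕ),
      R.IsHomogeneous ρ ∧ R ∉ A.I ∧ (∀ a i, (r a i).IsHomogeneous (δ i)) ∧
      (∀ i, δ i + D (b i) = ρ) ∧
      ∀ a l, R * w₀ a l - ∑ i, r a i * w (b i) l ∈ A.I := by
  classical
  have := Fintype.ofFinite κ
  obtain ⟨p, f, hf1, hf2, hf3⟩ : ∃ (p : ℕ) (f : Fin p → κ → L),
      (∀ i, f i ∈ Set.range fun i l => aeval (A.x P₀) (w i l)) ∧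
      Submodule.span L (Set.range f) =
        Submodule.span L (Set.range fun i l => aeval (A.x P₀) (w i l)) ∧
      LinearIndependent L f :=
    ⟨_, Submodule.exists_fun_fin_finrank_span_eq L _⟩
  choose b hb using hf1
  obtain ⟨e, he⟩ := R0_minor f hf3
  obtain ⟨M, hM⟩ : ∃ M : Matrix (Fin p) (Fin p) (MvPolynomial (Fin (N + 1)) K),
      M = Matrix.of fun i j => w (b i) (e j) := ⟨_, rfl⟩
  obtain ⟨φ, hφ⟩ : ∃ φ : MvPolynomial (Fin (N + 1)) K →ₐ[K] L, φ = aeval (A.x P₀) := ⟨_, rfl⟩
  have hMφ : M.map φ = Matrix.of fun i j : Fin p => f i (e j) := by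
    ext i j
    rw [Matrix.map_apply, hM, hφ]
    exact congrFun (hb i) (e j)
  have hRφ : φ M.det ≠ 0 := by
    rw [AlgHom.map_det]
    show (M.map φ).det ≠ 0
    rw [hMφ]
    exact he
  have hMh : ∀ i j, (M i j).IsHomogeneous (D (b i)) := fun i j => by
    rw [hM]
    exact hw _ _
  obtain ⟨r, hr⟩ : ∃ r : α → Fin p → MvPolynomial (Fin (N + 1)) K,
      r = fun a i => (M.updateRow i fun j => w₀ a (e j)).det := ⟨_, rfl⟩
  have hrh : ∀ a i, (r a i).IsHomogeneous (∑ k, if k = i then 0 else D (b k)) := by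
    intro a i
    rw [hr]
    refine R0_det _ _ fun k j => ?_
    by_cases hk : k = i
    · rw [if_pos hk, hk, Matrix.updateRow_self]
      exact hw₀ _ _
    · rw [if_neg hk, Matrix.updateRow_ne hk]
      exact hMh k j
  have hdeg : ∀ i, (∑ k, if k = i then 0 else D (b k)) + D (b i) = ∑ k, D (b k) := by
    intro i
    rw [← Finset.sum_erase_add _ _ (Finset.mem_univ i),
      ← Finset.sum_erase_add (Finset.univ : Finset (Fin p)) (fun k => D (b k))
        (Finset.mem_univ i), if_pos rfl, add_zero]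
    congr 1
    refine Finset.sum_congr rfl fun k hk => ?_
    rw [if_neg (Finset.ne_of_mem_erase hk)]
  have hRh := R0_det M _ hMh
  refine ⟨p, b, M.det, ∑ k, D (b k), r, fun i => ∑ k, if k = i then 0 else D (b k), hRh,
    fun h0 => hRφ ?_, hrh, hdeg, fun a l => ?_⟩
  · rw [hφ]
    exact R0_pt A P₀ _ h0
  -- the identity at the generic point
  have ha := h a
  rw [← hf2, Submodule.mem_span_range_iff_exists_fun] at ha
  obtain ⟨c, hc⟩ := ha
  refine hP₀ _ (∑ k, D (b k)) ?_ ?_
  · refine IsHomogeneous.sub ?_ (IsHomogeneous.sum _ _ _ fun i _ => ?_)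
    · exact hRh.mul (hw₀ a l)
    · have h1 := (hrh a i).mul (hw (b i) l)
      rwa [hdeg i] at h1
  · rw [← hφ, map_sub, map_mul, map_sum]
    have hrφ : ∀ i, φ (r a i) = c i * φ M.det := by
      intro i
      rw [hr, AlgHom.map_det, AlgHom.map_det]
      show ((M.updateRow i fun j => w₀ a (e j)).map φ).det = c i * (M.map φ).det
      have h1 : (M.updateRow i fun j => w₀ a (e j)).map φ =
          (M.map φ).updateRow i (∑ k, c k • (M.map φ) k) := by
        ext k j
        rw [Matrix.map_apply]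
        by_cases hk : k = i
        · rw [hk, Matrix.updateRow_self, Matrix.updateRow_self, Finset.sum_apply]
          have h2 := congrFun hc (e j)
          rw [Finset.sum_apply] at h2
          rw [hφ]
          refine h2.symm.trans (Finset.sum_congr rfl fun k _ => ?_)
          rw [← hφ, hMφ]
          rfl
        · rw [Matrix.updateRow_ne hk, Matrix.updateRow_ne hk]
          rfl
      rw [h1, Matrix.det_updateRow_sum, smul_eq_mul]
    have h2 := congrFun hc l
    rw [Finset.sum_apply] at h2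
    have h3 : φ (w₀ a l) = ∑ i, c i * φ (w (b i) l) := by
      rw [hφ]
      refine h2.symm.trans (Finset.sum_congr rfl fun k _ => ?_)
      rw [← hb k]
      rfl
    rw [h3, Finset.mul_sum, sub_eq_zero]
    refine Finset.sum_congr rfl fun i _ => ?_
    rw [map_mul, hrφ i]
    ring

end Pool.Agent.Lib.MP_17a322_nt.EF
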