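import Pool.Agent.Lib.MP_17a322_nt.EF.T2
import Pool.Agent.Lib.MP_17a322_nt.EF.R0
import Pool.Agent.Lib.MP_17a322_nt.EF.Defs3

/-!
The normalised height of the fibres and the rows of the generic fibre.
-/

universe u

namespace Pool.Agent.Lib.MP_17a322_nt.EF

open MvPolynomial Height
open Pool.Agent.Lib.MP_17a322_nt.VA
open Pool.Agent.Lib.MP_17a322_nt.SL

section

variable {K : Type u} [Field K] {N : ℕ} (A : AV K N)

/-- Independence at any point implies independence at the generic points. -/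
theorem U2_up {κ : Type*} [Finite κ] {p : ℕ} (w : Fin p → κ → MvPolynomial (Fin (N + 1)) K)
    (D : Fin p → ℕ) (hw : ∀ i l, (w i l).IsHomogeneous (D i)) {L L' : Type u} [Field L]
    [Algebra K L] [Field L'] [Algebra K L'] (P : A.Pts L) (P' : A.Pts L')
    (hP' : Gen A P') (h : LinearIndependent L fun i l => aeval (A.x P) (w i l)) :
    LinearIndependent L' fun i l => aeval (A.x P') (w i l) := by
  classical
  have := Fintype.ofFinite κ
  obtain ⟨e, he⟩ := R0_minor _ h
  obtain ⟨f, hf⟩ : ∃ f : MvPolynomial (Fin (N + 1)) K,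
      f = (Matrix.of fun i j : Fin p => w i (e j)).det := ⟨_, rfl⟩
  have hfh : f.IsHomogeneous (∑ i, D i) := by
    rw [hf]
    exact R0_det _ _ fun i j => hw i (e j)
  have hfe : ∀ {F : Type u} [Field F] [Algebra K F] (Q : A.Pts F), aeval (A.x Q) f =
      (Matrix.of fun i j : Fin p => aeval (A.x Q) (w i (e j))).det := by
    intro F _ _ Q
    rw [hf, AlgHom.map_det]
    rfl
  have h1 : aeval (A.x P') f ≠ 0 := by
    intro h0
    apply he
    rw [← hfe P]
    exact R0_pt A P _ (hP' f _ hfh h0)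
  rw [hfe] at h1
  rw [Fintype.linearIndependent_iff]
  intro c hc
  by_contra hcon
  push Not at hcon
  obtain ⟨i, hi⟩ := hcon
  refine h1 (Matrix.exists_vecMul_eq_zero_iff.1 ⟨c, fun h0 => hi (congrFun h0 i), ?_⟩)
  funext j
  have h2 := congrFun hc (e j)
  rw [Finset.sum_apply] at h2
  exact h2

/-- Relations at a generic point hold everywhere. -/
theorem U2_mem {κ : Type*} [Finite κ] {p : ℕ} (w : Fin p → κ → MvPolynomial (Fin (N + 1)) K)
    (D : Fin p → ℕ) (hw : ∀ i l, (w i l).IsHomogeneous (D i))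
    (w₀ : κ → MvPolynomial (Fin (N + 1)) K) (D₀ : ℕ) (hw₀ : ∀ l, (w₀ l).IsHomogeneous D₀)
    {L L' : Type u} [Field L]
    [Algebra K L] [Field L'] [Algebra K L'] (P : A.Pts L) (P' : A.Pts L')
    (hP' : Gen A P') (hmem : (fun l => aeval (A.x P') (w₀ l)) ∈
      Submodule.span L' (Set.range fun i l => aeval (A.x P') (w i l)))
    (h : LinearIndependent L fun i l => aeval (A.x P) (w i l)) :
    (fun l => aeval (A.x P) (w₀ l)) ∈
      Submodule.span L (Set.range fun i l => aeval (A.x P) (w i l)) := by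
  classical
  by_contra hcon
  have h3 : LinearIndependent L (Fin.cons (α := fun _ => κ → L)
      (fun l => aeval (A.x P) (w₀ l)) fun i l => aeval (A.x P) (w i l)) :=
    linearIndependent_finCons.2 ⟨h, hcon⟩
  have h4 := U2_up A (Fin.cons (α := fun _ => κ → MvPolynomial (Fin (N + 1)) K) w₀ w)
    (Fin.cons (α := fun _ => ℕ) D₀ D) (fun i l => by
      refine Fin.cases ?_ (fun j => ?_) i
      · exact hw₀ l
      · exact hw j l) P P' hP' (by
    have h5 : (fun i l => aeval (A.x P)
        (Fin.cons (α := fun _ => κ → MvPolynomial (Fin (N + 1)) K) w₀ w i l)) =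
        Fin.cons (α := fun _ => κ → L)
          (fun l => aeval (A.x P) (w₀ l)) fun i l => aeval (A.x P) (w i l) := by
      funext i
      refine Fin.cases ?_ (fun j => ?_) i
      · rfl
      · rfl
    rw [h5]
    exact h3)
  have h6 : (fun i l => aeval (A.x P')
      (Fin.cons (α := fun _ => κ → MvPolynomial (Fin (N + 1)) K) w₀ w i l)) =
      Fin.cons (α := fun _ => κ → L')
        (fun l => aeval (A.x P') (w₀ l)) fun i l => aeval (A.x P') (w i l) := by
    funext i
    refine Fin.cases ?_ (fun j => ?_) i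
    · rfl
    · rfl
  rw [h6] at h4
  exact (linearIndependent_finCons.1 h4).2 hmem

end

section

variable {K : Type u} [Field K] {N : ℕ} (A : AV K N) {n m : ℕ}

/-- The forms of degree `k` in the ideals of the fibres. -/
theorem U2_fam (H : Fin m → MvPolynomial (Fin n) (MvPolynomial (Fin (N + 1)) K))
    (hH : ∀ i, ∃ a b : ℕ, BH a b (H i)) (k : ℕ) (a : Fin (N + 1)) :
    ∃ (M D' : ℕ) (w : Fin M → Fin (Mo n k).card → MvPolynomial (Fin (N + 1)) K),
      (∀ p l, (w p l).IsHomogeneous D') ∧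
      ∀ (L : Type u) [Field L] [Algebra K L] (P : A.Pts L), A.x P a ≠ 0 →
        ∀ f : MvPolynomial (Fin n) L, f.IsHomogeneous k →
          (f ∈ fib A H P ↔
            cf k f ∈ Submodule.span L (Set.range fun p l => aeval (A.x P) (w p l))) := by
  classical
  choose aa bb hab using hH
  obtain ⟨D', hD'⟩ : ∃ D' : ℕ, ∀ i, aa i ≤ D' :=
    ⟨∑ i, aa i, fun i => Finset.single_le_sum (fun _ _ => Nat.zero_le _) (Finset.mem_univ i)⟩
  obtain ⟨W, hW⟩ : ∃ W : (Σ i : {i : Fin m // bb i ≤ k}, Fin (Mo n (k - bb i.1)).card) →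
      MvPolynomial (Fin n) (MvPolynomial (Fin (N + 1)) K), ∀ p, W p =
        C (X a ^ (D' - aa p.1.1)) * (mn (MvPolynomial (Fin (N + 1)) K) n (k - bb p.1.1) p.2 *
          H p.1.1) := ⟨_, fun p => rfl⟩
  have hw : ∀ p l, (cf k (W p) l).IsHomogeneous D' := by
    intro p l
    unfold cf
    rw [hW, coeff_C_mul]
    have h1 : mn (MvPolynomial (Fin (N + 1)) K) n (k - bb p.1.1) p.2 =
        monomial (Finsupp.equivFunOnFinite.symm (mo n (k - bb p.1.1) p.2)) 1 := by
      rw [R1_mon, C_1, one_mul]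
      rfl
    rw [h1, coeff_monomial_mul']
    have h2 : (X a ^ (D' - aa p.1.1) : MvPolynomial (Fin (N + 1)) K).IsHomogeneous
        (D' - aa p.1.1) := by
      have h3 := (isHomogeneous_X K a).pow (D' - aa p.1.1)
      rwa [one_mul] at h3
    split_ifs with h3
    · rw [one_mul]
      have h4 := h2.mul ((hab p.1.1).2 (Finsupp.equivFunOnFinite.symm (mo n k l) -
        Finsupp.equivFunOnFinite.symm (mo n (k - bb p.1.1) p.2)))
      rwa [Nat.sub_add_cancel (hD' _)] at h4
    · rw [mul_zero]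
      exact isHomogeneous_zero _ _ _
  have hsp : ∀ (L : Type u) [Field L] [Algebra K L] (P : A.Pts L) p, sp A P (W p) =
      C (A.x P a ^ (D' - aa p.1.1)) * (mn L n (k - bb p.1.1) p.2 * sp A P (H p.1.1)) := by
    intro L _ _ P p
    have h1 : MvPolynomial.map (aeval (A.x P)).toRingHom
        (mn (MvPolynomial (Fin (N + 1)) K) n (k - bb p.1.1) p.2) =
        mn L n (k - bb p.1.1) p.2 := by
      unfold mn
      rw [map_prod]
      refine Finset.prod_congr rfl ?_
      intro l _
      rw [map_pow, MvPolynomial.map_X]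
    have h2 : (aeval (A.x P)).toRingHom
        (X a ^ (D' - aa p.1.1) : MvPolynomial (Fin (N + 1)) K) = A.x P a ^ (D' - aa p.1.1) := by
      show aeval (A.x P) (X a ^ (D' - aa p.1.1) : MvPolynomial (Fin (N + 1)) K) = _
      rw [map_pow, aeval_X]
    unfold sp
    rw [hW, map_mul, map_mul, map_C, h1, h2]
  have hcf : ∀ (L : Type u) [Field L] [Algebra K L] (P : A.Pts L) p,
      (fun l => aeval (A.x P) (cf k (W p) l)) = cf k (sp A P (W p)) := by
    intro L _ _ P p
    funext l
    exact (cf_map _ _ _).symm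
  obtain ⟨M, ⟨e⟩⟩ : ∃ M : ℕ, Nonempty
      (Fin M ≃ (Σ i : {i : Fin m // bb i ≤ k}, Fin (Mo n (k - bb i.1)).card)) :=
    ⟨_, ⟨(Fintype.equivFin _).symm⟩⟩
  refine ⟨M, D', fun p l => cf k (W (e p)) l, fun p l => hw _ _, fun L _ _ P hP f hf => ?_⟩
  have h1 := T2_mem (k := k) (fun i => sp A P (H i)) bb (fun i => (hab i).1.map _)
    (fun i => A.x P a ^ (D' - aa i)) (fun i => pow_ne_zero _ hP) hf
  rw [show fib A H P = Ideal.span (Set.range fun i => sp A P (H i)) from rfl, h1]
  have h2 : (Set.range fun p : (Σ i : {i : Fin m // bb i ≤ k}, Fin (Mo n (k - bb i.1)).card) =>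
      cf k (C (A.x P a ^ (D' - aa p.1.1)) *
        (mn L n (k - bb p.1.1) p.2 * sp A P (H p.1.1)))) =
      Set.range fun p l => aeval (A.x P) (cf k (W (e p)) l) := by
    ext y
    constructor
    · rintro ⟨p, rfl⟩
      refine ⟨e.symm p, ?_⟩
      show (fun l => aeval (A.x P) (cf k (W (e (e.symm p))) l)) = _
      rw [e.apply_symm_apply, hcf, hsp]
    · rintro ⟨p, rfl⟩
      refine ⟨e p, ?_⟩
      show _ = fun l => aeval (A.x P) (cf k (W (e p)) l)
      rw [hcf, hsp]
  rw [h2]

/-- Outside of a form, the rows span the forms of degree `k` of the ideal of the fibre. -/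
theorem U2_rows (H : Fin m → MvPolynomial (Fin n) (MvPolynomial (Fin (N + 1)) K))
    (hH : ∀ i, ∃ a b : ℕ, BH a b (H i)) (k : ℕ) {g' : ℕ}
    (G' : Matrix (Fin g') (Fin (Mo n k).card) (MvPolynomial (Fin (N + 1)) K))
    (hG' : IsRows A H k G') :
    ∃ (R : MvPolynomial (Fin (N + 1)) K) (ρ : ℕ), R.IsHomogeneous ρ ∧ R ∉ A.I ∧
      ∀ (L : Type u) [Field L] [Algebra K L] (P : A.Pts L), aeval (A.x P) R ≠ 0 →
        LinearIndependent L (fun i l => aeval (A.x P) (G' i l)) ∧
        ∀ f : MvPolynomial (Fin n) L, f.IsHomogeneous k →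
          (f ∈ fib A H P ↔
            cf k f ∈ Submodule.span L (Set.range fun i l => aeval (A.x P) (G' i l))) := by
  classical
  obtain ⟨L₀, _, _, _, P₀, hP₀⟩ := T_gen A
  obtain ⟨a, ha⟩ : ∃ a, A.x P₀ a ≠ 0 := by
    by_contra hcon
    push Not at hcon
    exact Z_x_ne A P₀ (funext hcon)
  obtain ⟨M, Dw, w, hw, hwf⟩ := U2_fam A H hH k a
  obtain ⟨⟨D', hD'⟩, hG2, -⟩ := hG'
  obtain ⟨hG3, hG4⟩ := hG2 L₀ P₀ hP₀
  -- the spans at the generic point
  have hspan : Submodule.span L₀ (Set.range fun p l => aeval (A.x P₀) (w p l)) =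
      Submodule.span L₀ (Set.range fun i l => aeval (A.x P₀) (G' i l)) := by
    ext y
    rw [← cf_uncf (k := k) y, ← hwf L₀ P₀ ha _ (uncf_hom y), hG4 _ (uncf_hom y)]
  obtain ⟨κ, j, hj, hjs, hjli⟩ := exists_linearIndependent' (K := L₀)
    (fun p l => aeval (A.x P₀) (w p l))
  have hκ : Finite κ := Finite.of_injective j hj
  have hκ' := Fintype.ofFinite κ
  have hcard : Fintype.card κ = g' := by
    have h1 := finrank_span_eq_card hjli
    rw [hjs, hspan, finrank_span_eq_card hG3, Fintype.card_fin] at h1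
    exact h1.symm
  obtain ⟨e⟩ : Nonempty (Fin g' ≃ κ) := ⟨(Fintype.equivFinOfCardEq hcard).symm⟩
  have hJ : LinearIndependent L₀ fun i l => aeval (A.x P₀) (w (j (e i)) l) :=
    hjli.comp e e.injective
  obtain ⟨e₁, he₁⟩ := R0_minor _ hJ
  obtain ⟨e₂, he₂⟩ := R0_minor _ hG3
  obtain ⟨f₁, hf₁⟩ : ∃ f : MvPolynomial (Fin (N + 1)) K,
      f = (Matrix.of fun i l : Fin g' => w (j (e i)) (e₁ l)).det := ⟨_, rfl⟩
  obtain ⟨f₂, hf₂⟩ : ∃ f : MvPolynomial (Fin (N + 1)) K,
      f = (Matrix.of fun i l : Fin g' => G' i (e₂ l)).det := ⟨_, rfl⟩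
  have hfe₁ : ∀ {F : Type u} [Field F] [Algebra K F] (Q : A.Pts F), aeval (A.x Q) f₁ =
      (Matrix.of fun i l : Fin g' => aeval (A.x Q) (w (j (e i)) (e₁ l))).det := by
    intro F _ _ Q
    rw [hf₁, AlgHom.map_det]
    rfl
  have hfe₂ : ∀ {F : Type u} [Field F] [Algebra K F] (Q : A.Pts F), aeval (A.x Q) f₂ =
      (Matrix.of fun i l : Fin g' => aeval (A.x Q) (G' i (e₂ l))).det := by
    intro F _ _ Q
    rw [hf₂, AlgHom.map_det]
    rfl
  have hli : ∀ {F : Type u} [Field F] {p : ℕ} (B : Fin p → Fin (Mo n k).card → F)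
      (c : Fin p → Fin (Mo n k).card), (Matrix.of fun i l : Fin p => B i (c l)).det ≠ 0 →
        LinearIndependent F B := by
    intro F _ p B c hc
    rw [Fintype.linearIndependent_iff]
    intro d hd
    by_contra hcon
    push Not at hcon
    obtain ⟨i, hi⟩ := hcon
    refine hc (Matrix.exists_vecMul_eq_zero_iff.1 ⟨d, fun h0 => hi (congrFun h0 i), ?_⟩)
    funext l
    have h2 := congrFun hd (c l)
    rw [Finset.sum_apply] at h2
    exact h2
  refine ⟨X a * (f₁ * f₂), 1 + ((∑ _i : Fin g', Dw) + ∑ _i : Fin g', D'), ?_, ?_, ?_⟩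
  · refine (isHomogeneous_X _ _).mul (IsHomogeneous.mul ?_ ?_)
    · rw [hf₁]
      exact R0_det _ _ fun i l => hw _ _
    · rw [hf₂]
      exact R0_det _ _ fun i l => hD' _ _
  · intro h0
    have h1 := R0_pt A P₀ _ h0
    rw [map_mul, map_mul, aeval_X, hfe₁, hfe₂] at h1
    exact mul_ne_zero ha (mul_ne_zero he₁ he₂) h1
  · intro L _ _ P hP
    rw [map_mul, map_mul, aeval_X] at hP
    have hPa := left_ne_zero_of_mul hP
    have hP₁ := left_ne_zero_of_mul (right_ne_zero_of_mul hP)
    have hP₂ := right_ne_zero_of_mul (right_ne_zero_of_mul hP)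
    rw [hfe₁] at hP₁
    rw [hfe₂] at hP₂
    have hL₁ := hli (fun i l => aeval (A.x P) (w (j (e i)) l)) e₁ hP₁
    have hL₂ := hli (fun i l => aeval (A.x P) (G' i l)) e₂ hP₂
    refine ⟨hL₂, fun f hf => ?_⟩
    rw [hwf L P hPa f hf]
    have h1 : Submodule.span L (Set.range fun p l => aeval (A.x P) (w p l)) =
        Submodule.span L (Set.range fun i l => aeval (A.x P) (G' i l)) := by
      apply le_antisymm
      · rw [Submodule.span_le]
        rintro _ ⟨p, rfl⟩
        refine U2_mem A (fun i l => G' i l) (fun _ => D') (fun i l => hD' i l) (w p) Dw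
          (fun l => hw p l) P P₀ hP₀ ?_ hL₂
        rw [← hspan]
        exact Submodule.subset_span ⟨p, rfl⟩
      · rw [Submodule.span_le]
        rintro _ ⟨i, rfl⟩
        have h2 := U2_mem A (fun i l => w (j (e i)) l) (fun _ => Dw) (fun i l => hw _ _)
          (G' i) D' (fun l => hD' i l) P P₀ hP₀ (by
            have h3 : (fun l => aeval (A.x P₀) (G' i l)) ∈ Submodule.span L₀
                (Set.range fun i l => aeval (A.x P₀) (G' i l)) :=
              Submodule.subset_span ⟨i, rfl⟩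
            rw [← hspan, ← hjs] at h3
            refine Submodule.span_mono ?_ h3
            rintro _ ⟨c, rfl⟩
            refine ⟨e.symm c, ?_⟩
            show (fun l => aeval (A.x P₀) (w (j (e (e.symm c))) l)) = _
            rw [e.apply_symm_apply]
            rfl) hL₁
        refine Submodule.span_mono ?_ h2
        rintro _ ⟨c, rfl⟩
        exact ⟨j (e c), rfl⟩
    rw [h1]

/-- The dimension of the forms of degree `k` modulo the ideal of a fibre. -/
theorem U2_rk (H : Fin m → MvPolynomial (Fin n) (MvPolynomial (Fin (N + 1)) K)) (k : ℕ) {g' : ℕ}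
    {L : Type u} [Field L] [Algebra K L] (P : A.Pts L) (B : Fin g' → Fin (Mo n k).card → L)
    (hli : LinearIndependent L B)
    (hmem : ∀ f : MvPolynomial (Fin n) L, f.IsHomogeneous k →
      (f ∈ fib A H P ↔ cf k f ∈ Submodule.span L (Set.range B))) :
    g' + rk (fib A H P) k = (Mo n k).card := by
  classical
  obtain ⟨e, he⟩ := cf_equiv n k L
  have : FiniteDimensional L (homogeneousSubmodule (Fin n) L k) := Module.Finite.equiv e.symm
  have h1 := LinearMap.finrank_range_add_finrank_ker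
    ((Ideal.Quotient.mkₐ L (fib A H P)).toLinearMap.domRestrict (homogeneousSubmodule (Fin n) L k))
  rw [LinearMap.range_domRestrict, e.finrank_eq, Module.finrank_fin_fun] at h1
  have h2 : (LinearMap.ker ((Ideal.Quotient.mkₐ L (fib A H P)).toLinearMap.domRestrict
      (homogeneousSubmodule (Fin n) L k))).map (e : homogeneousSubmodule (Fin n) L k →ₗ[L] _) =
      Submodule.span L (Set.range B) := by
    ext y
    rw [Submodule.mem_map]
    constructor
    · rintro ⟨Q, hQ, rfl⟩
      rw [LinearMap.mem_ker, LinearMap.domRestrict_apply] at hQ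
      have h3 : (Q : MvPolynomial (Fin n) L) ∈ fib A H P := Ideal.Quotient.eq_zero_iff_mem.1 hQ
      show e Q ∈ _
      rw [he]
      exact (hmem _ ((mem_homogeneousSubmodule _ _).1 Q.2)).1 h3
    · intro hy
      refine ⟨e.symm y, ?_, e.apply_symm_apply y⟩
      rw [LinearMap.mem_ker, LinearMap.domRestrict_apply]
      refine Ideal.Quotient.eq_zero_iff_mem.2 ?_
      refine (hmem _ ((mem_homogeneousSubmodule _ _).1 (e.symm y).2)).2 ?_
      rw [← he, e.apply_symm_apply]
      exact hy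
  have h3 := LinearEquiv.finrank_map_eq e (LinearMap.ker
    ((Ideal.Quotient.mkₐ L (fib A H P)).toLinearMap.domRestrict
      (homogeneousSubmodule (Fin n) L k)))
  rw [h2, finrank_span_eq_card hli, Fintype.card_fin] at h3
  rw [← h3] at h1
  unfold rk
  rw [add_comm]
  exact h1

end

section

variable {K : Type u} [Field K] [NumberField K] {N : ℕ} (A : AV K N)

/-- The height of a subspace is computed by every basis. -/
theorem U2_hSub {M d : ℕ} (V : Submodule K (Fin M → K)) (B : Fin d → Fin M → K)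
    (hli : LinearIndependent K B) (hV : Submodule.span K (Set.range B) = V) :
    hSub V = logHeight fun e : Fin d ↪o Fin M => (Matrix.of fun a b => B a (e b)).det := by
  classical
  obtain rfl : Module.finrank K V = d := by
    rw [← hV, finrank_span_eq_card hli, Fintype.card_fin]
  unfold hSub
  have h1 : ∀ a, B a ∈ V := fun a => by
    rw [← hV]
    exact Submodule.subset_span ⟨a, rfl⟩
  obtain ⟨T, hT⟩ : ∃ T : Matrix (Fin (Module.finrank K V)) (Fin (Module.finrank K V)) K,
      ∀ a, B a = ∑ b, T a b • (Module.finBasis K V b : Fin M → K) := by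
    refine ⟨fun a b => (Module.finBasis K V).repr ⟨B a, h1 a⟩ b, fun a => ?_⟩
    have h2 := (Module.finBasis K V).sum_repr ⟨B a, h1 a⟩
    have h3 := congrArg Subtype.val h2
    refine h3.symm.trans ?_
    rw [Submodule.coe_sum]
    rfl
  have hT0 : T.det ≠ 0 := by
    intro h0
    obtain ⟨c, hc0, hc⟩ := Matrix.exists_vecMul_eq_zero_iff.2 h0
    apply hc0
    funext a
    refine Fintype.linearIndependent_iff.1 hli c ?_ a
    simp_rw [hT, Finset.smul_sum, smul_smul]
    rw [Finset.sum_comm]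
    simp_rw [← Finset.sum_smul]
    refine Finset.sum_eq_zero fun b _ => ?_
    have h2 := congrFun hc b
    have h3 : ∑ a, c a * T a b = 0 := h2
    rw [h3, zero_smul]
  have h2 : (fun e : Fin (Module.finrank K V) ↪o Fin M =>
      (Matrix.of fun a b => B a (e b)).det) =
      T.det • fun e : Fin (Module.finrank K V) ↪o Fin M =>
        (Matrix.of fun a b => (Module.finBasis K V a : Fin M → K) (e b)).det := by
    funext e
    rw [Pi.smul_apply, smul_eq_mul, ← Matrix.det_mul]
    congr 1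
    ext a b
    rw [Matrix.mul_apply, Matrix.of_apply, hT a, Finset.sum_apply]
    rfl
  rw [h2, logHeight_smul_eq_logHeight _ hT0]

/-- `slope` satisfies the hypothesis on `σ`. -/
theorem slope_rows {n m t : ℕ}
    (H : Fin m → MvPolynomial (Fin n) (MvPolynomial (Fin (N + 1)) K))
    (hH : ∀ i, ∃ a b : ℕ, BH a b (H i)) (k g' r' : ℕ)
    (G' : Matrix (Fin g') (Fin (Mo n k).card) (MvPolynomial (Fin (N + 1)) K))
    (hG' : IsRows A H k G') (hgr : g' + r' = (Mo n k).card) :
    ∃ (R : MvPolynomial (Fin (N + 1)) K) (ρ : ℕ), R.IsHomogeneous ρ ∧ R ∉ A.I ∧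
      ∀ P : A.Pts K, aeval (A.x P) R ≠ 0 → (k : ℝ) * r' * slope A H t P ≤ t * hE A G' P := by
  classical
  obtain ⟨R, ρ, hR, hR0, h⟩ := U2_rows A H hH k G' hG'
  refine ⟨R, ρ, hR, hR0, fun P hP => ?_⟩
  obtain ⟨h1, h2⟩ := h K P hP
  have hhE : 0 ≤ hE A G' P := logHeight_nonneg _
  have ht : (0 : ℝ) ≤ t * hE A G' P := mul_nonneg (Nat.cast_nonneg _) hhE
  rcases k with _ | k
  · rw [Nat.cast_zero, zero_mul, zero_mul]
    exact ht
  have h3 := U2_rk A H (k + 1) P _ h1 h2
  have h4 : rk (fib A H P) (k + 1) = r' := by omega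
  rcases Nat.eq_zero_or_pos r' with h5 | h5
  · rw [h5, Nat.cast_zero, mul_zero, zero_mul]
    exact ht
  have h6 : part (fib A H P) (k + 1) =
      Submodule.span K (Set.range fun i l => aeval (A.x P) (G' i l)) := by
    unfold part
    apply le_antisymm
    · rw [Submodule.span_le]
      rintro _ ⟨f, hf, hfh, rfl⟩
      exact (h2 f hfh).1 hf
    · rw [Submodule.span_le]
      rintro _ ⟨i, rfl⟩
      refine Submodule.subset_span ⟨uncf (k + 1) fun l => aeval (A.x P) (G' i l), ?_,
        uncf_hom _, (cf_uncf _).symm⟩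
      rw [h2 _ (uncf_hom _), cf_uncf]
      exact Submodule.subset_span ⟨i, rfl⟩
  have h7 : hSub (part (fib A H P) (k + 1)) = hE A G' P :=
    U2_hSub _ (fun i l => aeval (A.x P) (G' i l)) h1 h6.symm
  have h8 : slope A H t P ≤ t * hE A G' P / ((k + 1 : ℕ) * r') := by
    unfold slope
    refine (ciInf_le ⟨0, ?_⟩ k).trans (le_of_eq ?_)
    · rintro _ ⟨j, rfl⟩
      exact div_nonneg (mul_nonneg (Nat.cast_nonneg _) (logHeight_nonneg _)) (by positivity)
    · rw [h7, h4]
  have h9 : (0 : ℝ) < ((k + 1 : ℕ) : ℝ) * r' := by positivity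
  calc ((k + 1 : ℕ) : ℝ) * r' * slope A H t P ≤
      ((k + 1 : ℕ) : ℝ) * r' * (t * hE A G' P / ((k + 1 : ℕ) * r')) :=
        mul_le_mul_of_nonneg_left h8 h9.le
    _ = t * hE A G' P := by field_simp

end

end Pool.Agent.Lib.MP_17a322_nt.EF
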