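import Pool.Agent.Lib.MP_17a322_nt.EF.Defs

/-!
Forms modulo a homogeneous ideal: components and the finiteness over a system of parameters.
-/

universe u

namespace Pool.Agent.Lib.MP_17a322_nt.EF

open MvPolynomial

section

variable {L : Type*} [Field L] {n : ℕ}

theorem hc_mulC {A Q : MvPolynomial (Fin n) L} {d : ℕ} (hQ : Q.IsHomogeneous d) (m : ℕ) :
    homogeneousComponent (m + d) (A * Q) = homogeneousComponent m A * Q := by
  classical
  have h1 : A * Q = ∑ i ∈ Finset.range (A.totalDegree + 1), homogeneousComponent i A * Q := by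
    rw [← Finset.sum_mul, sum_homogeneousComponent]
  rw [h1, map_sum]
  have h2 : ∀ i ∈ Finset.range (A.totalDegree + 1),
      homogeneousComponent (m + d) (homogeneousComponent i A * Q) =
        if i = m then homogeneousComponent m A * Q else 0 := by
    intro i _
    have h3 : (homogeneousComponent i A * Q) ∈ homogeneousSubmodule (Fin n) L (i + d) :=
      (homogeneousComponent_isHomogeneous i A).mul hQ
    rw [homogeneousComponent_of_mem h3]
    by_cases h : i = m
    · subst h; simp
    · rw [if_neg (by omega), if_neg h]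
  rw [Finset.sum_congr rfl h2, Finset.sum_ite_eq']
  split_ifs with h
  · rfl
  · rw [homogeneousComponent_eq_zero m A (by simp at h; omega), zero_mul]

theorem hc_mulC0 {A Q : MvPolynomial (Fin n) L} {d : ℕ} (hQ : Q.IsHomogeneous d) {m : ℕ}
    (hm : m < d) : homogeneousComponent m (A * Q) = 0 := by
  classical
  have h1 : A * Q = ∑ i ∈ Finset.range (A.totalDegree + 1), homogeneousComponent i A * Q := by
    rw [← Finset.sum_mul, sum_homogeneousComponent]
  rw [h1, map_sum]
  refine Finset.sum_eq_zero fun i _ => ?_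
  have h3 : (homogeneousComponent i A * Q) ∈ homogeneousSubmodule (Fin n) L (i + d) :=
    (homogeneousComponent_isHomogeneous i A).mul hQ
  rw [homogeneousComponent_of_mem h3, if_neg (by omega)]

theorem mk_smulC (I : Ideal (MvPolynomial (Fin n) L)) (a : L) (f : MvPolynomial (Fin n) L) :
    Ideal.Quotient.mk I (a • f) = a • Ideal.Quotient.mk I f :=
  map_smul (Ideal.Quotient.mkₐ L I) a f

theorem mem_famC {M : Finset (Fin n → ℕ)} {t d k : ℕ} {p : (Fin n → ℕ) × (Fin t → ℕ)} (hd : 0 < d) :
    p ∈ fam M t d k ↔ p.1 ∈ M ∧ ∑ l, p.1 l + d * ∑ j, p.2 j = k := by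
  simp only [fam, Finset.mem_filter, Finset.mem_product, Fintype.mem_piFinset, Finset.mem_range]
  refine ⟨fun h => ⟨h.1.1, h.2⟩, fun h => ⟨⟨h.1, fun j => ?_⟩, h.2⟩⟩
  have h1 : p.2 j ≤ ∑ j, p.2 j := Finset.single_le_sum (fun _ _ => Nat.zero_le _)
    (Finset.mem_univ j)
  have h2 : ∑ j, p.2 j ≤ d * ∑ j, p.2 j := Nat.le_mul_of_pos_left _ hd
  omega

theorem fm_mulC {t : ℕ} (Q : Fin t → MvPolynomial (Fin n) L) (p : (Fin n → ℕ) × (Fin t → ℕ))
    (j : Fin t) : fm Q p * Q j = fm Q (p.1, p.2 + Pi.single j 1) := by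
  simp only [fm, Pi.add_apply, pow_add, Finset.prod_mul_distrib, mul_assoc]
  congr 2
  rw [Finset.prod_eq_single j]
  · simp
  · intro b _ hb; simp [hb]
  · simp

theorem fm_homC {t : ℕ} {Q : Fin t → MvPolynomial (Fin n) L} {d : ℕ}
    (hQ : ∀ j, (Q j).IsHomogeneous d) (p : (Fin n → ℕ) × (Fin t → ℕ)) :
    (fm Q p).IsHomogeneous (∑ l, p.1 l + d * ∑ j, p.2 j) := by
  rw [Finset.mul_sum]
  refine IsHomogeneous.mul ?_ ?_
  · exact IsHomogeneous.prod _ _ _ fun l _ => isHomogeneous_X_pow l _
  · exact IsHomogeneous.prod _ _ _ fun j _ => (hQ j).pow _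

/-- From membership in the span in the quotient to coefficients. -/
theorem mem_spanC {I : Ideal (MvPolynomial (Fin n) L)} {t : ℕ}
    {Q : Fin t → MvPolynomial (Fin n) L} {F : Finset ((Fin n → ℕ) × (Fin t → ℕ))}
    {f : MvPolynomial (Fin n) L} :
    (∃ a : (Fin n → ℕ) × (Fin t → ℕ) → L, f - ∑ p ∈ F, C (a p) * fm Q p ∈ I) ↔
      Ideal.Quotient.mk I f ∈ Submodule.span L ((fun p => Ideal.Quotient.mk I (fm Q p)) '' F) := by
  classical
  rw [Submodule.mem_span_image_finset_iff_exists_fun']
  refine exists_congr fun a => ?_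
  rw [← Ideal.Quotient.eq_zero_iff_mem, map_sub, sub_eq_zero, eq_comm, map_sum]
  have : ∀ p ∈ F, Ideal.Quotient.mk I (C (a p) * fm Q p) = a p • Ideal.Quotient.mk I (fm Q p) := by
    intro p _
    rw [← mk_smulC, smul_eq_C_mul]
  rw [Finset.sum_congr rfl this]

/-- C1, from powers of the coordinates in the ideal. -/
theorem C_span_aux {t d : ℕ} (hd : 0 < d) (I : Ideal (MvPolynomial (Fin n) L))
    (hI : ∀ f ∈ I, ∀ k, homogeneousComponent k f ∈ I)
    (Q : Fin t → MvPolynomial (Fin n) L) (hQ : ∀ j, (Q j).IsHomogeneous d)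
    (hfin : ∀ l, ∃ M, X l ^ M ∈ I ⊔ Ideal.span (Set.range Q)) :
    ∃ M : Finset (Fin n → ℕ), ∀ (k : ℕ) (f : MvPolynomial (Fin n) L), f.IsHomogeneous k →
      ∃ a : (Fin n → ℕ) × (Fin t → ℕ) → L, f - ∑ p ∈ fam M t d k, C (a p) * fm Q p ∈ I := by
  classical
  choose m hm using hfin
  set c : ℕ := ∑ l, m l + d with hc
  refine ⟨Fintype.piFinset fun _ => Finset.range c, ?_⟩
  set M : Finset (Fin n → ℕ) := Fintype.piFinset fun _ => Finset.range c with hM
  have hWQ : ∀ k j, ∀ w ∈ Submodule.span L ((fun p => Ideal.Quotient.mk I (fm Q p)) ''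
      (fam M t d k : Set ((Fin n → ℕ) × (Fin t → ℕ)))), w * Ideal.Quotient.mk I (Q j) ∈
        Submodule.span L ((fun p => Ideal.Quotient.mk I (fm Q p)) ''
          (fam M t d (k + d) : Set ((Fin n → ℕ) × (Fin t → ℕ)))) := by
    intro k j w hw
    induction hw using Submodule.span_induction with
    | mem x hx =>
      obtain ⟨p, hp, rfl⟩ := hx
      refine Submodule.subset_span ⟨(p.1, p.2 + Pi.single j 1), ?_, ?_⟩
      · rw [Finset.mem_coe, mem_famC hd] at hp ⊢
        refine ⟨hp.1, ?_⟩
        simp only [Pi.add_apply, Finset.sum_add_distrib, Finset.sum_pi_single', Finset.mem_univ,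
          if_true, mul_add, mul_one]
        omega
      · show Ideal.Quotient.mk I _ = Ideal.Quotient.mk I _ * Ideal.Quotient.mk I _
        rw [← map_mul, fm_mulC]
    | zero => rw [zero_mul]; exact Submodule.zero_mem _
    | add x y _ _ hx hy => rw [add_mul]; exact Submodule.add_mem _ hx hy
    | smul a x _ hx => rw [smul_mul_assoc]; exact Submodule.smul_mem _ a hx
  have key : ∀ k, ∀ f : MvPolynomial (Fin n) L, f.IsHomogeneous k → Ideal.Quotient.mk I f ∈
      Submodule.span L ((fun p => Ideal.Quotient.mk I (fm Q p)) ''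
        (fam M t d k : Set ((Fin n → ℕ) × (Fin t → ℕ)))) := by
    intro k
    induction k using Nat.strong_induction_on with
    | _ k ih =>
      have hmon : ∀ μ : Fin n →₀ ℕ, μ.degree = k → Ideal.Quotient.mk I (monomial μ 1) ∈
          Submodule.span L ((fun p => Ideal.Quotient.mk I (fm Q p)) ''
            (fam M t d k : Set ((Fin n → ℕ) × (Fin t → ℕ)))) := by
        intro μ hμ
        by_cases h : ∀ l, μ l < c
        · refine Submodule.subset_span ⟨(μ, 0), ?_, ?_⟩
          · rw [Finset.mem_coe, mem_famC hd]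
            refine ⟨by simpa [hM] using h, ?_⟩
            simpa [Finsupp.degree_eq_sum] using hμ
          · simp only [fm, Pi.zero_apply, pow_zero, Finset.prod_const_one, mul_one]
            congr 1
            rw [monomial_eq, C_1, one_mul, Finsupp.prod_fintype _ _ (by simp)]
        · obtain ⟨l, hl⟩ : ∃ l, c ≤ μ l := by
            by_contra hcon
            exact h fun l => by by_contra h'; exact hcon ⟨l, by omega⟩
          obtain ⟨i, hi, q, hq, hiq⟩ := Submodule.mem_sup.mp (hm l)
          rw [Ideal.mem_span_range_iff_exists_fun] at hq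
          obtain ⟨A, rfl⟩ := hq
          have hml : m l ≤ ∑ l, m l := Finset.single_le_sum (f := m) (fun _ _ => Nat.zero_le _)
            (Finset.mem_univ l)
          have hμk : μ l ≤ k := by
            rw [← hμ, Finsupp.degree_eq_sum]
            exact Finset.single_le_sum (f := μ) (fun _ _ => Nat.zero_le _) (Finset.mem_univ l)
          obtain ⟨k', rfl⟩ : ∃ k', k = k' + d := ⟨k - d, by omega⟩
          have h2 : (monomial μ (1 : L)) = monomial (μ - Finsupp.single l (m l)) 1 * X l ^ m l := by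
            rw [X_pow_eq_monomial, monomial_mul, mul_one,
              tsub_add_cancel_of_le (Finsupp.single_le_iff.mpr (by omega))]
          have h3 : monomial μ (1 : L) = homogeneousComponent (k' + d) (monomial μ (1 : L)) :=
            (homogeneousComponent_eq_self (isHomogeneous_monomial _ hμ)).symm
          rw [h3, h2, ← hiq, mul_add, Finset.mul_sum, map_add, map_sum, map_add,
            Ideal.Quotient.eq_zero_iff_mem.mpr (hI _ (I.mul_mem_left _ hi) _), zero_add, map_sum]
          refine Submodule.sum_mem _ fun j _ => ?_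
          rw [← mul_assoc, hc_mulC (hQ j), map_mul]
          exact hWQ _ j _ (ih k' (by omega) _ (homogeneousComponent_isHomogeneous _ _))
      intro f hf
      rw [f.as_sum, map_sum]
      refine Submodule.sum_mem _ fun μ hμ => ?_
      have h4 : monomial μ (coeff μ f) = coeff μ f • monomial μ 1 := by
        rw [smul_monomial, smul_eq_mul, mul_one]
      rw [h4, mk_smulC]
      refine Submodule.smul_mem _ _ (hmon μ ?_)
      exact hf.degree_eq_sum_deg_support hμ ▸ rfl
  intro k f hf
  exact mem_spanC.mpr (key k f hf)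

end

/-- C1 (Nullstellensatz). -/
theorem C_span {L : Type u} [Field L] {n t : ℕ} [IsAlgClosed L] {d : ℕ} (hd : 0 < d)
    (I : Ideal (MvPolynomial (Fin n) L))
    (hI : ∀ f ∈ I, ∀ k, homogeneousComponent k f ∈ I)
    (Q : Fin t → MvPolynomial (Fin n) L) (hQ : ∀ j, (Q j).IsHomogeneous d)
    (h0 : ∀ X : Fin n → L, (∀ f ∈ I, eval X f = 0) → (∀ j, eval X (Q j) = 0) → X = 0) :
    ∃ M : Finset (Fin n → ℕ), ∀ (k : ℕ) (f : MvPolynomial (Fin n) L), f.IsHomogeneous k →
      ∃ a : (Fin n → ℕ) × (Fin t → ℕ) → L, f - ∑ p ∈ fam M t d k, C (a p) * fm Q p ∈ I := by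
  refine C_span_aux hd I hI Q hQ fun l => ?_
  have h1 : (X l : MvPolynomial (Fin n) L) ∈
      vanishingIdeal L (zeroLocus L (I ⊔ Ideal.span (Set.range Q))) := by
    intro x hx
    have h2 : x = 0 := by
      refine h0 x (fun f hf => ?_) fun j => ?_
      · exact hx f (Ideal.mem_sup_left hf)
      · exact hx (Q j) (Ideal.mem_sup_right (Ideal.subset_span ⟨j, rfl⟩))
    simp [h2]
  rw [vanishingIdeal_zeroLocus_eq_radical] at h1
  exact h1

end Pool.Agent.Lib.MP_17a322_nt.EF
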