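import Pool.Agent.Lib.MP_17a322_nt.EF.C1

/-!
A system of parameters is algebraically independent.
-/

universe u

namespace Pool.Agent.Lib.MP_17a322_nt.EF

open MvPolynomial

/-- C2. -/
theorem C_indep {L : Type u} [Field L] {n t : ℕ} (I : Ideal (MvPolynomial (Fin n) L)) [I.IsPrime]
    (htr : Algebra.trdeg L (MvPolynomial (Fin n) L ⧸ I) = t) {d : ℕ} (hd : 0 < d)
    (Q : Fin t → MvPolynomial (Fin n) L) (M : Finset (Fin n → ℕ))
    (hM : ∀ (k : ℕ) (f : MvPolynomial (Fin n) L), f.IsHomogeneous k →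
      ∃ a : (Fin n → ℕ) × (Fin t → ℕ) → L, f - ∑ p ∈ fam M t d k, C (a p) * fm Q p ∈ I) :
    AlgebraicIndependent L fun j => Ideal.Quotient.mk I (Q j) := by
  classical
  set A := MvPolynomial (Fin n) L ⧸ I with hA
  set q : Fin t → A := fun j => Ideal.Quotient.mk I (Q j) with hq
  set B := Algebra.adjoin L (Set.range q) with hB
  have hspan : (⊤ : Submodule B A) ≤ Submodule.span B
      (((M.image fun ν => Ideal.Quotient.mk I (∏ l, X l ^ ν l)) : Finset A) : Set A) := by
    intro x _
    obtain ⟨f, rfl⟩ := Ideal.Quotient.mk_surjective x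
    rw [← sum_homogeneousComponent f, map_sum]
    refine Submodule.sum_mem _ fun i _ => ?_
    obtain ⟨a, ha⟩ := hM i _ (homogeneousComponent_isHomogeneous i f)
    rw [← Ideal.Quotient.eq_zero_iff_mem, map_sub, sub_eq_zero, map_sum] at ha
    rw [ha]
    refine Submodule.sum_mem _ fun p hp => ?_
    have h1 : Ideal.Quotient.mk I (C (a p) * fm Q p) =
        (⟨algebraMap L A (a p) * ∏ j, q j ^ p.2 j, mul_mem (B.algebraMap_mem _)
          (prod_mem fun j _ => pow_mem (Algebra.subset_adjoin (Set.mem_range_self j)) _)⟩ : B) •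
          Ideal.Quotient.mk I (∏ l, X l ^ p.1 l) := by
      show _ = (algebraMap L A (a p) * ∏ j, q j ^ p.2 j) * _
      rw [fm, map_mul, map_mul, map_prod _ (fun j => Q j ^ p.2 j)]
      simp only [map_pow, hq]
      have h2 : Ideal.Quotient.mk I (C (a p)) = algebraMap L A (a p) := rfl
      rw [h2]
      ring
    rw [h1]
    refine Submodule.smul_mem _ _ (Submodule.subset_span ?_)
    rw [Finset.coe_image]
    exact ⟨p.1, ((mem_famC hd).mp hp).1, rfl⟩
  have hfinm : Module.Finite B A := ⟨⟨_, top_le_iff.mp hspan⟩⟩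
  have : Algebra.IsIntegral B A := inferInstance
  have : Algebra.IsAlgebraic B A := inferInstance
  have := Algebra.IsAlgebraic.isTranscendenceBasis_of_lift_le_trdeg_of_finite L q
    (by rw [htr]; simp)
  exact this.1

end Pool.Agent.Lib.MP_17a322_nt.EF
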