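import Pool.Agent.Lib.MP_17a322_nt.EF.C1

/-!
A maximal independent family of monomials over a system of parameters.
-/

universe u

namespace Pool.Agent.Lib.MP_17a322_nt.EF

open MvPolynomial

section

variable {L : Type*} [Field L] {n t : ℕ}

/-- Homogeneous components of combinations of the forms `fm Q p` modulo `I`. -/
theorem c3_comp {d : ℕ} (hd : 0 < d) (I : Ideal (MvPolynomial (Fin n) L))
    (hI : ∀ f ∈ I, ∀ k, homogeneousComponent k f ∈ I)
    (Q : Fin t → MvPolynomial (Fin n) L) (hQ : ∀ j, (Q j).IsHomogeneous d)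
    (M : Finset (Fin n → ℕ)) {g : MvPolynomial (Fin n) L}
    (hg : Ideal.Quotient.mk I g ∈
      Submodule.span L ((fun p => Ideal.Quotient.mk I (fm Q p)) '' {p | p.1 ∈ M})) (m : ℕ) :
    Ideal.Quotient.mk I (homogeneousComponent m g) ∈
      Submodule.span L ((fun p => Ideal.Quotient.mk I (fm Q p)) ''
        (fam M t d m : Set ((Fin n → ℕ) × (Fin t → ℕ)))) := by
  classical
  have h1 : Submodule.span L ((fun p => Ideal.Quotient.mk I (fm Q p)) '' {p | p.1 ∈ M}) =
      (Submodule.span L (fm Q '' {p | p.1 ∈ M})).map (Ideal.Quotient.mkₐ L I).toLinearMap := by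
    rw [Submodule.map_span, ← Set.image_comp]
    rfl
  rw [h1] at hg
  obtain ⟨w, hw, hwg⟩ := hg
  have h2 : g - w ∈ I := by
    rw [← Ideal.Quotient.eq_zero_iff_mem, map_sub, sub_eq_zero]
    exact hwg.symm
  have h3 : Ideal.Quotient.mk I (homogeneousComponent m g) =
      Ideal.Quotient.mk I (homogeneousComponent m w) := by
    rw [← sub_eq_zero, ← map_sub, ← map_sub, Ideal.Quotient.eq_zero_iff_mem]
    exact hI _ h2 m
  rw [h3]
  clear h3 h2 hwg h1
  induction hw using Submodule.span_induction with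
  | mem x hx =>
    obtain ⟨p, hp, rfl⟩ := hx
    have h4 : fm Q p ∈ homogeneousSubmodule (Fin n) L (∑ l, p.1 l + d * ∑ j, p.2 j) :=
      fm_homC hQ p
    rw [homogeneousComponent_of_mem h4]
    split_ifs with h5
    · exact Submodule.subset_span ⟨p, (mem_famC hd).mpr ⟨hp, h5.symm⟩, rfl⟩
    · rw [map_zero]; exact Submodule.zero_mem _
  | zero => rw [map_zero, map_zero]; exact Submodule.zero_mem _
  | add x y _ _ hx hy => rw [map_add, map_add]; exact Submodule.add_mem _ hx hy
  | smul a x _ hx => rw [map_smul, mk_smulC]; exact Submodule.smul_mem _ a hx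

/-- The monomials in algebraically independent elements are linearly independent. -/
theorem c3_mon {A : Type*} [CommRing A] [Algebra L A] {q : Fin t → A}
    (hq : AlgebraicIndependent L q) :
    LinearIndependent L fun e : Fin t → ℕ => ∏ j, q j ^ e j := by
  have h1 := (basisMonomials (Fin t) L).linearIndependent.map' (aeval q).toLinearMap
    (LinearMap.ker_eq_bot.mpr hq)
  have h2 := h1.comp (Finsupp.equivFunOnFinite : (Fin t →₀ ℕ) ≃ (Fin t → ℕ)).symm
    (Finsupp.equivFunOnFinite : (Fin t →₀ ℕ) ≃ (Fin t → ℕ)).symm.injective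
  refine (linearIndependent_equiv' (Equiv.refl _) ?_).mp h2
  funext e
  simp only [Equiv.coe_refl, Function.comp_apply, id_eq, coe_basisMonomials,
    AlgHom.toLinearMap_apply, aeval_monomial, map_one, one_mul]
  rw [Finsupp.prod_fintype _ _ (by simp)]
  rfl

end

/-- C3. -/
theorem C_fam {L : Type u} [Field L] {n t : ℕ} (I : Ideal (MvPolynomial (Fin n) L)) [I.IsPrime]
    (hI : ∀ f ∈ I, ∀ k, homogeneousComponent k f ∈ I) {d : ℕ} (hd : 0 < d)
    (Q : Fin t → MvPolynomial (Fin n) L) (hQ : ∀ j, (Q j).IsHomogeneous d)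
    (hind : AlgebraicIndependent L fun j => Ideal.Quotient.mk I (Q j))
    (M' : Finset (Fin n → ℕ))
    (hM : ∀ (k : ℕ) (f : MvPolynomial (Fin n) L), f.IsHomogeneous k →
      ∃ a : (Fin n → ℕ) × (Fin t → ℕ) → L, f - ∑ p ∈ fam M' t d k, C (a p) * fm Q p ∈ I) :
    ∃ (M : Finset (Fin n → ℕ)) (c : ℕ),
      (∀ (k : ℕ) (a : (Fin n → ℕ) × (Fin t → ℕ) → L),
        ∑ p ∈ fam M t d k, C (a p) * fm Q p ∈ I → ∀ p ∈ fam M t d k, a p = 0) ∧
      ∀ k, rk I k ≤ (fam M t d (k + c)).card := by
  classical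
  set A := MvPolynomial (Fin n) L ⧸ I with hA
  set q : Fin t → A := fun j => Ideal.Quotient.mk I (Q j) with hq
  set B := Algebra.adjoin L (Set.range q) with hB
  set v : (Fin n → ℕ) → A := fun ν => Ideal.Quotient.mk I (∏ l, X l ^ ν l) with hv
  obtain ⟨s, hs, hsm⟩ := exists_maximal_linearIndepOn B (fun ν : M' => v ν)
  set M : Finset (Fin n → ℕ) := M'.filter fun ν => ∃ h : ν ∈ M', (⟨ν, h⟩ : M') ∈ s with hMd
  have hfm : ∀ p : (Fin n → ℕ) × (Fin t → ℕ), Ideal.Quotient.mk I (fm Q p) =
      (∏ j, q j ^ p.2 j) * v p.1 := by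
    intro p
    rw [fm, map_mul, map_prod _ (fun j => Q j ^ p.2 j), mul_comm]
    simp only [map_pow, hq, hv]
  -- the monomials in `q` as elements of `B`
  set qB : (Fin t → ℕ) → B := fun e => ⟨∏ j, q j ^ e j, prod_mem fun j _ =>
    pow_mem (Algebra.subset_adjoin (Set.mem_range_self j)) _⟩ with hqB
  have hqBi : LinearIndependent L qB := by
    refine LinearIndependent.of_comp B.val.toLinearMap ?_
    exact c3_mon hind
  have hli : LinearIndependent L fun p : (Fin t → ℕ) × s => qB p.1 • v (p.2 : M') :=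
    linearIndependent_smul hqBi hs
  have hinj : ∀ (F : Finset ((Fin n → ℕ) × (Fin t → ℕ))) (_ : ∀ p ∈ F, p.1 ∈ M)
      (a : (Fin n → ℕ) × (Fin t → ℕ) → L),
      ∑ p ∈ F, a p • Ideal.Quotient.mk I (fm Q p) = 0 → ∀ p ∈ F, a p = 0 := by
    intro F hF a h0
    have h1 : LinearIndepOn L (fun p : (Fin n → ℕ) × (Fin t → ℕ) => Ideal.Quotient.mk I (fm Q p))
        {p | p.1 ∈ M} := by
      have h2 : ∀ p : ({p | p.1 ∈ M} : Set ((Fin n → ℕ) × (Fin t → ℕ))),
          ∃ h : p.1.1 ∈ M', (⟨p.1.1, h⟩ : M') ∈ s := fun p => (Finset.mem_filter.mp p.2).2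
      choose h3 h4 using h2
      have h5 := hli.comp (fun p : ({p | p.1 ∈ M} : Set ((Fin n → ℕ) × (Fin t → ℕ))) =>
        (p.1.2, (⟨⟨p.1.1, h3 p⟩, h4 p⟩ : s))) (by
          intro p p' hpp
          simp only [Prod.mk.injEq, Subtype.mk.injEq] at hpp
          exact Subtype.ext (Prod.ext hpp.2 hpp.1))
      have h6 : ((fun p : (Fin t → ℕ) × s => qB p.1 • v (p.2 : M')) ∘
          (fun p : ({p | p.1 ∈ M} : Set ((Fin n → ℕ) × (Fin t → ℕ))) =>
            (p.1.2, (⟨⟨p.1.1, h3 p⟩, h4 p⟩ : s)))) =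
          fun p : ({p | p.1 ∈ M} : Set ((Fin n → ℕ) × (Fin t → ℕ))) =>
            Ideal.Quotient.mk I (fm Q p.1) := by
        funext p
        rw [hfm]
        rfl
      rw [h6] at h5
      exact h5
    exact linearIndepOn_iff'.mp h1 F a (fun p hp => hF p hp) h0
  -- denominators
  have hden : ∀ ν : M', ∃ b : B, b ≠ 0 ∧ b • v ν ∈ Submodule.span B ((fun ν : M' => v ν) '' s) := by
    intro ν
    by_cases h : ν ∈ s
    · exact ⟨1, one_ne_zero, by rw [one_smul]; exact Submodule.subset_span ⟨ν, h, rfl⟩⟩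
    · exact hsm ν h
  choose b hb0 hb using hden
  set β : B := ∏ ν, b ν with hβ
  have hβ0 : β ≠ 0 := Finset.prod_ne_zero_iff.mpr fun ν _ => hb0 ν
  have hβv : ∀ ν : M', β • v ν ∈ Submodule.span B ((fun ν : M' => v ν) '' s) := by
    intro ν
    rw [hβ, ← Finset.mul_prod_erase _ _ (Finset.mem_univ ν), mul_comm, mul_smul]
    exact Submodule.smul_mem _ _ (hb ν)
  -- the span over `B` is contained in the span over `L`
  have hBL : ∀ x ∈ Submodule.span B ((fun ν : M' => v ν) '' s),
      x ∈ Submodule.span L ((fun p => Ideal.Quotient.mk I (fm Q p)) '' {p | p.1 ∈ M}) := by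
    set W := Submodule.span L ((fun p => Ideal.Quotient.mk I (fm Q p)) '' {p | p.1 ∈ M}) with hW
    have hWq : ∀ j, ∀ w ∈ W, w * q j ∈ W := by
      intro j w hw
      induction hw using Submodule.span_induction with
      | mem x hx =>
        obtain ⟨p, hp, rfl⟩ := hx
        refine Submodule.subset_span ⟨(p.1, p.2 + Pi.single j 1), hp, ?_⟩
        show Ideal.Quotient.mk I _ = Ideal.Quotient.mk I _ * Ideal.Quotient.mk I _
        rw [← map_mul, fm_mulC]
      | zero => rw [zero_mul]; exact Submodule.zero_mem _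
      | add x y _ _ hx hy => rw [add_mul]; exact Submodule.add_mem _ hx hy
      | smul a x _ hx => rw [smul_mul_assoc]; exact Submodule.smul_mem _ a hx
    have hWB : ∀ y ∈ B, ∀ w ∈ W, w * y ∈ W := by
      intro y hy
      induction hy using Algebra.adjoin_induction with
      | mem x hx => obtain ⟨j, rfl⟩ := hx; exact hWq j
      | algebraMap r =>
        intro w hw
        rw [mul_comm, ← Algebra.smul_def]
        exact W.smul_mem _ hw
      | add x y _ _ hx hy => intro w hw; rw [mul_add]; exact W.add_mem (hx w hw) (hy w hw)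
      | mul x y _ _ hx hy => intro w hw; rw [← mul_assoc]; exact hy _ (hx w hw)
    intro x hx
    induction hx using Submodule.span_induction with
    | mem x hx =>
      obtain ⟨ν, hν, rfl⟩ := hx
      refine Submodule.subset_span ⟨(ν.1, 0), ?_, ?_⟩
      · exact Finset.mem_filter.mpr ⟨ν.2, ν.2, hν⟩
      · show Ideal.Quotient.mk I (fm Q _) = _
        rw [hfm]
        simp
    | zero => exact Submodule.zero_mem _
    | add x y _ _ hx hy => exact Submodule.add_mem _ hx hy
    | smul a x _ hx =>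
      have : a • x = x * (a : A) := by rw [mul_comm]; rfl
      rw [this]
      exact hWB _ a.2 _ hx
  have hall : ∀ x : A, (β : A) * x ∈
      Submodule.span L ((fun p => Ideal.Quotient.mk I (fm Q p)) '' {p | p.1 ∈ M}) := by
    intro x
    refine hBL _ ?_
    obtain ⟨f, rfl⟩ := Ideal.Quotient.mk_surjective x
    rw [← sum_homogeneousComponent f, map_sum, Finset.mul_sum]
    refine Submodule.sum_mem _ fun i _ => ?_
    obtain ⟨a, ha⟩ := hM i _ (homogeneousComponent_isHomogeneous i f)
    rw [← Ideal.Quotient.eq_zero_iff_mem, map_sub, sub_eq_zero, map_sum] at ha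
    rw [ha, Finset.mul_sum]
    refine Submodule.sum_mem _ fun p hp => ?_
    rw [map_mul, hfm]
    have h1 : (β : A) * (Ideal.Quotient.mk I (C (a p)) * ((∏ j, q j ^ p.2 j) * v p.1)) =
        ((algebraMap L B (a p)) * qB p.2) • (β • v p.1) := by
      show (β : A) * (algebraMap L A (a p) * ((∏ j, q j ^ p.2 j) * v p.1)) =
        (algebraMap L A (a p) * ∏ j, q j ^ p.2 j) * ((β : A) * v p.1)
      ring
    rw [h1]
    exact Submodule.smul_mem _ _ (hβv ⟨p.1, ((mem_famC hd).mp hp).1⟩)
  -- a homogeneous multiplier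
  obtain ⟨g, hg⟩ := Ideal.Quotient.mk_surjective (β : A)
  obtain ⟨c, hc⟩ : ∃ c, homogeneousComponent c g ∉ I := by
    by_contra hcon
    push Not at hcon
    apply hβ0
    apply Subtype.ext
    rw [← hg, ← sum_homogeneousComponent g, map_sum]
    exact Finset.sum_eq_zero fun i _ => Ideal.Quotient.eq_zero_iff_mem.mpr (hcon i)
  refine ⟨M, c, fun k a ha p hp => ?_, fun k => ?_⟩
  · refine hinj (fam M t d k) (fun p hp => ((mem_famC hd).mp hp).1) a ?_ p hp
    rw [← Ideal.Quotient.eq_zero_iff_mem, map_sum] at ha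
    rw [← ha]
    refine Finset.sum_congr rfl fun p _ => ?_
    rw [← mk_smulC, smul_eq_C_mul]
  · set T := Submodule.span L ((fun p => Ideal.Quotient.mk I (fm Q p)) ''
      (fam M t d (k + c) : Set ((Fin n → ℕ) × (Fin t → ℕ)))) with hT
    have hTf : Module.finrank L T ≤ (fam M t d (k + c)).card := by
      have h1 := finrank_span_finset_le_card (R := L)
        ((fam M t d (k + c)).image fun p => Ideal.Quotient.mk I (fm Q p))
      rw [Finset.coe_image] at h1
      exact h1.trans Finset.card_image_le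
    have hTfin : FiniteDimensional L T :=
      FiniteDimensional.span_of_finite L ((Finset.finite_toSet _).image _)
    refine le_trans ?_ hTf
    rw [rk]
    set U := (homogeneousSubmodule (Fin n) L k).map (Ideal.Quotient.mkₐ L I).toLinearMap with hU
    have hmul : ∀ x : U, Ideal.Quotient.mk I (homogeneousComponent c g) * (x : A) ∈ T := by
      rintro ⟨x, f, hf, rfl⟩
      show Ideal.Quotient.mk I (homogeneousComponent c g) * Ideal.Quotient.mk I f ∈ T
      have h2 : homogeneousComponent (k + c) (g * f) = homogeneousComponent c g * f := by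
        rw [add_comm, hc_mulC hf]
      rw [← map_mul, ← h2]
      refine c3_comp hd I hI Q hQ M ?_ _
      rw [map_mul, hg]
      exact hall _
    let φ : U →ₗ[L] T := LinearMap.codRestrict T
      ((LinearMap.mulLeft L (Ideal.Quotient.mk I (homogeneousComponent c g))).comp U.subtype) hmul
    refine LinearMap.finrank_le_finrank_of_injective (f := φ) ?_
    intro x y hxy
    have h3 : Ideal.Quotient.mk I (homogeneousComponent c g) * (x : A) =
        Ideal.Quotient.mk I (homogeneousComponent c g) * (y : A) := Subtype.ext_iff.mp hxy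
    refine Subtype.ext (mul_left_cancel₀ ?_ h3)
    rwa [Ne, Ideal.Quotient.eq_zero_iff_mem]

end Pool.Agent.Lib.MP_17a322_nt.EF
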