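import Pool.Agent.Lib.MP_17a322_nt.EF.Defs

/-!
Moving hypersurfaces over abelian varieties: growth of the graded pieces of one fibre.
-/

universe u

namespace Pool.Agent.Lib.MP_17a322_nt.EF

open MvPolynomial Height
open Pool.Agent.Lib.MP_17a322_nt.VA
open Pool.Agent.Lib.MP_17a322_nt.SL

section

variable {L : Type u} [Field L] {n : ℕ}

theorem C4_fin (I : Ideal (MvPolynomial (Fin n) L)) (k : ℕ) :
    Module.Finite L ((homogeneousSubmodule (Fin n) L k).map
      (Ideal.Quotient.mkₐ L I).toLinearMap) :=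
  Module.Finite.iff_fg.2 ((homogeneousSubmodule_fg (Fin n) L k).map _)

theorem C4_le (I : Ideal (MvPolynomial (Fin n) L)) (k : ℕ) : rk I k ≤ (k + 1) ^ n := by
  have hf : Module.Finite L (homogeneousSubmodule (Fin n) L k) :=
    Module.Finite.iff_fg.2 (homogeneousSubmodule_fg (Fin n) L k)
  have h1 : rk I k ≤ Module.finrank L (homogeneousSubmodule (Fin n) L k) :=
    Submodule.finrank_map_le _ _
  refine h1.trans ?_
  let φ : homogeneousSubmodule (Fin n) L k →ₗ[L] ((Fin n → Fin (k + 1)) → L) :=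
    { toFun := fun f a => coeff (Finsupp.equivFunOnFinite.symm fun i => (a i : ℕ))
        (f : MvPolynomial (Fin n) L)
      map_add' := fun f g => by
        funext a
        exact coeff_add _ _ _
      map_smul' := fun c f => by
        funext a
        exact coeff_smul _ _ _ }
  have hφ : Function.Injective φ := by
    rw [injective_iff_map_eq_zero]
    intro f hf0
    apply Subtype.ext
    show (f : MvPolynomial (Fin n) L) = 0
    ext m
    rw [coeff_zero]
    by_contra hm
    have h2 : (f : MvPolynomial (Fin n) L).IsHomogeneous k := (mem_homogeneousSubmodule k _).1 f.2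
    have h3 : m.degree = k := by
      have h4 := h2 hm
      rw [Finsupp.degree_eq_weight_one]
      exact h4
    have h5 : ∀ i, m i < k + 1 := fun i => by
      have h6 : m i ≤ m.degree := Finsupp.le_degree i m
      omega
    have h7 := congrFun hf0 fun i => ⟨m i, h5 i⟩
    apply hm
    have h8 : (Finsupp.equivFunOnFinite.symm fun i => m i) = m := by
      ext i
      rfl
    have h9 : coeff (Finsupp.equivFunOnFinite.symm fun i => m i) (f : MvPolynomial (Fin n) L) = 0 :=
      h7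
    rw [h8] at h9
    exact h9
  have h2 := LinearMap.finrank_le_finrank_of_injective hφ
  rw [Module.finrank_fintype_fun_eq_card, Fintype.card_fun, Fintype.card_fin, Fintype.card_fin]
    at h2
  exact h2

theorem C4_step (I : Ideal (MvPolynomial (Fin n) L)) [I.IsPrime]
    (h1 : ∃ l, (X l : MvPolynomial (Fin n) L) ∉ I) (k : ℕ) : rk I k ≤ rk I (k + 1) := by
  obtain ⟨l, hl⟩ := h1
  have hf := C4_fin I (k + 1)
  have hx : (Ideal.Quotient.mk I (X l)) ≠ 0 := fun h => hl (Ideal.Quotient.eq_zero_iff_mem.1 h)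
  have hmaps : ∀ v ∈ (homogeneousSubmodule (Fin n) L k).map (Ideal.Quotient.mkₐ L I).toLinearMap,
      LinearMap.mulLeft L (Ideal.Quotient.mk I (X l)) v ∈
        (homogeneousSubmodule (Fin n) L (k + 1)).map (Ideal.Quotient.mkₐ L I).toLinearMap := by
    rintro v ⟨f, hfm, rfl⟩
    refine ⟨X l * f, ?_, ?_⟩
    · have h2 : f.IsHomogeneous k := (mem_homogeneousSubmodule k _).1 hfm
      have h3 := (isHomogeneous_X L l).mul h2
      rw [add_comm] at h3
      exact (mem_homogeneousSubmodule (k + 1) _).2 h3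
    · show Ideal.Quotient.mk I (X l * f) = Ideal.Quotient.mk I (X l) * Ideal.Quotient.mk I f
      rw [map_mul]
  refine LinearMap.finrank_le_finrank_of_injective
    (f := (LinearMap.mulLeft L (Ideal.Quotient.mk I (X l))).restrict hmaps) ?_
  rw [injective_iff_map_eq_zero]
  rintro ⟨v, hv⟩ h0
  have h2 : Ideal.Quotient.mk I (X l) * v = 0 := congrArg Subtype.val h0
  rcases mul_eq_zero.1 h2 with h3 | h3
  · exact absurd h3 hx
  · exact Subtype.ext h3

theorem rk_mono (I : Ideal (MvPolynomial (Fin n) L)) [I.IsPrime]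
    (h1 : ∃ l, (X l : MvPolynomial (Fin n) L) ∉ I) {k k' : ℕ} (hk : k ≤ k') :
    rk I k ≤ rk I k' := by
  induction k', hk using Nat.le_induction with
  | base => exact le_refl _
  | succ k' _ ih => exact ih.trans (C4_step I h1 k')

theorem C4_pos (I : Ideal (MvPolynomial (Fin n) L)) [I.IsPrime]
    (h1 : ∃ l, (X l : MvPolynomial (Fin n) L) ∉ I) {k : ℕ} (hk : 1 ≤ k) : 0 < rk I k := by
  refine lt_of_lt_of_le ?_ (rk_mono I h1 hk)
  obtain ⟨l, hl⟩ := h1
  have hf := C4_fin I 1
  have hx : (Ideal.Quotient.mk I (X l)) ≠ 0 := fun h => hl (Ideal.Quotient.eq_zero_iff_mem.1 h)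
  have hmem : Ideal.Quotient.mk I (X l) ∈
      (homogeneousSubmodule (Fin n) L 1).map (Ideal.Quotient.mkₐ L I).toLinearMap :=
    ⟨X l, (mem_homogeneousSubmodule 1 _).2 (isHomogeneous_X L l), rfl⟩
  have hnt : Nontrivial ((homogeneousSubmodule (Fin n) L 1).map
      (Ideal.Quotient.mkₐ L I).toLinearMap) :=
    ⟨⟨_, hmem⟩, 0, fun h => hx (congrArg Subtype.val h)⟩
  exact Module.finrank_pos

/-- C4. -/
theorem C_growth (I : Ideal (MvPolynomial (Fin n) L)) [I.IsPrime]
    (h1 : ∃ l, (X l : MvPolynomial (Fin n) L) ∉ I) (c k₀ : ℕ) {δ : ℝ} (hδ : 0 < δ) :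
    ∃ k, k₀ ≤ k ∧ c ≤ k ∧ 0 < rk I k ∧ (1 - δ) * rk I k ≤ rk I (k - c) := by
  by_contra hcon
  push Not at hcon
  obtain ⟨m, hm⟩ : ∃ m, m = k₀ + c + 1 := ⟨_, rfl⟩
  have hstep : ∀ k, m ≤ k → (rk I (k - c) : ℝ) < (1 - δ) * rk I k := fun k hk =>
    hcon k (by omega) (by omega) (C4_pos I h1 (by omega))
  have hδ1 : 0 < 1 - δ := by
    by_contra h
    push Not at h
    have h2 := hstep m (le_refl _)
    have h3 : (1 - δ) * (rk I m : ℝ) ≤ 0 := mul_nonpos_of_nonpos_of_nonneg h (Nat.cast_nonneg _)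
    have h4 : (0 : ℝ) ≤ rk I (m - c) := Nat.cast_nonneg _
    linarith
  obtain ⟨r, hr⟩ : ∃ r : ℝ, r = (1 - δ)⁻¹ := ⟨_, rfl⟩
  have hr1 : 1 < r := by
    rw [hr]
    exact (one_lt_inv₀ hδ1).2 (by linarith)
  have hr0 : 0 < r := zero_lt_one.trans hr1
  have hpow : ∀ j : ℕ, r ^ j ≤ rk I (m + c * j) := by
    intro j
    induction j with
    | zero =>
      rw [pow_zero, mul_zero, add_zero]
      have h2 := C4_pos I h1 (k := m) (by omega)
      exact_mod_cast h2
    | succ j ih =>
      have h2 := hstep (m + c * (j + 1)) (by omega)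
      have h3 : m + c * (j + 1) - c = m + c * j := by
        rw [mul_add, mul_one]
        omega
      rw [h3] at h2
      have h4 : r ^ j ≤ (1 - δ) * rk I (m + c * (j + 1)) := ih.trans h2.le
      rw [pow_succ]
      calc r ^ j * r ≤ ((1 - δ) * rk I (m + c * (j + 1))) * r :=
            mul_le_mul_of_nonneg_right h4 hr0.le
        _ = rk I (m + c * (j + 1)) := by
            rw [hr]
            field_simp
  have hle : ∀ j : ℕ, r ^ j ≤ ((m : ℝ) + c + 1) ^ n * ((j : ℝ) + 1) ^ n := by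
    intro j
    have h2 : ((rk I (m + c * j) : ℕ) : ℝ) ≤ ((m + c * j + 1) ^ n : ℕ) := by
      exact_mod_cast C4_le I (m + c * j)
    refine (hpow j).trans (h2.trans ?_)
    push_cast
    rw [← mul_pow]
    refine pow_le_pow_left₀ (by positivity) ?_ n
    have hm0 : (0 : ℝ) ≤ m := Nat.cast_nonneg _
    have hc0 : (0 : ℝ) ≤ c := Nat.cast_nonneg _
    have hj0 : (0 : ℝ) ≤ j := Nat.cast_nonneg _
    nlinarith [mul_nonneg hm0 hj0]
  obtain ⟨B, hB⟩ : ∃ B : ℝ, B = ((m : ℝ) + c + 1) ^ n := ⟨_, rfl⟩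
  have hB0 : 0 < B := by
    rw [hB]
    positivity
  rw [← hB] at hle
  have hlim := tendsto_pow_const_div_const_pow_of_one_lt n hr1
  have hev := hlim.eventually_lt_const (u := 1 / (B * r)) (by positivity)
  obtain ⟨J, hJ⟩ := (hev.and (Filter.eventually_ge_atTop 1)).exists
  obtain ⟨j, rfl⟩ : ∃ j, J = j + 1 := ⟨J - 1, by omega⟩
  have h2 := hJ.1
  rw [div_lt_div_iff₀ (pow_pos hr0 _) (mul_pos hB0 hr0)] at h2
  have h3 := hle j
  push_cast at h2
  have h4 : ((j : ℝ) + 1) ^ n * (B * r) < r ^ j * r := by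
    rw [← pow_succ]
    linarith
  have h5 : r ^ j * r ≤ B * ((j : ℝ) + 1) ^ n * r := mul_le_mul_of_nonneg_right h3 hr0.le
  nlinarith

end

end Pool.Agent.Lib.MP_17a322_nt.EF
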