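import Pool.Agent.Lib.MP_17a322_nt.EF.Defs

/-!
The sums of the exponents.
-/

universe u

namespace Pool.Agent.Lib.MP_17a322_nt.EF

open MvPolynomial Height
open Pool.Agent.Lib.MP_17a322_nt.VA
open Pool.Agent.Lib.MP_17a322_nt.SL

theorem mem_fam {n : ℕ} {M : Finset (Fin n → ℕ)} {t d k : ℕ} {p : (Fin n → ℕ) × (Fin t → ℕ)} :
    p ∈ fam M t d k ↔ (p.1 ∈ M ∧ ∀ j, p.2 j ≤ k) ∧ ∑ l, p.1 l + d * ∑ j, p.2 j = k := by
  unfold fam
  rw [Finset.mem_filter, Finset.mem_product, Fintype.mem_piFinset]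
  have h1 : (∀ j, p.2 j ∈ Finset.range (k + 1)) ↔ ∀ j, p.2 j ≤ k :=
    forall_congr' fun j => by rw [Finset.mem_range, Nat.lt_succ_iff]
  rw [h1]

/-- C5. -/
theorem C_weight_eq {n : ℕ} (M : Finset (Fin n → ℕ)) (t d k : ℕ) (j j' : Fin t) :
    ∑ p ∈ fam M t d k, p.2 j = ∑ p ∈ fam M t d k, p.2 j' := by
  have hmem : ∀ p : (Fin n → ℕ) × (Fin t → ℕ), p ∈ fam M t d k →
      (p.1, p.2 ∘ Equiv.swap j j') ∈ fam M t d k := by
    intro p hp
    rw [mem_fam] at hp ⊢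
    refine ⟨⟨hp.1.1, fun i => hp.1.2 _⟩, ?_⟩
    have h1 : ∑ i, (p.2 ∘ Equiv.swap j j') i = ∑ i, p.2 i :=
      Equiv.sum_comp (Equiv.swap j j') p.2
    show ∑ l, p.1 l + d * ∑ i, (p.2 ∘ Equiv.swap j j') i = k
    rw [h1]
    exact hp.2
  have hinv : ∀ p : (Fin n → ℕ) × (Fin t → ℕ),
      (p.1, (p.2 ∘ Equiv.swap j j') ∘ Equiv.swap j j') = p := by
    intro p
    ext1
    · rfl
    · funext i
      show p.2 (Equiv.swap j j' (Equiv.swap j j' i)) = p.2 i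
      rw [Equiv.swap_apply_self]
  refine Finset.sum_nbij' (fun p => (p.1, p.2 ∘ Equiv.swap j j'))
    (fun p => (p.1, p.2 ∘ Equiv.swap j j')) hmem hmem (fun p _ => hinv p) (fun p _ => hinv p)
    fun p _ => ?_
  show p.2 j = p.2 (Equiv.swap j j' j')
  rw [Equiv.swap_apply_right]

theorem C_weight {n : ℕ} (M : Finset (Fin n → ℕ)) (t d k c : ℕ) (hc : ∀ ν ∈ M, ∑ l, ν l ≤ c)
    (j : Fin t) :
    ((fam M t d k).card : ℝ) * (k - c) ≤ t * d * ∑ p ∈ fam M t d k, (p.2 j : ℝ) ∧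
      t * d * ∑ p ∈ fam M t d k, (p.2 j : ℝ) ≤ (fam M t d k).card * k := by
  have h1 : (t : ℝ) * d * ∑ p ∈ fam M t d k, (p.2 j : ℝ) =
      ∑ p ∈ fam M t d k, ((k : ℝ) - (∑ l, p.1 l : ℕ)) := by
    have h2 : ∀ j' : Fin t, ∑ p ∈ fam M t d k, (p.2 j' : ℝ) = ∑ p ∈ fam M t d k, (p.2 j : ℝ) := by
      intro j'
      exact_mod_cast C_weight_eq M t d k j' j
    have h3 : (t : ℝ) * ∑ p ∈ fam M t d k, (p.2 j : ℝ) =
        ∑ j' : Fin t, ∑ p ∈ fam M t d k, (p.2 j' : ℝ) := by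
      rw [Finset.sum_congr rfl fun j' _ => h2 j', Finset.sum_const, Finset.card_univ,
        Fintype.card_fin, nsmul_eq_mul]
    rw [mul_right_comm, h3, Finset.sum_comm, mul_comm, Finset.mul_sum]
    refine Finset.sum_congr rfl fun p hp => ?_
    have h4 := (mem_fam.1 hp).2
    have h5 : ((∑ l, p.1 l : ℕ) : ℝ) + d * ∑ j', (p.2 j' : ℝ) = k := by
      rw [← h4]
      push_cast
      ring
    linarith
  rw [h1]
  constructor
  · rw [← nsmul_eq_mul, ← Finset.sum_const]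
    refine Finset.sum_le_sum fun p hp => ?_
    have h2 : ((∑ l, p.1 l : ℕ) : ℝ) ≤ c := by
      exact_mod_cast hc p.1 (mem_fam.1 hp).1.1
    linarith
  · rw [← nsmul_eq_mul, ← Finset.sum_const]
    refine Finset.sum_le_sum fun p hp => ?_
    have h2 : (0 : ℝ) ≤ ((∑ l, p.1 l : ℕ) : ℝ) := Nat.cast_nonneg _
    linarith

end Pool.Agent.Lib.MP_17a322_nt.EF
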