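import Pool.Agent.Lib.MP_17a322_nt.EF.Defs

/-!
Symmetric powers of matrices.
-/

universe u

namespace Pool.Agent.Lib.MP_17a322_nt.EF

open MvPolynomial

section

variable {n r k : ℕ}

theorem D_mem_mo (i : Fin (Mo n k).card) : mo n k i ∈ Mo n k :=
  ((Mo n k).equivFin.symm i).2

theorem D_mo_sum (i : Fin (Mo n k).card) : ∑ l, mo n k i l = k := by
  have h1 := D_mem_mo i
  unfold Mo at h1
  rw [Finset.mem_piAntidiag] at h1
  exact h1.1

theorem D_mo_inj {i j : Fin (Mo n k).card} (h : mo n k i = mo n k j) : i = j := by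
  unfold mo at h
  exact (Mo n k).equivFin.symm.injective (Subtype.ext h)

theorem D_mo_surj {m : Fin n → ℕ} (h : ∑ l, m l = k) : ∃ i, mo n k i = m := by
  have h1 : m ∈ Mo n k := by
    unfold Mo
    rw [Finset.mem_piAntidiag]
    exact ⟨h, fun _ _ => Finset.mem_univ _⟩
  refine ⟨(Mo n k).equivFin ⟨m, h1⟩, ?_⟩
  unfold mo
  rw [Equiv.symm_apply_apply]

variable {R : Type*} [CommSemiring R]

/-- The Veronese vector of the variables. -/
theorem D_ver_X (b : Fin (Mo n k).card) :
    ver k (X : Fin n → MvPolynomial (Fin n) R) b =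
      monomial (Finsupp.equivFunOnFinite.symm (mo n k b)) 1 := by
  unfold ver
  rw [monomial_eq, C_1, one_mul, Finsupp.prod_fintype]
  · rfl
  · intro i
    rw [pow_zero]

/-- A form is the sum of its monomials. -/
theorem D_sum_cf {f : MvPolynomial (Fin n) R} (hf : f.IsHomogeneous k) :
    f = ∑ b, C (cf k f b) * ver k (X : Fin n → MvPolynomial (Fin n) R) b := by
  classical
  ext d
  rw [coeff_sum]
  simp only [D_ver_X, C_mul_monomial, mul_one, coeff_monomial]
  by_cases hd : ∑ l, d l = k
  · obtain ⟨i, hi⟩ := D_mo_surj (m := fun l => d l) hd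
    have hi' : Finsupp.equivFunOnFinite.symm (mo n k i) = d := by
      rw [hi]
      ext l
      rfl
    rw [Finset.sum_eq_single i]
    · rw [if_pos hi']
      unfold cf
      rw [hi']
    · intro j _ hj
      rw [if_neg]
      intro h
      refine hj (D_mo_inj ?_)
      have h1 := h.trans hi'.symm
      exact Finsupp.equivFunOnFinite.symm.injective h1
    · intro h
      exact absurd (Finset.mem_univ _) h
  · have h1 : coeff d f = 0 := by
      by_contra h
      refine hd ?_
      have h2 := hf h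
      rw [Finsupp.weight_apply, Finsupp.sum_fintype _ _ (by simp)] at h2
      simpa using h2
    rw [h1]
    symm
    refine Finset.sum_eq_zero fun b _ => if_neg ?_
    intro h
    refine hd ?_
    rw [← h]
    exact D_mo_sum b

/-- The linear forms whose coefficients are the columns of the matrix `Y`. -/
noncomputable def ly (Y : Matrix (Fin r) (Fin n) R) : Fin n → MvPolynomial (Fin r) R :=
  fun l => ∑ j, C (Y j l) * X j

/-- The symmetric power of the matrix `Y`. -/
noncomputable def Sy (k : ℕ) (Y : Matrix (Fin r) (Fin n) R) :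
    Matrix (Fin (Mo r k).card) (Fin (Mo n k).card) R :=
  Matrix.of fun a b => cf k (ver k (fun l => ∑ j, C (Y j l) * (X j : MvPolynomial (Fin r) R)) b) a

theorem Sy_apply (Y : Matrix (Fin r) (Fin n) R) (a : Fin (Mo r k).card) (b : Fin (Mo n k).card) :
    Sy k Y a b = cf k (ver k (ly Y) b) a := rfl

theorem D_ly_hom (Y : Matrix (Fin r) (Fin n) R) (l : Fin n) : (ly Y l).IsHomogeneous 1 := by
  unfold ly
  refine IsHomogeneous.sum _ _ _ fun j _ => ?_
  have h1 := (isHomogeneous_C (Fin r) (Y j l)).mul (isHomogeneous_X R j)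
  rwa [zero_add] at h1

theorem D_ver_hom (Y : Matrix (Fin r) (Fin n) R) (b : Fin (Mo n k).card) :
    (ver k (ly Y) b).IsHomogeneous k := by
  unfold ver
  have h1 : (∏ l, ly Y l ^ mo n k b l).IsHomogeneous (∑ l, 1 * mo n k b l) :=
    IsHomogeneous.prod _ _ _ fun l _ => (D_ly_hom Y l).pow _
  simpa only [one_mul, D_mo_sum] using h1

theorem D_cf_sum {ι : Type*} (s : Finset ι) (f : ι → MvPolynomial (Fin n) R)
    (a : Fin (Mo n k).card) : cf k (∑ i ∈ s, f i) a = ∑ i ∈ s, cf k (f i) a := by
  unfold cf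
  rw [coeff_sum]

theorem D_cf_C_mul (c : R) (f : MvPolynomial (Fin n) R) (a : Fin (Mo n k).card) :
    cf k (C c * f) a = c * cf k f a := by
  unfold cf
  rw [coeff_C_mul]

/-- Substitution. -/
theorem D_aeval_ver (Y : Matrix (Fin r) (Fin n) R) {f : MvPolynomial (Fin n) R}
    (hf : f.IsHomogeneous k) :
    aeval (ly Y) f = ∑ b, C (cf k f b) * ver k (ly Y) b := by
  conv_lhs => rw [D_sum_cf hf]
  rw [map_sum]
  refine Finset.sum_congr rfl fun b _ => ?_
  rw [map_mul, aeval_C]
  congr 1
  unfold ver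
  rw [map_prod]
  exact Finset.prod_congr rfl fun l _ => by rw [map_pow, aeval_X]

/-- The symmetric power of the matrix is the substitution. -/
theorem D_Sy_cf (Y : Matrix (Fin r) (Fin n) R) {f : MvPolynomial (Fin n) R}
    (hf : f.IsHomogeneous k) (a : Fin (Mo r k).card) :
    cf k (aeval (ly Y) f) a = ∑ b, Sy k Y a b * cf k f b := by
  rw [D_aeval_ver Y hf, D_cf_sum]
  refine Finset.sum_congr rfl fun b _ => ?_
  rw [D_cf_C_mul, Sy_apply, mul_comm]

theorem Sy_mul {p : ℕ} (Y : Matrix (Fin r) (Fin n) R) (Z : Matrix (Fin n) (Fin p) R) :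
    Sy k (Y * Z) = Sy k Y * Sy k Z := by
  ext a c
  rw [Matrix.mul_apply]
  have h1 : ver k (ly (Y * Z)) c = aeval (ly Y) (ver k (ly Z) c) := by
    unfold ver
    rw [map_prod]
    refine Finset.prod_congr rfl fun l _ => ?_
    rw [map_pow]
    congr 1
    unfold ly
    rw [map_sum]
    simp only [map_mul, aeval_C, aeval_X, Finset.mul_sum, Matrix.mul_apply, map_sum,
      Finset.sum_mul]
    rw [Finset.sum_comm]
    refine Finset.sum_congr rfl fun i _ => Finset.sum_congr rfl fun j _ => ?_
    rw [algebraMap_eq]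
    ring
  rw [Sy_apply, h1, D_Sy_cf Y (D_ver_hom Z c)]
  rfl

theorem D_cf_ver_X (a b : Fin (Mo n k).card) (c : R) :
    cf k (C c * ver k (X : Fin n → MvPolynomial (Fin n) R) b) a = if a = b then c else 0 := by
  classical
  rw [D_cf_C_mul, D_ver_X]
  unfold cf
  rw [coeff_monomial]
  by_cases h : a = b
  · rw [h, if_pos rfl, if_pos rfl, mul_one]
  · rw [if_neg h, if_neg, mul_zero]
    intro h'
    exact h (D_mo_inj (Finsupp.equivFunOnFinite.symm.injective h')).symm

theorem Sy_diagonal (d : Fin n → R) :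
    Sy k (Matrix.diagonal d) = Matrix.diagonal fun a => ∏ l, d l ^ mo n k a l := by
  classical
  ext a b
  have h1 : ver k (ly (Matrix.diagonal d)) b =
      C (∏ l, d l ^ mo n k b l) * ver k (X : Fin n → MvPolynomial (Fin n) R) b := by
    unfold ver
    rw [map_prod, ← Finset.prod_mul_distrib]
    refine Finset.prod_congr rfl fun l _ => ?_
    have h2 : ly (Matrix.diagonal d) l = C (d l) * X l := by
      unfold ly
      rw [Finset.sum_eq_single l]
      · rw [Matrix.diagonal_apply_eq]
      · intro j _ hj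
        rw [Matrix.diagonal_apply_ne _ hj, C_0, zero_mul]
      · intro h
        exact absurd (Finset.mem_univ _) h
    rw [h2, mul_pow, C_pow]
  rw [Sy_apply, h1, D_cf_ver_X, Matrix.diagonal_apply]
  by_cases h : a = b
  · rw [h]
  · rw [if_neg h, if_neg h]

theorem Sy_one : Sy k (1 : Matrix (Fin n) (Fin n) R) = 1 := by
  rw [← Matrix.diagonal_one, Sy_diagonal, ← Matrix.diagonal_one]
  congr 1
  funext a
  simp

/-- Columns of symmetric powers. -/
theorem Sy_col {r' : ℕ} (k : ℕ) (f : Fin r' → Fin n) :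
    ∃ c : Fin (Mo r' k).card → Fin (Mo n k).card, ∀ Y : Matrix (Fin r) (Fin n) R,
      (Sy k Y).submatrix id c = Sy k (Y.submatrix id f) := by
  classical
  have h1 : ∀ b : Fin (Mo r' k).card, ∃ c : Fin (Mo n k).card,
      mo n k c = fun l => ∑ i with f i = l, mo r' k b i := by
    intro b
    refine D_mo_surj ?_
    rw [Finset.sum_fiberwise]
    exact D_mo_sum b
  choose c hc using h1
  refine ⟨c, fun Y => ?_⟩
  ext a b
  rw [Matrix.submatrix_apply, id, Sy_apply, Sy_apply]
  congr 1
  unfold ver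
  rw [hc]
  have h2 : ∀ l, ly Y l ^ (∑ i with f i = l, mo r' k b i) =
      ∏ i with f i = l, ly (Y.submatrix id f) i ^ mo r' k b i := by
    intro l
    rw [← Finset.prod_pow_eq_pow_sum]
    refine Finset.prod_congr rfl fun i hi => ?_
    rw [← (Finset.mem_filter.1 hi).2]
    rfl
  simp only [h2]
  rw [Finset.prod_fiberwise]

end

end Pool.Agent.Lib.MP_17a322_nt.EF
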