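import Pool.Agent.Lib.MP_17a322_nt.EF.D1

/-!
Determinants and heights of symmetric powers.
-/

universe u

namespace Pool.Agent.Lib.MP_17a322_nt.EF

open MvPolynomial Height

section

variable {n r k : ℕ}

/-- The exponent of the determinant. -/
def wt (r k : ℕ) : ℕ := k * (Mo r k).card / r

theorem wt_sum (l l' : Fin r) : ∑ a, mo r k a l = ∑ a, mo r k a l' := by
  classical
  have h1 : ∀ l : Fin r, ∑ a, mo r k a l = ∑ m ∈ Mo r k, m l := by
    intro l
    refine Finset.sum_bij (fun a _ => mo r k a) (fun a _ => D_mem_mo a)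
      (fun a _ b _ h => D_mo_inj h) (fun m hm => ?_) fun a _ => rfl
    unfold Mo at hm
    rw [Finset.mem_piAntidiag] at hm
    obtain ⟨a, ha⟩ := D_mo_surj hm.1
    exact ⟨a, Finset.mem_univ _, ha⟩
  rw [h1, h1]
  refine Finset.sum_bij (fun m _ => m ∘ Equiv.swap l l') (fun m hm => ?_) (fun m _ m' _ h => ?_)
    (fun m hm => ?_) fun m _ => ?_
  · unfold Mo at hm ⊢
    rw [Finset.mem_piAntidiag] at hm ⊢
    refine ⟨?_, fun _ _ => Finset.mem_univ _⟩
    rw [← hm.1]
    exact Equiv.sum_comp (Equiv.swap l l') m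
  · funext i
    have h2 := congrFun h (Equiv.swap l l' i)
    simpa using h2
  · refine ⟨m ∘ Equiv.swap l l', ?_, ?_⟩
    · unfold Mo at hm ⊢
      rw [Finset.mem_piAntidiag] at hm ⊢
      refine ⟨?_, fun _ _ => Finset.mem_univ _⟩
      rw [← hm.1]
      exact Equiv.sum_comp (Equiv.swap l l') m
    · funext i
      simp
  · simp

theorem wt_mul' (l : Fin r) : r * ∑ a, mo r k a l = k * (Mo r k).card := by
  have h1 : ∑ l' : Fin r, ∑ a, mo r k a l' = r * ∑ a, mo r k a l := by
    rw [Finset.sum_congr rfl fun l' _ => wt_sum l' l, Finset.sum_const, Finset.card_univ,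
      Fintype.card_fin, smul_eq_mul]
  rw [← h1, Finset.sum_comm, Finset.sum_congr rfl fun a _ => D_mo_sum a, Finset.sum_const,
    Finset.card_univ, Fintype.card_fin, smul_eq_mul, mul_comm]

theorem wt_eq (l : Fin r) : ∑ a, mo r k a l = wt r k := by
  have hr : 0 < r := Fin.pos l
  unfold wt
  rw [← wt_mul' l, Nat.mul_div_cancel_left _ hr]

theorem wt_mul (hr : 0 < r) : r * wt r k = k * (Mo r k).card := by
  rw [← wt_eq ⟨0, hr⟩, wt_mul']

/-- The determinant of the symmetric power. -/
theorem Sy_det {K : Type*} [Field K] [CharZero K] (Y : Matrix (Fin r) (Fin r) K) :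
    (Sy k Y).det = Y.det ^ wt r k := by
  classical
  refine Matrix.diagonal_transvection_induction (fun Y => (Sy k Y).det = Y.det ^ wt r k) Y ?_ ?_
    ?_
  · intro d _
    rw [Sy_diagonal, Matrix.det_diagonal, Matrix.det_diagonal, Finset.prod_comm,
      ← Finset.prod_pow]
    refine Finset.prod_congr rfl fun l _ => ?_
    rw [Finset.prod_pow_eq_pow_sum, wt_eq]
  · intro t
    obtain ⟨i, j, hij, c⟩ := t
    rw [Matrix.TransvectionStruct.det, one_pow]
    show (Sy k (Matrix.transvection i j c)).det = 1
    obtain ⟨T, hT⟩ : ∃ T, T = Matrix.transvection i j c := ⟨_, rfl⟩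
    obtain ⟨D, hD⟩ : ∃ D : Matrix (Fin r) (Fin r) K,
      D = Matrix.diagonal fun l => if l = i then 2 else 1 := ⟨_, rfl⟩
    have h1 : D * T = T * T * D := by
      have h2 : T * T = Matrix.transvection i j (c + c) := by
        rw [hT, Matrix.transvection_mul_transvection_same _ _ hij]
      rw [h2, hT, hD]
      ext a b
      rw [Matrix.diagonal_mul, Matrix.mul_diagonal]
      simp only [Matrix.transvection, Matrix.add_apply, Matrix.one_apply, Matrix.single_apply]
      by_cases ha : a = i
      · by_cases hb : b = j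
        · have h3 : ¬ (i = j) := hij
          have h4 : ¬ (j = i) := fun h => hij h.symm
          subst ha hb
          simp [h3, h4]
          ring
        · have h5 : ¬ (j = b) := fun h => hb h.symm
          subst ha
          by_cases hab : a = b
          · subst hab
            simp [h5]
          · simp [h5, hab]
      · have h5 : ¬ (i = a) := fun h => ha h.symm
        by_cases hb : a = b
        · subst hb
          simp [ha, h5]
        · simp [ha, hb, h5]
    have h2 : (Sy k D).det * (Sy k T).det = (Sy k T).det * (Sy k T).det * (Sy k D).det := by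
      rw [← Matrix.det_mul, ← Sy_mul, h1, Sy_mul, Sy_mul, Matrix.det_mul, Matrix.det_mul]
    have h3 : (Sy k D).det ≠ 0 := by
      rw [hD, Sy_diagonal, Matrix.det_diagonal]
      refine Finset.prod_ne_zero_iff.2 fun a _ => Finset.prod_ne_zero_iff.2 fun l _ => ?_
      refine pow_ne_zero _ ?_
      split_ifs
      · exact two_ne_zero
      · exact one_ne_zero
    have h4 : (Sy k T).det ≠ 0 := by
      have h5 : T * Matrix.transvection i j (-c) = 1 := by
        rw [hT, Matrix.transvection_mul_transvection_same _ _ hij, add_neg_cancel,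
          Matrix.transvection_zero]
      have h6 : (Sy k T).det * (Sy k (Matrix.transvection i j (-c))).det = 1 := by
        rw [← Matrix.det_mul, ← Sy_mul, h5, Sy_one, Matrix.det_one]
      exact left_ne_zero_of_mul_eq_one h6
    rw [← hT]
    have h5 : (Sy k D).det * (Sy k T).det * 1 = (Sy k D).det * (Sy k T).det * (Sy k T).det := by
      linear_combination h2
    exact (mul_left_cancel₀ (mul_ne_zero h3 h4) h5).symm
  · intro A B hA hB
    rw [Sy_mul, Matrix.det_mul, Matrix.det_mul, hA, hB, mul_pow]

/-- The height of the symmetric power. -/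
theorem Sy_ht {K : Type u} [Field K] [NumberField K] (hr : 0 < r) (k : ℕ)
    (Y : Matrix (Fin r) (Fin n) K) :
    (k : ℝ) * (Mo r k).card * logHeight (fun f : Fin r → Fin n => (Y.submatrix id f).det) ≤
      r * logHeight (fun e : Fin (Mo r k).card → Fin (Mo n k).card =>
        ((Sy k Y).submatrix id e).det) := by
  choose c hc using fun f : Fin r → Fin n => Sy_col (R := K) (r := r) k f
  have h1 : (fun e : Fin (Mo r k).card → Fin (Mo n k).card => ((Sy k Y).submatrix id e).det) ∘ c =
      (fun f : Fin r → Fin n => (Y.submatrix id f).det) ^ wt r k := by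
    funext f
    rw [Function.comp_apply, Pi.pow_apply, hc f Y, Sy_det]
  have h2 := logHeight_comp_le c
    (fun e : Fin (Mo r k).card → Fin (Mo n k).card => ((Sy k Y).submatrix id e).det)
  rw [h1, logHeight_pow] at h2
  have h3 : ((r * wt r k : ℕ) : ℝ) = ((k * (Mo r k).card : ℕ) : ℝ) := by rw [wt_mul hr]
  push_cast at h3
  have h4 := mul_le_mul_of_nonneg_left h2 (Nat.cast_nonneg r : (0 : ℝ) ≤ r)
  rw [← mul_assoc, h3] at h4
  exact h4

/-- A matrix with independent rows has a right inverse. -/
theorem D_rinv {K : Type*} [Field K] (Y : Matrix (Fin r) (Fin n) K)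
    (hY : LinearIndependent K fun j => Y j) : ∃ Z : Matrix (Fin n) (Fin r) K, Y * Z = 1 := by
  classical
  have h1 : Function.Injective Y.vecMulLinear := Matrix.vecMul_injective_iff.2 hY
  obtain ⟨g, hg⟩ := Y.vecMulLinear.exists_leftInverse_of_injective
    (LinearMap.ker_eq_bot.2 h1)
  refine ⟨Matrix.of fun l j => g (Pi.single l 1) j, ?_⟩
  ext i j
  rw [Matrix.mul_apply]
  simp only [Matrix.of_apply]
  have h2 : g (Y.vecMulLinear (Pi.single i 1)) = Pi.single i 1 := by
    rw [← LinearMap.comp_apply, hg, LinearMap.id_apply]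
  have h3 : Y.vecMulLinear (Pi.single i 1) = ∑ l, Y i l • (Pi.single l (1 : K) : Fin n → K) := by
    rw [Matrix.vecMulLinear_apply, Matrix.single_one_vecMul]
    exact (pi_eq_sum_univ' (Y i))
  rw [h3, map_sum] at h2
  have h4 := congrFun h2 j
  rw [Finset.sum_apply] at h4
  simp only [map_smul, Pi.smul_apply, smul_eq_mul] at h4
  rw [h4, Matrix.one_apply, Pi.single_apply]
  by_cases h : i = j
  · rw [if_pos h, if_pos h.symm]
  · rw [if_neg h, if_neg fun h' => h h'.symm]

/-- The rows of the symmetric power are independent. -/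
theorem Sy_li {K : Type*} [Field K] (Y : Matrix (Fin r) (Fin n) K)
    (hY : LinearIndependent K fun j => Y j) : LinearIndependent K fun a => Sy k Y a := by
  obtain ⟨Z, hZ⟩ := D_rinv Y hY
  have h1 : Sy k Y * Sy k Z = 1 := by rw [← Sy_mul, hZ, Sy_one]
  refine Matrix.vecMul_injective_iff.1 fun v w hvw => ?_
  have h2 : Matrix.vecMul (Matrix.vecMul v (Sy k Y)) (Sy k Z) =
      Matrix.vecMul (Matrix.vecMul w (Sy k Y)) (Sy k Z) :=
    congrArg (fun x => Matrix.vecMul x (Sy k Z)) hvw
  rwa [Matrix.vecMul_vecMul, Matrix.vecMul_vecMul, h1, Matrix.vecMul_one,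
    Matrix.vecMul_one] at h2

end

end Pool.Agent.Lib.MP_17a322_nt.EF
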