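import Pool.Agent.Lib.MP_17a322_nt.EF.D1b
import Pool.Agent.Lib.MP_17a322_nt.VA.A3b

/-!
The rows of the symmetric power of a basis of the space `E_P`.
-/

universe u

namespace Pool.Agent.Lib.MP_17a322_nt.EF

open MvPolynomial Height
open Pool.Agent.Lib.MP_17a322_nt.VA
open Pool.Agent.Lib.MP_17a322_nt.SL

/-- If the Veronese vectors of the vectors in `E_P` belong to `E'_P` for all points, then so do the rows
of the symmetric powers of matrices whose rows are in `E_P`. -/
theorem Sy_fib {K : Type u} [Field K] {N : ℕ} (A : AV K N) {n r k g g' D D' : ℕ}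
    (G : Matrix (Fin g) (Fin n) (MvPolynomial (Fin (N + 1)) K))
    (hG : ∀ i l, (G i l).IsHomogeneous D)
    (G' : Matrix (Fin g') (Fin (Mo n k).card) (MvPolynomial (Fin (N + 1)) K))
    (hG' : ∀ i l, (G' i l).IsHomogeneous D')
    (hfib : ∀ (L : Type u) [Field L] [Algebra K L] (P : A.Pts L) (X : Fin n → L),
      X ∈ Fib A G P → ver k X ∈ Fib A G' P)
    {L : Type u} [Field L] [Algebra K L] (P : A.Pts L) (Y : Matrix (Fin r) (Fin n) L)
    (hY : ∀ j, Y j ∈ Fib A G P) (a : Fin (Mo r k).card) : Sy k Y a ∈ Fib A G' P := by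
  obtain ⟨φ, hφ⟩ : ∃ φ : L →ₐ[K] FractionRing (MvPolynomial (Fin r) L),
    φ = IsScalarTower.toAlgHom K L (FractionRing (MvPolynomial (Fin r) L)) := ⟨_, rfl⟩
  obtain ⟨ψ, hψ⟩ : ∃ ψ : MvPolynomial (Fin r) L →+* FractionRing (MvPolynomial (Fin r) L),
    ψ = algebraMap _ _ := ⟨_, rfl⟩
  have hψi : Function.Injective ψ := by
    rw [hψ]
    exact IsFractionRing.injective _ _
  have hφC : ∀ c : L, φ c = ψ (C c) := by
    intro c
    rw [hφ, hψ]
    show algebraMap L (FractionRing (MvPolynomial (Fin r) L)) c = _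
    rw [IsScalarTower.algebraMap_apply L (MvPolynomial (Fin r) L)
      (FractionRing (MvPolynomial (Fin r) L)), algebraMap_eq]
  obtain ⟨c, hc, h1⟩ := A.img_rep φ P
  have hev : ∀ {f : MvPolynomial (Fin (N + 1)) K} {d : ℕ}, f.IsHomogeneous d →
      ψ (C (aeval (A.x P) f)) = c ^ d * aeval (A.x (A.img φ P)) f := by
    intro f d hf
    rw [← hφC, ← aeval_mul_homog hf, ← AlgHom.comp_apply, comp_aeval]
    congr 2
    funext i
    exact h1 i
  have h2 : (fun l => ψ (ly Y l)) ∈ Fib A G (A.img φ P) := by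
    intro i
    have h3 : (∑ l, C (aeval (A.x P) (G i l)) * ly Y l : MvPolynomial (Fin r) L) = 0 := by
      unfold ly
      simp only [Finset.mul_sum]
      rw [Finset.sum_comm]
      refine Finset.sum_eq_zero fun j _ => ?_
      have h4 : ∀ l, (C (aeval (A.x P) (G i l)) * (C (Y j l) * X j) :
          MvPolynomial (Fin r) L) = C (aeval (A.x P) (G i l) * Y j l) * X j := by
        intro l
        rw [C_mul, mul_assoc]
      rw [Finset.sum_congr rfl fun l _ => h4 l, ← Finset.sum_mul, ← map_sum, hY j i, C_0,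
        zero_mul]
    have h4 := congrArg ψ h3
    rw [map_sum, map_zero] at h4
    simp only [map_mul, hev (hG i _), mul_assoc] at h4
    rw [← Finset.mul_sum] at h4
    exact (mul_eq_zero.1 h4).resolve_left (pow_ne_zero _ hc)
  have h3 := hfib _ _ _ h2
  intro i
  have h4 := h3 i
  have h5 : ∀ b, ver k (fun l => ψ (ly Y l)) b = ψ (ver k (ly Y) b) := by
    intro b
    unfold ver
    rw [map_prod]
    exact Finset.prod_congr rfl fun l _ => by rw [map_pow]
  have h6 : ψ (∑ b, C (aeval (A.x P) (G' i b)) * ver k (ly Y) b) = 0 := by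
    rw [map_sum]
    simp only [map_mul, hev (hG' i _), mul_assoc]
    rw [← Finset.mul_sum]
    simp only [← h5]
    rw [h4, mul_zero]
  have h7 : (∑ b, C (aeval (A.x P) (G' i b)) * ver k (ly Y) b : MvPolynomial (Fin r) L) = 0 :=
    hψi (h6.trans (map_zero ψ).symm)
  have h8 := congrArg (fun f : MvPolynomial (Fin r) L => cf k f a) h7
  beta_reduce at h8
  rw [D_cf_sum] at h8
  have h9 : cf k (0 : MvPolynomial (Fin r) L) a = 0 := by
    unfold cf
    rw [coeff_zero]
  rw [h9] at h8
  rw [← h8]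
  exact Finset.sum_congr rfl fun b _ => by rw [D_cf_C_mul, Sy_apply]

end Pool.Agent.Lib.MP_17a322_nt.EF
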