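import Pool.Agent.Lib.MP_17a322_nt.EF.Defs
import Pool.Agent.Lib.MP_17a322_nt.SL.Z1
import Pool.Agent.Lib.MP_17a322_nt.SL.Z2
import Pool.Agent.Lib.MP_17a322_nt.VA.A5

/-!
The heights of a space and of its equations.
-/

universe u

namespace Pool.Agent.Lib.MP_17a322_nt.EF

open MvPolynomial Height
open Pool.Agent.Lib.MP_17a322_nt.RO
open Pool.Agent.Lib.MP_17a322_nt.VJ
open Pool.Agent.Lib.MP_17a322_nt.VA
open Pool.Agent.Lib.MP_17a322_nt.SL

section

variable {K : Type*} [Field K] {r g : ℕ}

/-- Complementary minors. -/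
theorem D_comp (v : AbsoluteValue K ℝ) (G : Fin g → Fin (r + g) → K)
    (Y : Fin r → Fin (r + g) → K) {t : K}
    (ht : ∀ M : Fin r → Fin (r + g) → K,
      (Matrix.of fun k j : Fin r => ∑ l, M k l * Y j l).det = t * (stk M G).det)
    (c' : Fin r → Fin (r + g)) (c : Fin g → Fin (r + g))
    (hbij : Function.Bijective (Sum.elim c' c)) :
    v (Matrix.of fun a b : Fin r => Y a (c' b)).det =
      v t * v (Matrix.of fun a b : Fin g => G a (c b)).det := by
  classical
  obtain ⟨σ, hσ⟩ : ∃ σ : Fin r ⊕ Fin g ≃ Fin (r + g), ∀ x, σ x = Sum.elim c' c x :=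
    ⟨Equiv.ofBijective _ hbij, fun _ => rfl⟩
  have hc'inj : Function.Injective c' := fun x y h => by
    have h1 := hbij.1 (show Sum.elim c' c (Sum.inl x) = Sum.elim c' c (Sum.inl y) from h)
    exact Sum.inl_injective h1
  have hne : ∀ y x, c y ≠ c' x := fun y x h => by
    have h1 := hbij.1 (show Sum.elim c' c (Sum.inr y) = Sum.elim c' c (Sum.inl x) from h)
    exact absurd h1 (by simp)
  obtain ⟨M, hM⟩ : ∃ M : Fin r → Fin (r + g) → K, ∀ b l, M b l = if l = c' b then 1 else 0 :=
    ⟨fun b l => if l = c' b then 1 else 0, fun _ _ => rfl⟩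
  have h1 : (stk M G).submatrix finSumFinEquiv σ =
      Matrix.fromBlocks 1 0 (Matrix.of fun (a : Fin g) (b : Fin r) => G a (c' b))
        (Matrix.of fun a b : Fin g => G a (c b)) := by
    ext x y
    rw [Matrix.submatrix_apply, hσ]
    rcases x with x | x <;> rcases y with y | y
    · rw [Matrix.fromBlocks_apply₁₁, stk_inl, hM, Matrix.one_apply]
      show (if c' y = c' x then (1 : K) else 0) = _
      by_cases hxy : x = y
      · rw [hxy, if_pos rfl, if_pos rfl]
      · rw [if_neg fun h => hxy (hc'inj h).symm, if_neg hxy]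
    · rw [Matrix.fromBlocks_apply₁₂, stk_inl, hM, Matrix.zero_apply]
      exact if_neg (hne y x)
    · rw [Matrix.fromBlocks_apply₂₁, stk_inr]
      rfl
    · rw [Matrix.fromBlocks_apply₂₂, stk_inr]
      rfl
  have h2 : v (stk M G).det = v (Matrix.of fun a b : Fin g => G a (c b)).det := by
    rw [← Z_perm v finSumFinEquiv σ, h1, Matrix.det_fromBlocks_zero₁₂, Matrix.det_one, one_mul]
  have h3 := ht M
  have h4 : (Matrix.of fun k j : Fin r => ∑ l, M k l * Y j l) =
      (Matrix.of fun a b : Fin r => Y a (c' b)).transpose := by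
    ext k j
    rw [Matrix.of_apply, Matrix.transpose_apply, Matrix.of_apply, Finset.sum_eq_single (c' k)]
    · rw [hM, if_pos rfl, one_mul]
    · intro l _ hl
      rw [hM, if_neg hl, zero_mul]
    · intro h
      exact absurd (Finset.mem_univ _) h
  rw [h4, Matrix.det_transpose] at h3
  rw [h3, map_mul, h2]

/-- The local heights of complementary minors. -/
theorem D_sup (v : AbsoluteValue K ℝ) (G : Fin g → Fin (r + g) → K)
    (Y : Fin r → Fin (r + g) → K) {t : K}
    (ht : ∀ M : Fin r → Fin (r + g) → K,
      (Matrix.of fun k j : Fin r => ∑ l, M k l * Y j l).det = t * (stk M G).det) :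
    (⨆ f : Fin r → Fin (r + g), v (Matrix.of fun a b : Fin r => Y a (f b)).det) =
      v t * ⨆ e : Fin g ↪o Fin (r + g), v (Matrix.of fun a b : Fin g => G a (e b)).det := by
  classical
  rw [Real.mul_iSup_of_nonneg (v.nonneg t)]
  apply le_antisymm
  · refine Real.iSup_le (fun f => ?_) (Real.iSup_nonneg fun e =>
      mul_nonneg (v.nonneg _) (v.nonneg _))
    by_cases hinj : Function.Injective f
    · obtain ⟨S, hS⟩ : ∃ S : Finset (Fin (r + g)), S = (Finset.univ.image f)ᶜ := ⟨_, rfl⟩
      have hcard : S.card = g := by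
        rw [hS, Finset.card_compl, Finset.card_image_of_injective _ hinj, Finset.card_univ,
          Fintype.card_fin, Fintype.card_fin, Nat.add_sub_cancel_left]
      have hbij : Function.Bijective (Sum.elim f (S.orderEmbOfFin hcard)) := by
        rw [Fintype.bijective_iff_injective_and_card]
        refine ⟨?_, by
          rw [Fintype.card_sum, Fintype.card_fin, Fintype.card_fin, Fintype.card_fin]⟩
        have hSm : ∀ x ∈ S, x ∉ Finset.univ.image f := fun x hx => by
          rw [hS, Finset.mem_compl] at hx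
          exact hx
        have hne : ∀ a b, f a ≠ S.orderEmbOfFin hcard b := by
          intro a b h
          have h1 := hSm _ (S.orderEmbOfFin_mem hcard b)
          rw [← h] at h1
          exact h1 (Finset.mem_image_of_mem f (Finset.mem_univ a))
        rintro (x | x) (y | y) h
        · rw [hinj h]
        · exact absurd h (hne x y)
        · exact absurd h.symm (hne y x)
        · rw [(S.orderEmbOfFin hcard).injective h]
      rw [D_comp v G Y ht f _ hbij]
      exact le_ciSup (Set.finite_range fun e : Fin g ↪o Fin (r + g) =>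
        v t * v (Matrix.of fun a b : Fin g => G a (e b)).det).bddAbove (S.orderEmbOfFin hcard)
    · have h1 : (Matrix.of fun a b : Fin r => Y a (f b)).det = 0 := by
        unfold Function.Injective at hinj
        push Not at hinj
        obtain ⟨a, b, hab, hne⟩ := hinj
        exact Matrix.det_zero_of_column_eq hne fun k => by
          rw [Matrix.of_apply, Matrix.of_apply, hab]
      rw [h1, map_zero]
      exact Real.iSup_nonneg fun e => mul_nonneg (v.nonneg _) (v.nonneg _)
  · refine Real.iSup_le (fun e => ?_) (Real.iSup_nonneg fun f => v.nonneg _)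
    obtain ⟨S, hS⟩ : ∃ S : Finset (Fin (r + g)), S = (Finset.univ.image e)ᶜ := ⟨_, rfl⟩
    have hcard : S.card = r := by
      rw [hS, Finset.card_compl, Finset.card_image_of_injective _ e.injective, Finset.card_univ,
        Fintype.card_fin, Fintype.card_fin, Nat.add_sub_cancel]
    have hbij : Function.Bijective (Sum.elim (S.orderEmbOfFin hcard) e) := by
      rw [Fintype.bijective_iff_injective_and_card]
      refine ⟨?_, by
        rw [Fintype.card_sum, Fintype.card_fin, Fintype.card_fin, Fintype.card_fin]⟩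
      have hSm : ∀ x ∈ S, x ∉ Finset.univ.image e := fun x hx => by
        rw [hS, Finset.mem_compl] at hx
        exact hx
      have hne : ∀ a b, S.orderEmbOfFin hcard a ≠ e b := by
        intro a b h
        have h1 := hSm _ (S.orderEmbOfFin_mem hcard a)
        rw [h] at h1
        exact h1 (Finset.mem_image_of_mem e (Finset.mem_univ b))
      rintro (x | x) (y | y) h
      · rw [(S.orderEmbOfFin hcard).injective h]
      · exact absurd h (hne x y)
      · exact absurd h.symm (hne y x)
      · rw [e.injective h]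
    rw [← D_comp v G Y ht (S.orderEmbOfFin hcard) e hbij]
    exact le_ciSup (Set.finite_range fun f : Fin r → Fin (r + g) =>
      v (Matrix.of fun a b : Fin r => Y a (f b)).det).bddAbove (S.orderEmbOfFin hcard)

end

/-- The height of a space is the height of its equations. -/
theorem D_dual {K : Type*} [Field K] [NumberField K] {r g : ℕ} (G : Fin g → Fin (r + g) → K)
    (hG : LinearIndependent K G) (Y : Fin r → Fin (r + g) → K) (hY : LinearIndependent K Y)
    (hGY : ∀ a b, ∑ l, G a l * Y b l = 0) :
    logHeight (fun e : Fin g ↪o Fin (r + g) => (Matrix.of fun a b => G a (e b)).det) =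
      logHeight (fun f : Fin r → Fin (r + g) => (Matrix.of fun a b => Y a (f b)).det) ∧
    (fun f : Fin r → Fin (r + g) => (Matrix.of fun a b => Y a (f b)).det) ≠ 0 := by
  classical
  obtain ⟨t, ht0, ht⟩ := Z_lam G hG Y hY hGY
  obtain ⟨v₀⟩ := (inferInstance : Nonempty (NumberField.InfinitePlace K))
  have hsup := fun v => D_sup v G Y ht
  -- a nonzero minor
  have hY0 : (fun f : Fin r → Fin (r + g) => (Matrix.of fun a b => Y a (f b)).det) ≠ 0 := by
    obtain ⟨J, hJ⟩ := Z_minor Y hY
    exact fun h => hJ (congrFun h J)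
  have hG0 : (fun e : Fin g ↪o Fin (r + g) => (Matrix.of fun a b => G a (e b)).det) ≠ 0 := by
    intro h
    obtain ⟨f, hf⟩ := Function.ne_iff.1 hY0
    have h1 := hsup v₀.val
    have h2 : (⨆ e : Fin g ↪o Fin (r + g),
        v₀.val (Matrix.of fun a b : Fin g => G a (e b)).det) = 0 := by
      have h3 : ∀ e : Fin g ↪o Fin (r + g),
          v₀.val (Matrix.of fun a b : Fin g => G a (e b)).det = 0 := fun e => by
        rw [congrFun h e, Pi.zero_apply, map_zero]
      simp only [h3, Real.iSup_const_zero]
    rw [h2, mul_zero] at h1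
    have h3 := vm_pos v₀.val hY0
    have h4 : vm v₀.val (fun f : Fin r → Fin (r + g) =>
      (Matrix.of fun a b => Y a (f b)).det) = ⨆ f : Fin r → Fin (r + g),
        v₀.val (Matrix.of fun a b : Fin r => Y a (f b)).det := rfl
    rw [h4, h1] at h3
    exact lt_irrefl _ h3
  refine ⟨?_, hY0⟩
  rw [← gs_log_iSup hG0, ← gs_log_iSup hY0]
  have f1 : FS fun v : AbsoluteValue K ℝ => Real.log (v t) := FS_log_abv ht0
  have f2 : FS fun v : AbsoluteValue K ℝ => Real.log (⨆ e : Fin g ↪o Fin (r + g),
      v (Matrix.of fun a b : Fin g => G a (e b)).det) := FS_log_iSup hG0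
  have h1 : (fun v : AbsoluteValue K ℝ => Real.log (⨆ f : Fin r → Fin (r + g),
      v (Matrix.of fun a b : Fin r => Y a (f b)).det)) = fun v => Real.log (v t) +
        Real.log (⨆ e : Fin g ↪o Fin (r + g),
          v (Matrix.of fun a b : Fin g => G a (e b)).det) := by
    funext v
    have h2 : 0 < ⨆ e : Fin g ↪o Fin (r + g),
      v (Matrix.of fun a b : Fin g => G a (e b)).det := vm_pos v hG0
    rw [hsup, Real.log_mul (v.pos ht0).ne' h2.ne']
  rw [h1, gs_add f1 f2, gs_log_abv ht0, zero_add]

end Pool.Agent.Lib.MP_17a322_nt.EF
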