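import Pool.Agent.Lib.MP_17a322_nt.EF.Defs

/-!
Moving hypersurfaces over abelian varieties: the Veronese vector and the vector of coefficients.
-/

universe u

namespace Pool.Agent.Lib.MP_17a322_nt.EF

open MvPolynomial Height

section

variable {n k : ℕ}

theorem mo_sum (i : Fin (Mo n k).card) : ∑ l, mo n k i l = k :=
  (Finset.mem_piAntidiag.1 ((Mo n k).equivFin.symm i).2).1

theorem mo_surj {m : Fin n → ℕ} (hm : ∑ l, m l = k) : ∃ i, mo n k i = m := by
  have h : m ∈ Mo n k := Finset.mem_piAntidiag.2 ⟨hm, fun _ _ => Finset.mem_univ _⟩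
  refine ⟨(Mo n k).equivFin ⟨m, h⟩, ?_⟩
  simp only [mo, Equiv.symm_apply_apply]

theorem mo_inj {i j : Fin (Mo n k).card} (h : mo n k i = mo n k j) : i = j :=
  (Mo n k).equivFin.symm.injective (Subtype.ext h)

theorem mo_degree (i : Fin (Mo n k).card) :
    (Finsupp.equivFunOnFinite.symm (mo n k i) : Fin n →₀ ℕ).degree = k := by
  rw [Finsupp.degree_eq_sum]
  exact mo_sum i

/-- The form with a given vector of coefficients. -/
noncomputable def uncf (k : ℕ) {R : Type*} [CommRing R] (a : Fin (Mo n k).card → R) :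
    MvPolynomial (Fin n) R :=
  ∑ i, monomial (Finsupp.equivFunOnFinite.symm (mo n k i)) (a i)

theorem uncf_hom {R : Type*} [CommRing R] (a : Fin (Mo n k).card → R) :
    (uncf k a).IsHomogeneous k := by
  refine IsHomogeneous.sum _ _ _ fun i _ => ?_
  exact isHomogeneous_monomial _ (mo_degree i)

theorem cf_uncf {R : Type*} [CommRing R] (a : Fin (Mo n k).card → R) : cf k (uncf k a) = a := by
  funext i
  simp only [cf, uncf, coeff_sum, coeff_monomial]
  rw [Finset.sum_eq_single i]
  · simp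
  · intro j _ hj
    rw [if_neg]
    intro h
    exact hj (mo_inj (Finsupp.equivFunOnFinite.symm.injective h))
  · intro h
    exact absurd (Finset.mem_univ _) h

theorem uncf_cf {R : Type*} [CommRing R] {Q : MvPolynomial (Fin n) R} (hQ : Q.IsHomogeneous k) :
    uncf k (cf k Q) = Q := by
  ext m
  by_cases hm : m.degree = k
  · obtain ⟨i, hi⟩ := mo_surj (n := n) (k := k) (m := ⇑m) (by
      rw [← hm, Finsupp.degree_eq_sum])
    have hi' : Finsupp.equivFunOnFinite.symm (mo n k i) = m := by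
      rw [hi]
      exact Finsupp.equivFunOnFinite.symm_apply_apply m
    have h := congrFun (cf_uncf (n := n) (k := k) (cf k Q)) i
    simp only [cf, hi'] at h
    exact h
  · rw [(uncf_hom (cf k Q)).coeff_eq_zero hm, hQ.coeff_eq_zero hm]

/-- A form is determined by its vector of coefficients, and every vector occurs. -/
theorem cf_equiv (n k : ℕ) (R : Type*) [CommRing R] :
    ∃ e : homogeneousSubmodule (Fin n) R k ≃ₗ[R] (Fin (Mo n k).card → R),
      ∀ Q, e Q = cf k (Q : MvPolynomial (Fin n) R) := by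
  refine ⟨{ toFun := fun Q => cf k (Q : MvPolynomial (Fin n) R), map_add' := ?_, map_smul' := ?_,
            invFun := fun a => ⟨uncf k a, (mem_homogeneousSubmodule _ _).2 (uncf_hom a)⟩,
            left_inv := ?_, right_inv := ?_ }, fun Q => rfl⟩
  · intro Q Q'
    funext i
    simp only [cf, Submodule.coe_add, coeff_add, Pi.add_apply]
  · intro a Q
    funext i
    simp only [cf, Submodule.coe_smul, coeff_smul, Pi.smul_apply, RingHom.id_apply]
  · intro Q
    exact Subtype.ext (uncf_cf ((mem_homogeneousSubmodule _ _).1 Q.2))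
  · intro a
    exact cf_uncf a

theorem cf_map {R S : Type*} [CommRing R] [CommRing S] (φ : R →+* S)
    (Q : MvPolynomial (Fin n) R) (i : Fin (Mo n k).card) :
    cf k (MvPolynomial.map φ Q) i = φ (cf k Q i) := by
  simp only [cf, coeff_map]

theorem eval_cf {R : Type*} [CommRing R] {Q : MvPolynomial (Fin n) R} (hQ : Q.IsHomogeneous k)
    (X : Fin n → R) : eval X Q = ∑ i, cf k Q i * ver k X i := by
  conv_lhs => rw [← uncf_cf hQ]
  simp only [uncf, map_sum, eval_monomial, ver]
  refine Finset.sum_congr rfl fun i _ => ?_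
  rw [Finsupp.prod_fintype _ _ (fun l => pow_zero _)]
  simp only [Finsupp.equivFunOnFinite_symm_apply_apply]

theorem ver_single {R : Type*} [CommSemiring R] (X : Fin n → R) (l : Fin n) :
    ∃ i, ver k X i = X l ^ k := by
  obtain ⟨i, hi⟩ := mo_surj (n := n) (k := k) (m := Pi.single l k) (by simp)
  refine ⟨i, ?_⟩
  simp only [ver, hi]
  rw [Finset.prod_eq_single l]
  · simp
  · intro j _ hj
    simp [hj]
  · intro h
    exact absurd (Finset.mem_univ _) h

theorem ver_sup {K : Type*} [Field K] (v : AbsoluteValue K ℝ) {X : Fin n → K} (hX : X ≠ 0) :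
    (⨆ i, v (ver k X i)) = (⨆ l, v (X l)) ^ k := by
  obtain ⟨l₀, -⟩ := Function.ne_iff.1 hX
  have : Nonempty (Fin n) := ⟨l₀⟩
  obtain ⟨i₀, -⟩ := ver_single (k := k) X l₀
  have : Nonempty (Fin (Mo n k).card) := ⟨i₀⟩
  have hb : BddAbove (Set.range fun l => v (X l)) := Set.finite_range _ |>.bddAbove
  have hb' : BddAbove (Set.range fun i => v (ver k X i)) := Set.finite_range _ |>.bddAbove
  refine le_antisymm (ciSup_le fun i => ?_) ?_
  · have h1 : v (ver k X i) = ∏ l, v (X l) ^ mo n k i l := by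
      simp only [ver, map_prod, map_pow]
    rw [h1]
    calc ∏ l, v (X l) ^ mo n k i l ≤ ∏ l, (⨆ l, v (X l)) ^ mo n k i l :=
          Finset.prod_le_prod (fun l _ => pow_nonneg (v.nonneg _) _)
            (fun l _ => pow_le_pow_left₀ (v.nonneg _) (le_ciSup hb l) _)
      _ = (⨆ l, v (X l)) ^ k := by rw [Finset.prod_pow_eq_pow_sum, mo_sum]
  · obtain ⟨l₁, hl₁⟩ := exists_eq_ciSup_of_finite (f := fun l => v (X l))
    obtain ⟨i₁, hi₁⟩ := ver_single (k := k) X l₁
    rw [← hl₁, ← map_pow, ← hi₁]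
    exact le_ciSup hb' i₁

theorem ver_ne {K : Type*} [Field K] {X : Fin n → K} (hX : X ≠ 0) : ver k X ≠ 0 := by
  obtain ⟨l₀, hl₀⟩ := Function.ne_iff.1 hX
  obtain ⟨i₀, hi₀⟩ := ver_single (k := k) X l₀
  intro h
  rw [h] at hi₀
  exact pow_ne_zero k hl₀ hi₀.symm

theorem ver_height {K : Type u} [Field K] [NumberField K] {X : Fin n → K} (hX : X ≠ 0) :
    logHeight (ver k X) = k * logHeight X := by
  obtain ⟨l₀, hl₀⟩ := Function.ne_iff.1 hX
  have : Nonempty (Fin n) := ⟨l₀⟩
  have hp : X ^ k ≠ 0 := fun h => pow_ne_zero k hl₀ (congrFun h l₀)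
  have h1 : ∀ v : AbsoluteValue K ℝ, (⨆ i, v (ver k X i)) = ⨆ l, v ((X ^ k) l) := by
    intro v
    rw [ver_sup v hX, Real.iSup_pow (fun l => v.nonneg _)]
    simp only [Pi.pow_apply, map_pow]
  rw [← logHeight_pow]
  simp only [logHeight_eq_log_mulHeight, mulHeight_eq hp, mulHeight_eq (ver_ne (k := k) hX), h1]

end

end Pool.Agent.Lib.MP_17a322_nt.EF
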