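import Pool.Agent.Lib.MP_17a322_nt.EF.D2
import Pool.Agent.Lib.MP_17a322_nt.EF.V1

/-!
The dimension of the forms of degree `k` on a linear space.
-/

universe u

namespace Pool.Agent.Lib.MP_17a322_nt.EF

open MvPolynomial Height
open Pool.Agent.Lib.MP_17a322_nt.VA
open Pool.Agent.Lib.MP_17a322_nt.SL

/-- The height of a space is the height of its equations. -/
theorem D_dual' {K : Type*} [Field K] [NumberField K] {r g n : ℕ} (hgr : g + r = n)
    (G : Fin g → Fin n → K)
    (hG : LinearIndependent K G) (Y : Fin r → Fin n → K) (hY : LinearIndependent K Y)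
    (hGY : ∀ a b, ∑ l, G a l * Y b l = 0) :
    logHeight (fun e : Fin g ↪o Fin n => (Matrix.of fun a b => G a (e b)).det) =
      logHeight (fun f : Fin r → Fin n => (Matrix.of fun a b => Y a (f b)).det) := by
  obtain rfl : n = r + g := by omega
  exact (D_dual G hG Y hY hGY).1

/-- A nonzero minor: the rows are independent. -/
theorem D_li_of_minor {K : Type*} [Field K] {g n : ℕ} (G : Fin g → Fin n → K) (J : Fin g → Fin n)
    (h : (Matrix.of fun a b => G a (J b)).det ≠ 0) : LinearIndependent K G := by
  have h1 := Matrix.linearIndependent_rows_of_det_ne_zero h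
  have h2 : (fun i => (Matrix.of fun a b => G a (J b)) i) =
      (LinearMap.funLeft K K J) ∘ G := by
    funext a b
    rfl
  rw [h2] at h1
  exact LinearIndependent.of_comp _ h1

/-- A basis of the kernel. -/
theorem D_ker {K : Type*} [Field K] {r g n : ℕ} (hgr : g + r = n) (G : Fin g → Fin n → K)
    (hG : LinearIndependent K G) :
    ∃ Y : Fin r → Fin n → K, LinearIndependent K Y ∧ (∀ a b, ∑ l, G a l * Y b l = 0) ∧
      (∀ x : Fin n → K, (∀ a, ∑ l, G a l * x l = 0) → x ∈ Submodule.span K (Set.range Y)) ∧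
      ∀ (m : ℕ) (Z : Fin m → Fin n → K), LinearIndependent K Z →
        (∀ a b, ∑ l, G a l * Z b l = 0) → m ≤ r := by
  classical
  obtain ⟨φ, hφ⟩ : ∃ φ : (Fin n → K) →ₗ[K] (Fin g → K), φ = Matrix.mulVecLin (Matrix.of G) :=
    ⟨_, rfl⟩
  have hφa : ∀ x a, φ x a = ∑ l, G a l * x l := fun x a => by
    rw [hφ]
    rfl
  have hmem : ∀ x, x ∈ LinearMap.ker φ ↔ ∀ a, ∑ l, G a l * x l = 0 := by
    intro x
    rw [LinearMap.mem_ker]
    constructor
    · intro h a
      rw [← hφa, h]
      rfl
    · intro h
      funext a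
      rw [hφa, h a]
      rfl
  have hrk : Module.finrank K (LinearMap.range φ) = g := by
    have h1 : LinearIndependent K (Matrix.of G).row := hG
    have h2 := h1.rank_matrix
    rw [Fintype.card_fin] at h2
    rw [hφ]
    exact h2
  have hker : Module.finrank K (LinearMap.ker φ) = r := by
    have h1 := LinearMap.finrank_range_add_finrank_ker φ
    rw [hrk, Module.finrank_fintype_fun_eq_card, Fintype.card_fin] at h1
    omega
  obtain ⟨b, -⟩ : ∃ b : Module.Basis (Fin r) K (LinearMap.ker φ), True :=
    ⟨Module.finBasisOfFinrankEq K _ hker, trivial⟩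
  refine ⟨fun j => (b j : Fin n → K), ?_, fun a j => (hmem _).1 (b j).2 a, fun x hx => ?_,
    fun m Z hZ hGZ => ?_⟩
  · exact b.linearIndependent.map' (LinearMap.ker φ).subtype (Submodule.ker_subtype _)
  · have h1 := b.mem_span ⟨x, (hmem x).2 hx⟩
    have h2 := Submodule.mem_map_of_mem (f := (LinearMap.ker φ).subtype) h1
    rw [Submodule.map_span, ← Set.range_comp] at h2
    exact h2
  · have h1 : Submodule.span K (Set.range Z) ≤ LinearMap.ker φ := by
      rw [Submodule.span_le]
      rintro _ ⟨j, rfl⟩
      exact (hmem _).2 fun a => hGZ a j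
    have h2 := Submodule.finrank_mono h1
    rwa [finrank_span_eq_card hZ, Fintype.card_fin, hker] at h2

/-- The forms of degree `k` in `r` variables. -/
theorem D_finrank {L : Type*} [Field L] (r k : ℕ) :
    Module.finrank L (homogeneousSubmodule (Fin r) L k) ≤ (Mo r k).card := by
  obtain ⟨e, -⟩ := cf_equiv r k L
  rw [e.finrank_eq, Module.finrank_fintype_fun_eq_card, Fintype.card_fin]

/-- The forms of degree `k` modulo linear forms. -/
theorem D_rk_le {L : Type*} [Field L] {r g n : ℕ} (hgr : g + r = n) (G : Fin g → Fin n → L)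
    (hG : LinearIndependent L G) (k : ℕ) :
    rk (Ideal.span (Set.range fun a => (∑ l, C (G a l) * X l : MvPolynomial (Fin n) L))) k ≤
      (Mo r k).card := by
  classical
  obtain ⟨Y, -, -, hYs, -⟩ := D_ker hgr G hG
  obtain ⟨B, hB⟩ := Z_rinv hG
  obtain ⟨I, hI⟩ : ∃ I : Ideal (MvPolynomial (Fin n) L), I =
    Ideal.span (Set.range fun a => (∑ l, C (G a l) * X l : MvPolynomial (Fin n) L)) := ⟨_, rfl⟩
  rw [← hI]
  have hGI : ∀ a, (∑ l, C (G a l) * X l : MvPolynomial (Fin n) L) ∈ I := fun a => by
    rw [hI]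
    exact Ideal.subset_span ⟨a, rfl⟩
  -- the coordinates
  have hc : ∀ l, ∃ c : Fin r → L, ∀ m, (if l = m then (1 : L) else 0) =
      ∑ j, c j * Y j m + ∑ a, G a l * B a m := by
    intro l
    have h1 : (fun m => (if l = m then (1 : L) else 0) - ∑ a, G a l * B a m) ∈
        Submodule.span L (Set.range Y) := by
      refine hYs _ fun b => ?_
      simp only [mul_sub, Finset.sum_sub_distrib]
      have h2 : ∑ m, G b m * (if l = m then (1 : L) else 0) = G b l := by
        rw [Finset.sum_eq_single l]
        · rw [if_pos rfl, mul_one]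
        · intro m _ hm
          rw [if_neg (Ne.symm hm), mul_zero]
        · intro h
          exact absurd (Finset.mem_univ _) h
      have h3 : ∑ m, G b m * ∑ a, G a l * B a m = G b l := by
        have h4 : ∀ m, G b m * ∑ a, G a l * B a m = ∑ a, G a l * (G b m * B a m) := fun m => by
          rw [Finset.mul_sum]
          exact Finset.sum_congr rfl fun a _ => by ring
        rw [Finset.sum_congr rfl fun m _ => h4 m, Finset.sum_comm]
        have h5 : ∀ a, ∑ m, G a l * (G b m * B a m) = G a l * if b = a then 1 else 0 := fun a => by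
          rw [← Finset.mul_sum, hB]
        rw [Finset.sum_congr rfl fun a _ => h5 a, Finset.sum_eq_single b]
        · rw [if_pos rfl, mul_one]
        · intro a _ ha
          rw [if_neg (Ne.symm ha), mul_zero]
        · intro h
          exact absurd (Finset.mem_univ _) h
      rw [h2, h3, sub_self]
    rw [Submodule.mem_span_range_iff_exists_fun] at h1
    obtain ⟨c, hc⟩ := h1
    refine ⟨c, fun m => ?_⟩
    have h2 := congrFun hc m
    rw [Finset.sum_apply] at h2
    simp only [Pi.smul_apply, smul_eq_mul] at h2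
    rw [h2, sub_add_cancel]
  choose c hc using hc
  obtain ⟨φ, hφ⟩ : ∃ φ : MvPolynomial (Fin n) L →ₐ[L] MvPolynomial (Fin r) L,
    φ = aeval fun m => ∑ j, C (Y j m) * X j := ⟨_, rfl⟩
  obtain ⟨ψ, hψ⟩ : ∃ ψ : MvPolynomial (Fin r) L →ₐ[L] MvPolynomial (Fin n) L,
    ψ = aeval fun j => ∑ l, C (c l j) * X l := ⟨_, rfl⟩
  have hcomp : (Ideal.Quotient.mkₐ L I) = ((Ideal.Quotient.mkₐ L I).comp ψ).comp φ := by
    apply MvPolynomial.algHom_ext
    intro m
    rw [AlgHom.comp_apply, AlgHom.comp_apply, hφ, aeval_X, map_sum]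
    have h1 : ∀ j, ψ (C (Y j m) * X j) = C (Y j m) * ∑ l, C (c l j) * X l := fun j => by
      rw [map_mul, algHom_C, MvPolynomial.algebraMap_eq, hψ, aeval_X]
    rw [Finset.sum_congr rfl fun j _ => h1 j]
    have h2 : (X m : MvPolynomial (Fin n) L) - ∑ j, C (Y j m) * ∑ l, C (c l j) * X l =
        ∑ a, C (B a m) * ∑ l, C (G a l) * X l := by
      have h3 : (X m : MvPolynomial (Fin n) L) = ∑ l, C (if l = m then (1 : L) else 0) * X l := by
        rw [Finset.sum_eq_single m]
        · rw [if_pos rfl, C_1, one_mul]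
        · intro l _ hl
          rw [if_neg hl, C_0, zero_mul]
        · intro h
          exact absurd (Finset.mem_univ _) h
      have h4 : ∀ l, (C (if l = m then (1 : L) else 0) * X l : MvPolynomial (Fin n) L) =
          ∑ j, C (Y j m) * (C (c l j) * X l) + ∑ a, C (B a m) * (C (G a l) * X l) := fun l => by
        rw [hc l m, C_add, map_sum, map_sum, add_mul, Finset.sum_mul, Finset.sum_mul]
        congr 1
        · refine Finset.sum_congr rfl fun j _ => ?_
          rw [C_mul]
          ring
        · refine Finset.sum_congr rfl fun a _ => ?_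
          rw [C_mul]
          ring
      rw [h3, Finset.sum_congr rfl fun l _ => h4 l, Finset.sum_add_distrib, Finset.sum_comm,
        Finset.sum_comm (f := fun l a => C (B a m) * (C (G a l) * X l))]
      simp only [Finset.mul_sum]
      rw [add_sub_cancel_left]
    rw [← sub_eq_zero, ← map_sub, h2]
    show Ideal.Quotient.mk I _ = 0
    rw [Ideal.Quotient.eq_zero_iff_mem]
    exact I.sum_mem fun a _ => I.mul_mem_left _ (hGI a)
  -- the image
  have hφh : ∀ f ∈ homogeneousSubmodule (Fin n) L k, φ f ∈ homogeneousSubmodule (Fin r) L k := by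
    intro f hf
    rw [mem_homogeneousSubmodule] at hf ⊢
    have h1 := hf.aeval (fun m => ∑ j, C (Y j m) * (X j : MvPolynomial (Fin r) L)) (n := 1)
      fun m => IsHomogeneous.sum _ _ _ fun j _ => by
        have h2 := (isHomogeneous_C (Fin r) (Y j m)).mul (isHomogeneous_X L j)
        rwa [zero_add] at h2
    rw [one_mul] at h1
    rw [hφ]
    exact h1
  unfold rk
  have hle : (homogeneousSubmodule (Fin n) L k).map (Ideal.Quotient.mkₐ L I).toLinearMap ≤
      (homogeneousSubmodule (Fin r) L k).map
        ((Ideal.Quotient.mkₐ L I).comp ψ).toLinearMap := by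
    rintro _ ⟨f, hf, rfl⟩
    refine ⟨φ f, hφh f hf, ?_⟩
    have h1 := congrArg (fun Φ : MvPolynomial (Fin n) L →ₐ[L] _ => Φ f) hcomp
    exact h1.symm
  have hfin : Module.Finite L (homogeneousSubmodule (Fin r) L k) :=
    Module.Finite.iff_fg.2 (homogeneousSubmodule_fg (Fin r) L k)
  refine (Submodule.finrank_mono hle).trans (le_trans ?_ (D_finrank (L := L) r k))
  exact Submodule.finrank_map_le _ _

end Pool.Agent.Lib.MP_17a322_nt.EF
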