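import Pool.Agent.Lib.MP_17a322_nt.EF.Defs

/-!
The ideal of the fibre is homogeneous; coefficients of products.
-/

universe u

namespace Pool.Agent.Lib.MP_17a322_nt.EF

open MvPolynomial Height
open Pool.Agent.Lib.MP_17a322_nt.VA
open Pool.Agent.Lib.MP_17a322_nt.SL

section

attribute [local instance] MvPolynomial.gradedAlgebra

theorem R1_span {L : Type*} [Field L] {n : ℕ} {S : Set (MvPolynomial (Fin n) L)}
    (hS : ∀ f ∈ S, ∃ d, f.IsHomogeneous d) :
    ∀ f ∈ Ideal.span S, ∀ k, homogeneousComponent k f ∈ Ideal.span S := by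
  intro f hf k
  refine homogeneousComponent_mem_of_mem (Ideal.homogeneous_span _ _ fun x hx => ?_) hf k
  obtain ⟨d, hd⟩ := hS x hx
  exact ⟨d, hd⟩

end

section

variable {K : Type u} [Field K] {N : ℕ} (A : AV K N) {n m s : ℕ}

theorem R1_fib (H : Fin m → MvPolynomial (Fin n) (MvPolynomial (Fin (N + 1)) K))
    (hH : ∀ i, ∃ a b : ℕ, BH a b (H i)) {L : Type u} [Field L] [Algebra K L] (P : A.Pts L) :
    ∀ f ∈ fib A H P, ∀ k, homogeneousComponent k f ∈ fib A H P := by
  refine R1_span ?_
  rintro _ ⟨i, rfl⟩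
  obtain ⟨a, b, hab⟩ := hH i
  exact ⟨b, hab.1.map _⟩

end

section

variable {L : Type*} [CommRing L] {n : ℕ}

theorem R1_mo {k : ℕ} (i : Fin (Mo n k).card) : ∑ l, mo n k i l = k := by
  have h1 := ((Mo n k).equivFin.symm i).2
  exact (Finset.mem_piAntidiag.1 h1).1

/-- Every exponent of degree `k` is in the list. -/
theorem R1_mo_surj {k : ℕ} {μ : Fin n → ℕ} (h : ∑ l, μ l = k) :
    ∃ i : Fin (Mo n k).card, mo n k i = μ := by
  have h1 : μ ∈ Mo n k := by
    unfold Mo
    rw [Finset.mem_piAntidiag]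
    exact ⟨h, fun i _ => Finset.mem_univ i⟩
  refine ⟨(Mo n k).equivFin ⟨μ, h1⟩, ?_⟩
  unfold mo
  rw [Equiv.symm_apply_apply]

/-- `cf` as a linear map. -/
noncomputable def cfl (L : Type*) [CommRing L] (n k : ℕ) :
    MvPolynomial (Fin n) L →ₗ[L] (Fin (Mo n k).card → L) :=
  LinearMap.pi fun i => lcoeff L (Finsupp.equivFunOnFinite.symm (mo n k i))

theorem cfl_apply (k : ℕ) (f : MvPolynomial (Fin n) L) : cfl L n k f = cf k f := rfl

/-- The monomial with exponent `mo n k i`. -/
noncomputable def mn (L : Type*) [CommRing L] (n k : ℕ) (i : Fin (Mo n k).card) :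
    MvPolynomial (Fin n) L :=
  ∏ l, X l ^ mo n k i l

theorem R1_mon (μ : Fin n →₀ ℕ) (c : L) :
    monomial μ c = C c * ∏ l, (X l : MvPolynomial (Fin n) L) ^ μ l := by
  rw [monomial_eq]
  congr 1
  exact Finsupp.prod_fintype _ _ fun i => pow_zero _

/-- The coefficients of a product with a form. -/
theorem R1_cf_mul {k b : ℕ} {h : MvPolynomial (Fin n) L} (hh : h.IsHomogeneous b) (hbk : b ≤ k)
    (g : MvPolynomial (Fin n) L) :
    cf k (g * h) ∈ Submodule.span L (Set.range fun i : Fin (Mo n (k - b)).card =>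
      cf k (mn L n (k - b) i * h)) := by
  classical
  rw [← cfl_apply]
  induction g using MvPolynomial.induction_on' with
  | add p q hp hq =>
    rw [add_mul, map_add]
    exact Submodule.add_mem _ hp hq
  | monomial μ c =>
    by_cases hμ : ∑ l, μ l = k - b
    · obtain ⟨i, hi⟩ := R1_mo_surj (k := k - b) (μ := fun l => μ l) hμ
      have h1 : monomial μ c * h = c • (mn L n (k - b) i * h) := by
        rw [R1_mon, mn, hi, smul_eq_C_mul, mul_assoc]
      rw [h1, map_smul]
      exact Submodule.smul_mem _ _ (Submodule.subset_span ⟨i, rfl⟩)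
    · have h1 : (monomial μ c * h).IsHomogeneous ((∑ l, μ l) + b) := by
        refine IsHomogeneous.mul (isHomogeneous_monomial c ?_) hh
        rw [Finsupp.degree_eq_sum]
      have h2 : cfl L n k (monomial μ c * h) = 0 := by
        funext i
        show coeff (Finsupp.equivFunOnFinite.symm (mo n k i)) (monomial μ c * h) = 0
        refine h1.coeff_eq_zero ?_
        rw [Finsupp.degree_eq_sum]
        intro h3
        have h4 : ∑ l, (Finsupp.equivFunOnFinite.symm (mo n k i)) l = k := R1_mo i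
        omega
      rw [h2]
      exact Submodule.zero_mem _

end

end Pool.Agent.Lib.MP_17a322_nt.EF
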