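import Pool.Agent.Lib.MP_17a322_nt.EF.T1
import Pool.Agent.Lib.MP_17a322_nt.EF.V1
import Pool.Agent.Lib.MP_17a322_nt.EF.R1

/-!
The forms of degree `k` in the ideal of the generic fibre.
-/

universe u

namespace Pool.Agent.Lib.MP_17a322_nt.EF

open MvPolynomial Height
open Pool.Agent.Lib.MP_17a322_nt.VA
open Pool.Agent.Lib.MP_17a322_nt.SL

section

variable {L : Type*} [CommRing L] {n : ℕ}

theorem T2_mn_hom {k : ℕ} (i : Fin (Mo n k).card) : (mn L n k i).IsHomogeneous k := by
  have h := IsHomogeneous.prod Finset.univ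
    (fun l => (X l : MvPolynomial (Fin n) L) ^ mo n k i l) (fun l => mo n k i l) (fun l _ => by
      have h1 := (isHomogeneous_X L l).pow (mo n k i l)
      rwa [one_mul] at h1)
  rwa [R1_mo] at h

/-- A multiple of a form has no coefficients of smaller degree. -/
theorem T2_cf_zero {k b : ℕ} {h : MvPolynomial (Fin n) L} (hh : h.IsHomogeneous b) (hbk : k < b)
    (g : MvPolynomial (Fin n) L) : cf k (g * h) = 0 := by
  classical
  rw [← cfl_apply]
  induction g using MvPolynomial.induction_on' with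
  | add p q hp hq => rw [add_mul, map_add, hp, hq, add_zero]
  | monomial μ c =>
    have h1 : (monomial μ c * h).IsHomogeneous ((∑ l, μ l) + b) := by
      refine IsHomogeneous.mul (isHomogeneous_monomial c ?_) hh
      rw [Finsupp.degree_eq_sum]
    funext i
    show coeff (Finsupp.equivFunOnFinite.symm (mo n k i)) (monomial μ c * h) = 0
    refine h1.coeff_eq_zero ?_
    rw [Finsupp.degree_eq_sum]
    intro h3
    have h4 : ∑ l, (Finsupp.equivFunOnFinite.symm (mo n k i)) l = k := R1_mo i
    omega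

end

section

variable {L : Type*} [Field L] {n m : ℕ}

/-- The forms of degree `k` of the ideal generated by the forms `h i`. -/
theorem T2_mem {k : ℕ} (h : Fin m → MvPolynomial (Fin n) L) (b : Fin m → ℕ)
    (hb : ∀ i, (h i).IsHomogeneous (b i)) (c : Fin m → L) (hc : ∀ i, c i ≠ 0)
    {f : MvPolynomial (Fin n) L} (hf : f.IsHomogeneous k) :
    f ∈ Ideal.span (Set.range h) ↔ cf k f ∈ Submodule.span L
      (Set.range fun p : (Σ i : {i : Fin m // b i ≤ k}, Fin (Mo n (k - b i.1)).card) =>
        cf k (C (c p.1.1) * (mn L n (k - b p.1.1) p.2 * h p.1.1))) := by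
  classical
  constructor
  · intro hfI
    rw [Ideal.mem_span_range_iff_exists_fun] at hfI
    obtain ⟨g, hg⟩ := hfI
    rw [← hg, ← cfl_apply, map_sum]
    refine Submodule.sum_mem _ fun i _ => ?_
    rw [cfl_apply]
    by_cases hi : b i ≤ k
    · refine Submodule.span_le.2 ?_ (R1_cf_mul (hb i) hi (g i))
      rintro _ ⟨q, rfl⟩
      have h1 : cf k (mn L n (k - b i) q * h i) =
          (c i)⁻¹ • cf k (C (c i) * (mn L n (k - b i) q * h i)) := by
        rw [← cfl_apply, ← cfl_apply, ← map_smul, smul_eq_C_mul, ← mul_assoc, ← C_mul,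
          inv_mul_cancel₀ (hc i), C_1, one_mul]
      show cf k (mn L n (k - b i) q * h i) ∈ _
      rw [h1]
      exact Submodule.smul_mem _ _ (Submodule.subset_span ⟨⟨⟨i, hi⟩, q⟩, rfl⟩)
    · rw [T2_cf_zero (hb i) (not_le.1 hi)]
      exact Submodule.zero_mem _
  · intro hfV
    rw [Submodule.mem_span_range_iff_exists_fun] at hfV
    obtain ⟨d, hd⟩ := hfV
    have h1 : (∑ p, d p • (C (c p.1.1) * (mn L n (k - b p.1.1) p.2 * h p.1.1)) :
        MvPolynomial (Fin n) L).IsHomogeneous k := by
      refine IsHomogeneous.sum _ _ _ fun p _ => ?_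
      rw [smul_eq_C_mul]
      refine IsHomogeneous.C_mul (IsHomogeneous.C_mul ?_ _) _
      have h2 := (T2_mn_hom (L := L) p.2).mul (hb p.1.1)
      rwa [Nat.sub_add_cancel p.1.2] at h2
    have h2 : f = ∑ p, d p • (C (c p.1.1) * (mn L n (k - b p.1.1) p.2 * h p.1.1)) := by
      rw [← uncf_cf hf, ← uncf_cf h1, ← hd]
      congr 1
      rw [← cfl_apply, map_sum]
      exact Finset.sum_congr rfl fun p _ => by rw [map_smul, cfl_apply]
    rw [h2]
    refine Submodule.sum_mem _ fun p _ => ?_
    rw [smul_eq_C_mul]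
    exact Ideal.mul_mem_left _ _ (Ideal.mul_mem_left _ _ (Ideal.mul_mem_left _ _
      (Ideal.subset_span ⟨p.1.1, rfl⟩)))

end

section

variable {K : Type u} [Field K] {N : ℕ} (A : AV K N) {n m : ℕ}

theorem T_rows (H : Fin m → MvPolynomial (Fin n) (MvPolynomial (Fin (N + 1)) K))
    (hH : ∀ i, ∃ a b : ℕ, BH a b (H i)) (k : ℕ) :
    ∃ (g' : ℕ) (G' : Matrix (Fin g') (Fin (Mo n k).card) (MvPolynomial (Fin (N + 1)) K)),
      IsRows A H k G' := by
  classical
  obtain ⟨L₀, _, _, _, P₀, hP₀⟩ := T_gen A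
  obtain ⟨a, ha⟩ : ∃ a, A.x P₀ a ≠ 0 := by
    by_contra hcon
    push Not at hcon
    exact Z_x_ne A P₀ (funext hcon)
  have ha' : ∀ (L : Type u) [Field L] [Algebra K L] (P : A.Pts L), Gen A P → A.x P a ≠ 0 := by
    intro L _ _ P hP h0
    apply ha
    have h1 := hP (X a) 1 (isHomogeneous_X _ _) (by rwa [aeval_X])
    have h2 := Z_x_isPt A P₀ _ h1
    rwa [aeval_X] at h2
  choose aa bb hab using hH
  obtain ⟨D', hD'⟩ : ∃ D' : ℕ, ∀ i, aa i ≤ D' :=
    ⟨∑ i, aa i, fun i => Finset.single_le_sum (fun _ _ => Nat.zero_le _) (Finset.mem_univ i)⟩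
  obtain ⟨W, hW⟩ : ∃ W : (Σ i : {i : Fin m // bb i ≤ k}, Fin (Mo n (k - bb i.1)).card) →
      MvPolynomial (Fin n) (MvPolynomial (Fin (N + 1)) K), ∀ p, W p =
        C (X a ^ (D' - aa p.1.1)) * (mn (MvPolynomial (Fin (N + 1)) K) n (k - bb p.1.1) p.2 *
          H p.1.1) := ⟨_, fun p => rfl⟩
  have hWh : ∀ p, (W p).IsHomogeneous k := by
    intro p
    rw [hW]
    refine IsHomogeneous.C_mul ?_ _
    have h2 := (T2_mn_hom (L := MvPolynomial (Fin (N + 1)) K) p.2).mul (hab p.1.1).1
    rwa [Nat.sub_add_cancel p.1.2] at h2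
  have hw : ∀ p l, (cf k (W p) l).IsHomogeneous D' := by
    intro p l
    unfold cf
    rw [hW, coeff_C_mul]
    have h1 : mn (MvPolynomial (Fin (N + 1)) K) n (k - bb p.1.1) p.2 =
        monomial (Finsupp.equivFunOnFinite.symm (mo n (k - bb p.1.1) p.2)) 1 := by
      rw [R1_mon, C_1, one_mul]
      rfl
    rw [h1, coeff_monomial_mul']
    have h2 : (X a ^ (D' - aa p.1.1) : MvPolynomial (Fin (N + 1)) K).IsHomogeneous
        (D' - aa p.1.1) := by
      have h3 := (isHomogeneous_X K a).pow (D' - aa p.1.1)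
      rwa [one_mul] at h3
    split_ifs with h3
    · rw [one_mul]
      have h4 := h2.mul ((hab p.1.1).2 (Finsupp.equivFunOnFinite.symm (mo n k l) -
        Finsupp.equivFunOnFinite.symm (mo n (k - bb p.1.1) p.2)))
      rwa [Nat.sub_add_cancel (hD' _)] at h4
    · rw [mul_zero]
      exact isHomogeneous_zero _ _ _
  have hsp : ∀ (L : Type u) [Field L] [Algebra K L] (P : A.Pts L) p, sp A P (W p) =
      C (A.x P a ^ (D' - aa p.1.1)) * (mn L n (k - bb p.1.1) p.2 * sp A P (H p.1.1)) := by
    intro L _ _ P p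
    have h1 : MvPolynomial.map (aeval (A.x P)).toRingHom
        (mn (MvPolynomial (Fin (N + 1)) K) n (k - bb p.1.1) p.2) =
        mn L n (k - bb p.1.1) p.2 := by
      unfold mn
      rw [map_prod]
      refine Finset.prod_congr rfl ?_
      intro l _
      rw [map_pow, MvPolynomial.map_X]
    have h2 : (aeval (A.x P)).toRingHom
        (X a ^ (D' - aa p.1.1) : MvPolynomial (Fin (N + 1)) K) = A.x P a ^ (D' - aa p.1.1) := by
      show aeval (A.x P) (X a ^ (D' - aa p.1.1) : MvPolynomial (Fin (N + 1)) K) = _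
      rw [map_pow, aeval_X]
    unfold sp
    rw [hW, map_mul, map_mul, map_C, h1, h2]
  have hcf : ∀ (L : Type u) [Field L] [Algebra K L] (P : A.Pts L) p,
      (fun l => aeval (A.x P) (cf k (W p) l)) = cf k (sp A P (W p)) := by
    intro L _ _ P p
    funext l
    exact (cf_map _ _ _).symm
  obtain ⟨κ, j, hj, hspan, hli⟩ := exists_linearIndependent' (K := L₀)
    (fun p l => aeval (A.x P₀) (cf k (W p) l))
  have hκ : Finite κ := Finite.of_injective j hj
  obtain ⟨g', ⟨e⟩⟩ : ∃ g' : ℕ, Nonempty (Fin g' ≃ κ) := ⟨Nat.card κ, ⟨(Finite.equivFin κ).symm⟩⟩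
  refine ⟨g', Matrix.of fun t l => cf k (W (j (e t))) l, ⟨D', fun t l => hw _ _⟩, ?_, ?_⟩
  · intro L _ _ P hP
    refine ⟨?_, ?_⟩
    · exact T_li A (fun t l => cf k (W (j (e t))) l) (fun _ => D') (fun t l => hw _ _) P₀ P hP₀ hP
        (hli.comp e e.injective)
    · intro f hf
      have h1 := T2_mem (k := k) (fun i => sp A P (H i)) bb (fun i => (hab i).1.map _)
        (fun i => A.x P a ^ (D' - aa i)) (fun i => pow_ne_zero _ (ha' L P hP)) hf
      rw [show fib A H P = Ideal.span (Set.range fun i => sp A P (H i)) from rfl, h1]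
      have h2 : Submodule.span L
          (Set.range fun p : (Σ i : {i : Fin m // bb i ≤ k}, Fin (Mo n (k - bb i.1)).card) =>
            cf k (C (A.x P a ^ (D' - aa p.1.1)) *
              (mn L n (k - bb p.1.1) p.2 * sp A P (H p.1.1)))) =
          Submodule.span L (Set.range fun t l =>
            aeval (A.x P) (Matrix.of (fun t l => cf k (W (j (e t))) l) t l)) := by
        apply le_antisymm
        · rw [Submodule.span_le]
          rintro _ ⟨p, rfl⟩
          show cf k _ ∈ _
          rw [← hsp, ← hcf]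
          refine T_span A (fun t l => cf k (W (j (e t))) l) (fun _ => D') (fun t l => hw _ _)
            (fun l => cf k (W p) l) D' (fun l => hw _ _) P₀ P hP₀ hP ?_
          have h3 : (fun l => aeval (A.x P₀) (cf k (W p) l)) ∈ Submodule.span L₀
              (Set.range fun p l => aeval (A.x P₀) (cf k (W p) l)) :=
            Submodule.subset_span ⟨p, rfl⟩
          rw [← hspan] at h3
          refine Submodule.span_mono ?_ h3
          rintro _ ⟨q, rfl⟩
          refine ⟨e.symm q, ?_⟩
          simp only [Equiv.apply_symm_apply, Function.comp_apply]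
        · rw [Submodule.span_le]
          rintro _ ⟨t, rfl⟩
          refine Submodule.subset_span ⟨j (e t), ?_⟩
          show cf k _ = fun l => aeval (A.x P) (cf k (W (j (e t))) l)
          rw [← hsp, ← hcf]
      rw [h2]
  · intro L _ _ P X₀ hX i
    show ∑ l, aeval (A.x P) (cf k (W (j (e i))) l) * ver k X₀ l = 0
    have h1 := congrFun (hcf L P (j (e i)))
    have h2 : (sp A P (W (j (e i)))).IsHomogeneous k := (hWh _).map _
    rw [Finset.sum_congr rfl fun l _ => by rw [h1 l], ← eval_cf h2, hsp,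
      map_mul, map_mul, hX, mul_zero, mul_zero]

theorem T_rk (H : Fin m → MvPolynomial (Fin n) (MvPolynomial (Fin (N + 1)) K)) (k : ℕ) {g' : ℕ}
    (G' : Matrix (Fin g') (Fin (Mo n k).card) (MvPolynomial (Fin (N + 1)) K))
    (hG' : IsRows A H k G') {L : Type u} [Field L] [Algebra K L] (P : A.Pts L) (hP : Gen A P) :
    g' + rk (fib A H P) k = (Mo n k).card := by
  classical
  obtain ⟨-, hG, -⟩ := hG'
  obtain ⟨hli, hmem⟩ := hG L P hP
  obtain ⟨e, he⟩ := cf_equiv n k L
  have : FiniteDimensional L (homogeneousSubmodule (Fin n) L k) := Module.Finite.equiv e.symm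
  have h1 := LinearMap.finrank_range_add_finrank_ker
    ((Ideal.Quotient.mkₐ L (fib A H P)).toLinearMap.domRestrict (homogeneousSubmodule (Fin n) L k))
  rw [LinearMap.range_domRestrict, e.finrank_eq, Module.finrank_fin_fun] at h1
  have h2 : (LinearMap.ker ((Ideal.Quotient.mkₐ L (fib A H P)).toLinearMap.domRestrict
      (homogeneousSubmodule (Fin n) L k))).map (e : homogeneousSubmodule (Fin n) L k →ₗ[L] _) =
      Submodule.span L (Set.range fun i l => aeval (A.x P) (G' i l)) := by
    ext y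
    rw [Submodule.mem_map]
    constructor
    · rintro ⟨Q, hQ, rfl⟩
      rw [LinearMap.mem_ker, LinearMap.domRestrict_apply] at hQ
      have h3 : (Q : MvPolynomial (Fin n) L) ∈ fib A H P := Ideal.Quotient.eq_zero_iff_mem.1 hQ
      show e Q ∈ _
      rw [he]
      exact (hmem _ ((mem_homogeneousSubmodule _ _).1 Q.2)).1 h3
    · intro hy
      refine ⟨e.symm y, ?_, e.apply_symm_apply y⟩
      rw [LinearMap.mem_ker, LinearMap.domRestrict_apply]
      refine Ideal.Quotient.eq_zero_iff_mem.2 ?_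
      refine (hmem _ ((mem_homogeneousSubmodule _ _).1 (e.symm y).2)).2 ?_
      rw [← he, e.apply_symm_apply]
      exact hy
  have h3 := LinearEquiv.finrank_map_eq e (LinearMap.ker
    ((Ideal.Quotient.mkₐ L (fib A H P)).toLinearMap.domRestrict
      (homogeneousSubmodule (Fin n) L k)))
  rw [h2, finrank_span_eq_card hli, Fintype.card_fin] at h3
  rw [← h3] at h1
  unfold rk
  rw [add_comm]
  exact h1

end

end Pool.Agent.Lib.MP_17a322_nt.EF
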