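import Pool.Agent.Lib.MP_17a322_nt.EF.D4
import Pool.Agent.Lib.MP_17a322_nt.EF.D1c
import Pool.Agent.Lib.MP_17a322_nt.EF.T2
import Pool.Agent.Lib.MP_17a322_nt.SL.CE

/-!
The height of the symmetric power of a bundle.
-/

universe u

namespace Pool.Agent.Lib.MP_17a322_nt.EF

open MvPolynomial Height
open Pool.Agent.Lib.MP_17a322_nt.VA
open Pool.Agent.Lib.MP_17a322_nt.SL

section

variable {K : Type u} [Field K] {N : ℕ} (A : AV K N) {n : ℕ}

theorem D_not_mem {L : Type u} [Field L] [Algebra K L] (P : A.Pts L)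
    {R : MvPolynomial (Fin (N + 1)) K} (h : aeval (A.x P) R ≠ 0) : R ∉ A.I :=
  fun hR => h (P.2 R hR)

theorem D_sp_lin {g : ℕ} (G : Matrix (Fin g) (Fin n) (MvPolynomial (Fin (N + 1)) K)) {L : Type u}
    [Field L] [Algebra K L] (P : A.Pts L) (i : Fin g) :
    sp A P (lin G i) = ∑ l, C (aeval (A.x P) (G i l)) * X l := by
  unfold sp lin
  rw [map_sum]
  refine Finset.sum_congr rfl fun l _ => ?_
  rw [map_mul, map_C, map_X]
  rfl

theorem D_eval_lin {g : ℕ} (G : Matrix (Fin g) (Fin n) (MvPolynomial (Fin (N + 1)) K))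
    {L : Type u} [Field L] [Algebra K L] (P : A.Pts L) (i : Fin g) (x : Fin n → L) :
    eval x (sp A P (lin G i)) = ∑ l, aeval (A.x P) (G i l) * x l := by
  rw [D_sp_lin, map_sum]
  refine Finset.sum_congr rfl fun l _ => ?_
  rw [map_mul, eval_C, eval_X]

/-- A minor which does not vanish at generic points. -/
theorem D_minor {g D' : ℕ} (G : Matrix (Fin g) (Fin n) (MvPolynomial (Fin (N + 1)) K))
    (hG : ∀ i l, (G i l).IsHomogeneous D') {L : Type u} [Field L] [Algebra K L] (P : A.Pts L)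
    (hli : LinearIndependent L (fun i l => aeval (A.x P) (G i l))) :
    ∃ (R : MvPolynomial (Fin (N + 1)) K) (J : Fin g → Fin n), R.IsHomogeneous (g * D') ∧
      aeval (A.x P) R ≠ 0 ∧ ∀ P' : A.Pts K, aeval (A.x P') R =
        (Matrix.of fun a b => aeval (A.x P') (G a (J b))).det := by
  obtain ⟨J, hJ⟩ := Z_minor _ hli
  have h1 : ∀ {L' : Type u} [Field L'] [Algebra K L'] (P' : A.Pts L'),
      aeval (A.x P') (Matrix.of fun a b => G a (J b)).det =
        (Matrix.of fun a b => aeval (A.x P') (G a (J b))).det := by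
    intro L' _ _ P'
    rw [AlgHom.map_det]
    rfl
  refine ⟨(Matrix.of fun a b => G a (J b)).det, J, CQ_det_homog fun a b => hG a (J b), ?_,
    fun P' => h1 P'⟩
  rw [h1]
  exact hJ

end

/-- The height of the symmetric power. -/
theorem lin_slope {K : Type u} [Field K] {N : ℕ} (A : AV K N) {n : ℕ} [NumberField K]
    {g r D' : ℕ} (hgr : g + r = n) (hr : 0 < r)
    (G : Matrix (Fin g) (Fin n) (MvPolynomial (Fin (N + 1)) K))
    (hG : ∀ i l, (G i l).IsHomogeneous D')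
    (hG0 : ∀ (L : Type u) [Field L] [Algebra K L] (P : A.Pts L), Gen A P →
      LinearIndependent L (fun i l => aeval (A.x P) (G i l))) (k : ℕ) {g' r' : ℕ}
    (G' : Matrix (Fin g') (Fin (Mo n k).card) (MvPolynomial (Fin (N + 1)) K))
    (hG' : IsRows A (lin G) k G') (hr' : g' + r' = (Mo n k).card) :
    ∃ (R : MvPolynomial (Fin (N + 1)) K) (ρ : ℕ), R.IsHomogeneous ρ ∧ R ∉ A.I ∧
      ∀ P : A.Pts K, aeval (A.x P) R ≠ 0 → (k : ℝ) * r' * hE A G P ≤ r * hE A G' P := by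
  obtain ⟨L, _, _, _, P₀, hP₀⟩ := T_gen A
  have hrows := hG'
  obtain ⟨⟨D'', hD''⟩, hgen, hver⟩ := hG'
  obtain ⟨R₁, J₁, hR₁, hR₁0, hR₁v⟩ := D_minor A G hG P₀ (hG0 L P₀ hP₀)
  obtain ⟨R₂, J₂, hR₂, hR₂0, hR₂v⟩ := D_minor A G' hD'' P₀ (hgen L P₀ hP₀).1
  refine ⟨R₁ * R₂, g * D' + g' * D'', hR₁.mul hR₂, D_not_mem A P₀ ?_, fun P hP => ?_⟩
  · rw [map_mul]
    exact mul_ne_zero hR₁0 hR₂0
  rw [map_mul, hR₁v, hR₂v] at hP
  have hGP := D_li_of_minor (fun i l => aeval (A.x P) (G i l)) J₁ (left_ne_zero_of_mul hP)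
  have hGP' := D_li_of_minor (fun i l => aeval (A.x P) (G' i l)) J₂ (right_ne_zero_of_mul hP)
  obtain ⟨Y, hY, hGY, -, -⟩ := D_ker hgr _ hGP
  obtain ⟨Y', -, -, -, hmax⟩ := D_ker hr' _ hGP'
  have hSli := Sy_li (k := k) (Matrix.of Y) hY
  have hSker : ∀ a b, ∑ l, aeval (A.x P) (G' a l) * Sy k (Matrix.of Y) b l = 0 := by
    intro a b
    exact Sy_fib A G hG G' hD'' (fun L _ _ P X hX => hver L P X fun i => by
      rw [D_eval_lin]
      exact hX i) P (Matrix.of Y) (fun j i => hGY i j) b a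
  have hle1 : (Mo r k).card ≤ r' := hmax _ _ hSli hSker
  have hle2 : r' ≤ (Mo r k).card := by
    have h1 := T_rk A (lin G) k G' hrows P₀ hP₀
    have h2 : rk (fib A (lin G) P₀) k ≤ (Mo r k).card := by
      have h3 := D_rk_le hgr _ (hG0 L P₀ hP₀) k
      unfold fib
      simp only [D_sp_lin]
      exact h3
    omega
  obtain rfl : r' = (Mo r k).card := le_antisymm hle2 hle1
  have hd1 := D_dual' hgr _ hGP Y hY hGY
  have hd2 := D_dual' hr' _ hGP' _ hSli hSker
  have hmain := Sy_ht hr k (Matrix.of Y)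
  have e1 : hE A G P = logHeight (fun f : Fin r → Fin n => (Matrix.of fun a b => Y a (f b)).det) :=
    hd1
  have e2 : hE A G' P = logHeight (fun f : Fin (Mo r k).card → Fin (Mo n k).card =>
      (Matrix.of fun a b => Sy k (Matrix.of Y) a (f b)).det) := hd2
  rw [e1, e2]
  exact hmain

end Pool.Agent.Lib.MP_17a322_nt.EF
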