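import Pool.Agent.Lib.MP_17a322_nt.SL.FDefs

/-!
Moving hypersurfaces over abelian varieties: definitions.
-/

universe u

namespace Pool.Agent.Lib.MP_17a322_nt.EF

open MvPolynomial Height
open Pool.Agent.Lib.MP_17a322_nt.VA
open Pool.Agent.Lib.MP_17a322_nt.SL

section

variable {K : Type u} [Field K] {N n m s : ℕ}

/-- `Q`, a polynomial in `X_1, ..., X_n` whose coefficients are polynomials in the coordinates of `A`,
is a form of degree `d` whose coefficients are forms of degree `D`. -/
def BH (D d : ℕ) (Q : MvPolynomial (Fin n) (MvPolynomial (Fin (N + 1)) K)) : Prop :=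
  Q.IsHomogeneous d ∧ ∀ μ, (coeff μ Q).IsHomogeneous D

variable (A : AV K N)

/-- The form `Q` at the point `P` of `A`. -/
noncomputable def sp {L : Type u} [Field L] [Algebra K L] (P : A.Pts L)
    (Q : MvPolynomial (Fin n) (MvPolynomial (Fin (N + 1)) K)) : MvPolynomial (Fin n) L :=
  MvPolynomial.map (aeval (A.x P)).toRingHom Q

/-- The ideal of the fibre at `P` of the closed subset with the equations `H i`. -/
noncomputable def fib {L : Type u} [Field L] [Algebra K L]
    (H : Fin m → MvPolynomial (Fin n) (MvPolynomial (Fin (N + 1)) K)) (P : A.Pts L) :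
    Ideal (MvPolynomial (Fin n) L) :=
  Ideal.span (Set.range fun i => sp A P (H i))

/-- The hypersurfaces `Q j`, `j ∈ T`, have no common point on the generic fibre of the closed subset
with the equations `H i`. -/
def NoCommon (H : Fin m → MvPolynomial (Fin n) (MvPolynomial (Fin (N + 1)) K))
    (Q : Fin s → MvPolynomial (Fin n) (MvPolynomial (Fin (N + 1)) K)) (T : Finset (Fin s)) :
    Prop :=
  ∀ (L : Type u) [Field L] [IsAlgClosed L] [Algebra K L] (P : A.Pts L), Gen A P →
    ∀ X : Fin n → L, (∀ i, eval X (sp A P (H i)) = 0) → (∀ j ∈ T, eval X (sp A P (Q j)) = 0) →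
      X = 0

/-- `F` is a form of some bidegree that does not vanish identically on the generic fibre of the closed
subset with the equations `H i`. -/
def ExcF (H : Fin m → MvPolynomial (Fin n) (MvPolynomial (Fin (N + 1)) K))
    (F : MvPolynomial (Fin n) (MvPolynomial (Fin (N + 1)) K)) : Prop :=
  (∃ a b : ℕ, BH a b F) ∧
  ∀ (L : Type u) [Field L] [IsAlgClosed L] [Algebra K L] (P : A.Pts L), Gen A P →
    sp A P F ∉ fib A H P

/-- The local height of the point `(P, X)` with respect to the hypersurface `Q = 0`. -/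
noncomputable def lamQ {L : Type u} [Field L] [Algebra K L] (v : AbsoluteValue L ℝ) (D d : ℕ)
    (Q : MvPolynomial (Fin n) (MvPolynomial (Fin (N + 1)) K)) (P : A.Pts L) (X : Fin n → L) :
    ℝ :=
  d * Real.log (⨆ l, v (X l)) + D * Real.log (⨆ i, v (A.x P i)) -
    Real.log (v (eval X (sp A P Q)))

end

section

/-- The exponents of the monomials of degree `k` in `n` variables. -/
def Mo (n k : ℕ) : Finset (Fin n → ℕ) := (Finset.univ : Finset (Fin n)).piAntidiag k

/-- The enumeration of the monomials of degree `k`. -/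
noncomputable def mo (n k : ℕ) (i : Fin (Mo n k).card) : Fin n → ℕ := ((Mo n k).equivFin.symm i).1

variable {n : ℕ}

/-- The vector of the monomials of degree `k`. -/
noncomputable def ver (k : ℕ) {R : Type*} [CommSemiring R] (X : Fin n → R) :
    Fin (Mo n k).card → R :=
  fun i => ∏ l, X l ^ mo n k i l

/-- The vector of the coefficients of a form of degree `k`. -/
noncomputable def cf (k : ℕ) {R : Type*} [CommSemiring R] (Q : MvPolynomial (Fin n) R) :
    Fin (Mo n k).card → R :=
  fun i => coeff (Finsupp.equivFunOnFinite.symm (mo n k i)) Q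

/-- The dimension of the part of degree `k` of the ring of polynomials modulo the ideal `I`. -/
noncomputable def rk {L : Type*} [Field L] (I : Ideal (MvPolynomial (Fin n) L)) (k : ℕ) : ℕ :=
  Module.finrank L ((homogeneousSubmodule (Fin n) L k).map (Ideal.Quotient.mkₐ L I).toLinearMap)

/-- The pairs `(ν, e)`, `ν ∈ M`, with `|ν| + d |e| = k`. -/
def fam (M : Finset (Fin n → ℕ)) (t d k : ℕ) : Finset ((Fin n → ℕ) × (Fin t → ℕ)) :=
  (M ×ˢ Fintype.piFinset fun _ => Finset.range (k + 1)).filter
    fun p => ∑ l, p.1 l + d * ∑ j, p.2 j = k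

/-- The form `X ^ ν * Q ^ e`. -/
noncomputable def fm {R : Type*} [CommSemiring R] {t : ℕ} (Q : Fin t → MvPolynomial (Fin n) R)
    (p : (Fin n → ℕ) × (Fin t → ℕ)) : MvPolynomial (Fin n) R :=
  (∏ l, X l ^ p.1 l) * ∏ j, Q j ^ p.2 j

/-- The form `X ^ ν * Q ^ e` times a power of the coordinate `x_a` such that the coefficients are forms
of degree `D * k` (`D` the degree of the coefficients of `Q j`). -/
noncomputable def Lam {K : Type u} [Field K] {N : ℕ} (a : Fin (N + 1)) (D k : ℕ) {t : ℕ}
    (Q : Fin t → MvPolynomial (Fin n) (MvPolynomial (Fin (N + 1)) K))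
    (p : (Fin n → ℕ) × (Fin t → ℕ)) : MvPolynomial (Fin n) (MvPolynomial (Fin (N + 1)) K) :=
  C (X a ^ (D * (k - ∑ j, p.2 j))) * fm Q p

end

section

variable {K : Type u} [Field K] {N : ℕ} (A : AV K N) {n m : ℕ}

/-- The rows of `G'` are a basis of the forms of degree `k` in the ideal of the generic fibre. -/
def IsRows (H : Fin m → MvPolynomial (Fin n) (MvPolynomial (Fin (N + 1)) K)) (k : ℕ) {g' : ℕ}
    (G' : Matrix (Fin g') (Fin (Mo n k).card) (MvPolynomial (Fin (N + 1)) K)) : Prop :=
  (∃ D' : ℕ, ∀ i l, (G' i l).IsHomogeneous D') ∧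
  (∀ (L : Type u) [Field L] [Algebra K L] (P : A.Pts L), Gen A P →
    LinearIndependent L (fun i l => aeval (A.x P) (G' i l)) ∧
    ∀ f : MvPolynomial (Fin n) L, f.IsHomogeneous k →
      (f ∈ fib A H P ↔
        cf k f ∈ Submodule.span L (Set.range fun i l => aeval (A.x P) (G' i l)))) ∧
  ∀ (L : Type u) [Field L] [Algebra K L] (P : A.Pts L) (X : Fin n → L),
    (∀ i, eval X (sp A P (H i)) = 0) → ver k X ∈ Fib A G' P

/-- The form `F` at the Veronese vector. -/
noncomputable def pull (n k : ℕ)
    (F : MvPolynomial (Fin (N + 1) ⊕ Fin (Mo n k).card) K) :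
    MvPolynomial (Fin n) (MvPolynomial (Fin (N + 1)) K) :=
  aeval (Sum.elim (fun i => (C (X i) : MvPolynomial (Fin n) (MvPolynomial (Fin (N + 1)) K)))
    fun i => ver k (X : Fin n → MvPolynomial (Fin n) (MvPolynomial (Fin (N + 1)) K)) i) F

/-- The linear forms with the coefficients `G i`. -/
noncomputable def lin {g : ℕ} (G : Matrix (Fin g) (Fin n) (MvPolynomial (Fin (N + 1)) K)) :
    Fin g → MvPolynomial (Fin n) (MvPolynomial (Fin (N + 1)) K) :=
  fun i => ∑ l, C (G i l) * X l

end

end Pool.Agent.Lib.MP_17a322_nt.EF
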