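import Pool.Agent.Lib.MP_17a322_nt.EF.V1

/-!
Moving hypersurfaces over abelian varieties: exceptional sets.
-/

universe u

namespace Pool.Agent.Lib.MP_17a322_nt.EF

open MvPolynomial Height
open Pool.Agent.Lib.MP_17a322_nt.VA
open Pool.Agent.Lib.MP_17a322_nt.SL

section

variable {K : Type u} [Field K] {N n : ℕ}

theorem E1_bh_mul {a b a' b' : ℕ} {F F' : MvPolynomial (Fin n) (MvPolynomial (Fin (N + 1)) K)}
    (hF : BH a b F) (hF' : BH a' b' F') : BH (a + a') (b + b') (F * F') := by
  refine ⟨hF.1.mul hF'.1, fun μ => ?_⟩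
  rw [coeff_mul]
  exact IsHomogeneous.sum _ _ _ fun x _ => (hF.2 x.1).mul (hF'.2 x.2)

theorem E1_bh_C {ρ : ℕ} {R : MvPolynomial (Fin (N + 1)) K} (hR : R.IsHomogeneous ρ) :
    BH ρ 0 (C R : MvPolynomial (Fin n) (MvPolynomial (Fin (N + 1)) K)) := by
  refine ⟨isHomogeneous_C _ _, fun μ => ?_⟩
  rw [coeff_C]
  split_ifs
  · exact hR
  · exact isHomogeneous_zero _ _ _

theorem E1_bh_X (l : Fin n) :
    BH 0 1 (X l : MvPolynomial (Fin n) (MvPolynomial (Fin (N + 1)) K)) := by
  refine ⟨isHomogeneous_X _ _, fun μ => ?_⟩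
  rw [coeff_X]
  split_ifs
  · exact isHomogeneous_one _ _
  · exact isHomogeneous_zero _ _ _

theorem E1_bh_pow {a b : ℕ} {F : MvPolynomial (Fin n) (MvPolynomial (Fin (N + 1)) K)}
    (hF : BH a b F) (e : ℕ) : BH (e * a) (e * b) (F ^ e) := by
  induction e with
  | zero =>
    rw [pow_zero, zero_mul, zero_mul, ← map_one C]
    exact E1_bh_C (isHomogeneous_one _ _)
  | succ e ih =>
    rw [pow_succ, Nat.succ_mul, Nat.succ_mul]
    exact E1_bh_mul ih hF

theorem E1_bh_prod {ι : Type*} (s : Finset ι) (a b : ι → ℕ)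
    (F : ι → MvPolynomial (Fin n) (MvPolynomial (Fin (N + 1)) K))
    (hF : ∀ i ∈ s, BH (a i) (b i) (F i)) :
    BH (∑ i ∈ s, a i) (∑ i ∈ s, b i) (∏ i ∈ s, F i) := by
  classical
  induction s using Finset.induction_on with
  | empty =>
    rw [Finset.sum_empty, Finset.sum_empty, Finset.prod_empty, ← map_one C]
    exact E1_bh_C (isHomogeneous_one _ _)
  | insert i s hi ih =>
    rw [Finset.sum_insert hi, Finset.sum_insert hi, Finset.prod_insert hi]
    exact E1_bh_mul (hF i (Finset.mem_insert_self _ _))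
      (ih fun j hj => hF j (Finset.mem_insert_of_mem hj))

theorem E1_bh_sum {ι : Type*} (s : Finset ι) {a b : ℕ}
    (F : ι → MvPolynomial (Fin n) (MvPolynomial (Fin (N + 1)) K))
    (hF : ∀ i ∈ s, BH a b (F i)) : BH a b (∑ i ∈ s, F i) := by
  refine ⟨IsHomogeneous.sum _ _ _ fun i hi => (hF i hi).1, fun μ => ?_⟩
  rw [coeff_sum]
  exact IsHomogeneous.sum _ _ _ fun i hi => (hF i hi).2 μ

theorem E1_bh_ver (k : ℕ) (i : Fin (Mo n k).card) :
    BH 0 k (ver k (X : Fin n → MvPolynomial (Fin n) (MvPolynomial (Fin (N + 1)) K)) i) := by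
  have h := E1_bh_prod (N := N) (K := K) Finset.univ (fun l => mo n k i l * 0)
    (fun l => mo n k i l * 1) (fun l => (X l : MvPolynomial (Fin n)
      (MvPolynomial (Fin (N + 1)) K)) ^ mo n k i l) (fun l _ => E1_bh_pow (E1_bh_X l) _)
  simp only [mul_zero, mul_one, Finset.sum_const_zero, mo_sum] at h
  exact h

theorem E1_bh_pull {k a b : ℕ} (F : MvPolynomial (Fin (N + 1) ⊕ Fin (Mo n k).card) K)
    (hF : ∀ m ∈ F.support, ∑ i, m (Sum.inl i) = a ∧ ∑ l, m (Sum.inr l) = b) :
    BH a (b * k) (pull n k F) := by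
  have h1 : pull n k F = ∑ m ∈ F.support, pull n k (monomial m (coeff m F)) := by
    conv_lhs => rw [F.as_sum]
    simp only [pull, map_sum]
  rw [h1]
  refine E1_bh_sum _ _ fun m hm => ?_
  have h2 : pull n k (monomial m (coeff m F)) = C (C (coeff m F)) *
      ((∏ i, (C (X i) : MvPolynomial (Fin n) (MvPolynomial (Fin (N + 1)) K)) ^ m (Sum.inl i)) *
        ∏ i, (ver k (X : Fin n → MvPolynomial (Fin n) (MvPolynomial (Fin (N + 1)) K)) i) ^
          m (Sum.inr i)) := by
    simp only [pull, aeval_monomial]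
    rw [Finsupp.prod_fintype _ _ (fun l => pow_zero _), Fintype.prod_sum_type]
    rfl
  rw [h2]
  obtain ⟨h3, h4⟩ := hF m hm
  have h5 := E1_bh_prod (n := n) (N := N) (K := K) Finset.univ (fun i => m (Sum.inl i) * 1)
    (fun i => m (Sum.inl i) * 0)
    (fun i => (C (X i) : MvPolynomial (Fin n) (MvPolynomial (Fin (N + 1)) K)) ^ m (Sum.inl i))
    (fun i _ => E1_bh_pow (E1_bh_C (isHomogeneous_X _ _)) _)
  have h6 := E1_bh_prod (n := n) (N := N) (K := K) Finset.univ (fun i => m (Sum.inr i) * 0)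
    (fun i => m (Sum.inr i) * k)
    (fun i => (ver k (X : Fin n → MvPolynomial (Fin n) (MvPolynomial (Fin (N + 1)) K)) i) ^
      m (Sum.inr i)) (fun i _ => E1_bh_pow (E1_bh_ver k i) _)
  have h7 := E1_bh_mul (E1_bh_C (n := n) (N := N) (isHomogeneous_C (Fin (N + 1)) (coeff m F)))
    (E1_bh_mul h5 h6)
  simpa only [mul_zero, mul_one, Finset.sum_const_zero, ← Finset.sum_mul, h3, h4, zero_add,
    add_zero] using h7

end

section

variable {K : Type u} [Field K] {N : ℕ} (A : AV K N) {n m : ℕ}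

theorem E1_sp_mul {L : Type u} [Field L] [Algebra K L] (P : A.Pts L)
    (F F' : MvPolynomial (Fin n) (MvPolynomial (Fin (N + 1)) K)) :
    sp A P (F * F') = sp A P F * sp A P F' := by
  simp only [sp, map_mul]

theorem E1_sp_C {L : Type u} [Field L] [Algebra K L] (P : A.Pts L)
    (R : MvPolynomial (Fin (N + 1)) K) :
    sp A P (C R : MvPolynomial (Fin n) (MvPolynomial (Fin (N + 1)) K)) = C (aeval (A.x P) R) := by
  simp only [sp, map_C]
  rfl

theorem E1_sp_X {L : Type u} [Field L] [Algebra K L] (P : A.Pts L) (l : Fin n) :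
    sp A P (X l : MvPolynomial (Fin n) (MvPolynomial (Fin (N + 1)) K)) = X l := by
  simp only [sp, map_X]

theorem E1_sp_ver {L : Type u} [Field L] [Algebra K L] (P : A.Pts L) (k : ℕ)
    (i : Fin (Mo n k).card) :
    sp A P (ver k (X : Fin n → MvPolynomial (Fin n) (MvPolynomial (Fin (N + 1)) K)) i) =
      ver k (X : Fin n → MvPolynomial (Fin n) L) i := by
  simp only [sp, ver, map_prod, map_pow, map_X]

/-- The form `F` at the point `P` and the Veronese vector of the variables. -/
theorem E1_sp_pull {k : ℕ} (F : MvPolynomial (Fin (N + 1) ⊕ Fin (Mo n k).card) K) {L : Type u}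
    [Field L] [Algebra K L] (P : A.Pts L) :
    sp A P (pull n k F) =
      aeval (fun i => ver k (X : Fin n → MvPolynomial (Fin n) L) i)
        (aeval (Sum.elim (fun i => (C (A.x P i) : MvPolynomial (Fin (Mo n k).card) L)) X) F) := by
  induction F using MvPolynomial.induction_on with
  | C a =>
    simp only [pull, algHom_C]
    have h1 : (algebraMap K (MvPolynomial (Fin n) (MvPolynomial (Fin (N + 1)) K))) a =
        C (C a) := rfl
    have h2 : (algebraMap K (MvPolynomial (Fin (Mo n k).card) L)) a = C (algebraMap K L a) := rfl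
    rw [h1, E1_sp_C, h2, algHom_C, algHom_C]
    rfl
  | add p q hp hq =>
    have h1 : pull n k (p + q) = pull n k p + pull n k q := by simp only [pull, map_add]
    have h2 : sp A P (pull n k p + pull n k q) = sp A P (pull n k p) + sp A P (pull n k q) := by
      simp only [sp, map_add]
    rw [h1, h2, hp, hq, map_add, map_add]
  | mul_X p i hp =>
    have h1 : pull n k (p * X i) = pull n k p * pull n k (X i) := by simp only [pull, map_mul]
    rw [h1, E1_sp_mul, hp, map_mul, map_mul]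
    congr 1
    cases i with
    | inl i =>
      simp only [pull, aeval_X, Sum.elim_inl, E1_sp_C, algHom_C]
      rfl
    | inr i =>
      simp only [pull, aeval_X, Sum.elim_inr]
      exact E1_sp_ver A P k i

theorem pull_eval {k : ℕ} (F : MvPolynomial (Fin (N + 1) ⊕ Fin (Mo n k).card) K) {L : Type u}
    [Field L] [Algebra K L] (P : A.Pts L) (X : Fin n → L) :
    eval X (sp A P (pull n k F)) = aeval (Sum.elim (A.x P) (ver k X)) F := by
  rw [E1_sp_pull]
  induction F using MvPolynomial.induction_on with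
  | C a =>
    have h2 : (algebraMap K (MvPolynomial (Fin (Mo n k).card) L)) a = C (algebraMap K L a) := rfl
    rw [algHom_C, h2, algHom_C, algHom_C, algebraMap_eq, eval_C]
  | add p q hp hq => simp only [map_add, hp, hq]
  | mul_X p i hp =>
    simp only [map_mul, hp, aeval_X]
    congr 1
    cases i with
    | inl i =>
      simp only [Sum.elim_inl, algHom_C, algebraMap_eq, eval_C]
    | inr i =>
      simp only [Sum.elim_inr, aeval_X, ver, map_prod, map_pow, eval_X]

theorem pull_exc (H : Fin m → MvPolynomial (Fin n) (MvPolynomial (Fin (N + 1)) K)) (k : ℕ)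
    {g' : ℕ} (G' : Matrix (Fin g') (Fin (Mo n k).card) (MvPolynomial (Fin (N + 1)) K))
    (hG' : IsRows A H k G')
    (hfib : ∀ (L : Type u) [Field L] [IsAlgClosed L] [Algebra K L] (P : A.Pts L), Gen A P →
      (fib A H P).IsPrime)
    (F : MvPolynomial (Fin (N + 1) ⊕ Fin (Mo n k).card) K) (hF : Exc A G' F) :
    ExcF A H (pull n k F) := by
  obtain ⟨⟨a, b, hab⟩, hF2⟩ := hF
  refine ⟨⟨a, b * k, E1_bh_pull F hab⟩, fun L _ _ _ P hP hmem => ?_⟩
  obtain ⟨c, s, y, hc, hy, hyF⟩ := hF2 L P hP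
  have hpr := hfib L P hP
  rw [E1_sp_pull, hyF, map_mul, map_prod] at hmem
  rcases hpr.mem_or_mem hmem with h | h
  · apply hpr.ne_top
    refine Ideal.eq_top_of_isUnit_mem _ h ?_
    rw [algHom_C]
    exact (IsUnit.mk0 c hc).map _
  · obtain ⟨j, -, hj⟩ := (hpr.prod_mem_iff).1 h
    have h1 : (aeval (fun i => ver k (X : Fin n → MvPolynomial (Fin n) L) i))
        (∑ l, C (y j l) * X l) = uncf k (y j) := by
      simp only [map_sum, map_mul, aeval_X, algHom_C, uncf, algebraMap_eq]
      refine Finset.sum_congr rfl fun i _ => ?_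
      rw [monomial_eq, Finsupp.prod_fintype _ _ (fun l => pow_zero _)]
      simp only [Finsupp.equivFunOnFinite_symm_apply_apply]
      rfl
    rw [h1, (hG'.2.1 L P hP).2 _ (uncf_hom _), cf_uncf] at hj
    obtain ⟨z, hz, hyz⟩ := hy j
    apply hyz
    have h2 : ∀ w ∈ Submodule.span L (Set.range fun i l => aeval (A.x P) (G' i l)),
        ∑ l, w l * z l = 0 := by
      intro w hw
      induction hw using Submodule.span_induction with
      | mem w hw =>
        obtain ⟨i, rfl⟩ := hw
        exact hz i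
      | zero => simp
      | add w w' _ _ h h' =>
        simp only [Pi.add_apply, add_mul, Finset.sum_add_distrib, h, h', add_zero]
      | smul t w _ h =>
        simp only [Pi.smul_apply, smul_eq_mul, mul_assoc, ← Finset.mul_sum, h, mul_zero]
    exact h2 _ hj

theorem ExcF_mul (H : Fin m → MvPolynomial (Fin n) (MvPolynomial (Fin (N + 1)) K))
    (hfib : ∀ (L : Type u) [Field L] [IsAlgClosed L] [Algebra K L] (P : A.Pts L), Gen A P →
      (fib A H P).IsPrime)
    {F F' : MvPolynomial (Fin n) (MvPolynomial (Fin (N + 1)) K)} (hF : ExcF A H F)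
    (hF' : ExcF A H F') : ExcF A H (F * F') := by
  obtain ⟨⟨a, b, hab⟩, h1⟩ := hF
  obtain ⟨⟨a', b', hab'⟩, h2⟩ := hF'
  refine ⟨⟨a + a', b + b', E1_bh_mul hab hab'⟩, fun L _ _ _ P hP hmem => ?_⟩
  rw [E1_sp_mul] at hmem
  rcases (hfib L P hP).mem_or_mem hmem with h | h
  · exact h1 L P hP h
  · exact h2 L P hP h

theorem ExcF_C (H : Fin m → MvPolynomial (Fin n) (MvPolynomial (Fin (N + 1)) K))
    (hfib : ∀ (L : Type u) [Field L] [IsAlgClosed L] [Algebra K L] (P : A.Pts L), Gen A P →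
      (fib A H P).IsPrime)
    {R : MvPolynomial (Fin (N + 1)) K} {ρ : ℕ} (hR : R.IsHomogeneous ρ) (hR0 : R ∉ A.I) :
    ExcF A H (C R) := by
  refine ⟨⟨ρ, 0, E1_bh_C hR⟩, fun L _ _ _ P hP hmem => ?_⟩
  rw [E1_sp_C] at hmem
  apply (hfib L P hP).ne_top
  refine Ideal.eq_top_of_isUnit_mem _ hmem ?_
  have h1 : aeval (A.x P) R ≠ 0 := fun h => hR0 (hP R ρ hR h)
  exact (IsUnit.mk0 _ h1).map _

end

end Pool.Agent.Lib.MP_17a322_nt.EF
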