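import Pool.Agent.Lib.MP_17a322_nt.EF.R1

/-!
Estimates for the values of forms.
-/

universe u

namespace Pool.Agent.Lib.MP_17a322_nt.EF

open MvPolynomial Height
open Pool.Agent.Lib.MP_17a322_nt.VA
open Pool.Agent.Lib.MP_17a322_nt.SL

/-- The value of a monomial. -/
theorem R2_mono {K : Type*} [Field K] (v : AbsoluteValue K ℝ) {σ : Type*} [Fintype σ] (x : σ → K)
    (μ : σ → ℕ) : v (∏ i, x i ^ μ i) ≤ (⨆ i, v (x i)) ^ ∑ i, μ i := by
  rw [map_prod, ← Finset.prod_pow_eq_pow_sum]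
  refine Finset.prod_le_prod (fun i _ => v.nonneg _) fun i _ => ?_
  rw [map_pow]
  exact pow_le_pow_left₀ (v.nonneg _)
    (le_ciSup (Set.finite_range fun i => v (x i)).bddAbove i) _

/-- The value of a form. -/
theorem R2_form {K : Type*} [Field K] (v : AbsoluteValue K ℝ) {σ : Type*} [Fintype σ] {δ : ℕ}
    {f : MvPolynomial σ K} (hf : f.IsHomogeneous δ) :
    ∃ C : ℝ, 0 ≤ C ∧ ∀ x : σ → K, v (aeval x f) ≤ C * (⨆ i, v (x i)) ^ δ := by
  classical
  refine ⟨∑ μ ∈ f.support, v (coeff μ f), Finset.sum_nonneg fun μ _ => v.nonneg _, fun x => ?_⟩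
  have h1 : aeval x f = ∑ μ ∈ f.support, coeff μ f * ∏ i, x i ^ μ i := by
    rw [aeval_def, eval₂_eq']
    rfl
  rw [h1, Finset.sum_mul]
  refine (v.sum_le _ _).trans (Finset.sum_le_sum fun μ hμ => ?_)
  rw [map_mul]
  refine mul_le_mul_of_nonneg_left ((R2_mono v x μ).trans (le_of_eq ?_)) (v.nonneg _)
  have h2 : μ.degree = δ := by
    by_contra h3
    exact mem_support_iff.1 hμ (hf.coeff_eq_zero h3)
  rw [← h2, Finsupp.degree_eq_sum]

end Pool.Agent.Lib.MP_17a322_nt.EF
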