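import Pool.Agent.Lib.MP_17a322_nt.EF.Defs
import Pool.Agent.Lib.MP_17a322_nt.SL.F5
import Pool.Agent.Lib.MP_17a322_nt.VA.A3

/-!
Transfer between generic points: existence, independence, spans.
-/

universe u

namespace Pool.Agent.Lib.MP_17a322_nt.EF

open MvPolynomial
open Pool.Agent.Lib.MP_17a322_nt.VA
open Pool.Agent.Lib.MP_17a322_nt.SL

section

variable {K : Type u} [Field K] {N : ℕ} (A : AV K N)

/-- There is a generic point over an algebraically closed field. -/
theorem T_gen : ∃ (L : Type u) (_ : Field L) (_ : IsAlgClosed L) (_ : Algebra K L) (P : A.Pts L),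
    Gen A P := by
  have hI : A.I.IsPrime := Z_prime A
  let R : Type u := MvPolynomial (Fin (N + 1)) K ⧸ A.I
  let M : Type u := FractionRing R
  let L : Type u := AlgebraicClosure M
  let φ : MvPolynomial (Fin (N + 1)) K →ₐ[K] L :=
    ((IsScalarTower.toAlgHom K M L).comp (IsScalarTower.toAlgHom K R M)).comp
      (Ideal.Quotient.mkₐ K A.I)
  have hφ : ∀ f, φ f = 0 ↔ f ∈ A.I := by
    intro f
    have h1 : φ f = algebraMap M L (algebraMap R M (Ideal.Quotient.mk A.I f)) := rfl
    rw [h1]
    constructor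
    · intro h
      have h2 := (map_eq_zero_iff _ (algebraMap M L).injective).1 h
      have h3 := (map_eq_zero_iff _ (IsFractionRing.injective R M)).1 h2
      exact Ideal.Quotient.eq_zero_iff_mem.1 h3
    · intro h
      rw [Ideal.Quotient.eq_zero_iff_mem.2 h, map_zero, map_zero]
  have hφ' : ∀ f, aeval (fun i => φ (X i)) f = φ f := by
    intro f
    have h1 := congrFun (congrArg DFunLike.coe (MvPolynomial.aeval_unique φ)) f
    exact h1.symm
  have hpt : A.IsPt fun i => φ (X i) := by
    intro f hf
    rw [hφ' f]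
    exact (hφ f).2 hf
  have hne : (fun i => φ (X i)) ≠ 0 := by
    intro h0
    obtain ⟨i, hi⟩ := A.exists_x_ne (0 : A.Pts K)
    have h1 : φ (X i) = 0 := congrFun h0 i
    have h2 := A.x_isPt (0 : A.Pts K) (X i) ((hφ _).1 h1)
    rw [aeval_X] at h2
    exact hi h2
  obtain ⟨P, c, hc, hP⟩ := AV.exists_rep hne hpt
  refine ⟨L, inferInstance, inferInstance, inferInstance, P, ?_⟩
  intro f d hf h0
  rw [← hφ f, ← hφ' f, funext hP, aeval_mul_homog hf, h0, mul_zero]

variable {A}

/-- Independence and left inverses. -/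
theorem T_li_iff {F : Type*} [Field F] {ι κ : Type*} [Fintype ι] [Fintype κ] (w : ι → κ → F) :
    LinearIndependent F w ↔ ∃ B : κ → ι → F,
      ∀ s t, ∑ l, w s l * B l t = open Classical in if s = t then 1 else 0 := by
  classical
  obtain ⟨e⟩ : Nonempty (κ ≃ Fin (Fintype.card κ)) := ⟨Fintype.equivFin κ⟩
  have h1 : LinearIndependent F w ↔ LinearIndependent F fun i l => w i (e.symm l) := by
    have h2 : (fun i l => w i (e.symm l)) =
        (LinearEquiv.funCongrLeft F F e.symm : (κ → F) →ₗ[F] _) ∘ w := by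
      funext i l
      rfl
    rw [h2, LinearMap.linearIndependent_iff_of_injOn]
    exact (LinearEquiv.funCongrLeft F F e.symm).injective.injOn
  rw [h1, F_li_iff]
  constructor
  · rintro ⟨B, hB⟩
    refine ⟨fun l => B (e l), fun s t => ?_⟩
    rw [← hB s t]
    refine (Fintype.sum_equiv e _ _ fun l => ?_)
    rw [e.symm_apply_apply]
  · rintro ⟨B, hB⟩
    refine ⟨fun l => B (e.symm l), fun s t => ?_⟩
    rw [← hB s t]
    exact (Fintype.sum_equiv e.symm _ _ fun l => rfl)

end

section

variable {K : Type u} [Field K] {N : ℕ} (A : AV K N)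

theorem T_li {ι κ : Type*} [Finite ι] [Finite κ] (w : ι → κ → MvPolynomial (Fin (N + 1)) K)
    (D : ι → ℕ) (hw : ∀ i l, (w i l).IsHomogeneous (D i)) {L L' : Type u} [Field L]
    [Algebra K L] [Field L'] [Algebra K L'] (P : A.Pts L) (P' : A.Pts L') (hP : Gen A P)
    (hP' : Gen A P') (h : LinearIndependent L fun i l => aeval (A.x P) (w i l)) :
    LinearIndependent L' fun i l => aeval (A.x P') (w i l) := by
  classical
  have := Fintype.ofFinite ι
  have := Fintype.ofFinite κ
  obtain ⟨a, ha⟩ := A.exists_x_ne P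
  have ha' : A.x P' a ≠ 0 := by
    intro h0
    have h1 := hP' (X a) 1 (isHomogeneous_X _ _) (by rwa [aeval_X])
    have h2 := A.x_isPt P (X a) h1
    rw [aeval_X] at h2
    exact ha h2
  obtain ⟨ψ, hψ⟩ := F_hom hP hP'
  -- the normalised vectors over `K(P)`
  obtain ⟨z, hz⟩ : ∃ z : ι → κ → IntermediateField.adjoin K (Set.range (rt (A.x P))),
      ∀ i l, (z i l : L) = aeval (A.x P) (w i l) / A.x P a ^ D i :=
    ⟨fun i l => ⟨_, F_div_mem P (hw i l) a⟩, fun i l => rfl⟩
  have h1 : LinearIndependent L fun i l => (z i l : L) := by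
    have h2 := h.units_smul fun i => (Units.mk0 (A.x P a ^ D i) (pow_ne_zero _ ha))⁻¹
    have h3 : (fun i l => (z i l : L)) = (fun i => (Units.mk0 (A.x P a ^ D i)
        (pow_ne_zero _ ha))⁻¹) • fun i l => aeval (A.x P) (w i l) := by
      funext i l
      rw [hz, div_eq_mul_inv, mul_comm]
      rfl
    rw [h3]
    exact h2
  have h2 : LinearIndependent (IntermediateField.adjoin K (Set.range (rt (A.x P)))) z := by
    rw [Fintype.linearIndependent_iff] at h1 ⊢
    intro c hc i
    have h3 := h1 (fun i => (c i : L)) (by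
      funext l
      have h4 := congrArg (fun y : κ → _ => ((y l : IntermediateField.adjoin K
        (Set.range (rt (A.x P)))) : L)) hc
      rw [Finset.sum_apply] at h4 ⊢
      push_cast at h4
      exact h4) i
    exact_mod_cast h3
  obtain ⟨B, hB⟩ := (T_li_iff z).1 h2
  have h3 : LinearIndependent L' fun i l => ψ (z i l) := by
    refine (T_li_iff _).2 ⟨fun l t => ψ (B l t), fun s t => ?_⟩
    have h4 := congrArg ψ (hB s t)
    rw [map_sum] at h4
    simp_rw [map_mul] at h4
    rw [h4]
    split_ifs
    · exact map_one ψ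
    · exact map_zero ψ
  have h4 := h3.units_smul fun i => Units.mk0 (A.x P' a ^ D i) (pow_ne_zero _ ha')
  have h5 : (fun i l => aeval (A.x P') (w i l)) = (fun i => Units.mk0 (A.x P' a ^ D i)
      (pow_ne_zero _ ha')) • fun i l => ψ (z i l) := by
    funext i l
    have h6 := hψ (z i l) (D i) (w i l) (X a ^ D i) (hw i l) (by
      have h7 := (isHomogeneous_X K a).pow (D i)
      rwa [one_mul] at h7) (by
      rw [map_pow, aeval_X]
      exact pow_ne_zero _ ha) (by
      rw [map_pow, aeval_X, hz, div_mul_cancel₀ _ (pow_ne_zero _ ha)])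
    rw [map_pow, aeval_X] at h6
    rw [← h6, mul_comm]
    rfl
  rw [h5]
  exact h4

theorem T_span {ι κ : Type*} [Finite ι] [Finite κ] (w : ι → κ → MvPolynomial (Fin (N + 1)) K)
    (D : ι → ℕ) (hw : ∀ i l, (w i l).IsHomogeneous (D i))
    (w₀ : κ → MvPolynomial (Fin (N + 1)) K) (D₀ : ℕ) (hw₀ : ∀ l, (w₀ l).IsHomogeneous D₀)
    {L L' : Type u} [Field L]
    [Algebra K L] [Field L'] [Algebra K L'] (P : A.Pts L) (P' : A.Pts L') (hP : Gen A P)
    (hP' : Gen A P')
    (h : (fun l => aeval (A.x P) (w₀ l)) ∈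
      Submodule.span L (Set.range fun i l => aeval (A.x P) (w i l))) :
    (fun l => aeval (A.x P') (w₀ l)) ∈
      Submodule.span L' (Set.range fun i l => aeval (A.x P') (w i l)) := by
  classical
  by_contra hcon
  obtain ⟨J, a, ha, hspan, hli⟩ := exists_linearIndependent' L fun i l => aeval (A.x P) (w i l)
  have : Finite J := Finite.of_injective a ha
  have h1 : LinearIndependent L' fun j l => aeval (A.x P') (w (a j) l) :=
    T_li A (fun j => w (a j)) (fun j => D (a j)) (fun j => hw (a j)) P P' hP hP' hli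
  have h2 : (fun l => aeval (A.x P') (w₀ l)) ∉
      Submodule.span L' (Set.range fun j l => aeval (A.x P') (w (a j) l)) := by
    intro h3
    refine hcon (Submodule.span_mono ?_ h3)
    rintro _ ⟨j, rfl⟩
    exact ⟨a j, rfl⟩
  have h3 := h1.option h2
  have h4 := T_li A (fun o : Option J => o.elim w₀ fun j => w (a j))
    (fun o : Option J => o.elim D₀ fun j => D (a j)) (fun o l => by
      rcases o with _ | j
      · exact hw₀ l
      · exact hw (a j) l) P' P hP' hP (by
    have h5 : (fun (o : Option J) l => aeval (A.x P') ((o.elim w₀ fun j => w (a j)) l)) =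
        fun o : Option J => o.casesOn' (fun l => aeval (A.x P') (w₀ l))
          (fun j l => aeval (A.x P') (w (a j) l)) := by
      funext o
      rcases o with _ | j
      · rfl
      · rfl
    rw [h5]
    exact h3)
  have h6 : (fun (o : Option J) l => aeval (A.x P) ((o.elim w₀ fun j => w (a j)) l)) =
      fun o : Option J => o.casesOn' (fun l => aeval (A.x P) (w₀ l))
        (fun j l => aeval (A.x P) (w (a j) l)) := by
    funext o
    rcases o with _ | j
    · rfl
    · rfl
  rw [h6] at h4
  have h7 := (linearIndependent_option.1 h4).2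
  refine h7 ?_
  rw [← hspan] at h
  exact h

end

end Pool.Agent.Lib.MP_17a322_nt.EF
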