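import Pool.Agent.Lib.MP_17a322_nt.EF.C1
import Pool.Agent.Lib.MP_17a322_nt.EF.T1
import Pool.Agent.Lib.MP_17a322_nt.EF.V1
import Pool.Agent.Lib.MP_17a322_nt.EF.R0
import Pool.Agent.Lib.MP_17a322_nt.EF.R1
import Pool.Agent.Lib.MP_17a322_nt.EF.R2

/-!
The hypersurfaces without common point on the generic fibre cannot all be close to a point.
-/

universe u

namespace Pool.Agent.Lib.MP_17a322_nt.EF

open MvPolynomial Height
open Pool.Agent.Lib.MP_17a322_nt.VA
open Pool.Agent.Lib.MP_17a322_nt.SL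

theorem R3_mn (L : Type*) [CommRing L] (n k : ℕ) (i : Fin (Mo n k).card) :
    mn L n k i = monomial (Finsupp.equivFunOnFinite.symm (mo n k i)) 1 := by
  rw [R1_mon, C_1, one_mul]
  rfl

section

variable {K : Type u} [Field K] {N : ℕ} (A : AV K N) {n m s : ℕ}

theorem R3_BH {D d e : ℕ} {Q : MvPolynomial (Fin n) (MvPolynomial (Fin (N + 1)) K)}
    (hQ : BH D d Q) (i : Fin (Mo n e).card) :
    BH D (e + d) (mn (MvPolynomial (Fin (N + 1)) K) n e i * Q) := by
  classical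
  constructor
  · refine IsHomogeneous.mul ?_ hQ.1
    rw [R3_mn]
    refine isHomogeneous_monomial 1 ?_
    rw [Finsupp.degree_eq_sum]
    exact R1_mo i
  · intro μ
    rw [R3_mn, coeff_monomial_mul']
    split_ifs
    · rw [one_mul]
      exact hQ.2 _
    · exact isHomogeneous_zero _ _ _

theorem R3_sp {L : Type u} [Field L] [Algebra K L] (P : A.Pts L) {e : ℕ}
    (i : Fin (Mo n e).card) (Q : MvPolynomial (Fin n) (MvPolynomial (Fin (N + 1)) K)) :
    sp A P (mn (MvPolynomial (Fin (N + 1)) K) n e i * Q) = mn L n e i * sp A P Q := by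
  unfold sp
  rw [map_mul, R3_mn, R3_mn, map_monomial]
  congr 2
  exact map_one _

theorem R3_cf {k : ℕ} {L : Type u} [Field L] [Algebra K L] (P : A.Pts L)
    (Q : MvPolynomial (Fin n) (MvPolynomial (Fin (N + 1)) K)) (l : Fin (Mo n k).card) :
    cf k (sp A P Q) l = aeval (A.x P) (cf k Q l) := by
  unfold cf sp
  rw [coeff_map]
  rfl

/-- A power of `X l` is in the ideal. -/
theorem R3_pow {L : Type u} [Field L] [IsAlgClosed L] {t d : ℕ} (hd : 0 < d)
    (I : Ideal (MvPolynomial (Fin n) L)) (hI : ∀ f ∈ I, ∀ k, homogeneousComponent k f ∈ I)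
    (Q : Fin t → MvPolynomial (Fin n) L) (hQ : ∀ j, (Q j).IsHomogeneous d)
    (h0 : ∀ X : Fin n → L, (∀ f ∈ I, eval X f = 0) → (∀ j, eval X (Q j) = 0) → X = 0) :
    ∃ k₀, ∀ k, k₀ ≤ k → ∀ l, (X l : MvPolynomial (Fin n) L) ^ k ∈
      I ⊔ Ideal.span (Set.range Q) := by
  classical
  obtain ⟨M, hM⟩ := C_span hd I hI Q hQ h0
  refine ⟨∑ ν ∈ M, ∑ l, ν l + 1, fun k hk l => ?_⟩
  obtain ⟨a, ha⟩ := hM k (X l ^ k) (isHomogeneous_X_pow l k)
  have h1 : ∑ p ∈ fam M t d k, C (a p) * fm Q p ∈ I ⊔ Ideal.span (Set.range Q) := by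
    refine Ideal.sum_mem _ fun p hp => Ideal.mul_mem_left _ _ ?_
    unfold fam at hp
    rw [Finset.mem_filter, Finset.mem_product] at hp
    obtain ⟨⟨hp1, -⟩, hp2⟩ := hp
    obtain ⟨j, hj⟩ : ∃ j, p.2 j ≠ 0 := by
      by_contra hcon
      push Not at hcon
      have h2 : ∑ j, p.2 j = 0 := Finset.sum_eq_zero fun j _ => hcon j
      rw [h2, mul_zero, add_zero] at hp2
      have h3 := Finset.single_le_sum (f := fun ν : Fin n → ℕ => ∑ l, ν l)
        (fun ν _ => Nat.zero_le _) hp1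
      have h4 : ∑ l, p.1 l ≤ ∑ ν ∈ M, ∑ l, ν l := h3
      omega
    unfold fm
    refine Ideal.mul_mem_left _ _ ?_
    rw [← Finset.mul_prod_erase _ _ (Finset.mem_univ j)]
    refine Ideal.mul_mem_right _ _ (Ideal.pow_mem_of_mem _ ?_ _ (Nat.pos_of_ne_zero hj))
    exact Ideal.mem_sup_right (Ideal.subset_span ⟨j, rfl⟩)
  have h2 := Ideal.add_mem _ (Ideal.mem_sup_left ha) h1
  rwa [sub_add_cancel] at h2

end

end Pool.Agent.Lib.MP_17a322_nt.EF
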