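import Pool.Agent.Lib.MP_17a322_nt.EF.R3

/-!
The hypersurfaces without common point on the generic fibre cannot all be close to a point.
-/

universe u

namespace Pool.Agent.Lib.MP_17a322_nt.EF

open MvPolynomial Height
open Pool.Agent.Lib.MP_17a322_nt.VA
open Pool.Agent.Lib.MP_17a322_nt.SL

section

variable {K : Type u} [Field K] {N : ℕ} (A : AV K N) {n m s : ℕ}

/-- The identities over the base. -/
theorem R4_id (H : Fin m → MvPolynomial (Fin n) (MvPolynomial (Fin (N + 1)) K))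
    (a b : Fin m → ℕ) (hH : ∀ i, BH (a i) (b i) (H i)) {D d : ℕ} (hd : 0 < d)
    (Q : Fin s → MvPolynomial (Fin n) (MvPolynomial (Fin (N + 1)) K)) (hQ : ∀ j, BH D d (Q j))
    (T : Finset (Fin s)) (hT : NoCommon A H Q T) :
    ∃ (k p : ℕ) (R : MvPolynomial (Fin (N + 1)) K) (ρ : ℕ)
      (r : Fin n → Fin p → MvPolynomial (Fin (N + 1)) K) (δ : Fin p → ℕ)
      (Ψ : Fin p → MvPolynomial (Fin n) (MvPolynomial (Fin (N + 1)) K)),
      d ≤ k ∧ R.IsHomogeneous ρ ∧ R ∉ A.I ∧ (∀ l i, (r l i).IsHomogeneous (δ i)) ∧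
      (∀ i, (∃ j ∈ T, δ i + D = ρ ∧ ∃ μ : Fin (Mo n (k - d)).card,
        Ψ i = mn (MvPolynomial (Fin (N + 1)) K) n (k - d) μ * Q j) ∨
        ∃ (i' : Fin m) (Θ : MvPolynomial (Fin n) (MvPolynomial (Fin (N + 1)) K)),
          Ψ i = Θ * H i') ∧
      (∀ i, (Ψ i).IsHomogeneous k) ∧
      ∀ l c, R * cf k (X l ^ k : MvPolynomial (Fin n) (MvPolynomial (Fin (N + 1)) K)) c -
        ∑ i, r l i * cf k (Ψ i) c ∈ A.I := by
  classical
  obtain ⟨L, _, _, _, P₀, hP₀⟩ := T_gen A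
  obtain ⟨Q', hQ'⟩ : ∃ Q' : Fin T.card → MvPolynomial (Fin n) L,
    Q' = fun j => sp A P₀ (Q (T.equivFin.symm j)) := ⟨_, rfl⟩
  obtain ⟨k₀, hk₀⟩ := R3_pow hd (fib A H P₀) (R1_fib A H (fun i => ⟨a i, b i, hH i⟩) P₀) Q'
    (fun j => by
      rw [hQ']
      exact (hQ _).1.map _) (fun Z h1 h2 => hT L P₀ hP₀ Z
        (fun i => h1 _ (Ideal.subset_span ⟨i, rfl⟩)) (fun j hj => by
          have h3 := h2 (T.equivFin ⟨j, hj⟩)
          rw [hQ'] at h3
          have h4 : eval Z (sp A P₀ (Q (T.equivFin.symm (T.equivFin ⟨j, hj⟩)))) = 0 := h3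
          rwa [Equiv.symm_apply_apply] at h4))
  obtain ⟨k, hk⟩ : ∃ k, k = k₀ + d + ∑ i, b i := ⟨_, rfl⟩
  have hdk : d ≤ k := by omega
  have hbk : ∀ i, b i ≤ k := fun i => by
    have := Finset.single_le_sum (f := b) (fun i _ => Nat.zero_le _) (Finset.mem_univ i)
    omega
  obtain ⟨Φ, hΦ⟩ : ∃ Φ : (Fin (Mo n (k - d)).card × Fin T.card) ⊕
      (Σ i : Fin m, Fin (Mo n (k - b i)).card) →
        MvPolynomial (Fin n) (MvPolynomial (Fin (N + 1)) K),
      Φ = Sum.elim (fun p => mn (MvPolynomial (Fin (N + 1)) K) n (k - d) p.1 *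
        Q (T.equivFin.symm p.2)) fun p => mn (MvPolynomial (Fin (N + 1)) K) n (k - b p.1) p.2 *
          H p.1 := ⟨_, rfl⟩
  obtain ⟨D', hD'⟩ : ∃ D' : (Fin (Mo n (k - d)).card × Fin T.card) ⊕
      (Σ i : Fin m, Fin (Mo n (k - b i)).card) → ℕ,
      D' = Sum.elim (fun _ => D) fun p => a p.1 := ⟨_, rfl⟩
  have hΦB : ∀ x, BH (D' x) k (Φ x) := by
    rintro (x | x)
    · have h1 := R3_BH (hQ (T.equivFin.symm x.2)) (e := k - d) x.1
      rw [Nat.sub_add_cancel hdk] at h1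
      rw [hΦ, hD']
      exact h1
    · have h1 := R3_BH (hH x.1) (e := k - b x.1) x.2
      rw [Nat.sub_add_cancel (hbk _)] at h1
      rw [hΦ, hD']
      exact h1
  have hw₀ : ∀ (l : Fin n) c, (cf k (X l ^ k :
      MvPolynomial (Fin n) (MvPolynomial (Fin (N + 1)) K)) c).IsHomogeneous 0 := by
    intro l c
    unfold cf
    rw [X_pow_eq_monomial, coeff_monomial]
    split_ifs
    · exact isHomogeneous_one _ _
    · exact isHomogeneous_zero _ _ _
  obtain ⟨p, bb, R, ρ, r, δ, hR, hRI, hr, hδ, hid⟩ := R0_cram A (fun x => cf k (Φ x)) D'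
    (fun x l => (hΦB x).2 _)
    (fun l : Fin n => cf k (X l ^ k : MvPolynomial (Fin n) (MvPolynomial (Fin (N + 1)) K)))
    hw₀ P₀ hP₀ (fun l => by
      have h1 : (fun c => aeval (A.x P₀) (cf k (X l ^ k :
          MvPolynomial (Fin n) (MvPolynomial (Fin (N + 1)) K)) c)) =
          cf k (X l ^ k : MvPolynomial (Fin n) L) := by
        funext c
        rw [← R3_cf A P₀]
        unfold sp
        rw [map_pow, map_X]
      rw [h1]
      have h2 : ∀ (I' : Ideal (MvPolynomial (Fin n) L)), I' = fib A H P₀ →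
          (X l ^ k : MvPolynomial (Fin n) L) ∈ I' ⊔ Ideal.span (Set.range Q') := by
        intro I' hI'
        rw [hI']
        exact hk₀ k (by omega) l
      obtain ⟨g, hg, g', hg', hgg⟩ := Submodule.mem_sup.1 (h2 _ rfl)
      rw [← hgg, ← cfl_apply, map_add]
      unfold fib at hg
      rw [Ideal.mem_span_range_iff_exists_fun] at hg hg'
      obtain ⟨c₁, hc₁⟩ := hg
      obtain ⟨c₂, hc₂⟩ := hg'
      rw [← hc₁, ← hc₂, map_sum, map_sum]
      refine Submodule.add_mem _ (Submodule.sum_mem _ fun i _ => ?_)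
        (Submodule.sum_mem _ fun j _ => ?_)
      · have h3 := R1_cf_mul (L := L) (h := sp A P₀ (H i)) ((hH i).1.map _) (hbk i) (c₁ i)
        refine Submodule.span_mono ?_ h3
        rintro _ ⟨μ, rfl⟩
        refine ⟨Sum.inr ⟨i, μ⟩, ?_⟩
        funext c
        show aeval (A.x P₀) (cf k (Φ (Sum.inr ⟨i, μ⟩)) c) = _
        rw [← R3_cf A P₀, hΦ]
        show cf k (sp A P₀ (mn (MvPolynomial (Fin (N + 1)) K) n (k - b i) μ * H i)) c = _
        rw [R3_sp]
      · have h3 := R1_cf_mul (L := L) (h := Q' j) (by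
          rw [hQ']
          exact (hQ _).1.map _) hdk (c₂ j)
        refine Submodule.span_mono ?_ h3
        rintro _ ⟨μ, rfl⟩
        refine ⟨Sum.inl (μ, j), ?_⟩
        funext c
        show aeval (A.x P₀) (cf k (Φ (Sum.inl (μ, j))) c) = _
        rw [← R3_cf A P₀, hΦ, hQ']
        show cf k (sp A P₀ (mn (MvPolynomial (Fin (N + 1)) K) n (k - d) μ *
          Q (T.equivFin.symm j))) c = _
        rw [R3_sp])
  refine ⟨k, p, R, ρ, r, δ, fun i => Φ (bb i), hdk, hR, hRI, hr, fun i => ?_,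
    fun i => (hΦB _).1, hid⟩
  rcases hb : bb i with ⟨μ, j⟩ | ⟨i', μ⟩
  · left
    refine ⟨T.equivFin.symm j, (T.equivFin.symm j).2, ?_, μ, ?_⟩
    · have h1 := hδ i
      rw [hb, hD'] at h1
      exact h1
    · show Φ (bb i) = _
      rw [hb, hΦ]
      rfl
  · right
    refine ⟨i', mn (MvPolynomial (Fin (N + 1)) K) n (k - b i') μ, ?_⟩
    show Φ (bb i) = _
    rw [hb, hΦ]
    rfl

/-- The value of a form of degree `k` at a point. -/
theorem R4_val {L : Type u} [Field L] [Algebra K L] (P : A.Pts L) (X : Fin n → L) {k : ℕ}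
    {Ψ : MvPolynomial (Fin n) (MvPolynomial (Fin (N + 1)) K)} (hΨ : Ψ.IsHomogeneous k) :
    eval X (sp A P Ψ) = ∑ c, aeval (A.x P) (cf k Ψ c) * ver k X c := by
  have h1 : (sp A P Ψ).IsHomogeneous k := hΨ.map _
  rw [eval_cf h1]
  exact Finset.sum_congr rfl fun c _ => by rw [R3_cf]

/-- R: the hypersurfaces `Q j`, `j ∈ T`, cannot all be close to `X`. -/
theorem R_low (H : Fin m → MvPolynomial (Fin n) (MvPolynomial (Fin (N + 1)) K))
    (hH : ∀ i, ∃ a b : ℕ, BH a b (H i)) {D d : ℕ} (hd : 0 < d)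
    (Q : Fin s → MvPolynomial (Fin n) (MvPolynomial (Fin (N + 1)) K)) (hQ : ∀ j, BH D d (Q j))
    (T : Finset (Fin s)) (hT : NoCommon A H Q T) (hT0 : T.Nonempty) :
    ∃ (R : MvPolynomial (Fin (N + 1)) K) (ρ : ℕ), R.IsHomogeneous ρ ∧ R ∉ A.I ∧
      ∀ v : AbsoluteValue K ℝ, ∃ C : ℝ, 0 < C ∧ ∀ (P : A.Pts K) (X : Fin n → K), X ≠ 0 →
        (∀ i, eval X (sp A P (H i)) = 0) →
        ∃ j ∈ T, (⨆ l, v (X l)) ^ d * (⨆ i, v (A.x P i)) ^ D * v (aeval (A.x P) R) ≤
          C * (⨆ i, v (A.x P i)) ^ ρ * v (eval X (sp A P (Q j))) := by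
  classical
  choose a b hab using hH
  obtain ⟨k, p, R, ρ, r, δ, Ψ, hdk, hR, hRI, hr, hΨ, hΨk, hid⟩ := R4_id A H a b hab hd Q hQ T hT
  refine ⟨R, ρ, hR, hRI, fun v => ?_⟩
  choose c hc0 hc using fun (l : Fin n) (i : Fin p) => R2_form v (hr l i)
  obtain ⟨C, hC⟩ : ∃ C : ℝ, C = 1 + ∑ l, ∑ i, c l i := ⟨_, rfl⟩
  have hC0 : 0 ≤ ∑ l, ∑ i, c l i := Finset.sum_nonneg fun l _ => Finset.sum_nonneg fun i _ => hc0 l i
  refine ⟨C, by rw [hC]; linarith, fun P X hX hHX => ?_⟩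
  obtain ⟨l', hl'⟩ : ∃ l, X l ≠ 0 := by
    by_contra hcon
    push Not at hcon
    exact hX (funext hcon)
  have : Nonempty (Fin n) := ⟨l'⟩
  obtain ⟨l, hl⟩ := exists_eq_ciSup_of_finite (f := fun l => v (X l))
  obtain ⟨S, hS⟩ : ∃ S : ℝ, S = ⨆ l, v (X l) := ⟨_, rfl⟩
  have hl2 : v (X l) = S := by
    rw [hS]
    exact hl
  have hS0 : 0 < S := by
    rw [hS]
    exact (v.pos hl').trans_le (le_ciSup (Set.finite_range fun l => v (X l)).bddAbove l')
  obtain ⟨x, hx⟩ : ∃ x : ℝ, x = ⨆ i, v (A.x P i) := ⟨_, rfl⟩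
  have hx0 : 0 ≤ x := by
    rw [hx]
    exact Real.iSup_nonneg fun i => v.nonneg _
  obtain ⟨j₀, hj₀, hmax⟩ := Finset.exists_max_image T (fun j => v (eval X (sp A P (Q j)))) hT0
  refine ⟨j₀, hj₀, ?_⟩
  rw [← hS, ← hx]
  obtain ⟨q, hq⟩ : ∃ q : ℝ, q = v (eval X (sp A P (Q j₀))) := ⟨_, rfl⟩
  have hq0 : 0 ≤ q := by
    rw [hq]
    exact v.nonneg _
  rw [← hq]
  -- the identity at the point
  have key : aeval (A.x P) R * X l ^ k = ∑ i, aeval (A.x P) (r l i) * eval X (sp A P (Ψ i)) := by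
    have h1 : eval X (sp A P (MvPolynomial.X l ^ k :
        MvPolynomial (Fin n) (MvPolynomial (Fin (N + 1)) K))) = X l ^ k := by
      unfold sp
      rw [map_pow, map_X, map_pow, eval_X]
    rw [← h1, R4_val A P X (isHomogeneous_X_pow l k), Finset.mul_sum]
    have h2 : ∀ i, aeval (A.x P) (r l i) * eval X (sp A P (Ψ i)) =
        ∑ c, aeval (A.x P) (r l i) * (aeval (A.x P) (cf k (Ψ i) c) * ver k X c) := fun i => by
      rw [R4_val A P X (hΨk i), Finset.mul_sum]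
    rw [Finset.sum_congr rfl fun i _ => h2 i, Finset.sum_comm]
    refine Finset.sum_congr rfl fun c _ => ?_
    have h3 := R0_pt A P _ (hid l c)
    rw [map_sub, map_mul, map_sum, sub_eq_zero] at h3
    rw [← mul_assoc, h3, Finset.sum_mul]
    refine Finset.sum_congr rfl fun i _ => ?_
    rw [map_mul, mul_assoc]
  -- the terms
  have hterm : ∀ i, v (aeval (A.x P) (r l i) * eval X (sp A P (Ψ i))) * x ^ D ≤
      c l i * (x ^ ρ * S ^ (k - d) * q) := by
    intro i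
    rcases hΨ i with ⟨j, hj, hδ, μ, hμ⟩ | ⟨i', Θ, hΘ⟩
    · have h1 : eval X (sp A P (Ψ i)) = (∏ l, X l ^ mo n (k - d) μ l) *
          eval X (sp A P (Q j)) := by
        rw [hμ, R3_sp, map_mul]
        congr 1
        unfold mn
        rw [map_prod]
        exact Finset.prod_congr rfl fun l _ => by rw [map_pow, eval_X]
      rw [h1, map_mul, map_mul]
      have h2 : v (∏ l, X l ^ mo n (k - d) μ l) ≤ S ^ (k - d) := by
        have h3 := R2_mono v X (mo n (k - d) μ)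
        rwa [R1_mo, ← hS] at h3
      have h3 : v (eval X (sp A P (Q j))) ≤ q := by
        rw [hq]
        exact hmax j hj
      have h4 : v (aeval (A.x P) (r l i)) ≤ c l i * x ^ δ i := by
        rw [hx]
        exact hc l i _
      rw [← hδ, pow_add]
      have h5 : v (∏ l, X l ^ mo n (k - d) μ l) * v (eval X (sp A P (Q j))) ≤
          S ^ (k - d) * q := mul_le_mul h2 h3 (v.nonneg _) (pow_nonneg hS0.le _)
      have h6 : v (aeval (A.x P) (r l i)) * (v (∏ l, X l ^ mo n (k - d) μ l) *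
          v (eval X (sp A P (Q j)))) ≤ (c l i * x ^ δ i) * (S ^ (k - d) * q) :=
        mul_le_mul h4 h5 (mul_nonneg (v.nonneg _) (v.nonneg _))
          (mul_nonneg (hc0 l i) (pow_nonneg hx0 _))
      refine (mul_le_mul_of_nonneg_right h6 (pow_nonneg hx0 D)).trans (le_of_eq ?_)
      ring
    · have h1 : eval X (sp A P (Ψ i)) = 0 := by
        have h2 : sp A P (Ψ i) = sp A P Θ * sp A P (H i') := by
          rw [hΘ]
          exact map_mul _ _ _
        rw [h2, map_mul, hHX i', mul_zero]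
      rw [h1, mul_zero, map_zero, zero_mul]
      exact mul_nonneg (hc0 l i) (mul_nonneg (mul_nonneg (pow_nonneg hx0 _)
        (pow_nonneg hS0.le _)) hq0)
  -- summing up
  have hsum : v (aeval (A.x P) R) * S ^ k * x ^ D ≤ C * (x ^ ρ * S ^ (k - d) * q) := by
    have h1 : v (aeval (A.x P) R) * S ^ k = v (aeval (A.x P) R * X l ^ k) := by
      rw [map_mul, map_pow, hl2]
    rw [h1, key]
    have h2 := v.sum_le Finset.univ fun i => aeval (A.x P) (r l i) * eval X (sp A P (Ψ i))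
    have h3 : (∑ i, v (aeval (A.x P) (r l i) * eval X (sp A P (Ψ i)))) * x ^ D ≤
        (∑ i, c l i) * (x ^ ρ * S ^ (k - d) * q) := by
      rw [Finset.sum_mul, Finset.sum_mul]
      exact Finset.sum_le_sum fun i _ => hterm i
    have h4 : ∑ i, c l i ≤ C := by
      have h5 := Finset.single_le_sum (f := fun l => ∑ i, c l i)
        (fun l _ => Finset.sum_nonneg fun i _ => hc0 l i) (Finset.mem_univ l)
      rw [hC]
      have h6 : ∑ i, c l i ≤ ∑ l, ∑ i, c l i := h5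
      linarith
    refine ((mul_le_mul_of_nonneg_right h2 (pow_nonneg hx0 D)).trans h3).trans ?_
    exact mul_le_mul_of_nonneg_right h4 (mul_nonneg (mul_nonneg (pow_nonneg hx0 _)
      (pow_nonneg hS0.le _)) hq0)
  have hSk : S ^ k = S ^ (k - d) * S ^ d := by
    rw [← pow_add, Nat.sub_add_cancel hdk]
  rw [hSk] at hsum
  have hpos : 0 < S ^ (k - d) := pow_pos hS0 _
  have h7 : S ^ (k - d) * (S ^ d * x ^ D * v (aeval (A.x P) R)) ≤
      S ^ (k - d) * (C * x ^ ρ * q) := by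
    refine le_trans (le_of_eq ?_) (hsum.trans (le_of_eq ?_))
    · ring
    · ring
  exact le_of_mul_le_mul_left h7 hpos

end

end Pool.Agent.Lib.MP_17a322_nt.EF
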