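import Pool.Agent.Lib.MP_17a322_nt.EF.T1
import Pool.Agent.Lib.MP_17a322_nt.SL.F9

/-!
The inequality for divisors on the abelian variety.
-/

universe u

namespace Pool.Agent.Lib.MP_17a322_nt.EF

open MvPolynomial Height
open Pool.Agent.Lib.MP_17a322_nt.VA
open Pool.Agent.Lib.MP_17a322_nt.SL

/-- S: from `SL_final` with `n = 1`. -/
theorem S_low {K : Type u} [Field K] [NumberField K] {N : ℕ} (A : AV K N)
    (Γ : AddSubgroup (A.Pts K)) (hΓ : Γ.FG) {R : MvPolynomial (Fin (N + 1)) K} {ρ : ℕ}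
    (hR : R.IsHomogeneous ρ) (hR0 : R ∉ A.I) (S : Finset (NumberField.FinitePlace K)) {ε : ℝ}
    (hε : 0 < ε) :
    ∃ (C : ℝ) (F : MvPolynomial (Fin (N + 1)) K) (a : ℕ), F.IsHomogeneous a ∧ F ∉ A.I ∧
      ∀ P ∈ Γ, aeval (A.x P) F ≠ 0 → aeval (A.x P) R ≠ 0 ∧
        (∑ v : NumberField.InfinitePlace K, (v.mult : ℝ) *
          (ρ * Real.log (⨆ i, v.val (A.x P i)) - Real.log (v.val (aeval (A.x P) R)))) +
        (∑ v ∈ S, (ρ * Real.log (⨆ i, v.val (A.x P i)) -
          Real.log (v.val (aeval (A.x P) R)))) ≤ ε * logHeight (A.x P) + C := by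
  classical
  have hI : ∀ T : Finset (Fin 0), Ind A (n := 1) (fun (i : Fin 0) _ => i.elim0)
      (fun (i : Fin 0) _ => i.elim0) T := by
    intro T L _ _ P hP
    have : IsEmpty (Fin 0 ⊕ T) := by
      constructor
      rintro (i | j)
      · exact i.elim0
      · exact j.1.elim0
    exact linearIndependent_empty_type
  obtain ⟨C, F, hF, h⟩ := SL_finalV A Γ hΓ (g := 0) (n := 1) (r := 1) (s := 0) (zero_add 1)
    one_pos 0 0 ρ (fun i _ => i.elim0) (fun i _ => i.elim0) (fun i _ => i.elim0)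
    (fun i _ => i.elim0) S (fun _ => ∅) (fun _ => ∅) (fun v T _ _ => hI T)
    (fun v _ T _ _ => hI T) R hR hR0 ε hε
  obtain ⟨⟨a, b, hab⟩, hgen⟩ := hF
  obtain ⟨F', hF'⟩ : ∃ F' : MvPolynomial (Fin (N + 1)) K,
      F' = aeval (Sum.elim X fun _ => 1) F := ⟨_, rfl⟩
  have hF'h : F'.IsHomogeneous a := by
    rw [hF', F.as_sum, map_sum]
    refine IsHomogeneous.sum _ _ _ fun m hm => ?_
    rw [aeval_monomial, Finsupp.prod_fintype _ _ fun i => pow_zero _, Fintype.prod_sum_type]
    have h1 : (∏ l : Fin 1, (Sum.elim X (fun _ => (1 : MvPolynomial (Fin (N + 1)) K))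
        (Sum.inr l)) ^ m (Sum.inr l)) = 1 := Finset.prod_eq_one fun l _ => by
      rw [Sum.elim_inr, one_pow]
    rw [h1, mul_one]
    have h2 : (∏ i : Fin (N + 1), (Sum.elim X (fun _ : Fin 1 =>
        (1 : MvPolynomial (Fin (N + 1)) K)) (Sum.inl i)) ^ m (Sum.inl i)).IsHomogeneous
        (∑ i, 1 * m (Sum.inl i)) :=
      IsHomogeneous.prod _ _ _ fun i _ => (isHomogeneous_X K i).pow _
    have h3 := (isHomogeneous_C (Fin (N + 1)) (coeff m F)).mul h2
    rw [zero_add] at h3
    simp_rw [one_mul] at h3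
    rw [(hab m hm).1] at h3
    exact h3
  have hev : ∀ {L : Type u} [Field L] [Algebra K L] (P : A.Pts L),
      aeval (A.x P) F' = aeval (Sum.elim (A.x P) fun _ => (1 : L)) F := by
    intro L _ _ P
    rw [hF', ← AlgHom.comp_apply, MvPolynomial.comp_aeval]
    refine congrArg (fun f => aeval f F) (funext fun t => ?_)
    rcases t with i | l
    · exact aeval_X _ _
    · exact map_one _
  refine ⟨C, F', a, hF'h, fun h0 => ?_, fun P hP hne => ?_⟩
  · obtain ⟨L, i1, i2, i3, P, hP⟩ := T_gen A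
    obtain ⟨c, m, y, hc, hy, h1⟩ := hgen L P hP
    have h2 := A.x_isPt P F' h0
    have h3 : eval (fun _ => (1 : L)) (aeval (Sum.elim (fun i =>
        (MvPolynomial.C (A.x P i) : MvPolynomial (Fin 1) L)) X) F) =
        aeval (Sum.elim (A.x P) fun _ => (1 : L)) F := by
      have h4 := (MvPolynomial.comp_aeval_apply (Sum.elim (fun i =>
        (MvPolynomial.C (A.x P i) : MvPolynomial (Fin 1) L)) X)
        ((aeval (fun _ => (1 : L)) : MvPolynomial (Fin 1) L →ₐ[L] L).restrictScalars K) F)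
      refine Eq.trans ?_ (h4.trans ?_)
      · rfl
      · refine congrArg (fun f => aeval f F) (funext fun t => ?_)
        rcases t with i | l
        · show aeval (fun _ => (1 : L)) (MvPolynomial.C (A.x P i)) = A.x P i
          rw [aeval_C]
          rfl
        · show aeval (fun _ => (1 : L)) (X l) = 1
          rw [aeval_X]
    rw [hev P, ← h3, h1, map_mul, eval_C, map_prod] at h2
    rcases mul_eq_zero.1 h2 with h5 | h5
    · exact hc h5
    · obtain ⟨k, -, h6⟩ := Finset.prod_eq_zero_iff.1 h5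
      obtain ⟨z, -, h7⟩ := hy k
      rw [Fin.sum_univ_one, map_mul, eval_C, eval_X, mul_one] at h6
      rw [Fin.sum_univ_one, h6, zero_mul] at h7
      exact h7 rfl
  · have h1 := h P hP (fun _ => 1) (fun h0 => one_ne_zero (congrFun h0 0)) (fun i => i.elim0) (by
      rw [← hev P]
      exact hne)
    obtain ⟨-, h2, h3⟩ := h1
    refine ⟨h2, ?_⟩
    have h4 : hE A (fun (i : Fin 0) (_ : Fin 1) => (i.elim0 : MvPolynomial (Fin (N + 1)) K)) P =
        0 := by
      unfold hE
      have : Subsingleton (Fin 0 ↪o Fin 1) := ⟨fun f g => RelEmbedding.ext fun i => i.elim0⟩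
      exact logHeight_eq_zero_of_subsingleton _
    have h5 : logHeight (fun _ : Fin 1 => (1 : K)) = 0 := logHeight_eq_zero_of_subsingleton _
    rw [h4, h5] at h3
    simp only [Finset.sum_empty, mul_zero, Finset.sum_const_zero, zero_add, add_zero] at h3
    exact h3

end Pool.Agent.Lib.MP_17a322_nt.EF
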