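import Pool.Agent.Lib.MP_17a322_nt.EF.T1

/-!
Independence modulo the ideal of the fibre.
-/

universe u

namespace Pool.Agent.Lib.MP_17a322_nt.EF

open MvPolynomial Height
open Pool.Agent.Lib.MP_17a322_nt.VA
open Pool.Agent.Lib.MP_17a322_nt.SL

section

variable {K : Type u} [Field K] {N : ℕ} (A : AV K N) {n m s : ℕ}

theorem T3_cf {k : ℕ} {L : Type u} [Field L] [Algebra K L] (P : A.Pts L)
    (Q : MvPolynomial (Fin n) (MvPolynomial (Fin (N + 1)) K)) (l : Fin (Mo n k).card) :
    cf k (sp A P Q) l = aeval (A.x P) (cf k Q l) := by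
  unfold cf sp
  rw [coeff_map]
  rfl

theorem T_ind (H : Fin m → MvPolynomial (Fin n) (MvPolynomial (Fin (N + 1)) K)) (k : ℕ) {g' : ℕ}
    (G' : Matrix (Fin g') (Fin (Mo n k).card) (MvPolynomial (Fin (N + 1)) K))
    (hG' : IsRows A H k G') {s' D : ℕ}
    (Φ : Fin s' → MvPolynomial (Fin n) (MvPolynomial (Fin (N + 1)) K))
    (hΦ : ∀ j, BH D k (Φ j)) (T : Finset (Fin s')) {L : Type u} [Field L] [Algebra K L]
    (P : A.Pts L) (hP : Gen A P)
    (h : ∀ a : Fin s' → L, ∑ j ∈ T, C (a j) * sp A P (Φ j) ∈ fib A H P → ∀ j ∈ T, a j = 0) :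
    ∀ T' ⊆ T, Ind A G' (Matrix.of fun j => cf k (Φ j)) T' := by
  classical
  intro T' hT' L' _ _ P' hP'
  obtain ⟨⟨D', hD'⟩, hrow, -⟩ := hG'
  obtain ⟨hli, hfib⟩ := hrow L P hP
  -- independence at `P`
  have h1 : LinearIndependent L (Sum.elim (fun (i : Fin g') (l : Fin (Mo n k).card) =>
      aeval (A.x P) (G' i l)) fun (j : T') (l : Fin (Mo n k).card) =>
        aeval (A.x P) (cf k (Φ j) l)) := by
    rw [Fintype.linearIndependent_iff]
    intro c hc
    rw [Fintype.sum_sum_type] at hc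
    obtain ⟨a, ha⟩ : ∃ a : Fin s' → L, a = fun j => if hj : j ∈ T' then c (Sum.inr ⟨j, hj⟩) else 0 :=
      ⟨_, rfl⟩
    obtain ⟨f, hf⟩ : ∃ f : MvPolynomial (Fin n) L, f = ∑ j ∈ T, C (a j) * sp A P (Φ j) := ⟨_, rfl⟩
    have hhom : f.IsHomogeneous k := by
      rw [hf]
      refine IsHomogeneous.sum _ _ _ fun j _ => ?_
      have g1 : (sp A P (Φ j)).IsHomogeneous k := (hΦ j).1.map _
      exact g1.C_mul _
    have hcf : cf k f = ∑ j : T', c (Sum.inr j) • fun l => aeval (A.x P) (cf k (Φ j) l) := by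
      funext l
      rw [Finset.sum_apply]
      have g1 : cf k f l = ∑ j ∈ T, a j * aeval (A.x P) (cf k (Φ j) l) := by
        rw [hf]
        show coeff _ (∑ j ∈ T, C (a j) * sp A P (Φ j)) = _
        rw [coeff_sum]
        refine Finset.sum_congr rfl fun j _ => ?_
        rw [coeff_C_mul]
        exact congrArg (a j * ·) (T3_cf A P (Φ j) l)
      rw [g1, ← Finset.sum_subset hT' (fun j _ hj => by
        have g2 : a j = 0 := by
          rw [ha]
          exact dif_neg hj
        rw [g2, zero_mul]), ← Finset.sum_coe_sort]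
      refine Finset.sum_congr rfl fun j _ => ?_
      have g2 : a j = c (Sum.inr j) := by
        rw [ha]
        exact dif_pos j.2
      rw [g2]
      rfl
    have hmem : f ∈ fib A H P := by
      rw [hfib f hhom, hcf]
      have g1 : (∑ j : T', c (Sum.inr j) • fun l => aeval (A.x P) (cf k (Φ j) l)) =
          - ∑ i, c (Sum.inl i) • fun l => aeval (A.x P) (G' i l) := by
        rw [eq_neg_iff_add_eq_zero, add_comm]
        exact hc
      rw [g1]
      refine Submodule.neg_mem _ (Submodule.sum_mem _ fun i _ => Submodule.smul_mem _ _ ?_)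
      exact Submodule.subset_span ⟨i, rfl⟩
    have ha0 := h a (hf ▸ hmem)
    have hc2 : ∀ j : T', c (Sum.inr j) = 0 := by
      intro j
      have g1 := ha0 j (hT' j.2)
      rw [ha] at g1
      have g2 : (if hj : (j : Fin s') ∈ T' then c (Sum.inr ⟨j, hj⟩) else 0) = 0 := g1
      rwa [dif_pos j.2] at g2
    have hc1 : ∑ i, c (Sum.inl i) • (fun l => aeval (A.x P) (G' i l)) = 0 := by
      have g1 : (∑ j : T', c (Sum.inr j) • Sum.elim (fun (i : Fin g') (l : Fin (Mo n k).card) =>
          aeval (A.x P) (G' i l)) (fun (j : T') (l : Fin (Mo n k).card) =>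
            aeval (A.x P) (cf k (Φ j) l)) (Sum.inr j)) = 0 :=
        Finset.sum_eq_zero fun j _ => by rw [hc2 j, zero_smul]
      rw [g1, add_zero] at hc
      exact hc
    rintro (i | j)
    · exact Fintype.linearIndependent_iff.1 hli _ hc1 i
    · exact hc2 j
  -- transfer
  obtain ⟨w, hw⟩ : ∃ w : Fin g' ⊕ T' → Fin (Mo n k).card → MvPolynomial (Fin (N + 1)) K,
      w = Sum.elim G' fun (j : T') l => cf k (Φ j) l := ⟨_, rfl⟩
  have h2 := T_li A w (Sum.elim (fun _ => D') fun _ => D) (by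
    rw [hw]
    rintro (i | j) l
    · exact hD' i l
    · exact (hΦ j).2 _) P P' hP hP' (by
    have g1 : (fun (i : Fin g' ⊕ T') l => aeval (A.x P) (w i l)) =
        Sum.elim (fun (i : Fin g') (l : Fin (Mo n k).card) =>
          aeval (A.x P) (G' i l)) fun (j : T') (l : Fin (Mo n k).card) =>
            aeval (A.x P) (cf k (Φ j) l) := by
      rw [hw]
      funext x
      rcases x with i | j
      · rfl
      · rfl
    rw [g1]
    exact h1)
  have g1 : (fun (i : Fin g' ⊕ T') l => aeval (A.x P') (w i l)) =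
      Sum.elim (fun (i : Fin g') (l : Fin (Mo n k).card) =>
        aeval (A.x P') (G' i l)) fun (j : T') (l : Fin (Mo n k).card) =>
          aeval (A.x P') ((Matrix.of fun j => cf k (Φ j)) (j : Fin s') l) := by
    rw [hw]
    funext x
    rcases x with i | j
    · rfl
    · rfl
  rw [← g1]
  exact h2

end

end Pool.Agent.Lib.MP_17a322_nt.EF
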