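import Pool.Agent.Lib.MP_17a322_nt.EF.D5
import Pool.Agent.Lib.MP_17a322_nt.EF.U2

/-!
The normalised height of the fibres of a projective bundle.
-/

universe u

namespace Pool.Agent.Lib.MP_17a322_nt.EF

open MvPolynomial Height
open Pool.Agent.Lib.MP_17a322_nt.VA
open Pool.Agent.Lib.MP_17a322_nt.SL

section

variable {K : Type u} [Field K] [NumberField K] {N : ℕ} (A : AV K N)

theorem slope_nonneg {n m t : ℕ}
    (H : Fin m → MvPolynomial (Fin n) (MvPolynomial (Fin (N + 1)) K)) (P : A.Pts K) :
    0 ≤ slope A H t P := by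
  unfold slope
  exact Real.iInf_nonneg fun k =>
    div_nonneg (mul_nonneg (Nat.cast_nonneg _) (logHeight_nonneg _)) (by positivity)

/-- For a projective bundle the normalised height of the fibre is at least the height of the fibre
of the vector bundle. -/
theorem slope_lin {g n r D' : ℕ} (hgr : g + r = n) (hr : 0 < r)
    (G : Matrix (Fin g) (Fin n) (MvPolynomial (Fin (N + 1)) K))
    (hG : ∀ i l, (G i l).IsHomogeneous D') (P : A.Pts K)
    (hP : LinearIndependent K (fun i l => aeval (A.x P) (G i l))) :
    hE A G P ≤ slope A (lin G) r P := by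
  classical
  obtain ⟨Y, hY, hGY, -, -⟩ := D_ker hgr _ hP
  unfold slope
  refine le_ciInf fun k => ?_
  obtain ⟨V, hV⟩ : ∃ V, V = part (fib A (lin G) P) (k + 1) := ⟨_, rfl⟩
  rw [← hV]
  obtain ⟨B, hB⟩ : ∃ B : Fin (Module.finrank K V) → Fin (Mo n (k + 1)).card → K,
      B = fun a => (Module.finBasis K V a : Fin (Mo n (k + 1)).card → K) := ⟨_, rfl⟩
  have hBli : LinearIndependent K B := by
    rw [hB]
    exact (Module.finBasis K V).linearIndependent.map' V.subtype (Submodule.ker_subtype _)
  have hBspan : Submodule.span K (Set.range B) = V := by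
    have h1 := congrArg (Submodule.map V.subtype) (Module.finBasis K V).span_eq
    rw [Submodule.map_span, ← Set.range_comp, Submodule.map_top, Submodule.range_subtype] at h1
    rw [hB]
    exact h1
  have hun : ∀ c ∈ V, uncf (k + 1) c ∈ fib A (lin G) P := by
    intro c hc
    rw [hV] at hc
    unfold part at hc
    induction hc using Submodule.span_induction with
    | mem x h =>
      obtain ⟨f, hf, hfh, rfl⟩ := h
      rw [uncf_cf hfh]
      exact hf
    | zero =>
      have h0 : uncf (n := n) (k + 1) (0 : Fin (Mo n (k + 1)).card → K) = 0 := by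
        unfold uncf
        simp
      rw [h0]
      exact Ideal.zero_mem _
    | add x y _ _ hx hy =>
      have h0 : uncf (n := n) (k + 1) (x + y) = uncf (k + 1) x + uncf (k + 1) y := by
        unfold uncf
        simp [Finset.sum_add_distrib]
      rw [h0]
      exact Ideal.add_mem _ hx hy
    | smul a x _ hx =>
      have h0 : uncf (n := n) (k + 1) (a • x) = C a * uncf (k + 1) x := by
        unfold uncf
        rw [Finset.mul_sum]
        refine Finset.sum_congr rfl fun i _ => ?_
        rw [Pi.smul_apply, smul_eq_mul, C_mul_monomial]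
      rw [h0]
      exact Ideal.mul_mem_left _ _ hx
  have hmem : ∀ f : MvPolynomial (Fin n) K, f.IsHomogeneous (k + 1) →
      (f ∈ fib A (lin G) P ↔ cf (k + 1) f ∈ Submodule.span K (Set.range B)) := by
    intro f hf
    rw [hBspan]
    constructor
    · intro h
      rw [hV]
      exact Submodule.subset_span ⟨f, h, hf, rfl⟩
    · intro h
      have h1 := hun _ h
      rwa [uncf_cf hf] at h1
  have hrk := U2_rk A (lin G) (k + 1) P B hBli hmem
  have hle1 : rk (fib A (lin G) P) (k + 1) ≤ (Mo r (k + 1)).card := by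
    have h3 := D_rk_le hgr _ hP (k + 1)
    unfold fib
    simp only [D_sp_lin]
    exact h3
  have hSli := Sy_li (k := k + 1) (Matrix.of Y) hY
  have horth : ∀ a b, ∑ l, B a l * Sy (k + 1) (Matrix.of Y) b l = 0 := by
    intro a b
    have h1 : uncf (k + 1) (B a) ∈ fib A (lin G) P := by
      refine hun _ ?_
      rw [← hBspan]
      exact Submodule.subset_span ⟨a, rfl⟩
    have h2 : aeval (ly (Matrix.of Y)) (uncf (k + 1) (B a)) = 0 := by
      have h3 : fib A (lin G) P ≤ RingHom.ker (aeval (ly (Matrix.of Y)) :
          MvPolynomial (Fin n) K →ₐ[K] MvPolynomial (Fin r) K).toRingHom := by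
        unfold fib
        rw [Ideal.span_le]
        rintro _ ⟨i, rfl⟩
        show aeval (ly (Matrix.of Y)) (sp A P (lin G i)) = 0
        rw [D_sp_lin, map_sum]
        have h4 : ∀ l, aeval (ly (Matrix.of Y)) (C (aeval (A.x P) (G i l)) * X l :
            MvPolynomial (Fin n) K) =
            ∑ j, C (aeval (A.x P) (G i l) * Y j l) * X j := by
          intro l
          rw [map_mul, aeval_X, algHom_C, algebraMap_eq]
          unfold ly
          rw [Finset.mul_sum]
          refine Finset.sum_congr rfl fun j _ => ?_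
          rw [C_mul, mul_assoc, Matrix.of_apply]
        rw [Finset.sum_congr rfl fun l _ => h4 l, Finset.sum_comm]
        refine Finset.sum_eq_zero fun j _ => ?_
        rw [← Finset.sum_mul, ← map_sum, hGY i j, C_0, zero_mul]
      exact h3 h1
    have h5 := D_Sy_cf (k := k + 1) (Matrix.of Y) (uncf_hom (B a)) b
    rw [h2, cf_uncf] at h5
    have h6 : cf (k + 1) (0 : MvPolynomial (Fin r) K) b = 0 := by
      unfold cf
      exact coeff_zero _
    rw [h6] at h5
    rw [h5]
    exact Finset.sum_congr rfl fun l _ => mul_comm _ _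
  have hle2 : (Mo r (k + 1)).card ≤ rk (fib A (lin G) P) (k + 1) := by
    obtain ⟨Y', -, -, -, hmax⟩ := D_ker hrk B hBli
    exact hmax _ _ hSli horth
  have hrke : rk (fib A (lin G) P) (k + 1) = (Mo r (k + 1)).card := le_antisymm hle1 hle2
  rw [hrke] at hrk
  have hd1 := D_dual' hgr _ hP Y hY hGY
  have hd2 := D_dual' hrk B hBli _ hSli horth
  have hmain := Sy_ht hr (k + 1) (Matrix.of Y)
  have e1 : hE A G P = logHeight (fun f : Fin r → Fin n => (Matrix.of fun a b => Y a (f b)).det) :=
    hd1
  have e2 : hSub V = logHeight (fun f : Fin (Mo r (k + 1)).card → Fin (Mo n (k + 1)).card =>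
      (Matrix.of fun a b => Sy (k + 1) (Matrix.of Y) a (f b)).det) := by
    rw [← hd2, hB]
    rfl
  have hpos : 0 < (Mo r (k + 1)).card := by
    rw [Finset.card_pos]
    refine ⟨Pi.single ⟨0, hr⟩ (k + 1), ?_⟩
    unfold Mo
    rw [Finset.mem_piAntidiag]
    refine ⟨?_, fun _ _ => Finset.mem_univ _⟩
    rw [Finset.sum_pi_single']
    simp
  rw [le_div_iff₀ (by rw [hrke]; positivity), hrke, e1, e2, mul_comm]
  exact hmain

end

end Pool.Agent.Lib.MP_17a322_nt.EF
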