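import Pool.Agent.Lib.MP_17a322_nt.EF.V1

/-!
Moving hypersurfaces over abelian varieties: the forms `Lam`.
-/

universe u

namespace Pool.Agent.Lib.MP_17a322_nt.EF

open MvPolynomial Height
open Pool.Agent.Lib.MP_17a322_nt.VA
open Pool.Agent.Lib.MP_17a322_nt.SL

section

variable {K : Type u} [Field K] {N n : ℕ}

theorem W_BH_one : BH 0 0 (1 : MvPolynomial (Fin n) (MvPolynomial (Fin (N + 1)) K)) := by
  classical
  refine ⟨isHomogeneous_one _ _, fun μ => ?_⟩
  rw [coeff_one]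
  split_ifs
  · exact isHomogeneous_one _ _
  · exact isHomogeneous_zero _ _ _

theorem W_BH_mul {a a' b b' : ℕ} {P Q : MvPolynomial (Fin n) (MvPolynomial (Fin (N + 1)) K)}
    (hP : BH a b P) (hQ : BH a' b' Q) : BH (a + a') (b + b') (P * Q) := by
  classical
  refine ⟨hP.1.mul hQ.1, fun μ => ?_⟩
  rw [coeff_mul]
  exact IsHomogeneous.sum _ _ _ fun x _ => (hP.2 _).mul (hQ.2 _)

theorem W_BH_pow {a b : ℕ} {P : MvPolynomial (Fin n) (MvPolynomial (Fin (N + 1)) K)}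
    (hP : BH a b P) (m : ℕ) : BH (m * a) (m * b) (P ^ m) := by
  induction m with
  | zero => simpa using W_BH_one
  | succ m ih =>
    rw [pow_succ, add_mul, add_mul, one_mul, one_mul]
    exact W_BH_mul ih hP

theorem W_BH_prod {ι : Type*} (s : Finset ι) (a b : ι → ℕ)
    (P : ι → MvPolynomial (Fin n) (MvPolynomial (Fin (N + 1)) K))
    (hP : ∀ i ∈ s, BH (a i) (b i) (P i)) :
    BH (∑ i ∈ s, a i) (∑ i ∈ s, b i) (∏ i ∈ s, P i) := by
  classical
  induction s using Finset.induction_on with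
  | empty => simpa using W_BH_one
  | insert i s hi ih =>
    rw [Finset.sum_insert hi, Finset.sum_insert hi, Finset.prod_insert hi]
    exact W_BH_mul (hP i (Finset.mem_insert_self i s))
      (ih fun j hj => hP j (Finset.mem_insert_of_mem hj))

theorem W_BH_X (l : Fin n) :
    BH 0 1 (X l : MvPolynomial (Fin n) (MvPolynomial (Fin (N + 1)) K)) := by
  classical
  refine ⟨isHomogeneous_X _ _, fun μ => ?_⟩
  rw [MvPolynomial.coeff_X]
  split_ifs
  · exact isHomogeneous_one _ _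
  · exact isHomogeneous_zero _ _ _

theorem W_BH_C {ρ : ℕ} {R : MvPolynomial (Fin (N + 1)) K} (hR : R.IsHomogeneous ρ) :
    BH ρ 0 (C R : MvPolynomial (Fin n) (MvPolynomial (Fin (N + 1)) K)) := by
  classical
  refine ⟨isHomogeneous_C _ _, fun μ => ?_⟩
  rw [coeff_C]
  split_ifs
  · exact hR
  · exact isHomogeneous_zero _ _ _

theorem W_fam {M : Finset (Fin n → ℕ)} {t d k : ℕ} {p : (Fin n → ℕ) × (Fin t → ℕ)}
    (hp : p ∈ fam M t d k) : ∑ l, p.1 l + d * ∑ j, p.2 j = k :=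
  (Finset.mem_filter.mp hp).2

theorem Lam_BH {a : Fin (N + 1)} {D d k t : ℕ} (hd : 0 < d)
    (Q : Fin t → MvPolynomial (Fin n) (MvPolynomial (Fin (N + 1)) K)) (hQ : ∀ j, BH D d (Q j))
    (M : Finset (Fin n → ℕ)) {p : (Fin n → ℕ) × (Fin t → ℕ)} (hp : p ∈ fam M t d k) :
    BH (D * k) k (Lam a D k Q p) := by
  have hk := W_fam hp
  have he : ∑ j, p.2 j ≤ k := by
    calc ∑ j, p.2 j ≤ d * ∑ j, p.2 j := Nat.le_mul_of_pos_left _ hd
      _ ≤ k := by omega
  have h1 := W_BH_prod (N := N) (K := K) (Finset.univ : Finset (Fin n)) (fun l => p.1 l * 0)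
    (fun l => p.1 l * 1) (fun l => (X l : MvPolynomial (Fin n) (MvPolynomial (Fin (N + 1)) K)) ^ p.1 l)
    fun l _ => W_BH_pow (W_BH_X l) (p.1 l)
  have h2 := W_BH_prod (N := N) (K := K) (Finset.univ : Finset (Fin t)) (fun j => p.2 j * D)
    (fun j => p.2 j * d) (fun j => Q j ^ p.2 j) fun j _ => W_BH_pow (hQ j) (p.2 j)
  have h3 : BH (D * (k - ∑ j, p.2 j)) 0
      (C (X a ^ (D * (k - ∑ j, p.2 j))) : MvPolynomial (Fin n) (MvPolynomial (Fin (N + 1)) K)) := by
    refine W_BH_C ?_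
    simpa using (isHomogeneous_X K a).pow (D * (k - ∑ j, p.2 j))
  have h4 := W_BH_mul h3 (W_BH_mul h1 h2)
  have e1 : D * (k - ∑ j, p.2 j) + (∑ l, p.1 l * 0 + ∑ j, p.2 j * D) = D * k := by
    rw [← Finset.sum_mul, ← Finset.sum_mul, mul_zero, zero_add, mul_comm (∑ j, p.2 j) D, ← mul_add,
      Nat.sub_add_cancel he]
  have e2 : 0 + (∑ l, p.1 l * 1 + ∑ j, p.2 j * d) = k := by
    rw [← Finset.sum_mul, ← Finset.sum_mul, mul_one, zero_add, mul_comm (∑ j, p.2 j) d, hk]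
  rw [e1, e2] at h4
  exact h4

variable (A : AV K N)

theorem Lam_sp {L : Type u} [Field L] [Algebra K L] (P : A.Pts L) (a : Fin (N + 1)) (D k : ℕ)
    {t : ℕ} (Q : Fin t → MvPolynomial (Fin n) (MvPolynomial (Fin (N + 1)) K))
    (p : (Fin n → ℕ) × (Fin t → ℕ)) :
    sp A P (Lam a D k Q p) =
      C (A.x P a ^ (D * (k - ∑ j, p.2 j))) * fm (fun j => sp A P (Q j)) p := by
  simp only [sp, Lam, fm, map_mul, map_prod, map_pow, MvPolynomial.map_X, MvPolynomial.map_C]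
  simp

theorem W_le_sup {L : Type*} [Field L] {m : ℕ} (v : AbsoluteValue L ℝ) (X : Fin m → L)
    (l : Fin m) : v (X l) ≤ ⨆ l, v (X l) :=
  le_ciSup (f := fun l => v (X l)) (Set.finite_range _).bddAbove l

theorem W_sup_pos {L : Type*} [Field L] {m : ℕ} (v : AbsoluteValue L ℝ) {X : Fin m → L}
    (hX : X ≠ 0) : 0 < ⨆ l, v (X l) := by
  obtain ⟨l, hl⟩ := Function.ne_iff.mp hX
  exact lt_of_lt_of_le (v.pos hl) (W_le_sup v X l)

theorem W_log_pow_le {L : Type*} [Field L] {m : ℕ} (v : AbsoluteValue L ℝ) (X : Fin m → L)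
    (l : Fin m) (e : ℕ) (h : X l ^ e ≠ 0) :
    (e : ℝ) * Real.log (v (X l)) ≤ e * Real.log (⨆ l, v (X l)) := by
  rcases Nat.eq_zero_or_pos e with he | he
  · simp [he]
  · have h1 : X l ≠ 0 := fun h' => h (by rw [h', zero_pow he.ne'])
    exact mul_le_mul_of_nonneg_left (Real.log_le_log (v.pos h1) (W_le_sup v X l))
      (Nat.cast_nonneg e)

theorem W_log_prod {L : Type*} [Field L] {m : ℕ} (v : AbsoluteValue L ℝ) (X : Fin m → L)
    (e : Fin m → ℕ) (h : ∏ l, X l ^ e l ≠ 0) :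
    Real.log (v (∏ l, X l ^ e l)) = ∑ l, (e l : ℝ) * Real.log (v (X l)) := by
  rw [map_prod, Real.log_prod]
  · exact Finset.sum_congr rfl fun l _ => by rw [map_pow, Real.log_pow]
  · intro l _
    exact (v.pos (Finset.prod_ne_zero_iff.mp h l (Finset.mem_univ l))).ne'

/-- If the value of `Lam` is not zero, then the values of the `Q j` which occur in it are not zero,
and the local heights satisfy an inequality. -/
theorem Lam_ge {a : Fin (N + 1)} {D d k t : ℕ} (hd : 0 < d)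
    (Q : Fin t → MvPolynomial (Fin n) (MvPolynomial (Fin (N + 1)) K)) (hQ : ∀ j, BH D d (Q j))
    (M : Finset (Fin n → ℕ)) {p : (Fin n → ℕ) × (Fin t → ℕ)} (hp : p ∈ fam M t d k)
    (v : AbsoluteValue K ℝ) (P : A.Pts K) {X : Fin n → K} (hX : X ≠ 0)
    (h0 : ∑ l, aeval (A.x P) (cf k (Lam a D k Q p) l) * ver k X l ≠ 0) :
    (∀ j, 0 < p.2 j → eval X (sp A P (Q j)) ≠ 0) ∧
      ∑ j, (p.2 j : ℝ) * lamQ A v D d (Q j) P X ≤
        lam A v (D * k) (cf k (Lam a D k Q p)) P (ver k X) := by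
  have hE : ∑ l, aeval (A.x P) (cf k (Lam a D k Q p) l) * ver k X l =
      A.x P a ^ (D * (k - ∑ j, p.2 j)) *
        ((∏ l, X l ^ p.1 l) * ∏ j, eval X (sp A P (Q j)) ^ p.2 j) := by
    have h1 : (sp A P (Lam a D k Q p)).IsHomogeneous k :=
      (Lam_BH hd Q hQ M hp).1.map (aeval (A.x P)).toRingHom
    have h3 : ∀ l, cf k (sp A P (Lam a D k Q p)) l = aeval (A.x P) (cf k (Lam a D k Q p) l) := by
      intro l
      have h4 := cf_map (k := k) (aeval (R := K) (A.x P)).toRingHom (Lam a D k Q p) l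
      exact h4
    have h2 : eval X (sp A P (Lam a D k Q p)) =
        ∑ l, aeval (A.x P) (cf k (Lam a D k Q p) l) * ver k X l := by
      rw [eval_cf h1 X]
      exact Finset.sum_congr rfl fun l _ => by rw [h3]
    rw [← h2, Lam_sp, fm, map_mul, map_mul, map_prod, map_prod, eval_C]
    simp only [map_pow, eval_X]
  have hk := W_fam hp
  have he : ∑ j, p.2 j ≤ k := by
    calc ∑ j, p.2 j ≤ d * ∑ j, p.2 j := Nat.le_mul_of_pos_left _ hd
      _ ≤ k := by omega
  rw [hE] at h0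
  have ha := left_ne_zero_of_mul h0
  have hb := left_ne_zero_of_mul (right_ne_zero_of_mul h0)
  have hc := right_ne_zero_of_mul (right_ne_zero_of_mul h0)
  refine ⟨fun j hj h => ?_, ?_⟩
  · refine Finset.prod_ne_zero_iff.mp hc j (Finset.mem_univ j) ?_
    rw [h, zero_pow hj.ne']
  · have l1 : Real.log (v (∑ l, aeval (A.x P) (cf k (Lam a D k Q p) l) * ver k X l)) =
        ((D * (k - ∑ j, p.2 j) : ℕ) : ℝ) * Real.log (v (A.x P a)) +
          (∑ l, (p.1 l : ℝ) * Real.log (v (X l)) +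
            ∑ j, (p.2 j : ℝ) * Real.log (v (eval X (sp A P (Q j))))) := by
      rw [hE, map_mul, map_mul, Real.log_mul (v.pos ha).ne' (mul_pos (v.pos hb) (v.pos hc)).ne',
        Real.log_mul (v.pos hb).ne' (v.pos hc).ne', W_log_prod v X p.1 hb,
        W_log_prod v (fun j => eval X (sp A P (Q j))) p.2 hc, map_pow, Real.log_pow]
    have l2 : ∑ l, (p.1 l : ℝ) * Real.log (v (X l)) ≤
        (∑ l, (p.1 l : ℝ)) * Real.log (⨆ l, v (X l)) := by
      rw [Finset.sum_mul]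
      exact Finset.sum_le_sum fun l _ => W_log_pow_le v X l (p.1 l)
        (Finset.prod_ne_zero_iff.mp hb l (Finset.mem_univ l))
    have l3 := W_log_pow_le v (A.x P) a _ ha
    have l4 : ((D * (k - ∑ j, p.2 j) : ℕ) : ℝ) = D * k - D * ∑ j, (p.2 j : ℝ) := by
      push_cast [Nat.cast_sub he]
      ring
    have l5 : (k : ℝ) = ∑ l, (p.1 l : ℝ) + d * ∑ j, (p.2 j : ℝ) := by
      rw [← hk]
      push_cast
      rfl
    have l6 : ∑ j, (p.2 j : ℝ) * lamQ A v D d (Q j) P X =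
        (∑ j, (p.2 j : ℝ)) * (d * Real.log (⨆ l, v (X l)) + D * Real.log (⨆ i, v (A.x P i))) -
          ∑ j, (p.2 j : ℝ) * Real.log (v (eval X (sp A P (Q j)))) := by
      rw [Finset.sum_mul, ← Finset.sum_sub_distrib]
      exact Finset.sum_congr rfl fun j _ => by rw [lamQ, mul_sub]
    rw [l4] at l3
    rw [l6, lam, ver_sup v hX, Real.log_pow, l1, l4]
    push_cast
    generalize Real.log (⨆ l, v (X l)) = Lx at *
    generalize Real.log (⨆ i, v (A.x P i)) = Lp at *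
    generalize ∑ l, (p.1 l : ℝ) * Real.log (v (X l)) = a1 at *
    generalize ∑ j, (p.2 j : ℝ) * Real.log (v (eval X (sp A P (Q j)))) = a2 at *
    generalize ∑ l, (p.1 l : ℝ) = n1 at *
    generalize ∑ j, (p.2 j : ℝ) = s at *
    have l7 : (k : ℝ) * Lx = n1 * Lx + d * s * Lx := by rw [l5]; ring
    linarith [l2, l3, l7]

theorem W_mon_le {L : Type*} [Field L] {m D : ℕ} (v : AbsoluteValue L ℝ) (x : Fin m → L)
    (e : Fin m →₀ ℕ) (he : ∑ i, e i = D) : v (∏ i, x i ^ e i) ≤ (⨆ i, v (x i)) ^ D := by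
  rw [map_prod, ← he, ← Finset.prod_pow_eq_pow_sum]
  refine Finset.prod_le_prod (fun i _ => v.nonneg _) fun i _ => ?_
  rw [map_pow]
  exact pow_le_pow_left₀ (v.nonneg _) (W_le_sup v x i) _

theorem W_supp {R : Type*} [CommSemiring R] {m D : ℕ} {F : MvPolynomial (Fin m) R}
    (hF : F.IsHomogeneous D) {e : Fin m →₀ ℕ} (he : e ∈ F.support) : ∑ i, e i = D := by
  rw [← hF (mem_support_iff.mp he), Finsupp.weight_apply, Finsupp.sum_fintype _ _ (by simp)]
  simp

theorem W_bound {m D : ℕ} {F : MvPolynomial (Fin m) K} (hF : F.IsHomogeneous D)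
    (v : AbsoluteValue K ℝ) (x : Fin m → K) :
    v (aeval x F) ≤ (∑ e ∈ F.support, v (coeff e F)) * (⨆ i, v (x i)) ^ D := by
  rw [aeval_def, eval₂_eq', Finset.sum_mul]
  refine (v.sum_le _ _).trans (Finset.sum_le_sum fun e he => ?_)
  rw [map_mul]
  exact mul_le_mul_of_nonneg_left (W_mon_le v x e (W_supp hF he)) (v.nonneg _)

theorem W_bound_sp {D d : ℕ} {Q : MvPolynomial (Fin n) (MvPolynomial (Fin (N + 1)) K)}
    (hQ : BH D d Q) (v : AbsoluteValue K ℝ) (P : A.Pts K) (X : Fin n → K) :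
    v (eval X (sp A P Q)) ≤
      (∑ μ ∈ Q.support, ∑ e ∈ (coeff μ Q).support, v (coeff e (coeff μ Q))) *
        ((⨆ i, v (A.x P i)) ^ D * (⨆ l, v (X l)) ^ d) := by
  have h0 : 0 ≤ (⨆ i, v (A.x P i)) ^ D :=
    pow_nonneg (Real.iSup_nonneg fun i => v.nonneg _) _
  rw [sp, eval_map, eval₂_eq', Finset.sum_mul]
  refine (v.sum_le _ _).trans (Finset.sum_le_sum fun μ hμ => ?_)
  rw [map_mul, ← mul_assoc]
  refine mul_le_mul (W_bound (hQ.2 μ) v (A.x P)) (W_mon_le v X μ (W_supp hQ.1 hμ))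
    (v.nonneg _) (mul_nonneg (Finset.sum_nonneg fun e _ => v.nonneg _) h0)

/-- The local heights are bounded from below. -/
theorem lamQ_ge {D d : ℕ} {Q : MvPolynomial (Fin n) (MvPolynomial (Fin (N + 1)) K)}
    (hQ : BH D d Q) (v : AbsoluteValue K ℝ) :
    ∃ C : ℝ, 0 ≤ C ∧ ∀ (P : A.Pts K) (X : Fin n → K), X ≠ 0 → eval X (sp A P Q) ≠ 0 →
      - C ≤ lamQ A v D d Q P X := by
  set B : ℝ := ∑ μ ∈ Q.support, ∑ e ∈ (coeff μ Q).support, v (coeff e (coeff μ Q)) with hB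
  refine ⟨Real.log (max B 1), Real.log_nonneg (le_max_right _ _), fun P X hX h => ?_⟩
  have h1 := W_bound_sp A hQ v P X
  rw [← hB] at h1
  have hx : 0 < ⨆ i, v (A.x P i) := W_sup_pos v P.1.rep_nonzero
  have hX' : 0 < ⨆ l, v (X l) := W_sup_pos v hX
  have hm : 0 < max B 1 := lt_of_lt_of_le one_pos (le_max_right _ _)
  have h2 : v (eval X (sp A P Q)) ≤
      max B 1 * ((⨆ i, v (A.x P i)) ^ D * (⨆ l, v (X l)) ^ d) :=
    h1.trans (mul_le_mul_of_nonneg_right (le_max_left _ _) (by positivity))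
  have h3 := Real.log_le_log (v.pos h) h2
  rw [Real.log_mul hm.ne' (mul_pos (pow_pos hx D) (pow_pos hX' d)).ne',
    Real.log_mul (pow_pos hx D).ne' (pow_pos hX' d).ne', Real.log_pow, Real.log_pow] at h3
  rw [lamQ]
  linarith

end

end Pool.Agent.Lib.MP_17a322_nt.EF
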