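import Pool.Agent.Lib.MP_17a322_nt.EF.Defs

/-!
Moving hypersurfaces: the nearest hypersurfaces; the ideal of the fibre is homogeneous.
-/

universe u

namespace Pool.Agent.Lib.MP_17a322_nt.EF

open MvPolynomial Height
open Pool.Agent.Lib.MP_17a322_nt.VA
open Pool.Agent.Lib.MP_17a322_nt.SL

/-- The `t` largest values. -/
theorem top_subset {ι : Type*} [DecidableEq ι] (f : ι → ℝ) (t : ℕ) (J : Finset ι)
    (hJ : t ≤ J.card) :
    ∃ T ⊆ J, T.card = t ∧ ∀ j ∈ J, j ∉ T → ∀ i ∈ T, f j ≤ f i := by
  obtain ⟨k, hk⟩ := Nat.exists_eq_add_of_le hJ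
  induction k generalizing J with
  | zero => exact ⟨J, subset_rfl, by omega, fun j h1 h2 => absurd h1 h2⟩
  | succ k ih =>
    have hne : J.Nonempty := by
      rw [← Finset.card_pos]
      omega
    obtain ⟨m, hm, hmin⟩ := Finset.exists_min_image J f hne
    have hc : (J.erase m).card = t + k := by
      rw [Finset.card_erase_of_mem hm]
      omega
    obtain ⟨T, hT, hTc, hTf⟩ := ih (J.erase m) (by omega) hc
    refine ⟨T, hT.trans (Finset.erase_subset _ _), hTc, fun j hj hjT i hi => ?_⟩
    by_cases h : j = m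
    · rw [h]
      exact hmin i (Finset.erase_subset _ _ (hT hi))
    · exact hTf j (Finset.mem_erase.2 ⟨h, hj⟩) hjT i hi

section

variable {K : Type u} [Field K] {N n m s : ℕ}

theorem BH.sp {A : AV K N} {D d : ℕ} {Q : MvPolynomial (Fin n) (MvPolynomial (Fin (N + 1)) K)}
    (hQ : BH D d Q) {L : Type u} [Field L] [Algebra K L] (P : A.Pts L) :
    (EF.sp A P Q).IsHomogeneous d := by
  unfold EF.sp
  exact hQ.1.map _

variable (A : AV K N)

theorem fib_graded (H : Fin m → MvPolynomial (Fin n) (MvPolynomial (Fin (N + 1)) K))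
    (hH : ∀ i, ∃ a b : ℕ, BH a b (H i)) {L : Type u} [Field L] [Algebra K L] (P : A.Pts L) :
    ∀ f ∈ fib A H P, ∀ k, homogeneousComponent k f ∈ fib A H P := by
  intro f hf
  unfold fib at hf ⊢
  refine Submodule.span_induction (p := fun f _ => ∀ k, homogeneousComponent k f ∈
    Ideal.span (Set.range fun i => sp A P (H i))) ?_ ?_ ?_ ?_ hf
  · rintro _ ⟨i, rfl⟩ k
    obtain ⟨a, b, hab⟩ := hH i
    have h1 : (sp A P (H i)).IsHomogeneous b := hab.sp P
    rw [homogeneousComponent_of_mem ((mem_homogeneousSubmodule _ _).2 h1)]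
    split_ifs
    · exact Ideal.subset_span ⟨i, rfl⟩
    · exact Ideal.zero_mem _
  · intro k
    rw [map_zero]
    exact Ideal.zero_mem _
  · intro x y _ _ hx hy k
    rw [map_add]
    exact Ideal.add_mem _ (hx k) (hy k)
  · intro a x _ hx k
    rw [smul_eq_mul]
    have h1 : a * x = ∑ i ∈ Finset.range (a.totalDegree + 1),
        ∑ j ∈ Finset.range (x.totalDegree + 1),
          homogeneousComponent i a * homogeneousComponent j x := by
      rw [← Finset.sum_mul_sum, sum_homogeneousComponent, sum_homogeneousComponent]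
    rw [h1, map_sum]
    refine Ideal.sum_mem _ fun i _ => ?_
    rw [map_sum]
    refine Ideal.sum_mem _ fun j _ => ?_
    have h2 : (homogeneousComponent i a * homogeneousComponent j x).IsHomogeneous (i + j) :=
      (homogeneousComponent_isHomogeneous i a).mul (homogeneousComponent_isHomogeneous j x)
    rw [homogeneousComponent_of_mem ((mem_homogeneousSubmodule _ _).2 h2)]
    split_ifs
    · exact Ideal.mul_mem_left _ _ (hx j)
    · exact Ideal.zero_mem _

/-- Not all variables are zero on the fibre. -/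
theorem exists_X_notMem {L : Type u} [Field L] (I : Ideal (MvPolynomial (Fin n) L)) {t : ℕ}
    (ht : 0 < t) [I.IsPrime] (htr : Algebra.trdeg L (MvPolynomial (Fin n) L ⧸ I) = t) :
    ∃ l, (X l : MvPolynomial (Fin n) L) ∉ I := by
  by_contra hcon
  push Not at hcon
  have h1 : Algebra.IsAlgebraic L (MvPolynomial (Fin n) L ⧸ I) := by
    refine ⟨fun x => ?_⟩
    obtain ⟨f, rfl⟩ := Ideal.Quotient.mk_surjective x
    have h2 : ∀ f : MvPolynomial (Fin n) L, ∃ c : L,
        Ideal.Quotient.mk I f = algebraMap L _ c := by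
      intro f
      induction f using MvPolynomial.induction_on with
      | C a => exact ⟨a, rfl⟩
      | add p q hp hq =>
        obtain ⟨a, ha⟩ := hp
        obtain ⟨b, hb⟩ := hq
        exact ⟨a + b, by rw [map_add, map_add, ha, hb]⟩
      | mul_X p i hp =>
        refine ⟨0, ?_⟩
        rw [map_mul, Ideal.Quotient.eq_zero_iff_mem.2 (hcon i), mul_zero, map_zero]
    obtain ⟨c, hc⟩ := h2 f
    rw [hc]
    exact isAlgebraic_algebraMap c
  have h2 := trdeg_eq_zero (R := L) (A := MvPolynomial (Fin n) L ⧸ I)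
  rw [h2] at htr
  have h3 : (t : Cardinal.{u}) = 0 := htr.symm
  rw [Nat.cast_eq_zero] at h3
  omega

end

end Pool.Agent.Lib.MP_17a322_nt.EF
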