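import Pool.Agent.Lib.MP_17a322_nt.EF.C2
import Pool.Agent.Lib.MP_17a322_nt.EF.C3
import Pool.Agent.Lib.MP_17a322_nt.EF.C4
import Pool.Agent.Lib.MP_17a322_nt.EF.C5
import Pool.Agent.Lib.MP_17a322_nt.EF.W2

/-!
Moving hypersurfaces: the choice of the degree.
-/

universe u

namespace Pool.Agent.Lib.MP_17a322_nt.EF

open MvPolynomial Height
open Pool.Agent.Lib.MP_17a322_nt.VA
open Pool.Agent.Lib.MP_17a322_nt.SL

section

variable {K : Type u} [Field K] {N n m s : ℕ}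

theorem BH_zero (D d : ℕ) : BH D d (0 : MvPolynomial (Fin n) (MvPolynomial (Fin (N + 1)) K)) :=
  ⟨isHomogeneous_zero _ _ _, fun μ => by rw [coeff_zero]; exact isHomogeneous_zero _ _ _⟩

/-- The hypersurfaces with indices in `T` in increasing order. -/
noncomputable def qT (t : ℕ) (Q : Fin s → MvPolynomial (Fin n) (MvPolynomial (Fin (N + 1)) K))
    (T : Finset (Fin s)) : Fin t → MvPolynomial (Fin n) (MvPolynomial (Fin (N + 1)) K) :=
  fun j => if h : T.card = t then Q (T.orderEmbOfFin h j) else 0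

theorem qT_BH {t D d : ℕ} {Q : Fin s → MvPolynomial (Fin n) (MvPolynomial (Fin (N + 1)) K)}
    (hQ : ∀ j, BH D d (Q j)) (T : Finset (Fin s)) (j : Fin t) : BH D d (qT t Q T j) := by
  unfold qT
  split_ifs
  · exact hQ _
  · exact BH_zero D d

theorem qT_of {t : ℕ} (Q : Fin s → MvPolynomial (Fin n) (MvPolynomial (Fin (N + 1)) K))
    {T : Finset (Fin s)} (h : T.card = t) (j : Fin t) : qT t Q T j = Q (T.orderEmbOfFin h j) := by
  unfold qT
  rw [dif_pos h]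

theorem sum_orderEmb {M : Type*} [AddCommMonoid M] {t : ℕ} {T : Finset (Fin s)}
    (h : T.card = t) (f : Fin s → M) : ∑ j, f (T.orderEmbOfFin h j) = ∑ j ∈ T, f j := by
  classical
  have h1 : T = Finset.univ.map (T.orderEmbOfFin h).toEmbedding := by
    ext x
    simp only [Finset.mem_map, Finset.mem_univ, true_and]
    constructor
    · intro hx
      have h2 : x ∈ Set.range (T.orderEmbOfFin h) := by
        rw [Finset.range_orderEmbOfFin]
        exact hx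
      obtain ⟨j, hj⟩ := h2
      exact ⟨j, hj⟩
    · rintro ⟨j, rfl⟩
      exact Finset.orderEmbOfFin_mem T h j
  conv_rhs => rw [h1]
  rw [Finset.sum_map]
  rfl

theorem mem_orderEmb {t : ℕ} {T : Finset (Fin s)} (h : T.card = t) {x : Fin s} (hx : x ∈ T) :
    ∃ j, T.orderEmbOfFin h j = x := by
  have h2 : x ∈ Set.range (T.orderEmbOfFin h) := by
    rw [Finset.range_orderEmbOfFin]
    exact hx
  exact h2

variable (A : AV K N)

/-- The choice of the degree `k`. -/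
theorem W_choose {D d t : ℕ} (ht : 0 < t) (hd : 0 < d)
    (H : Fin m → MvPolynomial (Fin n) (MvPolynomial (Fin (N + 1)) K))
    (hH : ∀ i, ∃ a b : ℕ, BH a b (H i))
    (Q : Fin s → MvPolynomial (Fin n) (MvPolynomial (Fin (N + 1)) K)) (hQ : ∀ j, BH D d (Q j))
    {L : Type u} [Field L] [IsAlgClosed L] [Algebra K L] (P₀ : A.Pts L) (hP₀ : Gen A P₀)
    (hpr : (fib A H P₀).IsPrime)
    (htr : Algebra.trdeg L (MvPolynomial (Fin n) L ⧸ fib A H P₀) = t) {δ : ℝ} (hδ : 0 < δ)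
    (hδ1 : δ < 1) :
    ∃ (k : ℕ) (M : Finset (Fin s) → Finset (Fin n → ℕ)), 0 < k ∧ 0 < rk (fib A H P₀) k ∧
      ∀ T : Finset (Fin s), T.card = t → NoCommon A H Q T →
        (∀ a : (Fin n → ℕ) × (Fin t → ℕ) → L,
          ∑ p ∈ fam (M T) t d k, C (a p) * fm (fun j => sp A P₀ (qT t Q T j)) p ∈ fib A H P₀ →
            ∀ p ∈ fam (M T) t d k, a p = 0) ∧
        ∀ j : Fin t, (1 - δ) * (k * rk (fib A H P₀) k) ≤
          t * d * ∑ p ∈ fam (M T) t d k, (p.2 j : ℝ) := by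
  classical
  obtain ⟨I, hI⟩ : ∃ I, I = fib A H P₀ := ⟨_, rfl⟩
  have hIg := fib_graded A H hH P₀
  rw [← hI] at hpr htr hIg ⊢
  have h1 := exists_X_notMem I ht htr
  have key : ∀ T : Finset (Fin s), ∃ (M : Finset (Fin n → ℕ)) (c : ℕ), T.card = t →
      NoCommon A H Q T →
      (∀ (k : ℕ) (a : (Fin n → ℕ) × (Fin t → ℕ) → L),
        ∑ p ∈ fam M t d k, C (a p) * fm (fun j => sp A P₀ (qT t Q T j)) p ∈ I →
          ∀ p ∈ fam M t d k, a p = 0) ∧
      ∀ k, rk I k ≤ (fam M t d (k + c)).card := by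
    intro T
    by_cases hT : T.card = t ∧ NoCommon A H Q T
    · have hq : ∀ j, (sp A P₀ (qT t Q T j)).IsHomogeneous d := fun j => (qT_BH hQ T j).sp P₀
      have h0 : ∀ X : Fin n → L, (∀ f ∈ I, eval X f = 0) →
          (∀ j, eval X (sp A P₀ (qT t Q T j)) = 0) → X = 0 := by
        intro X hX hX'
        refine hT.2 L P₀ hP₀ X (fun i => hX _ ?_) fun j hj => ?_
        · rw [hI]
          exact Ideal.subset_span ⟨i, rfl⟩
        · obtain ⟨i, hi⟩ := mem_orderEmb hT.1 hj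
          rw [← hi, ← qT_of Q hT.1]
          exact hX' i
      obtain ⟨M', hM'⟩ := C_span hd I hIg (fun j => sp A P₀ (qT t Q T j)) hq h0
      have hind := C_indep I htr hd (fun j => sp A P₀ (qT t Q T j)) M' hM'
      obtain ⟨M, c, h2, h3⟩ := C_fam I hIg hd (fun j => sp A P₀ (qT t Q T j)) hq hind M' hM'
      exact ⟨M, c, fun _ _ => ⟨h2, h3⟩⟩
    · exact ⟨∅, 0, fun h2 h3 => absurd ⟨h2, h3⟩ hT⟩
  choose M c hM using key
  obtain ⟨c₁, hc₁⟩ : ∃ c₁, c₁ = ∑ T, c T := ⟨_, rfl⟩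
  obtain ⟨c₂, hc₂⟩ : ∃ c₂, c₂ = ∑ T, ∑ ν ∈ M T, ∑ l, ν l := ⟨_, rfl⟩
  have hc₁' : ∀ T, c T ≤ c₁ := fun T => by
    rw [hc₁]
    exact Finset.single_le_sum (f := c) (fun _ _ => Nat.zero_le _) (Finset.mem_univ T)
  have hc₂' : ∀ T, ∀ ν ∈ M T, ∑ l, ν l ≤ c₂ := fun T ν hν => by
    rw [hc₂]
    exact (Finset.single_le_sum (f := fun ν : Fin n → ℕ => ∑ l, ν l)
      (fun _ _ => Nat.zero_le _) hν).trans
      (Finset.single_le_sum (f := fun T => ∑ ν ∈ M T, ∑ l, ν l) (fun _ _ => Nat.zero_le _)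
        (Finset.mem_univ T))
  obtain ⟨k₀, hk₀⟩ := exists_nat_ge (2 * c₂ / δ)
  obtain ⟨k, hk, hck, hrk, hgr⟩ := C_growth I h1 c₁ (k₀ + 1) (half_pos hδ)
  refine ⟨k, M, by omega, hrk, fun T hTc hT => ⟨(hM T hTc hT).1 k, fun j => ?_⟩⟩
  have h2 : rk I (k - c₁) ≤ (fam (M T) t d k).card := by
    have h3 := (hM T hTc hT).2 (k - c T)
    have h4 : k - c T + c T = k := Nat.sub_add_cancel ((hc₁' T).trans hck)
    rw [h4] at h3
    exact (rk_mono I h1 (Nat.sub_le_sub_left (hc₁' T) k)).trans h3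
  have h3 := (C_weight (M T) t d k c₂ (hc₂' T) j).1
  have hk1 : (k₀ : ℝ) + 1 ≤ k := by exact_mod_cast hk
  have h4 : (c₂ : ℝ) ≤ δ / 2 * k := by
    rw [div_le_iff₀ hδ] at hk₀
    nlinarith
  have h5 : (rk I (k - c₁) : ℝ) ≤ (fam (M T) t d k).card := by exact_mod_cast h2
  have hk0 : (0 : ℝ) ≤ k := Nat.cast_nonneg _
  have hr0 : (0 : ℝ) ≤ rk I k := Nat.cast_nonneg _
  have h6 : (1 - δ / 2) * rk I k * ((1 - δ / 2) * k) ≤ (fam (M T) t d k).card * (k - c₂) :=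
    mul_le_mul (hgr.trans h5) (by linarith) (mul_nonneg (by linarith) hk0)
      (Nat.cast_nonneg _)
  have h7 : (1 - δ) * (k * rk I k) ≤ (1 - δ / 2) * rk I k * ((1 - δ / 2) * k) := by
    have h8 : 0 ≤ δ ^ 2 / 4 * (k * rk I k : ℝ) := by positivity
    nlinarith
  exact h7.trans (h6.trans h3)

end

end Pool.Agent.Lib.MP_17a322_nt.EF
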