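import Pool.Agent.Lib.MP_17a322_nt.EF.W3
import Pool.Agent.Lib.MP_17a322_nt.EF.T3
import Pool.Agent.Lib.MP_17a322_nt.EF.W1
import Pool.Agent.Lib.MP_17a322_nt.EF.E1
import Pool.Agent.Lib.MP_17a322_nt.SL.F9

/-!
Moving hypersurfaces: the inequality for one choice of the nearest hypersurfaces.
-/

universe u

namespace Pool.Agent.Lib.MP_17a322_nt.EF

open MvPolynomial Height
open Pool.Agent.Lib.MP_17a322_nt.VA
open Pool.Agent.Lib.MP_17a322_nt.SL

section

variable {s n t d k : ℕ}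

/-- The pairs `(T, p)` with `p` in the family of `T`. -/
def Idx (M : Finset (Fin s) → Finset (Fin n → ℕ)) (t d k : ℕ) : Type :=
  Σ T : Finset (Fin s), {p // p ∈ fam (M T) t d k}

noncomputable instance (M : Finset (Fin s) → Finset (Fin n → ℕ)) : Fintype (Idx M t d k) := by
  unfold Idx
  infer_instance

/-- The enumeration of the pairs. -/
noncomputable def ix (M : Finset (Fin s) → Finset (Fin n → ℕ)) (t d k : ℕ) :
    Idx M t d k ≃ Fin (Fintype.card (Idx M t d k)) :=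
  Fintype.equivFin _

/-- The indices of the pairs with the first entry `T`. -/
noncomputable def Jix (M : Finset (Fin s) → Finset (Fin n → ℕ)) (t d k : ℕ)
    (T : Finset (Fin s)) : Finset (Fin (Fintype.card (Idx M t d k))) :=
  Finset.univ.filter fun i => ((ix M t d k).symm i).1 = T

theorem mem_Jix {M : Finset (Fin s) → Finset (Fin n → ℕ)} {T : Finset (Fin s)}
    {p : (Fin n → ℕ) × (Fin t → ℕ)} (hp : p ∈ fam (M T) t d k) :
    ix M t d k ⟨T, ⟨p, hp⟩⟩ ∈ Jix M t d k T := by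
  unfold Jix
  rw [Finset.mem_filter]
  refine ⟨Finset.mem_univ _, ?_⟩
  rw [Equiv.symm_apply_apply]

theorem Jix_exists {M : Finset (Fin s) → Finset (Fin n → ℕ)} {T : Finset (Fin s)}
    {i : Fin (Fintype.card (Idx M t d k))} (hi : i ∈ Jix M t d k T) :
    ∃ (p : (Fin n → ℕ) × (Fin t → ℕ)) (hp : p ∈ fam (M T) t d k),
      i = ix M t d k ⟨T, ⟨p, hp⟩⟩ := by
  unfold Jix at hi
  rw [Finset.mem_filter] at hi
  obtain ⟨_, hi⟩ := hi
  subst hi
  refine ⟨((ix M t d k).symm i).2.1, ((ix M t d k).symm i).2.2, ?_⟩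
  exact ((ix M t d k).apply_symm_apply i).symm

theorem sum_Jix {B : Type*} [AddCommMonoid B] (M : Finset (Fin s) → Finset (Fin n → ℕ))
    (T : Finset (Fin s)) (f : Fin (Fintype.card (Idx M t d k)) → B) :
    ∑ i ∈ Jix M t d k T, f i =
      ∑ p : {p // p ∈ fam (M T) t d k}, f (ix M t d k ⟨T, p⟩) := by
  classical
  refine (Finset.sum_bij (fun p _ => ix M t d k ⟨T, p⟩) ?_ ?_ ?_ ?_).symm
  · intro p _
    exact mem_Jix p.2
  · intro p _ q _ h
    have h1 := (ix M t d k).injective h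
    have h2 := eq_of_heq (Sigma.mk.inj_iff.1 h1).2
    exact h2
  · intro i hi
    obtain ⟨p, hp, h⟩ := Jix_exists hi
    exact ⟨⟨p, hp⟩, Finset.mem_univ _, h.symm⟩
  · intro p _
    rfl

end

section

variable {K : Type u} [Field K] {N n m s : ℕ} (A : AV K N)

theorem x_ne' {L : Type u} [Field L] [Algebra K L] (P : A.Pts L) : ∃ a, A.x P a ≠ 0 := by
  by_contra hcon
  push Not at hcon
  exact P.1.rep_nonzero (funext hcon)

/-- The forms with the indices `(T, p)`. -/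
noncomputable def Phi (a : Fin (N + 1)) (D : ℕ) {t d k : ℕ}
    (Q : Fin s → MvPolynomial (Fin n) (MvPolynomial (Fin (N + 1)) K))
    (M : Finset (Fin s) → Finset (Fin n → ℕ)) (i : Fin (Fintype.card (Idx M t d k))) :
    MvPolynomial (Fin n) (MvPolynomial (Fin (N + 1)) K) :=
  Lam a D k (qT t Q ((ix M t d k).symm i).1) ((ix M t d k).symm i).2.1

theorem Phi_ix (a : Fin (N + 1)) (D : ℕ) {t d k : ℕ}
    (Q : Fin s → MvPolynomial (Fin n) (MvPolynomial (Fin (N + 1)) K))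
    (M : Finset (Fin s) → Finset (Fin n → ℕ)) (T : Finset (Fin s))
    (p : {p // p ∈ fam (M T) t d k}) :
    Phi a D Q M (ix M t d k ⟨T, p⟩) = Lam a D k (qT t Q T) p.1 := by
  unfold Phi
  rw [Equiv.symm_apply_apply]

theorem Phi_BH (a : Fin (N + 1)) {D t d k : ℕ} (hd : 0 < d)
    (Q : Fin s → MvPolynomial (Fin n) (MvPolynomial (Fin (N + 1)) K)) (hQ : ∀ j, BH D d (Q j))
    (M : Finset (Fin s) → Finset (Fin n → ℕ)) (i : Fin (Fintype.card (Idx M t d k))) :
    BH (D * k) k (Phi a D Q M i) := by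
  unfold Phi
  exact Lam_BH hd _ (qT_BH hQ _) _ ((ix M t d k).symm i).2.2

theorem Phi_ind (H : Fin m → MvPolynomial (Fin n) (MvPolynomial (Fin (N + 1)) K)) {k g' : ℕ}
    (G' : Matrix (Fin g') (Fin (Mo n k).card) (MvPolynomial (Fin (N + 1)) K))
    (hG' : IsRows A H k G') (a : Fin (N + 1)) {D t d : ℕ} (hd : 0 < d)
    (Q : Fin s → MvPolynomial (Fin n) (MvPolynomial (Fin (N + 1)) K)) (hQ : ∀ j, BH D d (Q j))
    (M : Finset (Fin s) → Finset (Fin n → ℕ)) {L : Type u} [Field L] [Algebra K L]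
    (P : A.Pts L) (hP : Gen A P) (ha : A.x P a ≠ 0) (T : Finset (Fin s))
    (h : ∀ b : (Fin n → ℕ) × (Fin t → ℕ) → L,
      ∑ p ∈ fam (M T) t d k, C (b p) * fm (fun j => sp A P (qT t Q T j)) p ∈ fib A H P →
        ∀ p ∈ fam (M T) t d k, b p = 0) :
    ∀ T' ⊆ Jix M t d k T, Ind A G' (Matrix.of fun j => cf k (Phi a D Q M j)) T' := by
  classical
  refine T_ind A H k G' hG' (Phi a D Q M) (Phi_BH a hd Q hQ M) (Jix M t d k T) P hP ?_
  intro b hb
  obtain ⟨b', hb'⟩ : ∃ b' : (Fin n → ℕ) × (Fin t → ℕ) → L, b' = fun p =>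
      if hp : p ∈ fam (M T) t d k then
        b (ix M t d k ⟨T, ⟨p, hp⟩⟩) * A.x P a ^ (D * (k - ∑ j, p.2 j)) else 0 := ⟨_, rfl⟩
  have h1 : ∑ i ∈ Jix M t d k T, C (b i) * sp A P (Phi a D Q M i) =
      ∑ p ∈ fam (M T) t d k, C (b' p) * fm (fun j => sp A P (qT t Q T j)) p := by
    rw [sum_Jix, ← Finset.sum_coe_sort (fam (M T) t d k)
      (fun p => C (b' p) * fm (fun j => sp A P (qT t Q T j)) p)]
    refine Finset.sum_congr rfl fun p _ => ?_
    rw [Phi_ix, Lam_sp, hb']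
    simp only [p.2, dif_pos, map_mul]
    ring
  rw [h1] at hb
  have h2 := h b' hb
  intro i hi
  obtain ⟨p, hp, rfl⟩ := Jix_exists hi
  have h3 := h2 p hp
  rw [hb'] at h3
  simp only [hp, dif_pos] at h3
  exact (mul_eq_zero.1 h3).resolve_right (pow_ne_zero _ ha)

end

section

variable {K : Type u} [Field K] [NumberField K] {N n m s : ℕ} (A : AV K N)

/-- The weight of a family. -/
noncomputable def wgt (M : Finset (Fin n → ℕ)) (t d k : ℕ) : ℝ :=
  ∑ p ∈ fam M t d k, ∑ j, (p.2 j : ℝ) / t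

theorem wgt_eq (M : Finset (Fin n → ℕ)) {t : ℕ} (ht : 0 < t) (d k : ℕ) (j : Fin t) :
    ∑ p ∈ fam M t d k, (p.2 j : ℝ) = wgt M t d k := by
  unfold wgt
  have ht' : (t : ℝ) ≠ 0 := by positivity
  rw [Finset.sum_comm]
  have h1 : ∀ j' : Fin t, ∑ p ∈ fam M t d k, (p.2 j' : ℝ) / t =
      (∑ p ∈ fam M t d k, (p.2 j : ℝ)) / t := by
    intro j'
    rw [← Finset.sum_div]
    have h2 := C_weight_eq M t d k j' j
    have h3 : (∑ p ∈ fam M t d k, (p.2 j' : ℝ)) = ∑ p ∈ fam M t d k, (p.2 j : ℝ) := by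
      exact_mod_cast h2
    rw [h3]
  rw [Finset.sum_congr rfl fun j' _ => h1 j', Finset.sum_const, Finset.card_univ,
    Fintype.card_fin, nsmul_eq_mul]
  field_simp

theorem wgt_nonneg (M : Finset (Fin n → ℕ)) (t d k : ℕ) : 0 ≤ wgt M t d k := by
  unfold wgt
  positivity

/-- The sum of the local heights over the family of `T`. -/
theorem lam_sum {a : Fin (N + 1)} {D d k t : ℕ} (ht : 0 < t) (hd : 0 < d)
    (Q : Fin s → MvPolynomial (Fin n) (MvPolynomial (Fin (N + 1)) K)) (hQ : ∀ j, BH D d (Q j))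
    (M : Finset (Fin s) → Finset (Fin n → ℕ)) {T : Finset (Fin s)} (hT : T.card = t)
    (hw : 0 < wgt (M T) t d k)
    (v : AbsoluteValue K ℝ) (P : A.Pts K) {X : Fin n → K} (hX : X ≠ 0)
    (h0 : ∀ i ∈ Jix M t d k T,
      ∑ l, aeval (A.x P) ((Matrix.of fun j => cf k (Phi a D Q M j)) i l) * ver k X l ≠ 0) :
    (∀ j ∈ T, eval X (sp A P (Q j)) ≠ 0) ∧
      wgt (M T) t d k * ∑ j ∈ T, lamQ A v D d (Q j) P X ≤
        ∑ i ∈ Jix M t d k T,
          lam A v (D * k) ((Matrix.of fun j => cf k (Phi a D Q M j)) i) P (ver k X) := by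
  classical
  have h1 : ∀ p ∈ fam (M T) t d k,
      (∀ j, 0 < p.2 j → eval X (sp A P (qT t Q T j)) ≠ 0) ∧
      ∑ j, (p.2 j : ℝ) * lamQ A v D d (qT t Q T j) P X ≤
        lam A v (D * k) (cf k (Lam a D k (qT t Q T) p)) P (ver k X) := by
    intro p hp
    refine Lam_ge A hd (qT t Q T) (qT_BH hQ T) (M T) hp v P hX ?_
    have h2 := h0 _ (mem_Jix hp)
    simp only [Matrix.of_apply, Phi_ix] at h2
    exact h2
  constructor
  · intro j hj
    obtain ⟨i, hi⟩ := mem_orderEmb hT hj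
    rw [← wgt_eq (M T) ht d k i] at hw
    obtain ⟨p, hp, hpi⟩ := Finset.exists_ne_zero_of_sum_ne_zero hw.ne'
    have h3 := (h1 p hp).1 i (Nat.pos_of_ne_zero fun h => hpi (by rw [h]; exact Nat.cast_zero))
    rw [qT_of Q hT, hi] at h3
    exact h3
  · rw [sum_Jix]
    have h4 : ∑ p : {p // p ∈ fam (M T) t d k}, lam A v (D * k)
        ((Matrix.of fun j => cf k (Phi a D Q M j)) (ix M t d k ⟨T, p⟩)) P (ver k X) =
        ∑ p ∈ fam (M T) t d k, lam A v (D * k) (cf k (Lam a D k (qT t Q T) p)) P (ver k X) := by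
      rw [← Finset.sum_coe_sort (fam (M T) t d k)
        (fun p => lam A v (D * k) (cf k (Lam a D k (qT t Q T) p)) P (ver k X))]
      refine Finset.sum_congr rfl fun p _ => ?_
      have h5 : (Matrix.of fun j => cf k (Phi a D Q M j)) (ix M t d k ⟨T, p⟩) =
        cf k (Phi a D Q M (ix M t d k ⟨T, p⟩)) := rfl
      rw [h5, Phi_ix]
    rw [h4]
    refine le_trans (le_of_eq ?_) (Finset.sum_le_sum fun p hp => (h1 p hp).2)
    rw [Finset.sum_comm, ← sum_orderEmb hT, Finset.mul_sum]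
    refine Finset.sum_congr rfl fun j _ => ?_
    rw [← Finset.sum_mul, wgt_eq (M T) ht d k j, qT_of Q hT]

/-- The inequality for one choice of the nearest hypersurfaces. -/
theorem W_one (Γ : AddSubgroup (A.Pts K)) (hΓ : Γ.FG) {t D d k : ℕ} (ht : 0 < t) (hd : 0 < d)
    (H : Fin m → MvPolynomial (Fin n) (MvPolynomial (Fin (N + 1)) K))
    (hpr : ∀ (L : Type u) [Field L] [IsAlgClosed L] [Algebra K L] (P : A.Pts L), Gen A P →
      (fib A H P).IsPrime)
    (Q : Fin s → MvPolynomial (Fin n) (MvPolynomial (Fin (N + 1)) K)) (hQ : ∀ j, BH D d (Q j))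
    {L : Type u} [Field L] [Algebra K L] (P₀ : A.Pts L) (hP₀ : Gen A P₀)
    {g' r' : ℕ} (G' : Matrix (Fin g') (Fin (Mo n k).card) (MvPolynomial (Fin (N + 1)) K))
    (hG' : IsRows A H k G') (hgr : g' + r' = (Mo n k).card) (hr : 0 < r')
    (M : Finset (Fin s) → Finset (Fin n → ℕ)) (W : Finset (Fin s) → Prop)
    (hW : ∀ T, W T → T.card = t ∧ 0 < wgt (M T) t d k ∧
      ∀ b : (Fin n → ℕ) × (Fin t → ℕ) → L,
        ∑ p ∈ fam (M T) t d k, C (b p) * fm (fun j => sp A P₀ (qT t Q T j)) p ∈ fib A H P₀ →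
          ∀ p ∈ fam (M T) t d k, b p = 0)
    (S : Finset (NumberField.FinitePlace K))
    (τi : NumberField.InfinitePlace K → Finset (Fin s))
    (τf : NumberField.FinitePlace K → Finset (Fin s))
    (hτi : ∀ v, W (τi v)) (hτf : ∀ v ∈ S, W (τf v)) {ε : ℝ} (hε : 0 < ε) :
    ∃ (C : ℝ) (F : MvPolynomial (Fin n) (MvPolynomial (Fin (N + 1)) K)), ExcF A H F ∧
      ∀ P ∈ Γ, ∀ X : Fin n → K, X ≠ 0 → (∀ i, eval X (sp A P (H i)) = 0) →
        eval X (sp A P F) ≠ 0 →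
        ((∀ v, ∀ j ∈ τi v, eval X (sp A P (Q j)) ≠ 0) ∧
          ∀ v ∈ S, ∀ j ∈ τf v, eval X (sp A P (Q j)) ≠ 0) ∧
        (∑ v : NumberField.InfinitePlace K, (v.mult : ℝ) *
            (wgt (M (τi v)) t d k * ∑ j ∈ τi v, lamQ A v.val D d (Q j) P X)) +
          (∑ v ∈ S, wgt (M (τf v)) t d k * ∑ j ∈ τf v, lamQ A v.val D d (Q j) P X) +
          hE A G' P ≤
          r' * (k * logHeight X) + ε * (k * logHeight X + logHeight (A.x P)) + C := by
  classical
  obtain ⟨a, ha⟩ := x_ne' A P₀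
  obtain ⟨D', hD'⟩ := hG'.1
  have hind : ∀ T, W T → ∀ T' ⊆ Jix M t d k T,
      Ind A G' (Matrix.of fun j => cf k (Phi a D Q M j)) T' := fun T hT =>
    Phi_ind A H G' hG' a hd Q hQ M P₀ hP₀ ha T (hW T hT).2.2
  obtain ⟨v₀⟩ : Nonempty (NumberField.InfinitePlace K) := inferInstance
  obtain ⟨C, F, hF, hmain⟩ := SL_final A Γ hΓ hgr hr (D * k) D' G' hD'
    (Matrix.of fun j => cf k (Phi a D Q M j))
    (fun j l => (Phi_BH a hd Q hQ M j).2 _) S
    (fun v => Jix M t d k (τi v)) (fun v => Jix M t d k (τf v))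
    (fun v T' hT' _ => hind _ (hτi v) T' hT') (fun v hv T' hT' _ => hind _ (hτf v hv) T' hT')
    (hind _ (hτi v₀) ∅ (Finset.empty_subset _)) ε hε
  refine ⟨C, pull n k F, pull_exc A H k G' hG' hpr F hF, fun P hP X hX hXH hXF => ?_⟩
  rw [pull_eval] at hXF
  obtain ⟨h1, h2⟩ := hmain P hP (ver k X) (ver_ne hX) (hG'.2.2 K P X hXH) hXF
  rw [ver_height hX] at h2
  have hi : ∀ v, _ := fun v : NumberField.InfinitePlace K =>
    lam_sum (a := a) A ht hd Q hQ M (hW _ (hτi v)).1 (hW _ (hτi v)).2.1 v.val P hX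
      (fun i hi => h1 i (Or.inl ⟨v, hi⟩))
  have hf : ∀ v ∈ S, _ := fun (v : NumberField.FinitePlace K) hv =>
    lam_sum (a := a) A ht hd Q hQ M (hW _ (hτf v hv)).1 (hW _ (hτf v hv)).2.1 v.val P hX
      (fun i hi => h1 i (Or.inr ⟨v, hv, hi⟩))
  refine ⟨⟨fun v => (hi v).1, fun v hv => (hf v hv).1⟩, le_trans ?_ h2⟩
  refine add_le_add (add_le_add ?_ ?_) le_rfl
  · exact Finset.sum_le_sum fun v _ => mul_le_mul_of_nonneg_left (hi v).2 (Nat.cast_nonneg _)
  · exact Finset.sum_le_sum fun v hv => (hf v hv).2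

end

end Pool.Agent.Lib.MP_17a322_nt.EF
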