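import Pool.Agent.Lib.MP_17a322_nt.EF.W4

/-!
Moving hypersurfaces: all choices of the nearest hypersurfaces together.
-/

universe u

namespace Pool.Agent.Lib.MP_17a322_nt.EF

open MvPolynomial Height
open Pool.Agent.Lib.MP_17a322_nt.VA
open Pool.Agent.Lib.MP_17a322_nt.SL

section

variable {K : Type u} [Field K] {N n m s : ℕ} (A : AV K N)

theorem sp_mul {L : Type u} [Field L] [Algebra K L] (P : A.Pts L)
    (F F' : MvPolynomial (Fin n) (MvPolynomial (Fin (N + 1)) K)) :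
    sp A P (F * F') = sp A P F * sp A P F' := by
  unfold sp
  exact map_mul _ _ _

theorem sp_C {L : Type u} [Field L] [Algebra K L] (P : A.Pts L)
    (R : MvPolynomial (Fin (N + 1)) K) :
    sp A P (C R : MvPolynomial (Fin n) (MvPolynomial (Fin (N + 1)) K)) =
      C (aeval (A.x P) R) := by
  unfold sp
  exact map_C _ _

theorem ExcF_one (H : Fin m → MvPolynomial (Fin n) (MvPolynomial (Fin (N + 1)) K))
    (hpr : ∀ (L : Type u) [Field L] [IsAlgClosed L] [Algebra K L] (P : A.Pts L), Gen A P →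
      (fib A H P).IsPrime) : ExcF A H 1 := by
  classical
  refine ⟨⟨0, 0, isHomogeneous_one _ _, fun μ => ?_⟩, fun L _ _ _ P hP h => ?_⟩
  · rw [coeff_one]
    split_ifs
    · exact isHomogeneous_one _ _
    · exact isHomogeneous_zero _ _ _
  · have h1 : sp A P (1 : MvPolynomial (Fin n) (MvPolynomial (Fin (N + 1)) K)) = 1 := by
      unfold sp
      exact map_one _
    rw [h1] at h
    exact (hpr L P hP).ne_top ((Ideal.eq_top_iff_one _).2 h)

/-- Finitely many statements outside exceptional sets together. -/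
theorem exc_all {ι : Type*} (Ω : Finset ι)
    (H : Fin m → MvPolynomial (Fin n) (MvPolynomial (Fin (N + 1)) K))
    (hpr : ∀ (L : Type u) [Field L] [IsAlgClosed L] [Algebra K L] (P : A.Pts L), Gen A P →
      (fib A H P).IsPrime)
    (p : ι → ℝ → A.Pts K → (Fin n → K) → Prop)
    (hp : ∀ i C C' P X, C ≤ C' → p i C P X → p i C' P X)
    (h : ∀ i ∈ Ω, ∃ (C : ℝ) (F : MvPolynomial (Fin n) (MvPolynomial (Fin (N + 1)) K)),
      ExcF A H F ∧ ∀ P X, eval X (sp A P F) ≠ 0 → p i C P X) :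
    ∃ (C : ℝ) (F : MvPolynomial (Fin n) (MvPolynomial (Fin (N + 1)) K)),
      ExcF A H F ∧ ∀ P X, eval X (sp A P F) ≠ 0 → ∀ i ∈ Ω, p i C P X := by
  classical
  induction Ω using Finset.induction_on with
  | empty =>
    exact ⟨0, 1, ExcF_one A H hpr, fun P X _ i hi => absurd hi (Finset.notMem_empty i)⟩
  | insert a s ha ih =>
    obtain ⟨C, F, hF, h1⟩ := ih fun i hi => h i (Finset.mem_insert_of_mem hi)
    obtain ⟨C', F', hF', h2⟩ := h a (Finset.mem_insert_self a s)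
    refine ⟨max C C', F * F', ExcF_mul A H hpr hF hF', fun P X hX i hi => ?_⟩
    rw [sp_mul, map_mul] at hX
    rcases Finset.mem_insert.1 hi with rfl | hi
    · exact hp _ _ _ _ _ (le_max_right _ _) (h2 P X (right_ne_zero_of_mul hX))
    · exact hp _ _ _ _ _ (le_max_left _ _) (h1 P X (left_ne_zero_of_mul hX) i hi)

end

section

variable {K : Type u} [Field K] [NumberField K] {N n m s : ℕ} (A : AV K N)

/-- The inequality for all choices of the nearest hypersurfaces. -/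
theorem W_all (Γ : AddSubgroup (A.Pts K)) (hΓ : Γ.FG) {t D d k : ℕ} (ht : 0 < t) (hd : 0 < d)
    (H : Fin m → MvPolynomial (Fin n) (MvPolynomial (Fin (N + 1)) K))
    (hpr : ∀ (L : Type u) [Field L] [IsAlgClosed L] [Algebra K L] (P : A.Pts L), Gen A P →
      (fib A H P).IsPrime)
    (Q : Fin s → MvPolynomial (Fin n) (MvPolynomial (Fin (N + 1)) K)) (hQ : ∀ j, BH D d (Q j))
    {L : Type u} [Field L] [Algebra K L] (P₀ : A.Pts L) (hP₀ : Gen A P₀)
    {g' r' : ℕ} (G' : Matrix (Fin g') (Fin (Mo n k).card) (MvPolynomial (Fin (N + 1)) K))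
    (hG' : IsRows A H k G') (hgr : g' + r' = (Mo n k).card) (hr : 0 < r')
    (M : Finset (Fin s) → Finset (Fin n → ℕ)) (W : Finset (Fin s) → Prop)
    (hW : ∀ T, W T → T.card = t ∧ 0 < wgt (M T) t d k ∧
      ∀ b : (Fin n → ℕ) × (Fin t → ℕ) → L,
        ∑ p ∈ fam (M T) t d k, C (b p) * fm (fun j => sp A P₀ (qT t Q T j)) p ∈ fib A H P₀ →
          ∀ p ∈ fam (M T) t d k, b p = 0)
    (S : Finset (NumberField.FinitePlace K)) {ε : ℝ} (hε : 0 < ε) :
    ∃ (C : ℝ) (F : MvPolynomial (Fin n) (MvPolynomial (Fin (N + 1)) K)), ExcF A H F ∧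
      ∀ P ∈ Γ, ∀ X : Fin n → K, X ≠ 0 → (∀ i, eval X (sp A P (H i)) = 0) →
        eval X (sp A P F) ≠ 0 →
        ∀ (τi : NumberField.InfinitePlace K → Finset (Fin s))
          (τf : NumberField.FinitePlace K → Finset (Fin s)),
        (∀ v, W (τi v)) → (∀ v ∈ S, W (τf v)) →
        ((∀ v, ∀ j ∈ τi v, eval X (sp A P (Q j)) ≠ 0) ∧
          ∀ v ∈ S, ∀ j ∈ τf v, eval X (sp A P (Q j)) ≠ 0) ∧
        (∑ v : NumberField.InfinitePlace K, (v.mult : ℝ) *
            (wgt (M (τi v)) t d k * ∑ j ∈ τi v, lamQ A v.val D d (Q j) P X)) +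
          (∑ v ∈ S, wgt (M (τf v)) t d k * ∑ j ∈ τf v, lamQ A v.val D d (Q j) P X) +
          hE A G' P ≤
          r' * (k * logHeight X) + ε * (k * logHeight X + logHeight (A.x P)) + C := by
  classical
  have _ : Finite (S → Finset (Fin s)) := inferInstance
  have _ : Finite (NumberField.InfinitePlace K → Finset (Fin s)) := inferInstance
  let _ : Fintype ((NumberField.InfinitePlace K → Finset (Fin s)) × (S → Finset (Fin s))) :=
    Fintype.ofFinite _
  obtain ⟨ext, hext⟩ : ∃ ext : (S → Finset (Fin s)) →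
      NumberField.FinitePlace K → Finset (Fin s), ∀ f v (hv : v ∈ S), ext f v = f ⟨v, hv⟩ :=
    ⟨fun f v => if hv : v ∈ S then f ⟨v, hv⟩ else ∅, fun f v hv => dif_pos hv⟩
  obtain ⟨C, F, hF, h1⟩ := exc_all A
    (Finset.univ.filter fun τ : (NumberField.InfinitePlace K → Finset (Fin s)) ×
      (S → Finset (Fin s)) => (∀ v, W (τ.1 v)) ∧ ∀ v ∈ S, W (ext τ.2 v)) H hpr
    (fun τ C P X => P ∈ Γ → X ≠ 0 → (∀ i, eval X (sp A P (H i)) = 0) →
        ((∀ v, ∀ j ∈ τ.1 v, eval X (sp A P (Q j)) ≠ 0) ∧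
          ∀ v ∈ S, ∀ j ∈ ext τ.2 v, eval X (sp A P (Q j)) ≠ 0) ∧
        (∑ v : NumberField.InfinitePlace K, (v.mult : ℝ) *
            (wgt (M (τ.1 v)) t d k * ∑ j ∈ τ.1 v, lamQ A v.val D d (Q j) P X)) +
          (∑ v ∈ S, wgt (M (ext τ.2 v)) t d k * ∑ j ∈ ext τ.2 v,
            lamQ A v.val D d (Q j) P X) +
          hE A G' P ≤
          r' * (k * logHeight X) + ε * (k * logHeight X + logHeight (A.x P)) + C)
    (fun τ C C' P X hC h2 hP hX hXH => ⟨(h2 hP hX hXH).1,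
      (h2 hP hX hXH).2.trans (by linarith)⟩)
    (fun τ hτ => by
      obtain ⟨C, F, hF, h2⟩ := W_one A Γ hΓ ht hd H hpr Q hQ P₀ hP₀ G' hG' hgr hr M W hW S
        τ.1 (ext τ.2) (Finset.mem_filter.1 hτ).2.1 (Finset.mem_filter.1 hτ).2.2 hε
      exact ⟨C, F, hF, fun P X h3 hP hX hXH => h2 P hP X hX hXH h3⟩)
  refine ⟨C, F, hF, fun P hP X hX hXH hXF τi τf hi hf => ?_⟩
  have h3 : ∀ v ∈ S, ext (fun v => τf v) v = τf v := fun v hv => hext _ v hv
  have h2 := h1 P X hXF (τi, fun v => τf v)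
    (Finset.mem_filter.2 ⟨Finset.mem_univ _, hi, fun v hv => by
      show W (ext (fun v => τf v) v)
      rw [h3 v hv]
      exact hf v hv⟩) hP hX hXH
  simp only at h2
  refine ⟨⟨h2.1.1, fun v hv j hj => h2.1.2 v hv j (by rw [h3 v hv]; exact hj)⟩, ?_⟩
  have h4 : (∑ v ∈ S, wgt (M (ext (fun v => τf v) v)) t d k * ∑ j ∈ ext (fun v => τf v) v,
      lamQ A v.val D d (Q j) P X) =
      ∑ v ∈ S, wgt (M (τf v)) t d k * ∑ j ∈ τf v, lamQ A v.val D d (Q j) P X :=
    Finset.sum_congr rfl fun v hv => by rw [h3 v hv]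
  rw [← h4]
  exact h2.2

end

end Pool.Agent.Lib.MP_17a322_nt.EF
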