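import Pool.Agent.Lib.MP_17a322_nt.Mb

/-!
Moving hypersurfaces: numbers.
-/

namespace Pool.Agent.Lib.MP_17a322_nt.EF

/-- The final inequality between real numbers. -/
theorem W_num {t d k r' s c δ ε : ℝ} (ht : 1 ≤ t) (hd : 1 ≤ d) (hk : 1 ≤ k) (hr : 1 ≤ r')
    (hs : 0 ≤ s) (hc : 0 ≤ c) (hδ : 0 < δ) (hδ1 : δ ≤ 1 / 2) (hδε : δ ≤ ε / (8 * t))
    (hε : 0 < ε) {Λ U Rr Cc W hE h hP σ C₁ C₂ : ℝ}
    (h1 : Λ ≤ 1 / d * U + s / d * (Rr + Cc))
    (h2 : (1 - δ) * (k * r') / (t * d) * U ≤ W + Cc)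
    (h3 : Rr ≤ c * (ε * d / (4 * (s + 1) * (c + 1)) * hP + C₂))
    (h4 : W + hE ≤ r' * (k * h) + ε / (8 * t) * (k * h + hP) + C₁)
    (h5 : k * r' * σ ≤ t * hE) (hh : 0 ≤ h) (hhP : 0 ≤ hP) (hσ : 0 ≤ σ) (hCc : 0 ≤ Cc) :
    Λ + σ ≤ t * h + ε * (h + hP) + (2 * (t * (|C₁| + Cc)) + s / d * (c * |C₂| + Cc)) := by
  have ht0 : 0 < t := by linarith
  have hd0 : 0 < d := by linarith
  have hk0 : 0 < k := by linarith
  have hr0 : 0 < r' := by linarith
  have hkr : 0 < k * r' := mul_pos hk0 hr0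
  have hkr1 : 1 ≤ k * r' := one_le_mul_of_one_le_of_one_le hk hr
  have hε8 : 0 ≤ ε / 8 := by linarith
  have hhh : 0 ≤ h + hP := by linarith
  have hC₁ : 0 ≤ |C₁| + Cc := add_nonneg (abs_nonneg _) hCc
  -- the inequality without the farther hypersurfaces
  have a1 : (1 - δ) * (U / d) + σ ≤
      t * h + ε / 8 * (h + hP) + t * (|C₁| + Cc) := by
    have b1 : (1 - δ) * (k * r') / (t * d) * U + hE ≤
        r' * (k * h) + ε / (8 * t) * (k * h + hP) + C₁ + Cc := by linarith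
    have b2 : (k * r') * ((1 - δ) * (U / d) + σ) ≤
        t * (r' * (k * h) + ε / (8 * t) * (k * h + hP) + C₁ + Cc) := by
      have b3 := mul_le_mul_of_nonneg_left b1 ht0.le
      have b4 : t * ((1 - δ) * (k * r') / (t * d) * U + hE) =
          (k * r') * ((1 - δ) * (U / d)) + t * hE := by
        field_simp
      rw [b4] at b3
      rw [mul_add]
      exact (add_le_add le_rfl h5).trans b3
    have b5 : t * (r' * (k * h) + ε / (8 * t) * (k * h + hP) + C₁ + Cc) ≤
        (k * r') * (t * h + ε / 8 * (h + hP) + t * (|C₁| + Cc)) := by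
      have b6 : t * (r' * (k * h) + ε / (8 * t) * (k * h + hP) + C₁ + Cc) =
          (k * r') * (t * h) + ε / 8 * (k * h + hP) + t * (C₁ + Cc) := by
        field_simp
        ring
      have b7 : k * h + hP ≤ (k * r') * (h + hP) := by
        have c1 : k * h ≤ k * r' * h :=
          mul_le_mul_of_nonneg_right (le_mul_of_one_le_right hk0.le hr) hh
        have c2 : hP ≤ k * r' * hP := le_mul_of_one_le_left hhP hkr1
        rw [mul_add]
        exact add_le_add c1 c2
      have b8 : C₁ + Cc ≤ (k * r') * (|C₁| + Cc) :=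
        (add_le_add (le_abs_self C₁) le_rfl).trans (le_mul_of_one_le_left hC₁ hkr1)
      have b9 := mul_le_mul_of_nonneg_left b7 hε8
      have b10 := mul_le_mul_of_nonneg_left b8 ht0.le
      rw [b6]
      have b11 : (k * r') * (t * h + ε / 8 * (h + hP) + t * (|C₁| + Cc)) =
          (k * r') * (t * h) + ε / 8 * ((k * r') * (h + hP)) +
            t * ((k * r') * (|C₁| + Cc)) := by ring
      rw [b11]
      exact add_le_add (add_le_add le_rfl b9) b10
    exact le_of_mul_le_mul_left (b2.trans b5) hkr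
  obtain ⟨B, hB⟩ : ∃ B, B = t * h + ε / 8 * (h + hP) + t * (|C₁| + Cc) := ⟨_, rfl⟩
  rw [← hB] at a1
  have hB0 : 0 ≤ B := by
    rw [hB]
    exact add_nonneg (add_nonneg (mul_nonneg ht0.le hh) (mul_nonneg hε8 hhh))
      (mul_nonneg ht0.le hC₁)
  have a2 : (1 - δ) * (U / d + σ) ≤ B := by
    have e1 : (1 - δ) * (U / d + σ) = (1 - δ) * (U / d) + σ - δ * σ := by ring
    have e2 : 0 ≤ δ * σ := mul_nonneg hδ.le hσ
    rw [e1]
    linarith
  have a3 : U / d + σ ≤ (1 + 2 * δ) * B := by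
    have b1 : B ≤ (1 - δ) * ((1 + 2 * δ) * B) := by
      have e1 : 0 ≤ δ * (1 - 2 * δ) * B :=
        mul_nonneg (mul_nonneg hδ.le (by linarith)) hB0
      have e2 : (1 - δ) * ((1 + 2 * δ) * B) = B + δ * (1 - 2 * δ) * B := by ring
      rw [e2]
      linarith
    exact le_of_mul_le_mul_left (a2.trans b1) (by linarith)
  have a4 : (1 + 2 * δ) * B ≤ t * h + ε / 4 * h + ε / 4 * (h + hP) + 2 * (t * (|C₁| + Cc)) := by
    have b1 : 2 * δ * (t * h) ≤ ε / 4 * h := by
      rw [le_div_iff₀ (by linarith)] at hδε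
      have e1 := mul_le_mul_of_nonneg_right hδε hh
      have e2 : 2 * δ * (t * h) = δ * (8 * t) * h / 4 := by ring
      rw [e2]
      linarith
    have b2 : (1 + 2 * δ) * (ε / 8 * (h + hP)) ≤ ε / 4 * (h + hP) := by
      have c1 : (1 + 2 * δ) * (ε / 8 * (h + hP)) ≤ 2 * (ε / 8 * (h + hP)) :=
        mul_le_mul_of_nonneg_right (by linarith) (mul_nonneg hε8 hhh)
      have c2 : 2 * (ε / 8 * (h + hP)) = ε / 4 * (h + hP) := by ring
      exact c1.trans c2.le
    have b3 : (1 + 2 * δ) * (t * (|C₁| + Cc)) ≤ 2 * (t * (|C₁| + Cc)) :=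
      mul_le_mul_of_nonneg_right (by linarith) (mul_nonneg ht0.le hC₁)
    have b4 : (1 + 2 * δ) * B = t * h + 2 * δ * (t * h) + (1 + 2 * δ) * (ε / 8 * (h + hP)) +
        (1 + 2 * δ) * (t * (|C₁| + Cc)) := by
      rw [hB]
      ring
    rw [b4]
    exact add_le_add (add_le_add (add_le_add le_rfl b1) b2) b3
  have hsd : 0 ≤ s / d := div_nonneg hs hd0.le
  have a5 : s / d * (Rr + Cc) ≤ ε / 4 * hP + s / d * (c * |C₂| + Cc) := by
    have b1 : Rr + Cc ≤ c * (ε * d / (4 * (s + 1) * (c + 1)) * hP) + (c * |C₂| + Cc) := by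
      have e1 := mul_le_mul_of_nonneg_left (le_abs_self C₂) hc
      rw [mul_add] at h3
      linarith
    have b2 := mul_le_mul_of_nonneg_left b1 hsd
    have b3 : s / d * (c * (ε * d / (4 * (s + 1) * (c + 1)) * hP)) ≤ ε / 4 * hP := by
      have c1 : s / d * (c * (ε * d / (4 * (s + 1) * (c + 1)) * hP)) =
          (s / (s + 1)) * (c / (c + 1)) * (ε / 4 * hP) := by
        have e1 : s + 1 ≠ 0 := by linarith
        have e2 : c + 1 ≠ 0 := by linarith
        field_simp
      rw [c1]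
      have c2 : s / (s + 1) ≤ 1 := by
        rw [div_le_one (by linarith)]
        linarith
      have c3 : c / (c + 1) ≤ 1 := by
        rw [div_le_one (by linarith)]
        linarith
      have c4 : s / (s + 1) * (c / (c + 1)) ≤ 1 :=
        mul_le_one₀ c2 (div_nonneg hc (by linarith)) c3
      exact mul_le_of_le_one_left (mul_nonneg (by linarith) hhP) c4
    exact b2.trans ((mul_add _ _ _).trans_le (add_le_add b3 le_rfl))
  have a6 : 1 / d * U = U / d := by ring
  rw [a6] at h1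
  have a7 : ε * (h + hP) = ε / 4 * h + ε / 4 * (h + hP) + ε / 4 * hP + ε / 2 * (h + hP) := by
    ring
  have a8 : 0 ≤ ε / 2 * (h + hP) := mul_nonneg (by linarith) hhh
  rw [a7]
  linarith

end Pool.Agent.Lib.MP_17a322_nt.EF
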