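import Pool.Agent.Lib.MP_17a322_nt.EF.W5
import Pool.Agent.Lib.MP_17a322_nt.EF.W6n

/-!
Moving hypersurfaces: local inequalities, sums over places, numbers.
-/

universe u

namespace Pool.Agent.Lib.MP_17a322_nt.EF

open MvPolynomial Height
open Pool.Agent.Lib.MP_17a322_nt.VA
open Pool.Agent.Lib.MP_17a322_nt.SL

section

variable {K : Type u} [Field K] [NumberField K]

/-- The sum over the infinite places (with multiplicities) and the finite places in `S`. -/
noncomputable def SS (S : Finset (NumberField.FinitePlace K))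
    (f : NumberField.InfinitePlace K → ℝ) (g : NumberField.FinitePlace K → ℝ) : ℝ :=
  (∑ v : NumberField.InfinitePlace K, (v.mult : ℝ) * f v) + ∑ v ∈ S, g v

theorem SS_mono {S : Finset (NumberField.FinitePlace K)}
    {f f' : NumberField.InfinitePlace K → ℝ} {g g' : NumberField.FinitePlace K → ℝ}
    (hf : ∀ v, f v ≤ f' v) (hg : ∀ v ∈ S, g v ≤ g' v) : SS S f g ≤ SS S f' g' := by
  unfold SS
  exact add_le_add (Finset.sum_le_sum fun v _ => mul_le_mul_of_nonneg_left (hf v)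
    (Nat.cast_nonneg _)) (Finset.sum_le_sum hg)

theorem SS_add (S : Finset (NumberField.FinitePlace K))
    (f f' : NumberField.InfinitePlace K → ℝ) (g g' : NumberField.FinitePlace K → ℝ) :
    SS S (fun v => f v + f' v) (fun v => g v + g' v) = SS S f g + SS S f' g' := by
  unfold SS
  simp only [mul_add, Finset.sum_add_distrib]
  ring

theorem SS_mul (S : Finset (NumberField.FinitePlace K)) (c : ℝ)
    (f : NumberField.InfinitePlace K → ℝ) (g : NumberField.FinitePlace K → ℝ) :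
    SS S (fun v => c * f v) (fun v => c * g v) = c * SS S f g := by
  unfold SS
  rw [mul_add, Finset.mul_sum, Finset.mul_sum]
  refine congrArg₂ _ (Finset.sum_congr rfl fun v _ => ?_) rfl
  ring

theorem SS_sum {ι : Type*} (S : Finset (NumberField.FinitePlace K)) (T : Finset ι)
    (f : ι → NumberField.InfinitePlace K → ℝ) (g : ι → NumberField.FinitePlace K → ℝ) :
    SS S (fun v => ∑ i ∈ T, f i v) (fun v => ∑ i ∈ T, g i v) =
      ∑ i ∈ T, SS S (f i) (g i) := by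
  unfold SS
  rw [Finset.sum_add_distrib, Finset.sum_comm (s := S)]
  refine congrArg₂ _ ?_ rfl
  rw [Finset.sum_comm]
  refine Finset.sum_congr rfl fun v _ => ?_
  rw [Finset.mul_sum]

theorem SS_nonneg {S : Finset (NumberField.FinitePlace K)}
    {f : NumberField.InfinitePlace K → ℝ} {g : NumberField.FinitePlace K → ℝ}
    (hf : ∀ v, 0 ≤ f v) (hg : ∀ v ∈ S, 0 ≤ g v) : 0 ≤ SS S f g := by
  unfold SS
  exact add_nonneg (Finset.sum_nonneg fun v _ => mul_nonneg (Nat.cast_nonneg _) (hf v))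
    (Finset.sum_nonneg hg)

end

section

variable {K : Type u} [Field K] {N n m s : ℕ} (A : AV K N)

theorem BH_C {R : MvPolynomial (Fin (N + 1)) K} {ρ : ℕ} (hR : R.IsHomogeneous ρ) :
    BH ρ 0 (C R : MvPolynomial (Fin n) (MvPolynomial (Fin (N + 1)) K)) := by
  classical
  refine ⟨isHomogeneous_C _ _, fun μ => ?_⟩
  rw [coeff_C]
  split_ifs
  · exact hR
  · exact isHomogeneous_zero _ _ _

/-- The local inequalities. -/
theorem W_loc (v : AbsoluteValue K ℝ) {D d : ℕ}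
    (H : Fin m → MvPolynomial (Fin n) (MvPolynomial (Fin (N + 1)) K))
    (Q : Fin s → MvPolynomial (Fin n) (MvPolynomial (Fin (N + 1)) K)) (hQ : ∀ j, BH D d (Q j))
    (Ω : Finset (Finset (Fin s))) (R : Finset (Fin s) → MvPolynomial (Fin (N + 1)) K)
    (ρ : Finset (Fin s) → ℕ) (hR : ∀ T ∈ Ω, (R T).IsHomogeneous (ρ T))
    (hlow : ∀ T ∈ Ω, ∃ C : ℝ, 0 < C ∧ ∀ (P : A.Pts K) (X : Fin n → K), X ≠ 0 →
      (∀ i, eval X (sp A P (H i)) = 0) →
      ∃ j ∈ T, (⨆ l, v (X l)) ^ d * (⨆ i, v (A.x P i)) ^ D * v (aeval (A.x P) (R T)) ≤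
        C * (⨆ i, v (A.x P i)) ^ ρ T * v (eval X (sp A P (Q j))))
    (w : Finset (Fin s) → ℝ) (w₀ : ℝ) (hw : ∀ T ∈ Ω, w₀ ≤ w T) :
    ∃ C : ℝ, 0 ≤ C ∧ ∀ (P : A.Pts K) (X : Fin n → K), X ≠ 0 →
      (∀ i, eval X (sp A P (H i)) = 0) → (∀ T ∈ Ω, aeval (A.x P) (R T) ≠ 0) →
      ∀ J T : Finset (Fin s), T ⊆ J → T ∈ Ω → (∀ j ∈ J, eval X (sp A P (Q j)) ≠ 0) →
        (∀ j ∈ J, j ∉ T → ∀ i ∈ T, lamQ A v D d (Q j) P X ≤ lamQ A v D d (Q i) P X) →
        (∑ j ∈ J, 1 / (d : ℝ) * lamQ A v D d (Q j) P X ≤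
          1 / (d : ℝ) * (∑ j ∈ T, lamQ A v D d (Q j) P X) +
            s / (d : ℝ) * ((∑ T' ∈ Ω, (ρ T' * Real.log (⨆ i, v (A.x P i)) -
              Real.log (v (aeval (A.x P) (R T'))))) + C)) ∧
        w₀ * (∑ j ∈ T, lamQ A v D d (Q j) P X) ≤
          w T * (∑ j ∈ T, lamQ A v D d (Q j) P X) + C := by
  classical
  have k1 : ∀ j, ∃ C : ℝ, 0 ≤ C ∧ ∀ (P : A.Pts K) (X : Fin n → K), X ≠ 0 →
      eval X (sp A P (Q j)) ≠ 0 → - C ≤ lamQ A v D d (Q j) P X := fun j => lamQ_ge A (hQ j) v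
  choose c1 hc1 hc1' using k1
  have k2 : ∀ T, ∃ C : ℝ, 0 ≤ C ∧ (T ∈ Ω → ∀ (P : A.Pts K) (X : Fin n → K), X ≠ 0 →
      aeval (A.x P) (R T) ≠ 0 → - C ≤ ρ T * Real.log (⨆ i, v (A.x P i)) -
              Real.log (v (aeval (A.x P) (R T)))) := by
    intro T
    by_cases hT : T ∈ Ω
    · obtain ⟨C, hC, h⟩ := lamQ_ge A (BH_C (n := n) (hR T hT)) v
      refine ⟨C, hC, fun _ P X hX h0 => ?_⟩
      have h2 := h P X hX (by rw [sp_C, eval_C]; exact h0)
      unfold lamQ at h2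
      rw [sp_C, eval_C, Nat.cast_zero, zero_mul, zero_add] at h2
      exact h2
    · exact ⟨0, le_rfl, fun h => absurd h hT⟩
  choose c2 hc2 hc2' using k2
  have k3 : ∀ T, ∃ C : ℝ, 0 < C ∧ (T ∈ Ω → ∀ (P : A.Pts K) (X : Fin n → K), X ≠ 0 →
      (∀ i, eval X (sp A P (H i)) = 0) →
      ∃ j ∈ T, (⨆ l, v (X l)) ^ d * (⨆ i, v (A.x P i)) ^ D * v (aeval (A.x P) (R T)) ≤
        C * (⨆ i, v (A.x P i)) ^ ρ T * v (eval X (sp A P (Q j)))) := by
    intro T
    by_cases hT : T ∈ Ω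
    · obtain ⟨C, hC, h⟩ := hlow T hT
      exact ⟨C, hC, fun _ => h⟩
    · exact ⟨1, one_pos, fun h => absurd h hT⟩
  choose c3 hc3 hc3' using k3
  have e1 : 0 ≤ ∑ T ∈ Ω, c2 T := Finset.sum_nonneg fun T _ => hc2 T
  have e2 : 0 ≤ ∑ T ∈ Ω, |Real.log (c3 T)| := Finset.sum_nonneg fun T _ => abs_nonneg _
  have e3 : 0 ≤ ∑ T ∈ Ω, (w T - w₀) * ∑ j, c1 j :=
    Finset.sum_nonneg fun T hT => mul_nonneg (sub_nonneg.2 (hw T hT))
      (Finset.sum_nonneg fun j _ => hc1 j)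
  refine ⟨∑ T ∈ Ω, c2 T + ∑ T ∈ Ω, |Real.log (c3 T)| + ∑ T ∈ Ω, (w T - w₀) * ∑ j, c1 j,
    by positivity, ?_⟩
  intro P X hX hXH hRP J T hTJ hT hQX htop
  have hx0 : 0 < ⨆ i, v (A.x P i) := by
    obtain ⟨a, ha⟩ := x_ne' A P
    exact lt_of_lt_of_le (v.pos ha) (le_ciSup (f := fun i => v (A.x P i))
      (Set.finite_range _).bddAbove a)
  have hX0 : 0 < ⨆ l, v (X l) := by
    obtain ⟨a, ha⟩ := Function.ne_iff.1 hX
    exact lt_of_lt_of_le (v.pos ha) (le_ciSup (f := fun i => v (X i))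
      (Set.finite_range _).bddAbove a)
  obtain ⟨C, hC⟩ : ∃ C, C = ∑ T ∈ Ω, c2 T + ∑ T ∈ Ω, |Real.log (c3 T)| +
    ∑ T ∈ Ω, (w T - w₀) * ∑ j, c1 j := ⟨_, rfl⟩
  rw [← hC]
  obtain ⟨Y, hY⟩ : ∃ Y, Y = ∑ T' ∈ Ω, (ρ T' * Real.log (⨆ i, v (A.x P i)) -
              Real.log (v (aeval (A.x P) (R T')))) := ⟨_, rfl⟩
  rw [← hY]
  -- the sum `Y` is large
  have hY1 : ∀ T' ∈ Ω, (ρ T' * Real.log (⨆ i, v (A.x P i)) -
              Real.log (v (aeval (A.x P) (R T')))) + |Real.log (c3 T')| ≤ Y + C := by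
    intro T' hT'
    have h1 : (ρ T' * Real.log (⨆ i, v (A.x P i)) -
        Real.log (v (aeval (A.x P) (R T')))) + c2 T' ≤
        ∑ T' ∈ Ω, ((ρ T' * Real.log (⨆ i, v (A.x P i)) -
              Real.log (v (aeval (A.x P) (R T')))) + c2 T') :=
      Finset.single_le_sum (f := fun T' => (ρ T' * Real.log (⨆ i, v (A.x P i)) -
        Real.log (v (aeval (A.x P) (R T')))) + c2 T')
        (fun T'' hT'' => by
          have := hc2' T'' hT'' P X hX (hRP T'' hT'')
          linarith) hT'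
    rw [Finset.sum_add_distrib, ← hY] at h1
    have h2 : |Real.log (c3 T')| ≤ ∑ T ∈ Ω, |Real.log (c3 T)| :=
      Finset.single_le_sum (f := fun T => |Real.log (c3 T)|) (fun _ _ => abs_nonneg _) hT'
    have h3 := hc2 T'
    rw [hC]
    linarith
  have hYC : 0 ≤ Y + C := by
    have h1 := hc2' T hT P X hX (hRP T hT)
    have h2 : 0 ≤ ∑ T' ∈ Ω, ((ρ T' * Real.log (⨆ i, v (A.x P i)) -
              Real.log (v (aeval (A.x P) (R T')))) + c2 T') :=
      Finset.sum_nonneg fun T'' hT'' => by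
          have := hc2' T'' hT'' P X hX (hRP T'' hT'')
          linarith
    rw [Finset.sum_add_distrib, ← hY] at h2
    rw [hC]
    linarith
  constructor
  · -- the farther hypersurfaces
    have h1 : ∀ j ∈ J \ T, lamQ A v D d (Q j) P X ≤ Y + C := by
      intro j hj
      obtain ⟨hj1, hj2⟩ := Finset.mem_sdiff.1 hj
      obtain ⟨i, hi, h2⟩ := hc3' T hT P X hX hXH
      refine (htop j hj1 hj2 i hi).trans (le_trans ?_ (hY1 T hT))
      have hq : 0 < v (eval X (sp A P (Q i))) := v.pos (hQX i (hTJ hi))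
      have hr : 0 < v (aeval (A.x P) (R T)) := v.pos (hRP T hT)
      have h3 := Real.log_le_log (by positivity) h2
      rw [Real.log_mul (by positivity) hr.ne', Real.log_mul (by positivity) (by positivity),
        Real.log_mul (mul_pos (hc3 T) (by positivity)).ne' hq.ne',
        Real.log_mul (hc3 T).ne' (by positivity), Real.log_pow, Real.log_pow,
        Real.log_pow] at h3
      unfold lamQ
      have h4 := le_abs_self (Real.log (c3 T))
      linarith
    rw [← Finset.mul_sum, ← Finset.sum_sdiff hTJ, mul_add, add_comm]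
    refine add_le_add le_rfl ?_
    have h2 : ∑ j ∈ J \ T, lamQ A v D d (Q j) P X ≤ s * (Y + C) := by
      refine (Finset.sum_le_sum h1).trans ?_
      rw [Finset.sum_const, nsmul_eq_mul]
      refine mul_le_mul_of_nonneg_right ?_ hYC
      have h3 := Finset.card_le_univ (J \ T)
      rw [Fintype.card_fin] at h3
      exact_mod_cast h3
    have h3 : 1 / (d : ℝ) * ∑ j ∈ J \ T, lamQ A v D d (Q j) P X ≤ 1 / (d : ℝ) * (s * (Y + C)) :=
      mul_le_mul_of_nonneg_left h2 (by positivity)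
    refine h3.trans (le_of_eq ?_)
    ring
  · -- the weights
    have h1 : 0 ≤ (w T - w₀) * ∑ j ∈ T, (lamQ A v D d (Q j) P X + c1 j) := by
      refine mul_nonneg (sub_nonneg.2 (hw T hT)) (Finset.sum_nonneg fun j hj => ?_)
      have := hc1' j P X hX (hQX j (hTJ hj))
      linarith
    rw [Finset.sum_add_distrib, mul_add] at h1
    have h2 : (w T - w₀) * ∑ j ∈ T, c1 j ≤ C := by
      have h3 : (w T - w₀) * ∑ j ∈ T, c1 j ≤ (w T - w₀) * ∑ j, c1 j :=
        mul_le_mul_of_nonneg_left (Finset.sum_le_sum_of_subset_of_nonneg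
          (Finset.subset_univ T) fun j _ _ => hc1 j) (sub_nonneg.2 (hw T hT))
      have h4 : (w T - w₀) * ∑ j, c1 j ≤ ∑ T ∈ Ω, (w T - w₀) * ∑ j, c1 j :=
        Finset.single_le_sum (f := fun T => (w T - w₀) * ∑ j, c1 j)
          (fun T hT => mul_nonneg (sub_nonneg.2 (hw T hT))
            (Finset.sum_nonneg fun j _ => hc1 j)) hT
      rw [hC]
      linarith
    linarith

end

end Pool.Agent.Lib.MP_17a322_nt.EF
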