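import Pool.Agent.Lib.MP_17a322_nt.EF.W6
import Pool.Agent.Lib.MP_17a322_nt.EF.T2
import Pool.Agent.Lib.MP_17a322_nt.EF.R4
import Pool.Agent.Lib.MP_17a322_nt.EF.S1

/-!
Moving hypersurfaces: the general theorem for equal bidegrees.
-/

universe u

namespace Pool.Agent.Lib.MP_17a322_nt.EF

open MvPolynomial Height
open Pool.Agent.Lib.MP_17a322_nt.VA
open Pool.Agent.Lib.MP_17a322_nt.SL

/-- Equal bidegrees, a lower bound `σ` of the normalised heights of the Veronese spaces. -/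
theorem EF_gen {K : Type u} [Field K] [NumberField K] {N : ℕ} (A : AV K N)
    (Γ : AddSubgroup (A.Pts K)) (hΓ : Γ.FG) {n m s t D d : ℕ} (ht : 0 < t)
    (hd : 0 < d)
    (H : Fin m → MvPolynomial (Fin n) (MvPolynomial (Fin (N + 1)) K))
    (hH : ∀ i, ∃ a b : ℕ, BH a b (H i))
    (hfib : ∀ (L : Type u) [Field L] [IsAlgClosed L] [Algebra K L] (P : A.Pts L), Gen A P →
      (fib A H P).IsPrime ∧ Algebra.trdeg L (MvPolynomial (Fin n) L ⧸ fib A H P) = t)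
    (Q : Fin s → MvPolynomial (Fin n) (MvPolynomial (Fin (N + 1)) K)) (hQ : ∀ j, BH D d (Q j))
    (S : Finset (NumberField.FinitePlace K))
    (Ji : NumberField.InfinitePlace K → Finset (Fin s))
    (Jf : NumberField.FinitePlace K → Finset (Fin s))
    (hJi : ∀ v, t ≤ (Ji v).card ∧ ∀ T ⊆ Ji v, T.card = t → NoCommon A H Q T)
    (hJf : ∀ v ∈ S, t ≤ (Jf v).card ∧ ∀ T ⊆ Jf v, T.card = t → NoCommon A H Q T)
    (σ : A.Pts K → ℝ) (hσ0 : ∀ P, 0 ≤ σ P)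
    (hσ : ∀ (k g' r' : ℕ)
      (G' : Matrix (Fin g') (Fin (Mo n k).card) (MvPolynomial (Fin (N + 1)) K)),
      IsRows A H k G' → g' + r' = (Mo n k).card →
      ∃ (R : MvPolynomial (Fin (N + 1)) K) (ρ : ℕ), R.IsHomogeneous ρ ∧ R ∉ A.I ∧
        ∀ P : A.Pts K, aeval (A.x P) R ≠ 0 → (k : ℝ) * r' * σ P ≤ t * hE A G' P)
    (ε : ℝ) (hε : 0 < ε) :
    ∃ (C : ℝ) (F : MvPolynomial (Fin n) (MvPolynomial (Fin (N + 1)) K)), ExcF A H F ∧
      ∀ P ∈ Γ, ∀ X : Fin n → K, X ≠ 0 → (∀ i, eval X (sp A P (H i)) = 0) →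
        eval X (sp A P F) ≠ 0 →
        (∀ j, (∃ v, j ∈ Ji v) ∨ (∃ v ∈ S, j ∈ Jf v) → eval X (sp A P (Q j)) ≠ 0) ∧
        (∑ v : NumberField.InfinitePlace K, (v.mult : ℝ) *
            ∑ j ∈ Ji v, 1 / (d : ℝ) * lamQ A v.val D d (Q j) P X) +
          (∑ v ∈ S, ∑ j ∈ Jf v, 1 / (d : ℝ) * lamQ A v.val D d (Q j) P X) + σ P ≤
          t * logHeight X + ε * (logHeight X + logHeight (A.x P)) + C := by
  classical
  have hpr : ∀ (L : Type u) [Field L] [IsAlgClosed L] [Algebra K L] (P : A.Pts L), Gen A P →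
      (fib A H P).IsPrime := fun L _ _ _ P hP => (hfib L P hP).1
  obtain ⟨L₀, _, _, _, P₀, hP₀⟩ := T_gen A
  have ht1 : (1 : ℝ) ≤ t := by exact_mod_cast ht
  have hd1 : (1 : ℝ) ≤ d := by exact_mod_cast hd
  obtain ⟨δ, hδ⟩ : ∃ δ : ℝ, δ = min (1 / 2) (ε / (8 * t)) := ⟨_, rfl⟩
  have hδ0 : 0 < δ := by rw [hδ]; positivity
  have hδ1 : δ ≤ 1 / 2 := by rw [hδ]; exact min_le_left _ _
  have hδ2 : δ ≤ ε / (8 * t) := by rw [hδ]; exact min_le_right _ _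
  obtain ⟨k, M, hk, hrk, hM⟩ := W_choose A ht hd H hH Q hQ P₀ hP₀ (hfib L₀ P₀ hP₀).1
    (hfib L₀ P₀ hP₀).2 hδ0 (by linarith)
  obtain ⟨g', G', hG'⟩ := T_rows A H hH k
  have hgr := T_rk A H k G' hG' P₀ hP₀
  obtain ⟨r', hr'⟩ : ∃ r', r' = rk (fib A H P₀) k := ⟨_, rfl⟩
  rw [← hr'] at hgr hrk
  have hk1 : (1 : ℝ) ≤ k := by exact_mod_cast hk
  have hr1 : (1 : ℝ) ≤ r' := by exact_mod_cast hrk
  obtain ⟨Rσ, ρσ, hRσ, hRσ0, hσR⟩ := hσ k g' r' G' hG' hgr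
  -- the admissible sets of hypersurfaces
  obtain ⟨Ω, hΩ⟩ : ∃ Ω : Finset (Finset (Fin s)), ∀ T, T ∈ Ω ↔ T.card = t ∧ NoCommon A H Q T :=
    ⟨Finset.univ.filter fun T => T.card = t ∧ NoCommon A H Q T, fun T => by
      rw [Finset.mem_filter]
      exact ⟨fun h => h.2, fun h => ⟨Finset.mem_univ _, h⟩⟩⟩
  obtain ⟨w₀, hw₀⟩ : ∃ w₀ : ℝ, w₀ = (1 - δ) * (k * r') / (t * d) := ⟨_, rfl⟩
  have hw₀0 : 0 < w₀ := by
    rw [hw₀]
    have : 0 < 1 - δ := by linarith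
    positivity
  have hwt : ∀ T ∈ Ω, w₀ ≤ wgt (M T) t d k := by
    intro T hT
    obtain ⟨h1, h2⟩ := (hΩ T).1 hT
    have h3 := (hM T h1 h2).2 ⟨0, ht⟩
    rw [wgt_eq (M T) ht d k, ← hr'] at h3
    rw [hw₀, div_le_iff₀ (by positivity)]
    linarith
  have hW : ∀ T, T ∈ Ω → T.card = t ∧ 0 < wgt (M T) t d k ∧
      ∀ b : (Fin n → ℕ) × (Fin t → ℕ) → L₀,
        ∑ p ∈ fam (M T) t d k, C (b p) * fm (fun j => sp A P₀ (qT t Q T j)) p ∈ fib A H P₀ →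
          ∀ p ∈ fam (M T) t d k, b p = 0 := fun T hT =>
    ⟨((hΩ T).1 hT).1, hw₀0.trans_le (hwt T hT), (hM T ((hΩ T).1 hT).1 ((hΩ T).1 hT).2).1⟩
  obtain ⟨C₁, F₁, hF₁, hall⟩ := W_all A Γ hΓ ht hd H hpr Q hQ P₀ hP₀ G' hG' hgr hrk M
    (fun T => T ∈ Ω) hW S (ε := ε / (8 * t)) (by positivity)
  -- resultants
  have hres : ∀ T, ∃ (R : MvPolynomial (Fin (N + 1)) K) (ρ : ℕ), T ∈ Ω →
      R.IsHomogeneous ρ ∧ R ∉ A.I ∧
      ∀ v : AbsoluteValue K ℝ, ∃ C : ℝ, 0 < C ∧ ∀ (P : A.Pts K) (X : Fin n → K), X ≠ 0 →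
        (∀ i, eval X (sp A P (H i)) = 0) →
        ∃ j ∈ T, (⨆ l, v (X l)) ^ d * (⨆ i, v (A.x P i)) ^ D * v (aeval (A.x P) R) ≤
          C * (⨆ i, v (A.x P i)) ^ ρ * v (eval X (sp A P (Q j))) := by
    intro T
    by_cases hT : T ∈ Ω
    · obtain ⟨h1, h2⟩ := (hΩ T).1 hT
      obtain ⟨R, ρ, h3⟩ := R_low A H hH hd Q hQ T h2 (Finset.card_pos.1 (by omega))
      exact ⟨R, ρ, fun _ => h3⟩
    · exact ⟨0, 0, fun h => absurd h hT⟩
  choose R ρ hR using hres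
  obtain ⟨ε₂, hε₂⟩ : ∃ ε₂ : ℝ, ε₂ = ε * d / (4 * (s + 1) * (Ω.card + 1)) := ⟨_, rfl⟩
  have hε₂0 : 0 < ε₂ := by rw [hε₂]; positivity
  obtain ⟨C₂, F₂, hF₂, hlow⟩ := exc_all A Ω H hpr
    (fun T C P _ => P ∈ Γ → aeval (A.x P) (R T) ≠ 0 ∧
      SS S (fun v => ρ T * Real.log (⨆ i, v.val (A.x P i)) -
          Real.log (v.val (aeval (A.x P) (R T))))
        (fun v => ρ T * Real.log (⨆ i, v.val (A.x P i)) -
          Real.log (v.val (aeval (A.x P) (R T)))) ≤ ε₂ * logHeight (A.x P) + C)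
    (fun T C C' P X hC h hP => ⟨(h hP).1, (h hP).2.trans (by linarith)⟩)
    (fun T hT => by
      obtain ⟨C, F, a, h1, h2, h3⟩ := S_low A Γ hΓ (hR T hT).1 (hR T hT).2.1 S hε₂0
      refine ⟨C, MvPolynomial.C F, ExcF_C A H hpr h1 h2, fun P X hF hP => ?_⟩
      rw [sp_C, eval_C] at hF
      exact h3 P hP hF)
  -- local constants
  obtain ⟨cv, hcv0, hcv⟩ : ∃ cv : AbsoluteValue K ℝ → ℝ, (∀ v, 0 ≤ cv v) ∧
      ∀ v, ∀ (P : A.Pts K) (X : Fin n → K), X ≠ 0 →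
      (∀ i, eval X (sp A P (H i)) = 0) → (∀ T ∈ Ω, aeval (A.x P) (R T) ≠ 0) →
      ∀ J T : Finset (Fin s), T ⊆ J → T ∈ Ω → (∀ j ∈ J, eval X (sp A P (Q j)) ≠ 0) →
        (∀ j ∈ J, j ∉ T → ∀ i ∈ T, lamQ A v D d (Q j) P X ≤ lamQ A v D d (Q i) P X) →
        (∑ j ∈ J, 1 / (d : ℝ) * lamQ A v D d (Q j) P X ≤
          1 / (d : ℝ) * (∑ j ∈ T, lamQ A v D d (Q j) P X) +
            s / (d : ℝ) * ((∑ T' ∈ Ω, (ρ T' * Real.log (⨆ i, v (A.x P i)) -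
              Real.log (v (aeval (A.x P) (R T'))))) + cv v)) ∧
        w₀ * (∑ j ∈ T, lamQ A v D d (Q j) P X) ≤
          wgt (M T) t d k * (∑ j ∈ T, lamQ A v D d (Q j) P X) + cv v := by
    have h1 := fun v : AbsoluteValue K ℝ => W_loc A v H Q hQ Ω R ρ (fun T hT => (hR T hT).1)
      (fun T hT => (hR T hT).2.2 v) (fun T => wgt (M T) t d k) w₀ hwt
    choose cv h2 h3 using h1
    exact ⟨cv, h2, h3⟩
  obtain ⟨Cc, hCc⟩ : ∃ Cc, Cc = SS S (fun v => cv v.val) (fun v => cv v.val) := ⟨_, rfl⟩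
  have hCc0 : 0 ≤ Cc := by
    rw [hCc]
    exact SS_nonneg (fun v => hcv0 _) fun v _ => hcv0 _
  refine ⟨2 * (t * (|C₁| + Cc)) + s / d * (Ω.card * |C₂| + Cc), F₁ * F₂ * MvPolynomial.C Rσ,
    ExcF_mul A H hpr (ExcF_mul A H hpr hF₁ hF₂) (ExcF_C A H hpr hRσ hRσ0),
    fun P hP X hX hXH hXF => ?_⟩
  rw [sp_mul, sp_mul, sp_C, map_mul, map_mul, eval_C] at hXF
  have hXF₁ := left_ne_zero_of_mul (left_ne_zero_of_mul hXF)
  have hXF₂ := right_ne_zero_of_mul (left_ne_zero_of_mul hXF)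
  have hXR := right_ne_zero_of_mul hXF
  have hall' := hall P hP X hX hXH hXF₁
  have hlow' := hlow P X hXF₂
  -- admissible choices
  have hadi : ∀ v, ∀ T ⊆ Ji v, T.card = t → T ∈ Ω := fun v T h1 h2 =>
    (hΩ T).2 ⟨h2, (hJi v).2 T h1 h2⟩
  have hadf : ∀ v ∈ S, ∀ T ⊆ Jf v, T.card = t → T ∈ Ω := fun v hv T h1 h2 =>
    (hΩ T).2 ⟨h2, (hJf v hv).2 T h1 h2⟩
  have hsub : ∀ J : Finset (Fin s), t ≤ J.card → ∀ j ∈ J, ∃ T ⊆ J, T.card = t ∧ j ∈ T := by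
    intro J hJ j hj
    obtain ⟨T, h1, h2, h3⟩ := Finset.exists_subsuperset_card_eq
      (Finset.singleton_subset_iff.2 hj) (by rw [Finset.card_singleton]; exact ht) hJ
    exact ⟨T, h2, h3, h1 (Finset.mem_singleton_self j)⟩
  -- the nearest hypersurfaces
  have hti : ∀ v : NumberField.InfinitePlace K, ∃ T ⊆ Ji v, T.card = t ∧
      ∀ j ∈ Ji v, j ∉ T → ∀ i ∈ T, lamQ A v.val D d (Q j) P X ≤ lamQ A v.val D d (Q i) P X :=
    fun v => top_subset _ t (Ji v) (hJi v).1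
  choose τi hτi1 hτi2 hτi3 using hti
  have htf : ∀ v : NumberField.FinitePlace K, ∃ T : Finset (Fin s), v ∈ S → T ⊆ Jf v ∧
      T.card = t ∧ ∀ j ∈ Jf v, j ∉ T → ∀ i ∈ T,
        lamQ A v.val D d (Q j) P X ≤ lamQ A v.val D d (Q i) P X := by
    intro v
    by_cases hv : v ∈ S
    · obtain ⟨T, h1, h2, h3⟩ := top_subset (fun j => lamQ A v.val D d (Q j) P X) t (Jf v)
        (hJf v hv).1
      exact ⟨T, fun _ => ⟨h1, h2, h3⟩⟩
    · exact ⟨∅, fun h => absurd h hv⟩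
  choose τf hτf using htf
  have hτi : ∀ v, τi v ∈ Ω := fun v => hadi v _ (hτi1 v) (hτi2 v)
  have hτf' : ∀ v ∈ S, τf v ∈ Ω := fun v hv => hadf v hv _ (hτf v hv).1 (hτf v hv).2.1
  -- the values of the hypersurfaces are not zero
  have hnz : ∀ j, (∃ v, j ∈ Ji v) ∨ (∃ v ∈ S, j ∈ Jf v) → eval X (sp A P (Q j)) ≠ 0 := by
    rintro j (⟨v, hj⟩ | ⟨v, hv, hj⟩)
    · obtain ⟨T, h1, h2, h3⟩ := hsub (Ji v) (hJi v).1 j hj
      have h4 := (hall' (Function.update τi v T) τf (fun v' => by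
        by_cases h : v' = v
        · subst h
          rw [Function.update_self]
          exact hadi _ T h1 h2
        · rw [Function.update_of_ne h]
          exact hτi v') hτf').1.1 v
      rw [Function.update_self] at h4
      exact h4 j h3
    · obtain ⟨T, h1, h2, h3⟩ := hsub (Jf v) (hJf v hv).1 j hj
      have h4 := (hall' τi (Function.update τf v T) hτi (fun v' hv' => by
        by_cases h : v' = v
        · subst h
          rw [Function.update_self]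
          exact hadf _ hv T h1 h2
        · rw [Function.update_of_ne h]
          exact hτf' v' hv')).1.2 v hv
      rw [Function.update_self] at h4
      exact h4 j h3
  refine ⟨hnz, ?_⟩
  have hRP : ∀ T ∈ Ω, aeval (A.x P) (R T) ≠ 0 := fun T hT => (hlow' T hT hP).1
  have hloci := fun v : NumberField.InfinitePlace K => hcv v.val P X hX hXH hRP (Ji v) (τi v)
    (hτi1 v) (hτi v) (fun j hj => hnz j (Or.inl ⟨v, hj⟩)) (hτi3 v)
  have hlocf := fun (v : NumberField.FinitePlace K) (hv : v ∈ S) =>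
    hcv v.val P X hX hXH hRP (Jf v) (τf v)
      (hτf v hv).1 (hτf' v hv) (fun j hj => hnz j (Or.inr ⟨v, hv, hj⟩)) (hτf v hv).2.2
  have h4 := (hall' τi τf hτi hτf').2
  have h5 := hσR P hXR
  have h1 := SS_mono (S := S) (fun v => (hloci v).1) (fun v hv => (hlocf v hv).1)
  rw [SS_add, SS_mul, SS_mul, SS_add, SS_sum, ← hCc] at h1
  have h2 := SS_mono (S := S) (fun v => (hloci v).2) (fun v hv => (hlocf v hv).2)
  rw [SS_add, SS_mul, ← hCc, hw₀] at h2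
  have h3 : ∑ T ∈ Ω, SS S (fun v => ρ T * Real.log (⨆ i, v.val (A.x P i)) -
          Real.log (v.val (aeval (A.x P) (R T))))
        (fun v => ρ T * Real.log (⨆ i, v.val (A.x P i)) -
          Real.log (v.val (aeval (A.x P) (R T)))) ≤
      Ω.card * (ε₂ * logHeight (A.x P) + C₂) := by
    refine (Finset.sum_le_sum fun T hT => (hlow' T hT hP).2).trans (le_of_eq ?_)
    rw [Finset.sum_const, nsmul_eq_mul]
  rw [hε₂] at h3
  have hfin := W_num ht1 hd1 hk1 hr1 (Nat.cast_nonneg s) (Nat.cast_nonneg Ω.card) hδ0 hδ1 hδ2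
    hε h1 h2 h3 h4 h5 (logHeight_nonneg X) (logHeight_nonneg _) (hσ0 P) hCc0
  exact hfin

end Pool.Agent.Lib.MP_17a322_nt.EF
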