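import Pool.Agent.Lib.MP_17a322_nt.EF.Defs3

/-!
The prime ideal of the line through a point.
-/

universe u

namespace Pool.Agent.Lib.MP_17a322_nt.EF

open MvPolynomial

/-- The homomorphism `X l ↦ x l * T`. -/
noncomputable def lineHom {L : Type u} [Field L] {n : ℕ} (x : Fin n → L) :
    MvPolynomial (Fin n) L →ₐ[L] Polynomial L :=
  aeval fun l => Polynomial.C (x l) * Polynomial.X

theorem lineHom_surj {L : Type u} [Field L] {n : ℕ} {x : Fin n → L} (hx : x ≠ 0) :
    Function.Surjective (lineHom x) := by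
  obtain ⟨l, hl⟩ := Function.ne_iff.1 hx
  have h1 : lineHom x (C (x l)⁻¹ * X l) = Polynomial.X := by
    unfold lineHom
    rw [map_mul, aeval_X, ← algebraMap_eq, AlgHom.commutes, Polynomial.algebraMap_eq,
      ← mul_assoc, ← Polynomial.C_mul]
    have h2 : (x l)⁻¹ * x l = 1 := inv_mul_cancel₀ hl
    rw [h2, Polynomial.C_1, one_mul]
  intro p
  refine ⟨Polynomial.aeval (C (x l)⁻¹ * X l) p, ?_⟩
  rw [← Polynomial.aeval_algHom_apply, h1, Polynomial.aeval_X_left_apply]

theorem lineHom_of_homog {L : Type u} [Field L] {n : ℕ} (x : Fin n → L) {k : ℕ}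
    {f : MvPolynomial (Fin n) L} (hf : f.IsHomogeneous k) :
    lineHom x f = Polynomial.C (eval x f) * Polynomial.X ^ k := by
  unfold lineHom
  rw [aeval_def, eval₂_eq', eval_eq', map_sum, Finset.sum_mul]
  refine Finset.sum_congr rfl fun m hm => ?_
  have h1 : ∑ l, m l = k := by
    have h2 := hf (mem_support_iff.1 hm)
    rw [Finsupp.weight_apply, Finsupp.sum_fintype _ _ fun _ => by simp] at h2
    simpa using h2
  rw [Polynomial.algebraMap_eq, map_mul, map_prod, ← h1, ← Finset.prod_pow_eq_pow_sum,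
    mul_assoc, ← Finset.prod_mul_distrib]
  refine congrArg _ (Finset.prod_congr rfl fun l _ => ?_)
  rw [mul_pow, map_pow]

/-- The prime ideal of the line through a point. -/
theorem line_prime {L : Type u} [Field L] {n : ℕ} {x : Fin n → L} (hx : x ≠ 0) :
    ∃ p : Ideal (MvPolynomial (Fin n) L), p.IsPrime ∧
      Algebra.trdeg L (MvPolynomial (Fin n) L ⧸ p) = 1 ∧
      ∀ (k : ℕ) (f : MvPolynomial (Fin n) L), f.IsHomogeneous k → eval x f = 0 → f ∈ p := by
  refine ⟨RingHom.ker (lineHom x), RingHom.ker_isPrime _, ?_, fun k f hf h0 => ?_⟩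
  · have e := Ideal.quotientKerAlgEquivOfSurjective (lineHom_surj hx)
    have h1 := AlgEquiv.trdeg_eq e
    exact h1.trans Polynomial.trdeg_of_isDomain
  · rw [RingHom.mem_ker]
    have h1 := lineHom_of_homog x hf
    rw [h0, map_zero, zero_mul] at h1
    exact h1

end Pool.Agent.Lib.MP_17a322_nt.EF
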