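import Pool.Agent.Lib.MP_17a322_nt.Mb

/-!
Two lemmas on real numbers: the comparison of tails, and the choice of the tuples.
-/

universe u

namespace Pool.Agent.Lib.MP_17a322_nt.EF

open MeasureTheory

theorem Y1_int (z b : ℝ) :
    ∫ u in Set.Ici z, (Set.Iio b).indicator (1 : ℝ → ℝ) u = max (b - z) 0 := by
  rw [integral_indicator_one measurableSet_Iio, measureReal_restrict_apply measurableSet_Iio,
    Set.Iio_inter_Ici, Real.volume_real_Ico]

theorem Y1_integrable (z b : ℝ) :
    IntegrableOn ((Set.Iio b).indicator (1 : ℝ → ℝ)) (Set.Ici z) volume := by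
  rw [IntegrableOn, integrable_indicator_iff measurableSet_Iio]
  rw [IntegrableOn, Measure.restrict_restrict measurableSet_Iio, Set.Iio_inter_Ici]
  have : IsFiniteMeasure (volume.restrict (Set.Ico z b)) := inferInstance
  exact integrable_const (1 : ℝ)

/-- Y1: the tails. -/
theorem Y_tails {ι : Type*} [Fintype ι] {t : ℕ} (c a : ι → ℝ) (hc : ∀ j, 0 ≤ c j)
    (y : Fin t → ℝ) (z : ℝ)
    (h : ∀ u, z ≤ u → (∑ j ∈ Finset.univ.filter (fun j => u < a j), c j) ≤
      ((Finset.univ.filter fun i => u < y i).card : ℝ)) :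
    ∑ j, c j * max (a j - z) 0 ≤ ∑ i, max (y i - z) 0 := by
  have h1 : ∑ j, c j * max (a j - z) 0 =
      ∫ u in Set.Ici z, ∑ j, c j * (Set.Iio (a j)).indicator (1 : ℝ → ℝ) u := by
    rw [integral_finsetSum]
    · refine Finset.sum_congr rfl fun j _ => ?_
      rw [integral_const_mul, Y1_int]
    · intro j _
      exact (Y1_integrable z (a j)).const_mul (c j)
  have h2 : ∑ i, max (y i - z) 0 =
      ∫ u in Set.Ici z, ∑ i, (Set.Iio (y i)).indicator (1 : ℝ → ℝ) u := by
    rw [integral_finsetSum]
    · refine Finset.sum_congr rfl fun i _ => ?_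
      rw [Y1_int]
    · intro i _
      exact Y1_integrable z (y i)
  rw [h1, h2]
  refine setIntegral_mono_on ?_ ?_ measurableSet_Ici ?_
  · exact integrable_finsetSum _ fun j _ => (Y1_integrable z (a j)).const_mul (c j)
  · exact integrable_finsetSum _ fun i _ => Y1_integrable z (y i)
  · intro u hu
    have h3 := h u hu
    rw [Finset.card_filter, Finset.sum_filter] at h3
    push_cast at h3
    refine le_trans (le_of_eq ?_) (h3.trans (le_of_eq ?_))
    · refine Finset.sum_congr rfl fun j _ => ?_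
      by_cases hj : u < a j
      · rw [Set.indicator_of_mem (Set.mem_Iio.2 hj), if_pos hj]; simp
      · rw [Set.indicator_of_notMem (fun hh => hj (Set.mem_Iio.1 hh)), if_neg hj]; simp
    · refine Finset.sum_congr rfl fun i _ => ?_
      by_cases hj : u < y i
      · rw [Set.indicator_of_mem (Set.mem_Iio.2 hj), if_pos hj]; simp
      · rw [Set.indicator_of_notMem (fun hh => hj (Set.mem_Iio.1 hh)), if_neg hj]

/-- The choice of one entry. -/
theorem Y1_one {s : ℕ} (p : Finset (Fin s) → Prop) (hp : ¬ p ∅) (a : Fin s → ℝ) :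
    ∃ (V : Option (Finset (Fin s))) (y : ℝ),
      (V = none ∧ y = 0 ∧ ∀ U, ¬ p U) ∨
      (∃ U, V = some U ∧ p U ∧ (∀ j ∈ U, y ≤ a j) ∧ ∀ U', p U' → ∃ j ∈ U', a j ≤ y) := by
  classical
  by_cases hex : ∃ U, p U
  · set m : Finset (Fin s) → ℝ := fun U => if h : U.Nonempty then U.inf' h a else 0 with hm
    have hne : (Finset.univ.filter p).Nonempty := by
      obtain ⟨U, hU⟩ := hex
      exact ⟨U, by simpa using hU⟩
    obtain ⟨U, hU, hmax⟩ := Finset.exists_max_image (Finset.univ.filter p) m hne
    have hU' : p U := (Finset.mem_filter.1 hU).2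
    refine ⟨some U, m U, Or.inr ⟨U, rfl, hU', ?_, ?_⟩⟩
    · intro j hj
      have hn : U.Nonempty := ⟨j, hj⟩
      rw [hm]
      simp only [dif_pos hn]
      exact Finset.inf'_le a hj
    · intro U' hp'
      have hn : U'.Nonempty := by
        rw [Finset.nonempty_iff_ne_empty]
        rintro rfl
        exact hp hp'
      obtain ⟨j, hj, hj2⟩ := Finset.exists_mem_eq_inf' hn a
      refine ⟨j, hj, ?_⟩
      have h1 := hmax U' (Finset.mem_filter.2 ⟨Finset.mem_univ _, hp'⟩)
      have h2 : m U' = U'.inf' hn a := by rw [hm]; simp only [dif_pos hn]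
      rw [h2, hj2] at h1
      exact h1
  · exact ⟨none, 0, Or.inl ⟨rfl, rfl, fun U hU => hex ⟨U, hU⟩⟩⟩

/-- Y2: `cod U i` means that the intersection of the closed subsets with indices in `U` has
codimension at least `i`, `a j` is the local height for `j`. -/
theorem Y_tup {s t : ℕ} (cod : Finset (Fin s) → ℕ → Prop) (h0 : ∀ i, 0 < i → ¬ cod ∅ i)
    (hmono : ∀ U i i', i' ≤ i → cod U i → cod U i') (ht : ∀ U i, cod U i → i ≤ t)
    (c a : Fin s → ℝ) (hc : ∀ j, 0 ≤ c j)
    (hcod : ∀ U, cod U t ∨ ∃ i, cod U i ∧ ∑ j ∈ U, c j ≤ i) (z : ℝ) (hz0 : 0 ≤ z)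
    (hz : ∀ U, cod U t → ∃ j ∈ U, a j ≤ z) :
    ∃ (V : Fin t → Option (Finset (Fin s))) (y : Fin t → ℝ),
      (∀ i U, V i = some U → cod U (i + 1)) ∧
      (∀ i, (V i = none ∧ y i = 0) ∨ ∃ U, V i = some U ∧ ∀ j ∈ U, y i ≤ a j) ∧
      ∑ j, c j * a j ≤ (∑ j, c j) * z + ∑ i, max (y i) 0 := by
  classical
  choose V y hVy using fun i : Fin t =>
    Y1_one (fun U => cod U ((i : ℕ) + 1)) (h0 _ (Nat.succ_pos _)) a
  refine ⟨V, y, ?_, ?_, ?_⟩
  · intro i U hU
    rcases hVy i with ⟨h1, _, _⟩ | ⟨U', h1, h2, _⟩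
    · rw [h1] at hU
      exact absurd hU (by simp)
    · rw [h1] at hU
      rw [← Option.some.inj hU]
      exact h2
  · intro i
    rcases hVy i with ⟨h1, h2, _⟩ | ⟨U', h1, _, h3, _⟩
    · exact Or.inl ⟨h1, h2⟩
    · exact Or.inr ⟨U', h1, h3⟩
  · have hkey := Y_tails c a hc y z (by
      intro u hu
      set W : Finset (Fin s) := Finset.univ.filter (fun j => u < a j) with hW
      have hnt : ¬ cod W t := by
        intro hh
        obtain ⟨j, hj, hj2⟩ := hz W hh
        have : u < a j := (Finset.mem_filter.1 hj).2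
        linarith
      rcases hcod W with hh | ⟨i, hi, hle⟩
      · exact absurd hh hnt
      · refine hle.trans ?_
        have hit : i ≤ t := ht W i hi
        have hsub : (Finset.univ.filter fun k : Fin t => (k : ℕ) < i) ⊆
            Finset.univ.filter fun k => u < y k := by
          intro k hk
          have hk' : (k : ℕ) < i := (Finset.mem_filter.1 hk).2
          refine Finset.mem_filter.2 ⟨Finset.mem_univ _, ?_⟩
          have hc1 : cod W ((k : ℕ) + 1) := hmono W i _ hk' hi
          rcases hVy k with ⟨_, _, h3⟩ | ⟨U', _, _, _, h4⟩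
          · exact absurd hc1 (h3 W)
          · obtain ⟨j, hj, hj2⟩ := h4 W hc1
            have : u < a j := (Finset.mem_filter.1 hj).2
            linarith
        have hcard : (Finset.univ.filter fun k : Fin t => (k : ℕ) < i).card = i := by
          have := Fin.card_filter_val_lt (n := t) (m := i)
          rw [this, Nat.min_eq_right hit]
        exact_mod_cast hcard.symm.le.trans (Finset.card_le_card hsub))
    have h1 : ∑ j, c j * a j ≤ ∑ j, (c j * z + c j * max (a j - z) 0) := by
      refine Finset.sum_le_sum fun j _ => ?_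
      have h2 : a j ≤ z + max (a j - z) 0 := by
        have := le_max_left (a j - z) 0
        linarith
      calc c j * a j ≤ c j * (z + max (a j - z) 0) := mul_le_mul_of_nonneg_left h2 (hc j)
        _ = _ := by ring
    rw [Finset.sum_add_distrib, ← Finset.sum_mul] at h1
    have h3 : ∑ i, max (y i - z) 0 ≤ ∑ i, max (y i) 0 := by
      refine Finset.sum_le_sum fun i _ => ?_
      exact max_le_max (by linarith) le_rfl
    linarith

end Pool.Agent.Lib.MP_17a322_nt.EF
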