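import Pool.Agent.Lib.MP_17a322_nt.EF.Defs

/-!
The choice of hypersurfaces without common zeros.
-/

universe u

namespace Pool.Agent.Lib.MP_17a322_nt.EF

open MvPolynomial

section

/-- The transcendence degree drops modulo a larger prime ideal. -/
theorem y2_lt {L : Type u} [Field L] {R : Type u} [CommRing R] [Algebra L R] {p₀ p : Ideal R}
    [p₀.IsPrime] [p.IsPrime] (h : p₀ < p) :
    Algebra.trdeg L (R ⧸ p) + 1 ≤ Algebra.trdeg L (R ⧸ p₀) := by
  classical
  obtain ⟨f, hf, hf0⟩ := Set.exists_of_ssubset h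
  obtain ⟨s, hs⟩ := exists_isTranscendenceBasis L (R ⧸ p)
  let π : (R ⧸ p₀) →ₐ[L] R ⧸ p := Ideal.Quotient.factorₐ L h.le
  have hπ : Function.Surjective π := Ideal.Quotient.factor_surjective h.le
  choose y hy using hπ
  let x : s → R ⧸ p₀ := fun i => y i
  have hx' : AlgebraicIndependent L (π ∘ x) := by
    have h2 : π ∘ x = ((↑) : s → R ⧸ p) := funext fun i => hy i
    rw [h2]
    exact hs.1
  have hx : AlgebraicIndependent L x := AlgebraicIndependent.of_comp π hx'
  set F : R ⧸ p₀ := Ideal.Quotient.mk p₀ f with hF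
  have hF0 : F ≠ 0 := by rwa [hF, Ne, Ideal.Quotient.eq_zero_iff_mem]
  have hπF : π F = 0 := Ideal.Quotient.eq_zero_iff_mem.mpr hf
  have htr : Transcendental (Algebra.adjoin L (Set.range x)) F := by
    rintro ⟨P, hP0, hPF⟩
    obtain ⟨Q, hQ, hQ0⟩ := Polynomial.exists_eq_pow_rootMultiplicity_mul_and_not_dvd P hP0 0
    rw [Polynomial.C_0, sub_zero] at hQ hQ0
    rw [Polynomial.X_dvd_iff] at hQ0
    have h5 : Polynomial.aeval F Q = 0 := by
      rw [hQ, map_mul, map_pow, Polynomial.aeval_X] at hPF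
      exact (mul_eq_zero.mp hPF).resolve_left (pow_ne_zero _ hF0)
    rw [← Polynomial.divX_mul_X_add Q, map_add, map_mul, Polynomial.aeval_X, Polynomial.aeval_C] at h5
    have h6 : π ((Q.coeff 0 : Algebra.adjoin L (Set.range x)) : R ⧸ p₀) = 0 := by
      have h7 := congrArg π h5
      rw [map_add, map_mul, hπF, mul_zero, zero_add, map_zero] at h7
      exact h7
    have h8 : ((Q.coeff 0 : Algebra.adjoin L (Set.range x)) : R ⧸ p₀) ∈
        (aeval x : MvPolynomial s L →ₐ[L] R ⧸ p₀).range := by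
      rw [← Algebra.adjoin_range_eq_range_aeval]
      exact (Q.coeff 0).2
    obtain ⟨G, hG⟩ := h8
    replace hG : aeval x G = ((Q.coeff 0 : Algebra.adjoin L (Set.range x)) : R ⧸ p₀) := hG
    have h9 : aeval (π ∘ x) G = 0 := by
      rw [← hG] at h6
      rw [← h6]
      show aeval (π ∘ x) G = π (aeval x G)
      rw [← AlgHom.comp_apply, comp_aeval]
      rfl
    have h10 : G = 0 := by
      apply hx'
      rw [h9, map_zero]
    apply hQ0
    apply Subtype.ext
    rw [← hG, h10]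
    exact map_zero _
  have h3 := (hx.option_iff_transcendental F).mpr htr
  have h4 := h3.cardinalMk_le_trdeg
  rw [Cardinal.mk_option, hs.cardinalMk_eq_trdeg] at h4
  exact h4

/-- Modulo a larger ideal the transcendence degree is not larger. -/
theorem y2_le {L : Type u} [Field L] {R : Type u} [CommRing R] [Algebra L R] {p₀ p : Ideal R}
    [p.IsPrime] (h : p₀ ≤ p) :
    Algebra.trdeg L (R ⧸ p) ≤ Algebra.trdeg L (R ⧸ p₀) :=
  trdeg_le_of_surjective (Ideal.Quotient.factorₐ L h) (Ideal.Quotient.factor_surjective h)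

/-- One step: avoid finitely many prime ideals. -/
theorem y2_avoid {K : Type*} [Field K] [Infinite K] {R : Type*} [CommRing R] [Algebra K R]
    {ι : Type*} (G : Finset ι) (φ : ι → R) (𝔭 : Set (Ideal R)) (hfin : 𝔭.Finite)
    (h : ∀ p ∈ 𝔭, ∃ g ∈ G, φ g ∉ p) : ∃ k : ι → K, ∀ p ∈ 𝔭, ∑ g ∈ G, algebraMap K R (k g) * φ g ∉ p := by
  classical
  have : Finite 𝔭 := hfin
  -- the subspaces
  let Φ : (ι → K) →ₗ[K] R := ∑ g ∈ G, (LinearMap.toSpanSingleton K R (φ g)).comp (LinearMap.proj g)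
  have hΦ : ∀ k : ι → K, Φ k = ∑ g ∈ G, algebraMap K R (k g) * φ g := by
    intro k
    simp only [Φ, LinearMap.sum_apply, LinearMap.comp_apply, LinearMap.proj_apply,
      LinearMap.toSpanSingleton_apply, Algebra.smul_def]
  let W : 𝔭 → Submodule K (ι → K) := fun p => (p.1.restrictScalars K).comap Φ
  have hne : ⋃ p, (W p : Set (ι → K)) ≠ Set.univ := by
    intro hcov
    obtain ⟨p, hp⟩ := Subspace.exists_eq_top_of_iUnion_eq_univ hcov
    obtain ⟨g, hg, hgp⟩ := h p.1 p.2
    apply hgp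
    have h1 : (Pi.single g 1 : ι → K) ∈ W p := by rw [hp]; trivial
    have h2 : Φ (Pi.single g 1) ∈ p.1 := h1
    rw [hΦ, Finset.sum_eq_single g] at h2
    · simpa using h2
    · intro b _ hb
      simp [hb]
    · intro h3; exact absurd hg h3
  obtain ⟨k, hk⟩ := (Set.ne_univ_iff_exists_notMem _).mp hne
  refine ⟨k, fun p hp hmem => hk ?_⟩
  refine Set.mem_iUnion.mpr ⟨⟨p, hp⟩, ?_⟩
  show Φ k ∈ p
  rw [hΦ]
  exact hmem

/-- A prime ideal of the line through a point. -/
theorem y2_line {L : Type u} [Field L] {n : ℕ} {X : Fin n → L} (hX : X ≠ 0)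
    (J : Set (MvPolynomial (Fin n) L))
    (hJ : ∀ f ∈ J, ∀ k, eval X (homogeneousComponent k f) = 0) :
    ∃ p : Ideal (MvPolynomial (Fin n) L), p.IsPrime ∧ (∀ f ∈ J, f ∈ p) ∧
      Algebra.trdeg L (MvPolynomial (Fin n) L ⧸ p) ≠ 0 := by
  let ψ : MvPolynomial (Fin n) L →ₐ[L] Polynomial L :=
    aeval fun l => Polynomial.C (X l) * Polynomial.X
  have hψ : ∀ (f : MvPolynomial (Fin n) L) (k : ℕ), f.IsHomogeneous k →
      ψ f = Polynomial.C (eval X f) * Polynomial.X ^ k := by
    intro f k hf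
    have h1 : ∀ m ∈ f.support, ∑ l, m l = k := by
      intro m hm
      rw [← Finsupp.degree_eq_sum]
      exact hf.degree_eq_sum_deg_support hm ▸ rfl
    simp only [ψ, aeval_def, eval₂_eq', eval_eq', map_sum, map_mul, map_prod, map_pow,
      Finset.sum_mul]
    refine Finset.sum_congr rfl fun m hm => ?_
    rw [← h1 m hm]
    simp only [mul_pow, Finset.prod_mul_distrib, Finset.prod_pow_eq_pow_sum]
    rw [mul_assoc]
    rfl
  refine ⟨RingHom.ker ψ.toRingHom, RingHom.ker_isPrime _, fun f hf => ?_, fun h0 => ?_⟩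
  · show ψ f = 0
    rw [← sum_homogeneousComponent f, map_sum]
    refine Finset.sum_eq_zero fun k _ => ?_
    rw [hψ _ k (homogeneousComponent_isHomogeneous k f), hJ f hf k, Polynomial.C_0, zero_mul]
  · obtain ⟨l, hl⟩ : ∃ l, X l ≠ 0 := by
      by_contra hcon
      push Not at hcon
      exact hX (funext hcon)
    have hprime : (RingHom.ker ψ.toRingHom).IsPrime := RingHom.ker_isPrime _
    rw [trdeg_eq_zero_iff] at h0
    obtain ⟨P, hP0, hP⟩ := h0.isAlgebraic (Ideal.Quotient.mk (RingHom.ker ψ.toRingHom) (MvPolynomial.X l))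
    have h1 : Ideal.Quotient.mk (RingHom.ker ψ.toRingHom) (Polynomial.aeval (MvPolynomial.X l) P) = 0 := by
      rw [← hP]
      exact (Polynomial.aeval_algHom_apply (Ideal.Quotient.mkₐ L (RingHom.ker ψ.toRingHom))
        (MvPolynomial.X l) P).symm
    rw [Ideal.Quotient.eq_zero_iff_mem] at h1
    have h2 : ψ (Polynomial.aeval (MvPolynomial.X l) P) = 0 := h1
    rw [← Polynomial.aeval_algHom_apply] at h2
    have h3 : ψ (MvPolynomial.X l) = Polynomial.C (X l) * Polynomial.X := aeval_X _ _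
    rw [h3] at h2
    have h4 : Polynomial.aeval (Polynomial.C (X l) * Polynomial.X : Polynomial L) P =
        P.comp (Polynomial.C (X l) * Polynomial.X) := by
      rw [Polynomial.comp, Polynomial.aeval_def]
      rfl
    rw [h4, Polynomial.comp_C_mul_X_eq_zero_iff] at h2
    · exact hP0 h2
    · exact mem_nonZeroDivisors_of_ne_zero hl

/-- Y3: commutative algebra over one field. -/
theorem Y_choose {K : Type u} [Field K] [Infinite K] {L : Type u} [Field L] [IsAlgClosed L]
    [Algebra K L] {n t : ℕ}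
    (I : Ideal (MvPolynomial (Fin n) L)) (hI : ∀ f ∈ I, ∀ k, homogeneousComponent k f ∈ I)
    (htr : ∀ p : Ideal (MvPolynomial (Fin n) L), p.IsPrime → I ≤ p →
      Algebra.trdeg L (MvPolynomial (Fin n) L ⧸ p) ≤ t) {ι : Type*}
    (G : Fin t → Finset ι) (φ : ι → MvPolynomial (Fin n) L) {d : ℕ}
    (hφ : ∀ i, ∀ g ∈ G i, (φ g).IsHomogeneous d)
    (hG : ∀ (i : Fin t) (p : Ideal (MvPolynomial (Fin n) L)), p.IsPrime → I ≤ p →
      (∀ g ∈ G i, φ g ∈ p) →
      Algebra.trdeg L (MvPolynomial (Fin n) L ⧸ p) + ((i + 1 : ℕ) : Cardinal) ≤ t) :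
    ∃ k : Fin t → ι → K, ∀ X : Fin n → L, (∀ f ∈ I, eval X f = 0) →
      (∀ i, eval X (∑ g ∈ G i, C (algebraMap K L (k i g)) * φ g) = 0) → X = 0 := by
  classical
  have halg : ∀ a : K, algebraMap K (MvPolynomial (Fin n) L) a = C (algebraMap K L a) := by
    intro a
    rfl
  -- the forms
  have step : ∀ i : ℕ, i ≤ t → ∃ k : Fin t → ι → K, ∀ p : Ideal (MvPolynomial (Fin n) L),
      p.IsPrime → I ≤ p → (∀ j : Fin t, (j : ℕ) < i →
        ∑ g ∈ G j, C (algebraMap K L (k j g)) * φ g ∈ p) →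
      Algebra.trdeg L (MvPolynomial (Fin n) L ⧸ p) + ((i : ℕ) : Cardinal) ≤ t := by
    intro i
    induction i with
    | zero =>
      intro _
      refine ⟨fun _ _ => 0, fun p hp hIp _ => ?_⟩
      rw [Nat.cast_zero, add_zero]
      exact htr p hp hIp
    | succ i ih =>
      intro hi
      obtain ⟨k, hk⟩ := ih (Nat.le_of_succ_le hi)
      let J : Ideal (MvPolynomial (Fin n) L) := I ⊔ Ideal.span (Set.range fun j : {j : Fin t // (j : ℕ) < i} =>
        ∑ g ∈ G j.1, C (algebraMap K L (k j.1 g)) * φ g)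
      have hJle : ∀ p : Ideal (MvPolynomial (Fin n) L), J ≤ p ↔ I ≤ p ∧ ∀ j : Fin t, (j : ℕ) < i →
          ∑ g ∈ G j, C (algebraMap K L (k j g)) * φ g ∈ p := by
        intro p
        rw [sup_le_iff, Ideal.span_le, Set.range_subset_iff]
        exact and_congr_right fun _ => ⟨fun h j hj => h ⟨j, hj⟩, fun h j => h j.1 j.2⟩
      let 𝔭 : Set (Ideal (MvPolynomial (Fin n) L)) := {p | p ∈ J.minimalPrimes ∧
        ¬ Algebra.trdeg L (MvPolynomial (Fin n) L ⧸ p) + ((i + 1 : ℕ) : Cardinal) ≤ t}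
      have hfin : 𝔭.Finite :=
        (Ideal.finite_minimalPrimes_of_isNoetherianRing _ J).subset fun p hp => hp.1
      have hav : ∀ p ∈ 𝔭, ∃ g ∈ G ⟨i, hi⟩, φ g ∉ p := by
        rintro p ⟨hp1, hp2⟩
        by_contra hcon
        push Not at hcon
        exact hp2 (hG ⟨i, hi⟩ p hp1.1.1 ((hJle p).mp hp1.1.2).1 hcon)
      obtain ⟨k', hk'⟩ := y2_avoid (K := K) (G ⟨i, hi⟩) φ 𝔭 hfin hav
      refine ⟨Function.update k ⟨i, hi⟩ k', fun p hp hIp hmem => ?_⟩
      have hold : ∀ j : Fin t, (j : ℕ) < i →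
          ∑ g ∈ G j, C (algebraMap K L (k j g)) * φ g ∈ p := by
        intro j hj
        have h1 := hmem j (hj.trans (Nat.lt_succ_self i))
        rwa [Function.update_of_ne (fun h => by rw [h] at hj; exact lt_irrefl _ hj)] at h1
      have hnew : ∑ g ∈ G ⟨i, hi⟩, C (algebraMap K L (k' g)) * φ g ∈ p := by
        have h1 := hmem ⟨i, hi⟩ (Nat.lt_succ_self i)
        rwa [Function.update_self] at h1
      obtain ⟨q, hq, hqp⟩ := Ideal.exists_minimalPrimes_le ((hJle p).mpr ⟨hIp, hold⟩)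
      have hqprime : q.IsPrime := hq.1.1
      by_cases hbig : Algebra.trdeg L (MvPolynomial (Fin n) L ⧸ q) + ((i + 1 : ℕ) : Cardinal) ≤ t
      · exact (add_le_add_left (y2_le hqp) _).trans hbig
      · have hne : q ≠ p := by
          intro h
          refine hk' q ⟨hq, hbig⟩ ?_
          rw [h]
          exact hnew
        have hlt : q < p := lt_of_le_of_ne hqp hne
        have h2 := y2_lt (L := L) hlt
        have h3 := hk q hqprime ((hJle q).mp hq.1.2).1 ((hJle q).mp hq.1.2).2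
        rw [Nat.cast_add, Nat.cast_one, add_comm ((i : ℕ) : Cardinal) 1, ← add_assoc]
        exact (add_le_add_left h2 _).trans h3
  obtain ⟨k, hk⟩ := step t le_rfl
  refine ⟨k, fun X hX hX' => ?_⟩
  by_contra hX0
  obtain ⟨p, hp, hJp, htp⟩ := y2_line hX0
    ((I : Set (MvPolynomial (Fin n) L)) ∪ Set.range fun i : Fin t =>
      ∑ g ∈ G i, C (algebraMap K L (k i g)) * φ g) (by
    rintro f (hf | ⟨i, rfl⟩) l
    · exact hX _ (hI f hf l)
    · have hhom : (∑ g ∈ G i, C (algebraMap K L (k i g)) * φ g).IsHomogeneous d := by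
        refine IsHomogeneous.sum _ _ _ fun g hg => ?_
        have h1 := (isHomogeneous_C (Fin n) (algebraMap K L (k i g))).mul (hφ i g hg)
        rwa [zero_add] at h1
      rw [homogeneousComponent_of_mem hhom]
      split_ifs
      · exact hX' i
      · exact map_zero _)
  have h1 := hk p hp (fun f hf => hJp f (Or.inl hf)) fun j _ => hJp _ (Or.inr ⟨j, rfl⟩)
  have hfinite : Algebra.trdeg L (MvPolynomial (Fin n) L ⧸ p) < Cardinal.aleph0 :=
    trdeg_lt_aleph0_of_finiteType
  obtain ⟨r, hr⟩ := Cardinal.lt_aleph0.mp hfinite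
  rw [hr] at h1 htp
  have h2 : r + t ≤ t := by exact_mod_cast h1
  apply htp
  rw [Nat.cast_eq_zero]
  omega

end

end Pool.Agent.Lib.MP_17a322_nt.EF
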