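import Pool.Agent.Lib.MP_17a322_nt.EF.Defs3
import Pool.Agent.Lib.MP_17a322_nt.EF.T2

/-!
No common zeros: transfer between generic points.
-/

universe u

namespace Pool.Agent.Lib.MP_17a322_nt.EF

open MvPolynomial Height
open Pool.Agent.Lib.MP_17a322_nt.VA
open Pool.Agent.Lib.MP_17a322_nt.SL

section

variable {K : Type u} [Field K] {N : ℕ} (A : AV K N) {n m s q : ℕ}

theorem Y3_eval {H : Fin m → MvPolynomial (Fin n) (MvPolynomial (Fin (N + 1)) K)}
    {L : Type u} [Field L] [Algebra K L] {P : A.Pts L} {X₀ : Fin n → L}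
    (hX : ∀ i, eval X₀ (sp A P (H i)) = 0) {f : MvPolynomial (Fin n) L} (hf : f ∈ fib A H P) :
    eval X₀ f = 0 := by
  have h1 : fib A H P ≤ RingHom.ker (eval X₀) := Ideal.span_le.2 (by
    rintro _ ⟨i, rfl⟩
    exact hX i)
  exact h1 hf

theorem Y3_sp_C (c : MvPolynomial (Fin (N + 1)) K) {L : Type u} [Field L] [Algebra K L]
    (P : A.Pts L) :
    sp A P (C c : MvPolynomial (Fin n) (MvPolynomial (Fin (N + 1)) K)) = C (aeval (A.x P) c) := by
  unfold sp
  rw [map_C]
  rfl

/-- It is enough to have no common zeros at one generic point. -/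
theorem Y_nocommon (H : Fin m → MvPolynomial (Fin n) (MvPolynomial (Fin (N + 1)) K))
    (hH : ∀ i, ∃ a b : ℕ, BH a b (H i)) {D d : ℕ}
    (Q : Fin s → MvPolynomial (Fin n) (MvPolynomial (Fin (N + 1)) K)) (hQ : ∀ j, BH D d (Q j))
    (T : Finset (Fin s)) {L : Type u} [Field L] [IsAlgClosed L] [Algebra K L] (P : A.Pts L)
    (hP : Gen A P) (h : ∀ X : Fin n → L, (∀ i, eval X (sp A P (H i)) = 0) →
      (∀ j ∈ T, eval X (sp A P (Q j)) = 0) → X = 0) : NoCommon A H Q T := by
  classical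
  obtain ⟨H', hH'⟩ : ∃ H' : Fin (m + s) →
      MvPolynomial (Fin n) (MvPolynomial (Fin (N + 1)) K),
      H' = Fin.append H (fun j => if j ∈ T then Q j else 0) := ⟨_, rfl⟩
  have hl : ∀ i, H' (Fin.castAdd s i) = H i := fun i => by rw [hH', Fin.append_left]
  have hr : ∀ j ∈ T, H' (Fin.natAdd m j) = Q j := fun j hj => by
    rw [hH', Fin.append_right, if_pos hj]
  have hBH : ∀ i, ∃ a b : ℕ, BH a b (H' i) := by
    intro i
    refine Fin.addCases (fun i => ?_) (fun j => ?_) i
    · rw [hl]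
      exact hH i
    · by_cases hj : j ∈ T
      · rw [hr j hj]
        exact ⟨D, d, hQ j⟩
      · rw [hH', Fin.append_right, if_neg hj]
        refine ⟨0, 0, isHomogeneous_zero _ _ _, fun μ => ?_⟩
        rw [coeff_zero]
        exact isHomogeneous_zero _ _ _
  have hz : ∀ (L : Type u) [Field L] [Algebra K L] (P : A.Pts L) (X₀ : Fin n → L),
      (∀ i, eval X₀ (sp A P (H' i)) = 0) ↔ (∀ i, eval X₀ (sp A P (H i)) = 0) ∧
        ∀ j ∈ T, eval X₀ (sp A P (Q j)) = 0 := by
    intro L _ _ P X₀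
    constructor
    · intro h1
      refine ⟨fun i => ?_, fun j hj => ?_⟩
      · rw [← hl]
        exact h1 _
      · rw [← hr j hj]
        exact h1 _
    · rintro ⟨h1, h2⟩ i
      refine Fin.addCases (fun i => ?_) (fun j => ?_) i
      · rw [hl]
        exact h1 i
      · by_cases hj : j ∈ T
        · rw [hr j hj]
          exact h2 j hj
        · rw [hH', Fin.append_right, if_neg hj]
          unfold sp
          rw [map_zero, map_zero]
  have hNS : ∀ l, ∃ M : ℕ, (X l : MvPolynomial (Fin n) L) ^ M ∈ fib A H' P := by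
    intro l
    have h1 : (X l : MvPolynomial (Fin n) L) ∈ vanishingIdeal L (zeroLocus L (fib A H' P)) := by
      intro x hx
      have h2 : x = 0 := by
        have h3 : ∀ i, eval x (sp A P (H' i)) = 0 := by
          intro i
          have h4 := hx (sp A P (H' i)) (Ideal.subset_span ⟨i, rfl⟩)
          exact h4
        rw [hz] at h3
        exact h x h3.1 h3.2
      rw [h2, aeval_X]
      rfl
    rw [vanishingIdeal_zeroLocus_eq_radical] at h1
    exact h1
  choose M hM using hNS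
  obtain ⟨M₀, hM₀⟩ : ∃ M₀ : ℕ, ∀ l, (X l : MvPolynomial (Fin n) L) ^ M₀ ∈ fib A H' P := by
    refine ⟨∑ l, M l, fun l => ?_⟩
    have h1 : M l ≤ ∑ l, M l :=
      Finset.single_le_sum (f := M) (fun _ _ => Nat.zero_le _) (Finset.mem_univ l)
    rw [← Nat.sub_add_cancel h1, pow_add]
    exact Ideal.mul_mem_left _ _ (hM l)
  obtain ⟨g', G', ⟨D', hD'⟩, hrow, -⟩ := T_rows A H' hBH M₀
  intro L' _ _ _ P' hP' X₀ hX0 hXT
  funext l
  have hhom : ∀ (R : Type u) [CommRing R], ((X l : MvPolynomial (Fin n) R) ^ M₀).IsHomogeneous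
      M₀ := by
    intro R _
    have h2 := (isHomogeneous_X R l).pow M₀
    rwa [one_mul] at h2
  have hcf : ∀ (L : Type u) [Field L] [Algebra K L] (P : A.Pts L),
      cf M₀ ((X l : MvPolynomial (Fin n) L) ^ M₀) = fun i => aeval (A.x P)
        (cf M₀ ((X l : MvPolynomial (Fin n) (MvPolynomial (Fin (N + 1)) K)) ^ M₀) i) := by
    intro L _ _ P
    funext i
    have h2 := cf_map (k := M₀) (aeval (A.x P)).toRingHom
      ((X l : MvPolynomial (Fin n) (MvPolynomial (Fin (N + 1)) K)) ^ M₀) i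
    rw [map_pow, MvPolynomial.map_X] at h2
    exact h2
  have hc0 : ∀ i, (cf M₀ ((X l : MvPolynomial (Fin n) (MvPolynomial (Fin (N + 1)) K)) ^ M₀)
      i).IsHomogeneous 0 := by
    intro i
    unfold cf
    rw [coeff_X_pow]
    split_ifs
    · exact isHomogeneous_one _ _
    · exact isHomogeneous_zero _ _ _
  have h2 : (X l : MvPolynomial (Fin n) L') ^ M₀ ∈ fib A H' P' := by
    rw [(hrow L' P' hP').2 _ (hhom L')]
    have h3 := ((hrow L P hP).2 _ (hhom L)).1 (hM₀ l)
    rw [hcf L P] at h3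
    rw [hcf L' P']
    exact T_span A (fun i l => G' i l) (fun _ => D') hD' _ 0 hc0 P P' hP hP' h3
  have h3 := Y3_eval A ((hz L' P' X₀).2 ⟨hX0, hXT⟩) h2
  rw [map_pow, eval_X] at h3
  exact eq_zero_of_pow_eq_zero h3

end

end Pool.Agent.Lib.MP_17a322_nt.EF
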