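import Pool.Agent.Lib.MP_17a322_nt.EF.Y2
import Pool.Agent.Lib.MP_17a322_nt.EF.Y3

/-!
The choice of hypersurfaces without common zeros.
-/

universe u

namespace Pool.Agent.Lib.MP_17a322_nt.EF

open MvPolynomial Height
open Pool.Agent.Lib.MP_17a322_nt.VA
open Pool.Agent.Lib.MP_17a322_nt.SL

section

variable {K : Type u} [Field K] {N : ℕ} (A : AV K N) {n m s q : ℕ}

theorem Y_pick [Infinite K]
    (H : Fin m → MvPolynomial (Fin n) (MvPolynomial (Fin (N + 1)) K))
    (hH : ∀ i, ∃ a b : ℕ, BH a b (H i)) {t D d : ℕ}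
    (hfib : ∀ (L : Type u) [Field L] [IsAlgClosed L] [Algebra K L] (P : A.Pts L), Gen A P →
      (fib A H P).IsPrime ∧ Algebra.trdeg L (MvPolynomial (Fin n) L ⧸ fib A H P) = t)
    (G : Fin t → Finset (MvPolynomial (Fin n) (MvPolynomial (Fin (N + 1)) K)))
    (hG : ∀ i, ∀ g ∈ G i, BH D d g) (hcod : ∀ i : Fin t, Codim A H t (G i) (i + 1)) :
    ∃ k : Fin t → MvPolynomial (Fin n) (MvPolynomial (Fin (N + 1)) K) → K,
      NoCommon A H (fun i => ∑ g ∈ G i, C (C (k i g)) * g) Finset.univ := by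
  classical
  obtain ⟨L, _, _, _, P, hP⟩ := T_gen A
  obtain ⟨hpr, htr⟩ := hfib L P hP
  have htr' : ∀ p : Ideal (MvPolynomial (Fin n) L), p.IsPrime → fib A H P ≤ p →
      Algebra.trdeg L (MvPolynomial (Fin n) L ⧸ p) ≤ t := by
    intro p _ hp
    rw [← htr]
    exact trdeg_le_of_surjective (Ideal.Quotient.factorₐ L hp) (Ideal.Quotient.factor_surjective hp)
  obtain ⟨k, hk⟩ := Y_choose (K := K) (fib A H P) (R1_fib A H hH P) htr' G (fun g => sp A P g)
    (d := d) (fun i g hg => (hG i g hg).1.map _) (fun i p hp hIp hgp => by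
      have h1 := hcod i L P hP p hp hIp hgp
      exact_mod_cast h1)
  refine ⟨k, ?_⟩
  refine Y_nocommon A H hH (D := D) (d := d) _ (fun i => ⟨?_, fun μ => ?_⟩) Finset.univ P hP
    fun X₀ hX0 hXT => hk X₀ (fun f hf => Y3_eval A hX0 hf) fun i => ?_
  · exact IsHomogeneous.sum _ _ _ fun g hg => (hG i g hg).1.C_mul _
  · rw [coeff_sum]
    refine IsHomogeneous.sum _ _ _ fun g hg => ?_
    rw [coeff_C_mul]
    exact ((hG i g hg).2 μ).C_mul _
  · rw [← hXT i (Finset.mem_univ i)]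
    congr 1
    unfold sp
    rw [map_sum]
    refine Finset.sum_congr rfl fun g _ => ?_
    rw [map_mul, map_C]
    congr 2
    show _ = aeval (A.x P) (C (k i g))
    rw [aeval_C]

end

end Pool.Agent.Lib.MP_17a322_nt.EF
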