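import Pool.Agent.Lib.MP_17a322_nt.EF.Defs3
import Pool.Agent.Lib.MP_17a322_nt.EF.T2
import Pool.Agent.Lib.MP_17a322_nt.EF.W1

/-!
Properties of `Codim`.
-/

universe u

namespace Pool.Agent.Lib.MP_17a322_nt.EF

open MvPolynomial Height
open Pool.Agent.Lib.MP_17a322_nt.VA
open Pool.Agent.Lib.MP_17a322_nt.SL

/-- A prime ideal that contains all the variables. -/
theorem Y4_trdeg {L : Type u} [Field L] {n : ℕ} (p : Ideal (MvPolynomial (Fin n) L))
    (hp : p.IsPrime) (h : ∀ l, (X l : MvPolynomial (Fin n) L) ∈ p) :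
    Algebra.trdeg L (MvPolynomial (Fin n) L ⧸ p) = 0 := by
  have h1 : ∀ f : MvPolynomial (Fin n) L, f - C (constantCoeff f) ∈ p := by
    intro f
    induction f using MvPolynomial.induction_on with
    | C a => simp
    | add f g hf hg =>
      have e : f + g - C (constantCoeff (f + g)) =
          (f - C (constantCoeff f)) + (g - C (constantCoeff g)) := by
        rw [map_add, C_add]; ring
      rw [e]
      exact p.add_mem hf hg
    | mul_X f l _ =>
      have e : f * X l - C (constantCoeff (f * X l)) = f * X l := by simp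
      rw [e]
      exact p.mul_mem_left _ (h l)
  have h2 : Function.Surjective (algebraMap L (MvPolynomial (Fin n) L ⧸ p)) := by
    intro z
    obtain ⟨f, rfl⟩ := Ideal.Quotient.mk_surjective z
    refine ⟨constantCoeff f, ?_⟩
    exact ((Ideal.Quotient.mk_eq_mk_iff_sub_mem f (C (constantCoeff f))).2 (h1 f)).symm
  have h3 : Algebra.IsAlgebraic L (MvPolynomial (Fin n) L ⧸ p) := by
    refine ⟨fun z => ?_⟩
    obtain ⟨a, rfl⟩ := h2 z
    exact isAlgebraic_algebraMap a
  exact trdeg_eq_zero_iff.2 h3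

section

variable {K : Type u} [Field K] {N : ℕ} (A : AV K N) {n m s q : ℕ}

theorem Y4_sp_hom {a b : ℕ} {g : MvPolynomial (Fin n) (MvPolynomial (Fin (N + 1)) K)}
    (hg : BH a b g) {L : Type u} [Field L] [Algebra K L] (P : A.Pts L) :
    (sp A P g).IsHomogeneous b := hg.1.map _

theorem Codim_mono (H : Fin m → MvPolynomial (Fin n) (MvPolynomial (Fin (N + 1)) K)) {t : ℕ}
    (G : Set (MvPolynomial (Fin n) (MvPolynomial (Fin (N + 1)) K))) {i i' : ℕ} (h : i' ≤ i)
    (hi : Codim A H t G i) : Codim A H t G i' := by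
  intro L _ _ _ P hP p hp hpf hpg
  have h1 := hi L P hP p hp hpf hpg
  have h2 : ((i' : ℕ) : Cardinal) ≤ (i : ℕ) := by exact_mod_cast h
  exact le_trans (add_le_add le_rfl h2) h1

/-- The ideal of the origin. -/
theorem Y4_origin (H : Fin m → MvPolynomial (Fin n) (MvPolynomial (Fin (N + 1)) K))
    (hH : ∀ i, ∃ a b : ℕ, BH a b (H i)) {L : Type u} [Field L] [Algebra K L] (P : A.Pts L)
    (hfib : (fib A H P).IsPrime) :
    fib A H P ≤ RingHom.ker (constantCoeff (R := L) (σ := Fin n)) := by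
  rw [fib, Ideal.span_le]
  rintro _ ⟨i, rfl⟩
  obtain ⟨a, b, hb⟩ := hH i
  have h1 := Y4_sp_hom A hb P
  rw [SetLike.mem_coe, RingHom.mem_ker]
  by_contra h0
  have h2 : (0 : ℕ) = b := by
    have h3 : coeff 0 (sp A P (H i)) ≠ 0 := h0
    have h4 := h1 h3
    simpa using h4
  subst h2
  have h5 : sp A P (H i) = C (constantCoeff (sp A P (H i))) := by
    have h6 := (totalDegree_zero_iff_isHomogeneous (p := sp A P (H i))).2 h1
    rw [totalDegree_eq_zero_iff_eq_C] at h6
    exact h6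
  apply hfib.ne_top
  rw [Ideal.eq_top_iff_one]
  have h7 : sp A P (H i) ∈ fib A H P := Ideal.subset_span ⟨i, rfl⟩
  have h8 := (fib A H P).mul_mem_left (C (constantCoeff (sp A P (H i)))⁻¹) h7
  rw [h5, constantCoeff_C, ← C_mul, inv_mul_cancel₀ h0, C_1] at h8
  exact h8

theorem Codim_le (H : Fin m → MvPolynomial (Fin n) (MvPolynomial (Fin (N + 1)) K))
    (hH : ∀ i, ∃ a b : ℕ, BH a b (H i)) {t D d : ℕ} (hd : 0 < d)
    (hfib : ∀ (L : Type u) [Field L] [IsAlgClosed L] [Algebra K L] (P : A.Pts L), Gen A P →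
      (fib A H P).IsPrime ∧ Algebra.trdeg L (MvPolynomial (Fin n) L ⧸ fib A H P) = t)
    (G : Set (MvPolynomial (Fin n) (MvPolynomial (Fin (N + 1)) K)))
    (hG : ∀ g ∈ G, BH D d g) {i : ℕ} (hi : Codim A H t G i) : i ≤ t := by
  obtain ⟨L, _, _, _, P, hP⟩ := T_gen A
  have hp : (RingHom.ker (constantCoeff (R := L) (σ := Fin n))).IsPrime :=
    RingHom.ker_isPrime _
  have h1 := hi L P hP _ hp (Y4_origin A H hH P (hfib L P hP).1) (by
    intro g hg
    rw [RingHom.mem_ker]
    have h2 := Y4_sp_hom A (hG g hg) P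
    by_contra h3
    have h4 := h2 (show coeff 0 (sp A P g) ≠ 0 from h3)
    simp only [map_zero] at h4
    omega)
  have h2 : (i : Cardinal) ≤ t := le_trans le_add_self h1
  exact_mod_cast h2

theorem Codim_empty (H : Fin m → MvPolynomial (Fin n) (MvPolynomial (Fin (N + 1)) K)) {t : ℕ}
    (hfib : ∀ (L : Type u) [Field L] [IsAlgClosed L] [Algebra K L] (P : A.Pts L), Gen A P →
      (fib A H P).IsPrime ∧ Algebra.trdeg L (MvPolynomial (Fin n) L ⧸ fib A H P) = t) {i : ℕ}
    (hi : 0 < i) : ¬ Codim A H t ∅ i := by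
  intro h
  obtain ⟨L, _, _, _, P, hP⟩ := T_gen A
  have h1 := h L P hP _ (hfib L P hP).1 le_rfl (fun g hg => absurd hg (Set.notMem_empty g))
  rw [(hfib L P hP).2] at h1
  have h2 : t + i ≤ t := by exact_mod_cast h1
  omega

theorem Y4_transfer (H : Fin m → MvPolynomial (Fin n) (MvPolynomial (Fin (N + 1)) K))
    (hH : ∀ i, ∃ a b : ℕ, BH a b (H i)) {D d : ℕ}
    {f : MvPolynomial (Fin n) (MvPolynomial (Fin (N + 1)) K)} (hf : BH D d f)
    {L L' : Type u} [Field L] [Algebra K L] [Field L'] [Algebra K L'] (P : A.Pts L)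
    (P' : A.Pts L') (hP : Gen A P) (hP' : Gen A P') (h : sp A P f ∈ fib A H P) :
    sp A P' f ∈ fib A H P' := by
  obtain ⟨g', G', ⟨D', hD'⟩, hG', -⟩ := T_rows A H hH d
  have e1 : ∀ {M : Type u} [Field M] [Algebra K M] (Q : A.Pts M),
      cf d (sp A Q f) = fun l => aeval (A.x Q) (cf d f l) := by
    intro M _ _ Q
    funext l
    exact cf_map _ _ _
  rw [(hG' L P hP).2 _ (Y4_sp_hom A hf P), e1] at h
  rw [(hG' L' P' hP').2 _ (Y4_sp_hom A hf P'), e1]
  exact T_span A G' (fun _ => D') hD' (cf d f) D (fun l => hf.2 _) P P' hP hP' h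

theorem Codim_exc (H : Fin m → MvPolynomial (Fin n) (MvPolynomial (Fin (N + 1)) K)) {t : ℕ}
    (hH : ∀ i, ∃ a b : ℕ, BH a b (H i))
    (hfib : ∀ (L : Type u) [Field L] [IsAlgClosed L] [Algebra K L] (P : A.Pts L), Gen A P →
      (fib A H P).IsPrime ∧ Algebra.trdeg L (MvPolynomial (Fin n) L ⧸ fib A H P) = t) {D d : ℕ}
    (f : Fin q → MvPolynomial (Fin n) (MvPolynomial (Fin (N + 1)) K))
    (hf : ∀ l, BH D d (f l)) {i : ℕ} (hi : 0 < i) (h : Codim A H t (Set.range f) i) :
    ∃ l, ExcF A H (f l) := by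
  obtain ⟨L, _, _, _, P, hP⟩ := T_gen A
  have h1 : ∃ l, sp A P (f l) ∉ fib A H P := by
    by_contra h2
    push Not at h2
    have h3 := h L P hP _ (hfib L P hP).1 le_rfl (by
      rintro _ ⟨l, rfl⟩
      exact h2 l)
    rw [(hfib L P hP).2] at h3
    have h4 : t + i ≤ t := by exact_mod_cast h3
    omega
  obtain ⟨l, hl⟩ := h1
  refine ⟨l, ⟨D, d, hf l⟩, ?_⟩
  intro L' _ _ _ P' hP' h5
  exact hl (Y4_transfer A H hH (hf l) P' P hP' hP h5)

/-- All the forms `x_b ^ D * X ^ μ`, `|μ| = d`. -/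
noncomputable def allF (K : Type u) [Field K] (N n D d : ℕ) :
    Finset (MvPolynomial (Fin n) (MvPolynomial (Fin (N + 1)) K)) :=
  Set.Finite.toFinset (s := Set.range fun w : Fin (N + 1) × Fin (Mo n d).card =>
    (C (X w.1 ^ D) * ∏ l, X l ^ mo n d w.2 l :
      MvPolynomial (Fin n) (MvPolynomial (Fin (N + 1)) K))) (Set.finite_range _)

theorem allF_BH (D d : ℕ) : ∀ g ∈ allF K N n D d, BH D d g := by
  intro g hg
  rw [allF, Set.Finite.mem_toFinset] at hg
  obtain ⟨w, rfl⟩ := hg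
  have h1 : BH D 0 (C (X w.1 ^ D) : MvPolynomial (Fin n) (MvPolynomial (Fin (N + 1)) K)) := by
    refine W_BH_C ?_
    have h2 := (isHomogeneous_X K w.1).pow D
    simpa using h2
  have h2 : BH 0 d (∏ l, X l ^ mo n d w.2 l :
      MvPolynomial (Fin n) (MvPolynomial (Fin (N + 1)) K)) := by
    have h3 := W_BH_prod (K := K) (N := N) (Finset.univ : Finset (Fin n))
      (fun l => mo n d w.2 l * 0) (fun l => mo n d w.2 l * 1)
      (fun l => (X l : MvPolynomial (Fin n) (MvPolynomial (Fin (N + 1)) K)) ^ mo n d w.2 l)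
      (fun l _ => W_BH_pow (W_BH_X l) _)
    simpa [mo_sum] using h3
  simpa using W_BH_mul h1 h2

theorem allF_codim (H : Fin m → MvPolynomial (Fin n) (MvPolynomial (Fin (N + 1)) K)) {t : ℕ}
    (D d : ℕ) : Codim A H t (allF K N n D d) t := by
  classical
  intro L _ _ _ P hP p hp hpf hpg
  obtain ⟨b, hb⟩ := A.exists_x_ne P
  have h1 : ∀ l, (X l : MvPolynomial (Fin n) L) ∈ p := by
    intro l
    obtain ⟨i, hi⟩ := mo_surj (n := n) (k := d) (m := Pi.single l d) (by simp)
    have h2 := hpg (C (X b ^ D) * ∏ l, X l ^ mo n d i l) (by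
      rw [Finset.mem_coe, allF, Set.Finite.mem_toFinset]
      exact ⟨(b, i), rfl⟩)
    have h3 : sp A P (C (X b ^ D) * ∏ l, X l ^ mo n d i l) =
        C (A.x P b ^ D) * X l ^ d := by
      rw [sp, map_mul, map_C, map_prod]
      simp only [map_pow, map_X, hi]
      congr 1
      · simp
      · rw [Finset.prod_eq_single l]
        · simp
        · intro l' _ hl'
          rw [Pi.single_eq_of_ne hl', pow_zero]
        · simp
    rw [h3] at h2
    rcases hp.mem_or_mem h2 with h4 | h4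
    · exfalso
      apply hp.ne_top
      rw [Ideal.eq_top_iff_one]
      have h5 := p.mul_mem_left (C (A.x P b ^ D)⁻¹) h4
      rwa [← C_mul, inv_mul_cancel₀ (pow_ne_zero _ hb), C_1] at h5
    · exact hp.mem_of_pow_mem _ h4
  rw [Y4_trdeg p hp h1, zero_add]

end

end Pool.Agent.Lib.MP_17a322_nt.EF
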