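import Pool.Agent.Lib.MP_17a322_nt.EF.R4
import Pool.Agent.Lib.MP_17a322_nt.EF.W4
import Pool.Agent.Lib.MP_17a322_nt.EF.Y0
import Pool.Agent.Lib.MP_17a322_nt.EF.Y3b
import Pool.Agent.Lib.MP_17a322_nt.EF.Y4

/-!
Closed subschemes with weights: local inequalities.
-/

universe u

namespace Pool.Agent.Lib.MP_17a322_nt.EF

open MvPolynomial Height
open Pool.Agent.Lib.MP_17a322_nt.VA
open Pool.Agent.Lib.MP_17a322_nt.SL

section

variable {K : Type u} [Field K] {N n m s q : ℕ}

theorem BH_add {D d : ℕ} {F G : MvPolynomial (Fin n) (MvPolynomial (Fin (N + 1)) K)}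
    (hF : BH D d F) (hG : BH D d G) : BH D d (F + G) :=
  ⟨hF.1.add hG.1, fun μ => by rw [coeff_add]; exact (hF.2 μ).add (hG.2 μ)⟩

theorem BH_Cmul {D d : ℕ} {F : MvPolynomial (Fin n) (MvPolynomial (Fin (N + 1)) K)}
    (hF : BH D d F) (k : K) : BH D d (C (C k) * F) := by
  constructor
  · have h1 := (isHomogeneous_C (Fin n) (C k : MvPolynomial (Fin (N + 1)) K)).mul hF.1
    rw [zero_add] at h1
    exact h1
  · intro μ
    rw [coeff_C_mul]
    have h1 := (isHomogeneous_C (Fin (N + 1)) k).mul (hF.2 μ)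
    rw [zero_add] at h1
    exact h1

theorem BH_sum {ι : Type*} (T : Finset ι) {D d : ℕ}
    (F : ι → MvPolynomial (Fin n) (MvPolynomial (Fin (N + 1)) K))
    (hF : ∀ i ∈ T, BH D d (F i)) : BH D d (∑ i ∈ T, F i) := by
  classical
  induction T using Finset.induction_on with
  | empty => rw [Finset.sum_empty]; exact BH_zero D d
  | insert a T ha ih =>
    rw [Finset.sum_insert ha]
    exact BH_add (hF a (Finset.mem_insert_self _ _))
      (ih fun i hi => hF i (Finset.mem_insert_of_mem hi))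

open Classical in
/-- The equations of the closed subset with the index `o`. -/
noncomputable def eqs (D d : ℕ)
    (f : Fin s → Fin q → MvPolynomial (Fin n) (MvPolynomial (Fin (N + 1)) K))
    (o : Option (Finset (Fin s))) :
    Finset (MvPolynomial (Fin n) (MvPolynomial (Fin (N + 1)) K)) :=
  o.elim (allF K N n D d) fun U => (U ×ˢ Finset.univ).image fun w => f w.1 w.2

theorem mem_eqs {D d : ℕ}
    {f : Fin s → Fin q → MvPolynomial (Fin n) (MvPolynomial (Fin (N + 1)) K)}
    {U : Finset (Fin s)} {g : MvPolynomial (Fin n) (MvPolynomial (Fin (N + 1)) K)} :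
    g ∈ eqs D d f (some U) ↔ ∃ j ∈ U, ∃ l, g = f j l := by
  classical
  unfold eqs
  simp only [Option.elim_some, Finset.mem_image, Finset.mem_product, Finset.mem_univ, and_true,
    Prod.exists]
  constructor
  · rintro ⟨j, l, hj, rfl⟩
    exact ⟨j, hj, l, rfl⟩
  · rintro ⟨j, hj, l, rfl⟩
    exact ⟨j, l, hj, rfl⟩

theorem eqs_BH {D d : ℕ}
    {f : Fin s → Fin q → MvPolynomial (Fin n) (MvPolynomial (Fin (N + 1)) K)}
    (hf : ∀ j l, BH D d (f j l)) (o : Option (Finset (Fin s))) :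
    ∀ g ∈ eqs D d f o, BH D d g := by
  intro g hg
  rcases o with _ | U
  · exact allF_BH D d g hg
  · obtain ⟨j, _, l, rfl⟩ := mem_eqs.1 hg
    exact hf j l

variable (A : AV K N)

theorem eqs_codim (H : Fin m → MvPolynomial (Fin n) (MvPolynomial (Fin (N + 1)) K)) {t D d : ℕ}
    (f : Fin s → Fin q → MvPolynomial (Fin n) (MvPolynomial (Fin (N + 1)) K))
    (o : Option (Finset (Fin s))) {i : ℕ} (hi : i ≤ t)
    (ho : ∀ U, o = some U → Codim A H t (cut f U) i) :
    Codim A H t (eqs D d f o) i := by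
  rcases o with _ | U
  · exact Codim_mono A H _ hi (allF_codim A H D d)
  · have h1 : ((eqs D d f (some U) : Finset _) : Set _) = cut f U := by
      ext g
      rw [Finset.mem_coe, mem_eqs]
      rfl
    rw [h1]
    exact ho U rfl

/-- The hypersurfaces for a tuple. -/
theorem exists_Pf [Infinite K]
    (H : Fin m → MvPolynomial (Fin n) (MvPolynomial (Fin (N + 1)) K))
    (hH : ∀ i, ∃ a b : ℕ, BH a b (H i)) {t D d : ℕ}
    (hfib : ∀ (L : Type u) [Field L] [IsAlgClosed L] [Algebra K L] (P : A.Pts L), Gen A P →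
      (fib A H P).IsPrime ∧ Algebra.trdeg L (MvPolynomial (Fin n) L ⧸ fib A H P) = t)
    (f : Fin s → Fin q → MvPolynomial (Fin n) (MvPolynomial (Fin (N + 1)) K))
    (hf : ∀ j l, BH D d (f j l)) :
    ∃ (Pf : (Fin t → Option (Finset (Fin s))) → Fin t →
        MvPolynomial (Fin n) (MvPolynomial (Fin (N + 1)) K)),
      (∀ V i, BH D d (Pf V i)) ∧
      (∀ V i, ∃ k : MvPolynomial (Fin n) (MvPolynomial (Fin (N + 1)) K) → K,
        Pf V i = ∑ g ∈ eqs D d f (V i), C (C (k g)) * g) ∧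
      ∀ V : Fin t → Option (Finset (Fin s)),
        (∀ (i : Fin t) (U : Finset (Fin s)), V i = some U → Codim A H t (cut f U) (i + 1)) →
        NoCommon A H (Pf V) Finset.univ := by
  have key : ∀ V : Fin t → Option (Finset (Fin s)),
      ∃ k : Fin t → MvPolynomial (Fin n) (MvPolynomial (Fin (N + 1)) K) → K,
      (∀ (i : Fin t) (U : Finset (Fin s)), V i = some U → Codim A H t (cut f U) (i + 1)) →
      NoCommon A H (fun i => ∑ g ∈ eqs D d f (V i), C (C (k i g)) * g) Finset.univ := by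
    intro V
    by_cases hV : ∀ (i : Fin t) (U : Finset (Fin s)), V i = some U →
        Codim A H t (cut f U) (i + 1)
    · obtain ⟨k, hk⟩ := Y_pick A H hH hfib (fun i => eqs D d f (V i))
        (fun i => eqs_BH hf (V i)) fun i => eqs_codim A H f (V i) i.2 (hV i)
      exact ⟨k, fun _ => hk⟩
    · exact ⟨0, fun h => absurd h hV⟩
  choose k hk using key
  refine ⟨fun V i => ∑ g ∈ eqs D d f (V i), C (C (k V i g)) * g, fun V i => ?_, fun V i => ?_,
    hk⟩
  · exact BH_sum _ _ fun g hg => BH_Cmul (eqs_BH hf (V i) g hg) _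
  · exact ⟨k V i, rfl⟩

/-- The local height of a linear combination of forms. -/
theorem lamQ_comb (v : AbsoluteValue K ℝ) {D d : ℕ}
    (T : Finset (MvPolynomial (Fin n) (MvPolynomial (Fin (N + 1)) K)))
    (k : MvPolynomial (Fin n) (MvPolynomial (Fin (N + 1)) K) → K) :
    ∃ C : ℝ, 0 ≤ C ∧ ∀ (P : A.Pts K) (X : Fin n → K),
      eval X (sp A P (∑ g ∈ T, MvPolynomial.C (MvPolynomial.C (k g)) * g)) ≠ 0 →
      ∃ g ∈ T, eval X (sp A P g) ≠ 0 ∧ lamQ A v D d g P X - C ≤
        lamQ A v D d (∑ g ∈ T, MvPolynomial.C (MvPolynomial.C (k g)) * g) P X := by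
  classical
  have hM0 : 0 ≤ ∑ g ∈ T, v (k g) := Finset.sum_nonneg fun g _ => v.nonneg _
  refine ⟨Real.log (∑ g ∈ T, v (k g) + 1), Real.log_nonneg (by linarith),
    fun P X h0 => ?_⟩
  have h1 : eval X (sp A P (∑ g ∈ T, MvPolynomial.C (MvPolynomial.C (k g)) * g)) =
      ∑ g ∈ T, k g * eval X (sp A P g) := by
    unfold sp
    rw [map_sum, map_sum]
    refine Finset.sum_congr rfl fun g _ => ?_
    rw [map_mul, map_mul, map_C, eval_C]
    refine congrArg₂ _ ?_ rfl
    simp
  have hT : T.Nonempty := by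
    by_contra h
    rw [Finset.not_nonempty_iff_eq_empty] at h
    rw [h1, h, Finset.sum_empty] at h0
    exact h0 rfl
  obtain ⟨g, hg, hmax⟩ := Finset.exists_max_image T (fun g => v (eval X (sp A P g))) hT
  have h2 : v (∑ g ∈ T, k g * eval X (sp A P g)) ≤
      (∑ g ∈ T, v (k g) + 1) * v (eval X (sp A P g)) := by
    refine (v.sum_le _ _).trans ?_
    have h3 : ∑ g' ∈ T, v (k g' * eval X (sp A P g')) ≤
        ∑ g' ∈ T, v (k g') * v (eval X (sp A P g)) := by
      refine Finset.sum_le_sum fun g' hg' => ?_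
      rw [map_mul]
      exact mul_le_mul_of_nonneg_left (hmax g' hg') (v.nonneg _)
    rw [← Finset.sum_mul] at h3
    refine h3.trans ?_
    exact mul_le_mul_of_nonneg_right (by linarith) (v.nonneg _)
  have h4 : 0 < v (∑ g ∈ T, k g * eval X (sp A P g)) := v.pos (by rw [← h1]; exact h0)
  have h5 : 0 < v (eval X (sp A P g)) := by
    by_contra h
    have h6 : v (eval X (sp A P g)) = 0 := le_antisymm (not_lt.1 h) (v.nonneg _)
    rw [h6, mul_zero] at h2
    linarith
  refine ⟨g, hg, fun h => by rw [h, map_zero] at h5; exact lt_irrefl _ h5, ?_⟩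
  unfold lamQ
  rw [h1]
  have h7 := Real.log_le_log h4 h2
  rw [Real.log_mul (by linarith) h5.ne'] at h7
  linarith

theorem lamY_le (v : AbsoluteValue K ℝ) {D d : ℕ}
    (f : Fin q → MvPolynomial (Fin n) (MvPolynomial (Fin (N + 1)) K)) (P : A.Pts K)
    (X : Fin n → K) (l : Fin q) (h : eval X (sp A P (f l)) ≠ 0) :
    lamY A v D d f P X ≤ lamQ A v D d (f l) P X := by
  unfold lamY lamQ
  have h1 : v (eval X (sp A P (f l))) ≤ ⨆ l, v (eval X (sp A P (f l))) :=
    le_ciSup (f := fun l => v (eval X (sp A P (f l)))) (Set.finite_range _).bddAbove l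
  have h2 := Real.log_le_log (v.pos h) h1
  linarith

/-- If the closed subsets have no common point on the generic fibre, then they cannot all be close
to `X`. -/
theorem Y_low (H : Fin m → MvPolynomial (Fin n) (MvPolynomial (Fin (N + 1)) K))
    (hH : ∀ i, ∃ a b : ℕ, BH a b (H i)) {t D d : ℕ} (ht : 0 < t) (hd : 0 < d)
    (f : Fin s → Fin q → MvPolynomial (Fin n) (MvPolynomial (Fin (N + 1)) K))
    (hf : ∀ j l, BH D d (f j l))
    (hfib : ∀ (L : Type u) [Field L] [IsAlgClosed L] [Algebra K L] (P : A.Pts L), Gen A P →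
      (fib A H P).IsPrime ∧ Algebra.trdeg L (MvPolynomial (Fin n) L ⧸ fib A H P) = t)
    (U : Finset (Fin s)) (hU : Codim A H t (cut f U) t) :
    ∃ (R : MvPolynomial (Fin (N + 1)) K) (ρ : ℕ), R.IsHomogeneous ρ ∧ R ∉ A.I ∧
      ∀ v : AbsoluteValue K ℝ, ∃ C : ℝ, 0 ≤ C ∧ ∀ (P : A.Pts K) (X : Fin n → K), X ≠ 0 →
        (∀ i, eval X (sp A P (H i)) = 0) → aeval (A.x P) R ≠ 0 →
        ∃ j ∈ U, lamY A v D d (f j) P X ≤ ρ * Real.log (⨆ i, v (A.x P i)) -
              Real.log (v (aeval (A.x P) R)) + C := by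
  classical
  obtain ⟨e⟩ : Nonempty (Fin s × Fin q ≃ Fin (Fintype.card (Fin s × Fin q))) :=
    ⟨Fintype.equivFin _⟩
  obtain ⟨Q, hQd⟩ : ∃ Q : Fin (Fintype.card (Fin s × Fin q)) →
      MvPolynomial (Fin n) (MvPolynomial (Fin (N + 1)) K),
      Q = fun i => f (e.symm i).1 (e.symm i).2 := ⟨_, rfl⟩
  have hQ : ∀ i, BH D d (Q i) := fun i => by rw [hQd]; exact hf _ _
  obtain ⟨T, hT⟩ : ∃ T : Finset (Fin (Fintype.card (Fin s × Fin q))),
      T = Finset.univ.filter fun i => (e.symm i).1 ∈ U := ⟨_, rfl⟩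
  have hNC : NoCommon A H Q T := by
    intro L _ _ _ P hP X hX hXQ
    by_contra hX0
    obtain ⟨p, hp, htr, hall⟩ := line_prime hX0
    have h1 : fib A H P ≤ p := by
      unfold fib
      rw [Ideal.span_le]
      rintro _ ⟨i, rfl⟩
      obtain ⟨a, b, hab⟩ := hH i
      exact hall b _ (hab.sp P) (hX i)
    have h2 := hU L P hP p hp h1 (by
      rintro _ ⟨j, hj, l, rfl⟩
      refine hall d _ ((hf j l).sp P) ?_
      have h3 := hXQ (e (j, l)) (by
        rw [hT, Finset.mem_filter]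
        refine ⟨Finset.mem_univ _, ?_⟩
        rw [Equiv.symm_apply_apply]
        exact hj)
      rw [hQd] at h3
      simp only [Equiv.symm_apply_apply] at h3
      exact h3)
    rw [htr] at h2
    have h3 : ((1 + t : ℕ) : Cardinal.{u}) ≤ (t : ℕ) := by
      push_cast
      exact h2
    rw [Nat.cast_le] at h3
    omega
  have hT0 : T.Nonempty := by
    by_contra h
    rw [Finset.not_nonempty_iff_eq_empty] at h
    obtain ⟨L, _, _, _, P, hP⟩ := T_gen A
    have := (hfib L P hP).1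
    obtain ⟨l, hl⟩ := exists_X_notMem (fib A H P) ht (hfib L P hP).2
    have h1 : Codim A H t (cut f U) t := hU
    have h2 := h1 L P hP (fib A H P) (hfib L P hP).1 le_rfl (by
      rintro _ ⟨j, hj, l, rfl⟩
      have h3 : e (j, l) ∈ T := by
        rw [hT, Finset.mem_filter]
        refine ⟨Finset.mem_univ _, ?_⟩
        rw [Equiv.symm_apply_apply]
        exact hj
      rw [h] at h3
      exact absurd h3 (Finset.notMem_empty _))
    rw [(hfib L P hP).2] at h2
    have h3 : ((t + t : ℕ) : Cardinal.{u}) ≤ (t : ℕ) := by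
      push_cast
      exact h2
    rw [Nat.cast_le] at h3
    omega
  obtain ⟨R, ρ, hR, hR0, hlow⟩ := R_low A H hH hd Q hQ T hNC hT0
  refine ⟨R, ρ, hR, hR0, fun v => ?_⟩
  obtain ⟨C, hC, h1⟩ := hlow v
  refine ⟨|Real.log C|, abs_nonneg _, fun P X hX hXH hRP => ?_⟩
  obtain ⟨i, hi, h2⟩ := h1 P X hX hXH
  rw [hT, Finset.mem_filter] at hi
  have hx0 : 0 < ⨆ i, v (A.x P i) := by
    obtain ⟨a, ha⟩ := x_ne' A P
    exact lt_of_lt_of_le (v.pos ha) (le_ciSup (f := fun i => v (A.x P i))
      (Set.finite_range _).bddAbove a)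
  have hX0 : 0 < ⨆ l, v (X l) := by
    obtain ⟨a, ha⟩ := Function.ne_iff.1 hX
    exact lt_of_lt_of_le (v.pos ha) (le_ciSup (f := fun i => v (X i))
      (Set.finite_range _).bddAbove a)
  have hr : 0 < v (aeval (A.x P) R) := v.pos hRP
  have hq : 0 < v (eval X (sp A P (Q i))) := by
    by_contra h
    have h6 : v (eval X (sp A P (Q i))) = 0 := le_antisymm (not_lt.1 h) (v.nonneg _)
    rw [h6, mul_zero] at h2
    have : 0 < (⨆ l, v (X l)) ^ d * (⨆ i, v (A.x P i)) ^ D * v (aeval (A.x P) R) := by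
      positivity
    linarith
  refine ⟨(e.symm i).1, hi.2, (lamY_le A v (f (e.symm i).1) P X (e.symm i).2 ?_).trans ?_⟩
  · intro h
    rw [hQd] at hq
    simp only [h, map_zero, lt_irrefl] at hq
  · have h3 := Real.log_le_log (by positivity) h2
    rw [Real.log_mul (by positivity) hr.ne', Real.log_mul (by positivity) (by positivity),
      Real.log_mul (mul_pos hC (by positivity)).ne' hq.ne',
      Real.log_mul hC.ne' (by positivity), Real.log_pow, Real.log_pow,
      Real.log_pow] at h3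
    have h4 := le_abs_self (Real.log C)
    unfold lamQ
    rw [hQd] at h3
    simp only at h3
    linarith

end

end Pool.Agent.Lib.MP_17a322_nt.EF
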