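import Pool.Agent.Lib.MP_17a322_nt.EF.W6
import Pool.Agent.Lib.MP_17a322_nt.EF.Y1
import Pool.Agent.Lib.MP_17a322_nt.EF.Y5

/-!
Closed subschemes with weights: the theorem for equal bidegrees.
-/

universe u

namespace Pool.Agent.Lib.MP_17a322_nt.EF

open MvPolynomial Height
open Pool.Agent.Lib.MP_17a322_nt.VA
open Pool.Agent.Lib.MP_17a322_nt.SL

section

variable {K : Type u} [Field K] {N n m s q : ℕ} (A : AV K N)

theorem cut_empty (f : Fin s → Fin q → MvPolynomial (Fin n) (MvPolynomial (Fin (N + 1)) K)) :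
    cut f ∅ = ∅ := by
  ext g
  unfold cut
  simp

theorem cut_BH {D d : ℕ}
    {f : Fin s → Fin q → MvPolynomial (Fin n) (MvPolynomial (Fin (N + 1)) K)}
    (hf : ∀ j l, BH D d (f j l)) (U : Finset (Fin s)) : ∀ g ∈ cut f U, BH D d g := by
  rintro _ ⟨j, _, l, rfl⟩
  exact hf j l

/-- The local inequality at one place. -/
theorem Y_loc (v : AbsoluteValue K ℝ)
    (H : Fin m → MvPolynomial (Fin n) (MvPolynomial (Fin (N + 1)) K))
    (hH : ∀ i, ∃ a b : ℕ, BH a b (H i)) {t D d : ℕ} (hd : 0 < d)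
    (hfib : ∀ (L : Type u) [Field L] [IsAlgClosed L] [Algebra K L] (P : A.Pts L), Gen A P →
      (fib A H P).IsPrime ∧ Algebra.trdeg L (MvPolynomial (Fin n) L ⧸ fib A H P) = t)
    (f : Fin s → Fin q → MvPolynomial (Fin n) (MvPolynomial (Fin (N + 1)) K))
    (hf : ∀ j l, BH D d (f j l))
    (Pf : (Fin t → Option (Finset (Fin s))) → Fin t →
        MvPolynomial (Fin n) (MvPolynomial (Fin (N + 1)) K))
    (hPf : ∀ V i, BH D d (Pf V i))
    (hPk : ∀ V i, ∃ k : MvPolynomial (Fin n) (MvPolynomial (Fin (N + 1)) K) → K,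
        Pf V i = ∑ g ∈ eqs D d f (V i), C (C (k g)) * g)
    (Ω : Finset (Finset (Fin s))) (hΩ : ∀ U, U ∈ Ω ↔ Codim A H t (cut f U) t)
    (R : Finset (Fin s) → MvPolynomial (Fin (N + 1)) K)
    (ρ : Finset (Fin s) → ℕ) (hR : ∀ U ∈ Ω, (R U).IsHomogeneous (ρ U))
    (hlow : ∀ U ∈ Ω, ∃ C : ℝ, 0 ≤ C ∧ ∀ (P : A.Pts K) (X : Fin n → K), X ≠ 0 →
        (∀ i, eval X (sp A P (H i)) = 0) → aeval (A.x P) (R U) ≠ 0 →
        ∃ j ∈ U, lamY A v D d (f j) P X ≤ ρ U * Real.log (⨆ i, v (A.x P i)) -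
              Real.log (v (aeval (A.x P) (R U))) + C)
    (c : Fin s → ℝ) (hc0 : ∀ j, 0 ≤ c j)
    (hc : ∀ U, Codim A H t (cut f U) t ∨
      ∃ i : ℕ, Codim A H t (cut f U) i ∧ ∑ j ∈ U, c j ≤ i) :
    ∃ C : ℝ, 0 ≤ C ∧ ∀ (P : A.Pts K) (X : Fin n → K), X ≠ 0 →
      (∀ i, eval X (sp A P (H i)) = 0) → (∀ U ∈ Ω, aeval (A.x P) (R U) ≠ 0) →
      0 ≤ (∑ U ∈ Ω, (ρ U * Real.log (⨆ i, v (A.x P i)) -
              Real.log (v (aeval (A.x P) (R U))))) + C ∧
      ∃ V : Fin t → Option (Finset (Fin s)),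
        (∀ (i : Fin t) (U : Finset (Fin s)), V i = some U → Codim A H t (cut f U) (i + 1)) ∧
        ((∀ i, eval X (sp A P (Pf V i)) ≠ 0) →
          ∑ j, c j * lamY A v D d (f j) P X ≤ ∑ i, lamQ A v D d (Pf V i) P X +
            (∑ j, c j) * ((∑ U ∈ Ω, (ρ U * Real.log (⨆ i, v (A.x P i)) -
              Real.log (v (aeval (A.x P) (R U))))) + C) + C) := by
  classical
  have k2 : ∀ T, ∃ C : ℝ, 0 ≤ C ∧ (T ∈ Ω → ∀ (P : A.Pts K) (X : Fin n → K), X ≠ 0 →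
      aeval (A.x P) (R T) ≠ 0 → - C ≤ ρ T * Real.log (⨆ i, v (A.x P i)) -
              Real.log (v (aeval (A.x P) (R T)))) := by
    intro T
    by_cases hT : T ∈ Ω
    · obtain ⟨C, hC, h⟩ := lamQ_ge A (BH_C (n := n) (hR T hT)) v
      refine ⟨C, hC, fun _ P X hX h0 => ?_⟩
      have h2 := h P X hX (by rw [sp_C, eval_C]; exact h0)
      unfold lamQ at h2
      rw [sp_C, eval_C, Nat.cast_zero, zero_mul, zero_add] at h2
      exact h2
    · exact ⟨0, le_rfl, fun h => absurd h hT⟩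
  choose c2 hc2 hc2' using k2
  have k3 : ∀ T, ∃ C : ℝ, 0 ≤ C ∧ (T ∈ Ω → ∀ (P : A.Pts K) (X : Fin n → K), X ≠ 0 →
      (∀ i, eval X (sp A P (H i)) = 0) → aeval (A.x P) (R T) ≠ 0 →
        ∃ j ∈ T, lamY A v D d (f j) P X ≤ ρ T * Real.log (⨆ i, v (A.x P i)) -
              Real.log (v (aeval (A.x P) (R T))) + C) := by
    intro T
    by_cases hT : T ∈ Ω
    · obtain ⟨C, hC, h⟩ := hlow T hT
      exact ⟨C, hC, fun _ => h⟩
    · exact ⟨0, le_rfl, fun h => absurd h hT⟩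
  choose c3 hc3 hc3' using k3
  have k4 : ∀ V i, ∃ C : ℝ, 0 ≤ C ∧ ∀ (P : A.Pts K) (X : Fin n → K),
      eval X (sp A P (Pf V i)) ≠ 0 →
      ∃ g ∈ eqs D d f (V i), eval X (sp A P g) ≠ 0 ∧ lamQ A v D d g P X - C ≤
        lamQ A v D d (Pf V i) P X := by
    intro V i
    obtain ⟨k, hk⟩ := hPk V i
    rw [hk]
    exact lamQ_comb A v (eqs D d f (V i)) k
  choose c4 hc4 hc4' using k4
  have k5 : ∀ V i, ∃ C : ℝ, 0 ≤ C ∧ ∀ (P : A.Pts K) (X : Fin n → K), X ≠ 0 →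
      eval X (sp A P (Pf V i)) ≠ 0 → - C ≤ lamQ A v D d (Pf V i) P X :=
    fun V i => lamQ_ge A (hPf V i) v
  choose c5 hc5 hc5' using k5
  have e2 : 0 ≤ ∑ T ∈ Ω, (c2 T + c3 T) :=
    Finset.sum_nonneg fun T _ => add_nonneg (hc2 T) (hc3 T)
  have e4 : 0 ≤ ∑ V : Fin t → Option (Finset (Fin s)), ∑ i, (c4 V i + c5 V i) :=
    Finset.sum_nonneg fun V _ => Finset.sum_nonneg fun i _ => add_nonneg (hc4 V i) (hc5 V i)
  obtain ⟨C, hC⟩ : ∃ C, C = ∑ T ∈ Ω, (c2 T + c3 T) +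
    ∑ V : Fin t → Option (Finset (Fin s)), ∑ i, (c4 V i + c5 V i) := ⟨_, rfl⟩
  refine ⟨C, by rw [hC]; positivity, fun P X hX hXH hRP => ?_⟩
  obtain ⟨Y, hY⟩ : ∃ Y, Y = ∑ T' ∈ Ω, (ρ T' * Real.log (⨆ i, v (A.x P i)) -
              Real.log (v (aeval (A.x P) (R T')))) := ⟨_, rfl⟩
  rw [← hY]
  have hY1 : ∀ T' ∈ Ω, (ρ T' * Real.log (⨆ i, v (A.x P i)) -
              Real.log (v (aeval (A.x P) (R T')))) + c3 T' ≤ Y + ∑ T ∈ Ω, (c2 T + c3 T) := by
    intro T' hT'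
    have h1 : (ρ T' * Real.log (⨆ i, v (A.x P i)) -
        Real.log (v (aeval (A.x P) (R T')))) + c2 T' ≤
        ∑ T' ∈ Ω, ((ρ T' * Real.log (⨆ i, v (A.x P i)) -
              Real.log (v (aeval (A.x P) (R T')))) + c2 T') :=
      Finset.single_le_sum (f := fun T' => (ρ T' * Real.log (⨆ i, v (A.x P i)) -
        Real.log (v (aeval (A.x P) (R T')))) + c2 T')
        (fun T'' hT'' => by
          have := hc2' T'' hT'' P X hX (hRP T'' hT'')
          linarith) hT'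
    rw [Finset.sum_add_distrib, ← hY] at h1
    have h2 : c3 T' ≤ ∑ T ∈ Ω, c3 T :=
      Finset.single_le_sum (f := c3) (fun T _ => hc3 T) hT'
    have h3 := hc2 T'
    rw [Finset.sum_add_distrib]
    linarith
  have hY0 : 0 ≤ Y + ∑ T ∈ Ω, (c2 T + c3 T) := by
    have h2 : 0 ≤ ∑ T' ∈ Ω, ((ρ T' * Real.log (⨆ i, v (A.x P i)) -
              Real.log (v (aeval (A.x P) (R T')))) + c2 T') :=
      Finset.sum_nonneg fun T'' hT'' => by
          have := hc2' T'' hT'' P X hX (hRP T'' hT'')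
          linarith
    have h3 : 0 ≤ ∑ T ∈ Ω, c3 T := Finset.sum_nonneg fun T _ => hc3 T
    rw [Finset.sum_add_distrib, ← hY] at h2
    rw [Finset.sum_add_distrib]
    linarith
  refine ⟨by rw [hC]; linarith, ?_⟩
  obtain ⟨V, y, hV, hy, hsum⟩ := Y_tup (t := t) (fun U i => Codim A H t (cut f U) i)
    (fun i hi h => Codim_empty A H hfib hi (by rw [cut_empty] at h; exact h))
    (fun U i i' hi h => Codim_mono A H _ hi h)
    (fun U i h => Codim_le A H hH hd hfib _ (cut_BH hf U) h) c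
    (fun j => lamY A v D d (f j) P X) hc0 hc (Y + ∑ T ∈ Ω, (c2 T + c3 T)) hY0
    (fun U hU => by
      have hU' := (hΩ U).2 hU
      obtain ⟨j, hj, h⟩ := hc3' U hU' P X hX hXH (hRP U hU')
      exact ⟨j, hj, h.trans (hY1 U hU')⟩)
  refine ⟨V, hV, fun hne => ?_⟩
  have h1 : ∀ i, max (y i) 0 ≤ lamQ A v D d (Pf V i) P X + (c4 V i + c5 V i) := by
    intro i
    have h5 := hc5' V i P X hX (hne i)
    have h4 := hc4 V i
    refine max_le ?_ (by linarith)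
    rcases hy i with ⟨_, h⟩ | ⟨U, hU, h⟩
    · rw [h]
      linarith
    · obtain ⟨g, hg, hg0, h6⟩ := hc4' V i P X (hne i)
      rw [hU] at hg
      obtain ⟨j, hj, l, rfl⟩ := mem_eqs.1 hg
      have h7 := h j hj
      have h8 := lamY_le A v (D := D) (d := d) (f j) P X l hg0
      have h9 := hc5 V i
      linarith
  have h2 : ∑ i, (c4 V i + c5 V i) ≤
      ∑ V : Fin t → Option (Finset (Fin s)), ∑ i, (c4 V i + c5 V i) :=
    Finset.single_le_sum (f := fun V => ∑ i, (c4 V i + c5 V i))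
      (fun V _ => Finset.sum_nonneg fun i _ => add_nonneg (hc4 V i) (hc5 V i))
      (Finset.mem_univ V)
  have h3 := Finset.sum_le_sum (s := Finset.univ) fun i _ => h1 i
  rw [Finset.sum_add_distrib] at h3
  have h4 : (∑ j, c j) * (Y + ∑ T ∈ Ω, (c2 T + c3 T)) ≤ (∑ j, c j) * (Y + C) :=
    mul_le_mul_of_nonneg_left (by rw [hC]; linarith) (Finset.sum_nonneg fun j _ => hc0 j)
  have h5 : ∑ V : Fin t → Option (Finset (Fin s)), ∑ i, (c4 V i + c5 V i) ≤ C := by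
    rw [hC]
    linarith
  linarith

end

section

variable {K : Type u} [Field K] [NumberField K] {N n m s q : ℕ} (A : AV K N)

/-- All choice functions together. -/
theorem exc_choices {B : Type} [Finite B] [Inhabited B]
    (H : Fin m → MvPolynomial (Fin n) (MvPolynomial (Fin (N + 1)) K))
    (hpr : ∀ (L : Type u) [Field L] [IsAlgClosed L] [Algebra K L] (P : A.Pts L), Gen A P →
      (fib A H P).IsPrime) (S : Finset (NumberField.FinitePlace K))
    (p : (NumberField.InfinitePlace K → B) → (NumberField.FinitePlace K → B) → ℝ → A.Pts K →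
      (Fin n → K) → Prop)
    (hp : ∀ τi τf C C' P X, C ≤ C' → p τi τf C P X → p τi τf C' P X)
    (hpS : ∀ τi τf τf' C P X, (∀ v ∈ S, τf v = τf' v) → p τi τf C P X → p τi τf' C P X)
    (h : ∀ τi τf, ∃ (C : ℝ) (F : MvPolynomial (Fin n) (MvPolynomial (Fin (N + 1)) K)),
      ExcF A H F ∧ ∀ P X, eval X (sp A P F) ≠ 0 → p τi τf C P X) :
    ∃ (C : ℝ) (F : MvPolynomial (Fin n) (MvPolynomial (Fin (N + 1)) K)),
      ExcF A H F ∧ ∀ P X, eval X (sp A P F) ≠ 0 → ∀ τi τf, p τi τf C P X := by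
  classical
  let _ : Fintype ((NumberField.InfinitePlace K → B) × (S → B)) := Fintype.ofFinite _
  obtain ⟨ext, hext⟩ : ∃ ext : (S → B) → NumberField.FinitePlace K → B,
      ∀ f v (hv : v ∈ S), ext f v = f ⟨v, hv⟩ :=
    ⟨fun f v => if hv : v ∈ S then f ⟨v, hv⟩ else default, fun f v hv => dif_pos hv⟩
  obtain ⟨C, F, hF, h1⟩ := exc_all A (Finset.univ :
    Finset ((NumberField.InfinitePlace K → B) × (S → B))) H hpr
    (fun τ C P X => p τ.1 (ext τ.2) C P X)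
    (fun τ C C' P X hC h2 => hp _ _ _ _ _ _ hC h2) (fun τ _ => h τ.1 (ext τ.2))
  refine ⟨C, F, hF, fun P X hX τi τf => ?_⟩
  refine hpS τi (ext fun v => τf v) τf C P X (fun v hv => hext _ v hv) ?_
  exact h1 P X hX (τi, fun v => τf v) (Finset.mem_univ _)

end

end Pool.Agent.Lib.MP_17a322_nt.EF
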