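import Pool.Agent.Lib.MP_17a322_nt.EF.W7
import Pool.Agent.Lib.MP_17a322_nt.EF.Y6

/-!
Closed subschemes with weights: the theorem for equal bidegrees.
-/

universe u

namespace Pool.Agent.Lib.MP_17a322_nt.EF

open MvPolynomial Height
open Pool.Agent.Lib.MP_17a322_nt.VA
open Pool.Agent.Lib.MP_17a322_nt.SL

/-- The final inequality between real numbers. -/
theorem Y_num {d c w ε : ℝ} (hd : 1 ≤ d) (hc : 0 ≤ c) (hw : 0 ≤ w) (hε : 0 < ε)
    {Λ U Y Cc σ t h hP C₁ C₂ : ℝ}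
    (h1 : Λ ≤ 1 / d * U + c / d * (Y + Cc) + Cc)
    (h2 : 1 / d * U + σ ≤ t * h + ε / 2 * (h + hP) + C₁)
    (h3 : Y ≤ w * (ε * d / (2 * (c + 1) * (w + 1)) * hP + C₂)) (hh : 0 ≤ h)
    (hhP : 0 ≤ hP) :
    Λ + σ ≤ t * h + ε * (h + hP) + (C₁ + (c / d * (w * |C₂| + Cc) + Cc)) := by
  have hd0 : 0 < d := by linarith
  have b1 : Y + Cc ≤ w * (ε * d / (2 * (c + 1) * (w + 1)) * hP) + (w * |C₂| + Cc) := by
    have := mul_le_mul_of_nonneg_left (le_abs_self C₂) hw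
    nlinarith
  have b2 := mul_le_mul_of_nonneg_left b1 (by positivity : 0 ≤ c / d)
  have b3 : c / d * (w * (ε * d / (2 * (c + 1) * (w + 1)) * hP)) ≤ ε / 2 * hP := by
    have c1 : c / d * (w * (ε * d / (2 * (c + 1) * (w + 1)) * hP)) =
        (c / (c + 1)) * (w / (w + 1)) * (ε / 2 * hP) := by
      field_simp
    rw [c1]
    have c2 : c / (c + 1) ≤ 1 := by
      rw [div_le_one (by linarith)]
      linarith
    have c3 : w / (w + 1) ≤ 1 := by
      rw [div_le_one (by linarith)]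
      linarith
    have c4 : c / (c + 1) * (w / (w + 1)) ≤ 1 := mul_le_one₀ c2 (by positivity) c3
    exact mul_le_of_le_one_left (by positivity) c4
  nlinarith [mul_nonneg hε.le hh, mul_nonneg hε.le hhP]

section

variable {K : Type u} [Field K] [NumberField K] {N n m s q : ℕ} (A : AV K N)

/-- The theorem for one choice of the tuples. -/
theorem Y_one (Γ : AddSubgroup (A.Pts K)) (hΓ : Γ.FG) {t D d : ℕ} (ht : 0 < t)
    (hd : 0 < d)
    (H : Fin m → MvPolynomial (Fin n) (MvPolynomial (Fin (N + 1)) K))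
    (hH : ∀ i, ∃ a b : ℕ, BH a b (H i))
    (hfib : ∀ (L : Type u) [Field L] [IsAlgClosed L] [Algebra K L] (P : A.Pts L), Gen A P →
      (fib A H P).IsPrime ∧ Algebra.trdeg L (MvPolynomial (Fin n) L ⧸ fib A H P) = t)
    {B : Type} [Fintype B] (Pf : B → Fin t → MvPolynomial (Fin n) (MvPolynomial (Fin (N + 1)) K))
    (hPf : ∀ V i, BH D d (Pf V i)) (W : B → Prop)
    (hW : ∀ V, W V → NoCommon A H (Pf V) Finset.univ)
    (S : Finset (NumberField.FinitePlace K))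
    (τi : NumberField.InfinitePlace K → B) (τf : NumberField.FinitePlace K → B)
    (hτi : ∀ v, W (τi v)) (hτf : ∀ v ∈ S, W (τf v))
    (σ : A.Pts K → ℝ) (hσ0 : ∀ P, 0 ≤ σ P)
    (hσ : ∀ (k g' r' : ℕ)
      (G' : Matrix (Fin g') (Fin (Mo n k).card) (MvPolynomial (Fin (N + 1)) K)),
      IsRows A H k G' → g' + r' = (Mo n k).card →
      ∃ (R : MvPolynomial (Fin (N + 1)) K) (ρ : ℕ), R.IsHomogeneous ρ ∧ R ∉ A.I ∧
        ∀ P : A.Pts K, aeval (A.x P) R ≠ 0 → (k : ℝ) * r' * σ P ≤ t * hE A G' P)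
    {ε : ℝ} (hε : 0 < ε) :
    ∃ (C : ℝ) (F : MvPolynomial (Fin n) (MvPolynomial (Fin (N + 1)) K)), ExcF A H F ∧
      ∀ P ∈ Γ, ∀ X : Fin n → K, X ≠ 0 → (∀ i, eval X (sp A P (H i)) = 0) →
        eval X (sp A P F) ≠ 0 →
        (∀ v i, eval X (sp A P (Pf (τi v) i)) ≠ 0) ∧
        (∀ v ∈ S, ∀ i, eval X (sp A P (Pf (τf v) i)) ≠ 0) ∧
        1 / (d : ℝ) * SS S (fun v => ∑ i, lamQ A v.val D d (Pf (τi v) i) P X)
          (fun v => ∑ i, lamQ A v.val D d (Pf (τf v) i) P X) + σ P ≤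
          t * logHeight X + ε * (logHeight X + logHeight (A.x P)) + C := by
  classical
  obtain ⟨e⟩ : Nonempty (B × Fin t ≃ Fin (Fintype.card (B × Fin t))) := ⟨Fintype.equivFin _⟩
  obtain ⟨Q, hQd⟩ : ∃ Q : Fin (Fintype.card (B × Fin t)) →
      MvPolynomial (Fin n) (MvPolynomial (Fin (N + 1)) K),
      Q = fun i => Pf (e.symm i).1 (e.symm i).2 := ⟨_, rfl⟩
  have hQ : ∀ i, BH D d (Q i) := fun i => by rw [hQd]; exact hPf _ _
  have hQe : ∀ V i, Q (e (V, i)) = Pf V i := fun V i => by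
    rw [hQd]
    simp only [Equiv.symm_apply_apply]
  obtain ⟨J, hJd⟩ : ∃ J : B → Finset (Fin (Fintype.card (B × Fin t))),
      J = fun V => Finset.univ.map ⟨fun i : Fin t => e (V, i), fun i i' h => by
        have h1 := e.injective h
        exact (Prod.mk.inj h1).2⟩ := ⟨_, rfl⟩
  have hJm : ∀ V i, e (V, i) ∈ J V := fun V i => by
    rw [hJd]
    exact Finset.mem_map.2 ⟨i, Finset.mem_univ _, rfl⟩
  have hJc : ∀ V, (J V).card = t := fun V => by
    rw [hJd]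
    simp only [Finset.card_map, Finset.card_univ, Fintype.card_fin]
  have hJs : ∀ V (g : Fin (Fintype.card (B × Fin t)) → ℝ),
      ∑ j ∈ J V, g j = ∑ i, g (e (V, i)) := fun V g => by
    rw [hJd]
    simp only [Finset.sum_map, Function.Embedding.coeFn_mk]
  have hJN : ∀ V, W V → t ≤ (J V).card ∧ ∀ T ⊆ J V, T.card = t → NoCommon A H Q T := by
    intro V hV
    refine ⟨(hJc V).ge, fun T hT hTc => ?_⟩
    have h1 : T = J V := Finset.eq_of_subset_of_card_le hT (by rw [hJc, hTc])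
    subst h1
    intro L _ _ _ P hP X hX hXQ
    refine hW V hV L P hP X hX fun i _ => ?_
    have h2 := hXQ _ (hJm V i)
    rw [hQe] at h2
    exact h2
  obtain ⟨C, F, hF, hmain⟩ := EF_gen A Γ hΓ ht hd H hH hfib Q hQ S (fun v => J (τi v))
    (fun v => J (τf v)) (fun v => hJN _ (hτi v)) (fun v hv => hJN _ (hτf v hv)) σ hσ0 hσ ε hε
  refine ⟨C, F, hF, fun P hP X hX hXH hXF => ?_⟩
  obtain ⟨h1, h2⟩ := hmain P hP X hX hXH hXF
  refine ⟨fun v i => ?_, fun v hv i => ?_, le_trans (le_of_eq ?_) h2⟩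
  · have h3 := h1 (e (τi v, i)) (Or.inl ⟨v, hJm _ i⟩)
    rw [hQe] at h3
    exact h3
  · have h3 := h1 (e (τf v, i)) (Or.inr ⟨v, hv, hJm _ i⟩)
    rw [hQe] at h3
    exact h3
  · refine congrArg₂ _ ?_ rfl
    rw [← SS_mul]
    simp only [SS, hJs, Finset.mul_sum, hQe]

/-- Equal bidegrees. -/
theorem Y_gen (Γ : AddSubgroup (A.Pts K)) (hΓ : Γ.FG) {t D d : ℕ} (ht : 0 < t)
    (hd : 0 < d)
    (H : Fin m → MvPolynomial (Fin n) (MvPolynomial (Fin (N + 1)) K))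
    (hH : ∀ i, ∃ a b : ℕ, BH a b (H i))
    (hfib : ∀ (L : Type u) [Field L] [IsAlgClosed L] [Algebra K L] (P : A.Pts L), Gen A P →
      (fib A H P).IsPrime ∧ Algebra.trdeg L (MvPolynomial (Fin n) L ⧸ fib A H P) = t)
    (f : Fin s → Fin q → MvPolynomial (Fin n) (MvPolynomial (Fin (N + 1)) K))
    (hf : ∀ j l, BH D d (f j l))
    (S : Finset (NumberField.FinitePlace K))
    (ci : NumberField.InfinitePlace K → Fin s → ℝ)
    (cf : NumberField.FinitePlace K → Fin s → ℝ) (hci0 : ∀ v j, 0 ≤ ci v j)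
    (hcf0 : ∀ v j, 0 ≤ cf v j)
    (hci : ∀ v U, Codim A H t (cut f U) t ∨
      ∃ i : ℕ, Codim A H t (cut f U) i ∧ ∑ j ∈ U, ci v j ≤ i)
    (hcf : ∀ v ∈ S, ∀ U, Codim A H t (cut f U) t ∨
      ∃ i : ℕ, Codim A H t (cut f U) i ∧ ∑ j ∈ U, cf v j ≤ i)
    (σ : A.Pts K → ℝ) (hσ0 : ∀ P, 0 ≤ σ P)
    (hσ : ∀ (k g' r' : ℕ)
      (G' : Matrix (Fin g') (Fin (Mo n k).card) (MvPolynomial (Fin (N + 1)) K)),
      IsRows A H k G' → g' + r' = (Mo n k).card →
      ∃ (R : MvPolynomial (Fin (N + 1)) K) (ρ : ℕ), R.IsHomogeneous ρ ∧ R ∉ A.I ∧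
        ∀ P : A.Pts K, aeval (A.x P) R ≠ 0 → (k : ℝ) * r' * σ P ≤ t * hE A G' P)
    (ε : ℝ) (hε : 0 < ε) :
    ∃ (C : ℝ) (F : MvPolynomial (Fin n) (MvPolynomial (Fin (N + 1)) K)), ExcF A H F ∧
      ∀ P ∈ Γ, ∀ X : Fin n → K, X ≠ 0 → (∀ i, eval X (sp A P (H i)) = 0) →
        eval X (sp A P F) ≠ 0 →
        (∀ j, (∃ v, ci v j ≠ 0) ∨ (∃ v ∈ S, cf v j ≠ 0) →
          ∃ l, eval X (sp A P (f j l)) ≠ 0) ∧
        (∑ v : NumberField.InfinitePlace K, (v.mult : ℝ) *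
            ∑ j, ci v j * (1 / (d : ℝ) * lamY A v.val D d (f j) P X)) +
          (∑ v ∈ S, ∑ j, cf v j * (1 / (d : ℝ) * lamY A v.val D d (f j) P X)) + σ P ≤
          t * logHeight X + ε * (logHeight X + logHeight (A.x P)) + C := by
  classical
  have _ : Infinite K := inferInstance
  have hpr : ∀ (L : Type u) [Field L] [IsAlgClosed L] [Algebra K L] (P : A.Pts L), Gen A P →
      (fib A H P).IsPrime := fun L _ _ _ P hP => (hfib L P hP).1
  have hd1 : (1 : ℝ) ≤ d := by exact_mod_cast hd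
  obtain ⟨Pf, hPf, hPk, hPn⟩ := exists_Pf A H hH hfib f hf
  -- the closed subsets without points on the generic fibre
  obtain ⟨Ω, hΩ⟩ : ∃ Ω : Finset (Finset (Fin s)), ∀ U, U ∈ Ω ↔ Codim A H t (cut f U) t :=
    ⟨Finset.univ.filter fun U => Codim A H t (cut f U) t, fun U => by
      rw [Finset.mem_filter]
      exact ⟨fun h => h.2, fun h => ⟨Finset.mem_univ _, h⟩⟩⟩
  have hres : ∀ U, ∃ (R : MvPolynomial (Fin (N + 1)) K) (ρ : ℕ), U ∈ Ω →
      R.IsHomogeneous ρ ∧ R ∉ A.I ∧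
      ∀ v : AbsoluteValue K ℝ, ∃ C : ℝ, 0 ≤ C ∧ ∀ (P : A.Pts K) (X : Fin n → K), X ≠ 0 →
        (∀ i, eval X (sp A P (H i)) = 0) → aeval (A.x P) R ≠ 0 →
        ∃ j ∈ U, lamY A v D d (f j) P X ≤ ρ * Real.log (⨆ i, v (A.x P i)) -
              Real.log (v (aeval (A.x P) R)) + C := by
    intro U
    by_cases hU : U ∈ Ω
    · obtain ⟨R, ρ, h3⟩ := Y_low A H hH ht hd f hf hfib U ((hΩ U).1 hU)
      exact ⟨R, ρ, fun _ => h3⟩
    · exact ⟨0, 0, fun h => absurd h hU⟩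
  choose R ρ hR using hres
  -- local constants
  have hli := fun v : NumberField.InfinitePlace K => Y_loc A v.val H hH hd hfib f hf Pf hPf hPk
    Ω hΩ R ρ (fun U hU => (hR U hU).1) (fun U hU => (hR U hU).2.2 v.val) (ci v) (hci0 v)
    (hci v)
  choose Ki hKi0 hKi using hli
  have hlf : ∀ v : NumberField.FinitePlace K, ∃ C : ℝ, 0 ≤ C ∧ (v ∈ S →
      ∀ (P : A.Pts K) (X : Fin n → K), X ≠ 0 →
      (∀ i, eval X (sp A P (H i)) = 0) → (∀ U ∈ Ω, aeval (A.x P) (R U) ≠ 0) →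
      0 ≤ (∑ U ∈ Ω, (ρ U * Real.log (⨆ i, v.val (A.x P i)) -
              Real.log (v.val (aeval (A.x P) (R U))))) + C ∧
      ∃ V : Fin t → Option (Finset (Fin s)),
        (∀ (i : Fin t) (U : Finset (Fin s)), V i = some U → Codim A H t (cut f U) (i + 1)) ∧
        ((∀ i, eval X (sp A P (Pf V i)) ≠ 0) →
          ∑ j, cf v j * lamY A v.val D d (f j) P X ≤ ∑ i, lamQ A v.val D d (Pf V i) P X +
            (∑ j, cf v j) * ((∑ U ∈ Ω, (ρ U * Real.log (⨆ i, v.val (A.x P i)) -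
              Real.log (v.val (aeval (A.x P) (R U))))) + C) + C)) := by
    intro v
    by_cases hv : v ∈ S
    · obtain ⟨C, hC, h⟩ := Y_loc A v.val H hH hd hfib f hf Pf hPf hPk
        Ω hΩ R ρ (fun U hU => (hR U hU).1) (fun U hU => (hR U hU).2.2 v.val) (cf v) (hcf0 v)
        (hcf v hv)
      exact ⟨C, hC, fun _ => h⟩
    · exact ⟨0, le_rfl, fun h => absurd h hv⟩
  choose Kf hKf0 hKf using hlf
  obtain ⟨Cc, hCc⟩ : ∃ Cc, Cc = SS S Ki Kf := ⟨_, rfl⟩
  have hCc0 : 0 ≤ Cc := by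
    rw [hCc]
    exact SS_nonneg hKi0 fun v _ => hKf0 v
  -- the largest weight
  obtain ⟨c, hcd⟩ : ∃ c : ℝ, c = (∑ v, ∑ j, ci v j) + ∑ v ∈ S, ∑ j, cf v j := ⟨_, rfl⟩
  have hc1 : ∀ v, 0 ≤ ∑ j, ci v j := fun v => Finset.sum_nonneg fun j _ => hci0 v j
  have hc2 : ∀ v, 0 ≤ ∑ j, cf v j := fun v => Finset.sum_nonneg fun j _ => hcf0 v j
  have hc0 : 0 ≤ c := by
    rw [hcd]
    exact add_nonneg (Finset.sum_nonneg fun v _ => hc1 v) (Finset.sum_nonneg fun v _ => hc2 v)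
  have hci' : ∀ v, ∑ j, ci v j ≤ c := fun v => by
    rw [hcd]
    have h1 := Finset.single_le_sum (f := fun v => ∑ j, ci v j) (fun v _ => hc1 v)
      (Finset.mem_univ v)
    have h2 : 0 ≤ ∑ v ∈ S, ∑ j, cf v j := Finset.sum_nonneg fun v _ => hc2 v
    linarith
  have hcf' : ∀ v ∈ S, ∑ j, cf v j ≤ c := fun v hv => by
    rw [hcd]
    have h1 := Finset.single_le_sum (f := fun v => ∑ j, cf v j) (fun v _ => hc2 v) hv
    have h2 : 0 ≤ ∑ v, ∑ j, ci v j := Finset.sum_nonneg fun v _ => hc1 v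
    linarith
  -- the base
  obtain ⟨ε₂, hε₂⟩ : ∃ ε₂ : ℝ, ε₂ = ε * d / (2 * (c + 1) * (Ω.card + 1)) := ⟨_, rfl⟩
  have hε₂0 : 0 < ε₂ := by rw [hε₂]; positivity
  obtain ⟨C₂, F₂, hF₂, hlow⟩ := exc_all A Ω H hpr
    (fun U C P _ => P ∈ Γ → aeval (A.x P) (R U) ≠ 0 ∧
      SS S (fun v => ρ U * Real.log (⨆ i, v.val (A.x P i)) -
          Real.log (v.val (aeval (A.x P) (R U))))
        (fun v => ρ U * Real.log (⨆ i, v.val (A.x P i)) -
          Real.log (v.val (aeval (A.x P) (R U)))) ≤ ε₂ * logHeight (A.x P) + C)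
    (fun U C C' P X hC h hP => ⟨(h hP).1, (h hP).2.trans (by linarith)⟩)
    (fun U hU => by
      obtain ⟨C, F, a, h1, h2, h3⟩ := S_low A Γ hΓ (hR U hU).1 (hR U hU).2.1 S hε₂0
      refine ⟨C, MvPolynomial.C F, ExcF_C A H hpr h1 h2, fun P X hF hP => ?_⟩
      rw [sp_C, eval_C] at hF
      exact h3 P hP hF)
  -- the values of the equations
  obtain ⟨-, F₃, hF₃, hnz⟩ := exc_all A (Finset.univ : Finset (Fin s)) H hpr
    (fun j _ P X => (∃ v, ci v j ≠ 0) ∨ (∃ v ∈ S, cf v j ≠ 0) →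
      ∃ l, eval X (sp A P (f j l)) ≠ 0)
    (fun j C C' P X _ h => h)
    (fun j _ => by
      by_cases hj : (∃ v, ci v j ≠ 0) ∨ (∃ v ∈ S, cf v j ≠ 0)
      · have h1 : ∃ i : ℕ, 0 < i ∧ Codim A H t (cut f {j}) i := by
          rcases hj with ⟨v, hv⟩ | ⟨v, hvS, hv⟩
          · rcases hci v {j} with h | ⟨i, h, h2⟩
            · exact ⟨t, ht, h⟩
            · refine ⟨i, ?_, h⟩
              rw [Finset.sum_singleton] at h2
              have h3 : 0 < ci v j := lt_of_le_of_ne (hci0 v j) hv.symm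
              exact_mod_cast h3.trans_le h2
          · rcases hcf v hvS {j} with h | ⟨i, h, h2⟩
            · exact ⟨t, ht, h⟩
            · refine ⟨i, ?_, h⟩
              rw [Finset.sum_singleton] at h2
              have h3 : 0 < cf v j := lt_of_le_of_ne (hcf0 v j) hv.symm
              exact_mod_cast h3.trans_le h2
        obtain ⟨i, hi, h1⟩ := h1
        have h2 : cut f {j} = Set.range (f j) := by
          ext g
          constructor
          · rintro ⟨j', hj', l, rfl⟩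
            rw [Finset.mem_singleton] at hj'
            subst hj'
            exact ⟨l, rfl⟩
          · rintro ⟨l, rfl⟩
            exact ⟨j, Finset.mem_singleton_self j, l, rfl⟩
        rw [h2] at h1
        obtain ⟨l, hl⟩ := Codim_exc A H hH hfib (f j) (hf j) hi h1
        exact ⟨0, f j l, hl, fun P X h _ => ⟨l, h⟩⟩
      · exact ⟨0, 1, ExcF_one A H hpr, fun P X _ h => absurd h hj⟩)
  -- the choices of the tuples
  obtain ⟨C₁, F₁, hF₁, hall⟩ := exc_choices A (B := Fin t → Option (Finset (Fin s))) H hpr S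
    (fun τi τf C P X =>
      (∀ v (i : Fin t) (U : Finset (Fin s)), τi v i = some U →
        Codim A H t (cut f U) (i + 1)) →
      (∀ v ∈ S, ∀ (i : Fin t) (U : Finset (Fin s)), τf v i = some U →
        Codim A H t (cut f U) (i + 1)) →
      P ∈ Γ → X ≠ 0 → (∀ i, eval X (sp A P (H i)) = 0) →
      (∀ v i, eval X (sp A P (Pf (τi v) i)) ≠ 0) ∧
        (∀ v ∈ S, ∀ i, eval X (sp A P (Pf (τf v) i)) ≠ 0) ∧
        1 / (d : ℝ) * SS S (fun v => ∑ i, lamQ A v.val D d (Pf (τi v) i) P X)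
          (fun v => ∑ i, lamQ A v.val D d (Pf (τf v) i) P X) + σ P ≤
          t * logHeight X + ε / 2 * (logHeight X + logHeight (A.x P)) + C)
    (fun τi τf C C' P X hC h h1 h2 hP hX hXH =>
      ⟨(h h1 h2 hP hX hXH).1, (h h1 h2 hP hX hXH).2.1,
        (h h1 h2 hP hX hXH).2.2.trans (by linarith)⟩)
    (fun τi τf τf' C P X hS h h1 h2 hP hX hXH => by
      obtain ⟨a1, a2, a3⟩ := h h1 (fun v hv => by rw [hS v hv]; exact h2 v hv) hP hX hXH
      refine ⟨a1, fun v hv => by rw [← hS v hv]; exact a2 v hv, ?_⟩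
      have h3 : SS S (fun v => ∑ i, lamQ A v.val D d (Pf (τi v) i) P X)
          (fun v => ∑ i, lamQ A v.val D d (Pf (τf' v) i) P X) =
          SS S (fun v => ∑ i, lamQ A v.val D d (Pf (τi v) i) P X)
          (fun v => ∑ i, lamQ A v.val D d (Pf (τf v) i) P X) := by
        unfold SS
        refine congrArg₂ _ rfl (Finset.sum_congr rfl fun v hv => ?_)
        simp only [hS v hv]
      rw [h3]
      exact a3)
    (fun τi τf => by
      by_cases hadm : (∀ v (i : Fin t) (U : Finset (Fin s)), τi v i = some U →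
          Codim A H t (cut f U) (i + 1)) ∧
          (∀ v ∈ S, ∀ (i : Fin t) (U : Finset (Fin s)), τf v i = some U →
          Codim A H t (cut f U) (i + 1))
      · obtain ⟨C, F, hF, h⟩ := Y_one A Γ hΓ ht hd H hH hfib Pf hPf
          (fun V => ∀ (i : Fin t) (U : Finset (Fin s)), V i = some U →
            Codim A H t (cut f U) (i + 1)) hPn S τi τf hadm.1 hadm.2 σ hσ0 hσ (half_pos hε)
        exact ⟨C, F, hF, fun P X h1 _ _ hP hX hXH => h P hP X hX hXH h1⟩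
      · exact ⟨0, 1, ExcF_one A H hpr, fun P X _ h1 h2 => absurd ⟨h1, h2⟩ hadm⟩)
  refine ⟨C₁ + (c / d * (Ω.card * |C₂| + Cc) + Cc), F₁ * F₂ * F₃,
    ExcF_mul A H hpr (ExcF_mul A H hpr hF₁ hF₂) hF₃, fun P hP X hX hXH hXF => ?_⟩
  rw [sp_mul, sp_mul, map_mul, map_mul] at hXF
  have hXF₁ := left_ne_zero_of_mul (left_ne_zero_of_mul hXF)
  have hXF₂ := right_ne_zero_of_mul (left_ne_zero_of_mul hXF)
  have hXF₃ := right_ne_zero_of_mul hXF
  refine ⟨fun j hj => hnz P X hXF₃ j (Finset.mem_univ _) hj, ?_⟩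
  have hlow' := hlow P X hXF₂
  have hRP : ∀ U ∈ Ω, aeval (A.x P) (R U) ≠ 0 := fun U hU => (hlow' U hU hP).1
  have hloci := fun v => hKi v P X hX hXH hRP
  choose hi0 τi hτi hi1 using hloci
  have hlocf : ∀ v : NumberField.FinitePlace K, ∃ V : Fin t → Option (Finset (Fin s)), v ∈ S →
      0 ≤ (∑ U ∈ Ω, (ρ U * Real.log (⨆ i, v.val (A.x P i)) -
              Real.log (v.val (aeval (A.x P) (R U))))) + Kf v ∧
        (∀ (i : Fin t) (U : Finset (Fin s)), V i = some U → Codim A H t (cut f U) (i + 1)) ∧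
        ((∀ i, eval X (sp A P (Pf V i)) ≠ 0) →
          ∑ j, cf v j * lamY A v.val D d (f j) P X ≤ ∑ i, lamQ A v.val D d (Pf V i) P X +
            (∑ j, cf v j) * ((∑ U ∈ Ω, (ρ U * Real.log (⨆ i, v.val (A.x P i)) -
              Real.log (v.val (aeval (A.x P) (R U))))) + Kf v) + Kf v) := by
    intro v
    by_cases hv : v ∈ S
    · obtain ⟨h1, V, h2, h3⟩ := hKf v hv P X hX hXH hRP
      exact ⟨V, fun _ => ⟨h1, h2, h3⟩⟩
    · exact ⟨fun _ => none, fun h => absurd h hv⟩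
  choose τf hτf using hlocf
  obtain ⟨n1, n2, h2⟩ := hall P X hXF₁ τi τf hτi (fun v hv => (hτf v hv).2.1) hP hX hXH
  obtain ⟨Y, hY⟩ : ∃ Y, Y = SS S
      (fun v => ∑ U ∈ Ω, (ρ U * Real.log (⨆ i, v.val (A.x P i)) -
              Real.log (v.val (aeval (A.x P) (R U)))))
      (fun v => ∑ U ∈ Ω, (ρ U * Real.log (⨆ i, v.val (A.x P i)) -
              Real.log (v.val (aeval (A.x P) (R U))))) := ⟨_, rfl⟩
  have h3 : Y ≤ Ω.card * (ε₂ * logHeight (A.x P) + C₂) := by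
    rw [hY, SS_sum]
    refine (Finset.sum_le_sum fun U hU => (hlow' U hU hP).2).trans (le_of_eq ?_)
    rw [Finset.sum_const, nsmul_eq_mul]
  rw [hε₂] at h3
  obtain ⟨Λ, hΛ⟩ : ∃ Λ, Λ = SS S (fun v => ∑ j, ci v j * (1 / (d : ℝ) * lamY A v.val D d (f j) P X))
    (fun v => ∑ j, cf v j * (1 / (d : ℝ) * lamY A v.val D d (f j) P X)) := ⟨_, rfl⟩
  have hd0 : (0 : ℝ) < d := by linarith
  have hloc : ∀ (w : Fin s → ℝ) (a : Fin s → ℝ) (u y k : ℝ), (∀ j, 0 ≤ w j) →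
      ∑ j, w j ≤ c → 0 ≤ y + k → 0 ≤ k → ∑ j, w j * a j ≤ u + (∑ j, w j) * (y + k) + k →
      ∑ j, w j * (1 / (d : ℝ) * a j) ≤ 1 / (d : ℝ) * u + (c / d * (y + k) + k) := by
    intro w a u y k hw hwc hyk hk h
    have e1 : ∑ j, w j * (1 / (d : ℝ) * a j) = 1 / (d : ℝ) * ∑ j, w j * a j := by
      rw [Finset.mul_sum]
      refine Finset.sum_congr rfl fun j _ => ?_
      ring
    have e2 : (∑ j, w j) * (y + k) ≤ c * (y + k) := mul_le_mul_of_nonneg_right hwc hyk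
    have e3 : 1 / (d : ℝ) * ∑ j, w j * a j ≤ 1 / (d : ℝ) * (u + c * (y + k) + k) :=
      mul_le_mul_of_nonneg_left (by linarith) (by positivity)
    have e4 : 1 / (d : ℝ) * k ≤ k := by
      rw [div_mul_eq_mul_div, one_mul, div_le_iff₀ hd0]
      nlinarith
    rw [e1]
    refine e3.trans ?_
    have e5 : 1 / (d : ℝ) * (u + c * (y + k) + k) =
        1 / (d : ℝ) * u + (c / d * (y + k) + 1 / (d : ℝ) * k) := by ring
    rw [e5]
    linarith
  have h1 : Λ ≤ 1 / (d : ℝ) * SS S (fun v => ∑ i, lamQ A v.val D d (Pf (τi v) i) P X)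
      (fun v => ∑ i, lamQ A v.val D d (Pf (τf v) i) P X) + c / d * (Y + Cc) + Cc := by
    rw [hΛ]
    refine (SS_mono
      (fun v => hloc (ci v) _ _ _ _ (hci0 v) (hci' v) (hi0 v) (hKi0 v) (hi1 v (n1 v)))
      (fun v hv => hloc (cf v) _ _ _ _ (hcf0 v) (hcf' v hv) (hτf v hv).1 (hKf0 v)
        ((hτf v hv).2.2 (n2 v hv)))).trans (le_of_eq ?_)
    rw [SS_add, SS_mul, SS_add, SS_mul, SS_add, ← hCc, ← hY]
    ring
  have hfin := Y_num hd1 hc0 (Nat.cast_nonneg Ω.card) hε h1 h2 h3 (logHeight_nonneg X)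
    (logHeight_nonneg _)
  rw [hΛ] at hfin
  exact hfin

end

end Pool.Agent.Lib.MP_17a322_nt.EF
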