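import Pool.Agent.Lib.MP_17a322_nt.EF.Z2a
import Pool.Agent.Lib.MP_17a322_nt.EF.Y8
import Pool.Agent.Lib.MP_17a322_nt.EF.U1
import Pool.Agent.Lib.MP_17a322_nt.EF.U2
import Pool.Agent.Lib.MP_17a322_nt.EF.S1

/-!
Closed subschemes of a family over an abelian variety: arbitrary bidegrees.
-/

universe u

namespace Pool.Agent.Lib.MP_17a322_nt.EF

open MvPolynomial Height
open Pool.Agent.Lib.MP_17a322_nt.VA
open Pool.Agent.Lib.MP_17a322_nt.SL

section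

/-- The maximum of products. -/
theorem Y7_sup {ι κ : Type*} [Finite ι] [Finite κ] [Nonempty ι] [Nonempty κ] (a : ι → ℝ)
    (b : κ → ℝ) (ha : ∀ i, 0 ≤ a i) (hb : ∀ j, 0 ≤ b j) (e k : ℕ) :
    (⨆ p : ι × κ, a p.1 ^ e * b p.2 ^ k) = (⨆ i, a i) ^ e * (⨆ j, b j) ^ k := by
  obtain ⟨i₀, hi₀⟩ := exists_eq_ciSup_of_finite (f := a)
  obtain ⟨j₀, hj₀⟩ := exists_eq_ciSup_of_finite (f := b)
  refine le_antisymm (ciSup_le fun p => ?_) ?_
  · have h1 : a p.1 ≤ ⨆ i, a i := Finite.le_ciSup_of_le p.1 le_rfl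
    have h2 : b p.2 ≤ ⨆ j, b j := Finite.le_ciSup_of_le p.2 le_rfl
    exact mul_le_mul (pow_le_pow_left₀ (ha _) h1 _) (pow_le_pow_left₀ (hb _) h2 _)
      (pow_nonneg (hb _) _) (pow_nonneg ((ha _).trans h1) _)
  · rw [← hi₀, ← hj₀]
    exact Finite.le_ciSup_of_le (f := fun p : ι × κ => a p.1 ^ e * b p.2 ^ k) (i₀, j₀) le_rfl

variable {K : Type u} [Field K] {N n q : ℕ}

/-- The equations of higher bidegree. -/
noncomputable def Y7_f (e k : ℕ) (f : Fin q → MvPolynomial (Fin n) (MvPolynomial (Fin (N + 1)) K)) :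
    Fin ((N + 1) * q) → MvPolynomial (Fin n) (MvPolynomial (Fin (N + 1)) K) :=
  fun i => C (X (finProdFinEquiv.symm i).1 ^ e) * f (finProdFinEquiv.symm i).2 ^ k

theorem Y7_BH {e k D d : ℕ} {f : Fin q → MvPolynomial (Fin n) (MvPolynomial (Fin (N + 1)) K)}
    (hf : ∀ l, BH D d (f l)) (i : Fin ((N + 1) * q)) : BH (e + k * D) (k * d) (Y7_f e k f i) := by
  have h1 := Z2_mul (Z2_C (n := n) ((isHomogeneous_X K (finProdFinEquiv.symm i).1).pow e))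
    (Z2_pow (hf (finProdFinEquiv.symm i).2) k)
  rw [one_mul, zero_add] at h1
  exact h1

variable (A : AV K N)

theorem Y7_eval {L : Type u} [Field L] [Algebra K L] (P : A.Pts L) (Y : Fin n → L) (e k : ℕ)
    (f : Fin q → MvPolynomial (Fin n) (MvPolynomial (Fin (N + 1)) K)) (i : Fin ((N + 1) * q)) :
    eval Y (sp A P (Y7_f e k f i)) =
      A.x P (finProdFinEquiv.symm i).1 ^ e * eval Y (sp A P (f (finProdFinEquiv.symm i).2)) ^ k := by
  unfold Y7_f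
  rw [Z2_sp_mul, Z2_sp_C, Z2_sp_pow, map_pow, aeval_X]

theorem Y7_sp {L : Type u} [Field L] [Algebra K L] (P : A.Pts L) (e k : ℕ)
    (f : Fin q → MvPolynomial (Fin n) (MvPolynomial (Fin (N + 1)) K)) (i : Fin ((N + 1) * q)) :
    sp A P (Y7_f e k f i) = C (A.x P (finProdFinEquiv.symm i).1 ^ e) *
      sp A P (f (finProdFinEquiv.symm i).2) ^ k := by
  unfold Y7_f sp
  rw [map_mul, map_pow _ _ k, map_C]
  have h1 : (aeval (A.x P)).toRingHom ((X (finProdFinEquiv.symm i).1 : MvPolynomial (Fin (N + 1)) K) ^ e) =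
      A.x P (finProdFinEquiv.symm i).1 ^ e := by
    rw [AlgHom.toRingHom_eq_coe, RingHom.coe_coe, map_pow, aeval_X]
  rw [h1]

/-- The local heights do not change. -/
theorem Y7_lam {L : Type u} [Field L] [Algebra K L] (v : AbsoluteValue L ℝ) {D d : ℕ} (k e : ℕ)
    (hd : 0 < d) (hk : 0 < k)
    (f : Fin q → MvPolynomial (Fin n) (MvPolynomial (Fin (N + 1)) K)) (P : A.Pts L) (Y : Fin n → L)
    (hf : ∃ l, eval Y (sp A P (f l)) ≠ 0) :
    1 / ((k * d : ℕ) : ℝ) * lamY A v (e + k * D) (k * d) (Y7_f e k f) P Y =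
      1 / (d : ℝ) * lamY A v D d f P Y := by
  obtain ⟨l₀, hl₀⟩ := hf
  have : Nonempty (Fin q) := ⟨l₀⟩
  obtain ⟨b₀, hb₀⟩ := Function.ne_iff.1 (Z2_x_ne A P)
  have h1 : (⨆ i, v (eval Y (sp A P (Y7_f e k f i)))) =
      (⨆ b, v (A.x P b)) ^ e * (⨆ l, v (eval Y (sp A P (f l)))) ^ k := by
    rw [← Y7_sup (fun b => v (A.x P b)) (fun l => v (eval Y (sp A P (f l)))) (fun _ => v.nonneg _)
      (fun _ => v.nonneg _) e k,
      ← Equiv.iSup_comp (e := (finProdFinEquiv (m := N + 1) (n := q)).symm)]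
    refine iSup_congr fun i => ?_
    rw [Y7_eval, map_mul, map_pow, map_pow]
  have h2 : v (A.x P b₀) ≤ ⨆ b, v (A.x P b) := Finite.le_ciSup_of_le b₀ le_rfl
  have h3 : 0 < ⨆ b, v (A.x P b) := (v.pos hb₀).trans_le h2
  have h4 : v (eval Y (sp A P (f l₀))) ≤ ⨆ l, v (eval Y (sp A P (f l))) :=
    Finite.le_ciSup_of_le (f := fun l => v (eval Y (sp A P (f l)))) l₀ le_rfl
  have h5 : 0 < ⨆ l, v (eval Y (sp A P (f l))) := (v.pos hl₀).trans_le h4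
  have hd0 : (d : ℝ) ≠ 0 := Nat.cast_ne_zero.2 hd.ne'
  have hk0 : (k : ℝ) ≠ 0 := Nat.cast_ne_zero.2 hk.ne'
  unfold lamY
  rw [h1, Real.log_mul (pow_pos h3 _).ne' (pow_pos h5 _).ne', Real.log_pow, Real.log_pow]
  push_cast
  field_simp
  ring

/-- The codimension does not change. -/
theorem Y7_codim {m s t : ℕ} (H : Fin m → MvPolynomial (Fin n) (MvPolynomial (Fin (N + 1)) K))
    (f : Fin s → Fin q → MvPolynomial (Fin n) (MvPolynomial (Fin (N + 1)) K)) (e k : Fin s → ℕ)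
    (U : Finset (Fin s)) {i : ℕ} (h : Codim A H t (cut f U) i) :
    Codim A H t (cut (fun j => Y7_f (e j) (k j) (f j)) U) i := by
  intro L _ _ _ P hP p hp hfib hg
  refine h L P hP p hp hfib ?_
  rintro g ⟨j, hj, l, rfl⟩
  obtain ⟨b₀, hb₀⟩ := Function.ne_iff.1 (Z2_x_ne A P)
  have h1 := hg (Y7_f (e j) (k j) (f j) (finProdFinEquiv (b₀, l))) ⟨j, hj, _, rfl⟩
  rw [Y7_sp, Equiv.symm_apply_apply] at h1
  have h2 : IsUnit (C (A.x P b₀ ^ e j) : MvPolynomial (Fin n) L) :=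
    (IsUnit.mk0 _ (pow_ne_zero _ hb₀)).map C
  exact hp.mem_of_pow_mem _ ((Ideal.unit_mul_mem_iff_mem p h2).1 h1)

end

section

variable {K : Type u} [Field K] [NumberField K] {N : ℕ} (A : AV K N)

/-- Arbitrary bidegrees. -/
theorem Y_gen2 (Γ : AddSubgroup (A.Pts K)) (hΓ : Γ.FG) {n m s q t : ℕ} (ht : 0 < t)
    (H : Fin m → MvPolynomial (Fin n) (MvPolynomial (Fin (N + 1)) K))
    (hH : ∀ i, ∃ a b : ℕ, BH a b (H i))
    (hfib : ∀ (L : Type u) [Field L] [IsAlgClosed L] [Algebra K L] (P : A.Pts L), Gen A P →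
      (fib A H P).IsPrime ∧ Algebra.trdeg L (MvPolynomial (Fin n) L ⧸ fib A H P) = t)
    (D d : Fin s → ℕ) (hd : ∀ j, 0 < d j)
    (f : Fin s → Fin q → MvPolynomial (Fin n) (MvPolynomial (Fin (N + 1)) K))
    (hf : ∀ j l, BH (D j) (d j) (f j l))
    (S : Finset (NumberField.FinitePlace K))
    (ci : NumberField.InfinitePlace K → Fin s → ℝ)
    (cf : NumberField.FinitePlace K → Fin s → ℝ) (hci0 : ∀ v j, 0 ≤ ci v j)
    (hcf0 : ∀ v j, 0 ≤ cf v j)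
    (hci : ∀ v U, Codim A H t (cut f U) t ∨
      ∃ i : ℕ, Codim A H t (cut f U) i ∧ ∑ j ∈ U, ci v j ≤ i)
    (hcf : ∀ v ∈ S, ∀ U, Codim A H t (cut f U) t ∨
      ∃ i : ℕ, Codim A H t (cut f U) i ∧ ∑ j ∈ U, cf v j ≤ i)
    (σ : A.Pts K → ℝ) (hσ0 : ∀ P, 0 ≤ σ P)
    (hσ : ∀ (k g' r' : ℕ)
      (G' : Matrix (Fin g') (Fin (Mo n k).card) (MvPolynomial (Fin (N + 1)) K)),
      IsRows A H k G' → g' + r' = (Mo n k).card →
      ∃ (R : MvPolynomial (Fin (N + 1)) K) (ρ : ℕ), R.IsHomogeneous ρ ∧ R ∉ A.I ∧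
        ∀ P : A.Pts K, aeval (A.x P) R ≠ 0 → (k : ℝ) * r' * σ P ≤ t * hE A G' P)
    (ε : ℝ) (hε : 0 < ε) :
    ∃ (C : ℝ) (F : MvPolynomial (Fin n) (MvPolynomial (Fin (N + 1)) K)), ExcF A H F ∧
      ∀ P ∈ Γ, ∀ X : Fin n → K, X ≠ 0 → (∀ i, eval X (sp A P (H i)) = 0) →
        eval X (sp A P F) ≠ 0 →
        (∀ j, (∃ v, ci v j ≠ 0) ∨ (∃ v ∈ S, cf v j ≠ 0) →
          ∃ l, eval X (sp A P (f j l)) ≠ 0) ∧
        (∑ v : NumberField.InfinitePlace K, (v.mult : ℝ) *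
            ∑ j, ci v j * (1 / (d j : ℝ) * lamY A v.val (D j) (d j) (f j) P X)) +
          (∑ v ∈ S, ∑ j, cf v j * (1 / (d j : ℝ) * lamY A v.val (D j) (d j) (f j) P X)) +
          σ P ≤
          t * logHeight X + ε * (logHeight X + logHeight (A.x P)) + C := by
  classical
  obtain ⟨dd, hdd⟩ : ∃ dd, dd = ∏ j, d j := ⟨_, rfl⟩
  have hdd0 : 0 < dd := by
    rw [hdd]
    exact Finset.prod_pos fun j _ => hd j
  have hdvd : ∀ j, ∃ k, 0 < k ∧ k * d j = dd := by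
    intro j
    obtain ⟨k, hk⟩ : d j ∣ dd := by
      rw [hdd]
      exact Finset.dvd_prod_of_mem _ (Finset.mem_univ j)
    refine ⟨k, ?_, by rw [hk, mul_comm]⟩
    rcases Nat.eq_zero_or_pos k with h | h
    · rw [h, mul_zero] at hk
      omega
    · exact h
  choose k hk0 hk using hdvd
  obtain ⟨DD, hDD⟩ : ∃ DD, DD = ∑ j, k j * D j := ⟨_, rfl⟩
  have hDDj : ∀ j, ∃ e, e + k j * D j = DD := by
    intro j
    have h1 : k j * D j ≤ DD := by
      rw [hDD]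
      exact Finset.single_le_sum (f := fun j => k j * D j) (fun _ _ => Nat.zero_le _)
        (Finset.mem_univ j)
    exact ⟨DD - k j * D j, by omega⟩
  choose e he using hDDj
  have hBH : ∀ j i, BH DD dd (Y7_f (e j) (k j) (f j) i) := by
    intro j i
    have h1 := Y7_BH (e := e j) (k := k j) (hf j) i
    rw [he, hk] at h1
    exact h1
  obtain ⟨C₀, F₀, hF₀, hmain⟩ := Y_gen A Γ hΓ ht hdd0 H hH hfib
    (fun j => Y7_f (e j) (k j) (f j)) hBH S ci cf hci0 hcf0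
    (fun v U => (hci v U).imp (fun h => Y7_codim A H f e k U h)
      fun ⟨i, h1, h2⟩ => ⟨i, Y7_codim A H f e k U h1, h2⟩)
    (fun v hv U => (hcf v hv U).imp (fun h => Y7_codim A H f e k U h)
      fun ⟨i, h1, h2⟩ => ⟨i, Y7_codim A H f e k U h1, h2⟩) σ hσ0 hσ ε hε
  refine ⟨C₀, F₀, hF₀, fun P hP Y hY hHY hF => ?_⟩
  obtain ⟨h1, h2⟩ := hmain P hP Y hY hHY hF
  have h3 : ∀ j, (∃ v, ci v j ≠ 0) ∨ (∃ v ∈ S, cf v j ≠ 0) →
      ∃ l, eval Y (sp A P (f j l)) ≠ 0 := by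
    intro j hj
    obtain ⟨i, hi⟩ := h1 j hj
    rw [Y7_eval] at hi
    refine ⟨(finProdFinEquiv.symm i).2, fun h0 => hi ?_⟩
    rw [h0, zero_pow (hk0 j).ne', mul_zero]
  refine ⟨h3, le_of_eq_of_le ?_ h2⟩
  have hloc : ∀ (v : AbsoluteValue K ℝ) (j : Fin s) (c : ℝ),
      (c ≠ 0 → ∃ l, eval Y (sp A P (f j l)) ≠ 0) →
      c * (1 / (d j : ℝ) * lamY A v (D j) (d j) (f j) P Y) =
        c * (1 / (dd : ℝ) * lamY A v DD dd (Y7_f (e j) (k j) (f j)) P Y) := by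
    intro v j c hc
    by_cases h0 : c = 0
    · rw [h0, zero_mul, zero_mul]
    · have h4 := Y7_lam A v (k j) (e j) (hd j) (hk0 j) (f j) P Y (hc h0) (D := D j)
      rw [he, hk] at h4
      rw [h4]
  have hi : ∑ v : NumberField.InfinitePlace K, (v.mult : ℝ) *
      ∑ j, ci v j * (1 / (d j : ℝ) * lamY A v.val (D j) (d j) (f j) P Y) =
      ∑ v : NumberField.InfinitePlace K, (v.mult : ℝ) *
        ∑ j, ci v j * (1 / (dd : ℝ) * lamY A v.val DD dd (Y7_f (e j) (k j) (f j)) P Y) := by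
    refine Finset.sum_congr rfl fun v _ => ?_
    rw [Finset.sum_congr rfl fun j _ => hloc v.val j (ci v j) fun h => h3 j (Or.inl ⟨v, h⟩)]
  have hf' : ∑ v ∈ S, ∑ j, cf v j * (1 / (d j : ℝ) * lamY A v.val (D j) (d j) (f j) P Y) =
      ∑ v ∈ S, ∑ j, cf v j * (1 / (dd : ℝ) * lamY A v.val DD dd (Y7_f (e j) (k j) (f j)) P Y) := by
    refine Finset.sum_congr rfl fun v hv => ?_
    exact Finset.sum_congr rfl fun j _ => hloc v.val j (cf v j) fun h => h3 j (Or.inr ⟨v, hv, h⟩)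
  rw [hi, hf']

/-- The final theorem: closed subschemes `Y_j` of a family, weights. -/
theorem EF3 (Γ : AddSubgroup (A.Pts K)) (hΓ : Γ.FG) {n m s q t : ℕ} (ht : 0 < t)
    (H : Fin m → MvPolynomial (Fin n) (MvPolynomial (Fin (N + 1)) K))
    (hH : ∀ i, ∃ a b : ℕ, BH a b (H i))
    (hfib : ∀ (L : Type u) [Field L] [IsAlgClosed L] [Algebra K L] (P : A.Pts L), Gen A P →
      (fib A H P).IsPrime ∧ Algebra.trdeg L (MvPolynomial (Fin n) L ⧸ fib A H P) = t)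
    (D d : Fin s → ℕ) (hd : ∀ j, 0 < d j)
    (f : Fin s → Fin q → MvPolynomial (Fin n) (MvPolynomial (Fin (N + 1)) K))
    (hf : ∀ j l, BH (D j) (d j) (f j l))
    (S : Finset (NumberField.FinitePlace K))
    (ci : NumberField.InfinitePlace K → Fin s → ℝ)
    (cf : NumberField.FinitePlace K → Fin s → ℝ) (hci0 : ∀ v j, 0 ≤ ci v j)
    (hcf0 : ∀ v j, 0 ≤ cf v j)
    (hci : ∀ v U, Codim A H t (cut f U) t ∨
      ∃ i : ℕ, Codim A H t (cut f U) i ∧ ∑ j ∈ U, ci v j ≤ i)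
    (hcf : ∀ v ∈ S, ∀ U, Codim A H t (cut f U) t ∨
      ∃ i : ℕ, Codim A H t (cut f U) i ∧ ∑ j ∈ U, cf v j ≤ i)
    (ε : ℝ) (hε : 0 < ε) :
    ∃ (C : ℝ) (F : MvPolynomial (Fin n) (MvPolynomial (Fin (N + 1)) K)), ExcF A H F ∧
      ∀ P ∈ Γ, ∀ X : Fin n → K, X ≠ 0 → (∀ i, eval X (sp A P (H i)) = 0) →
        eval X (sp A P F) ≠ 0 →
        (∀ j, (∃ v, ci v j ≠ 0) ∨ (∃ v ∈ S, cf v j ≠ 0) →
          ∃ l, eval X (sp A P (f j l)) ≠ 0) ∧
        (∑ v : NumberField.InfinitePlace K, (v.mult : ℝ) *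
            ∑ j, ci v j * (1 / (d j : ℝ) * lamY A v.val (D j) (d j) (f j) P X)) +
          (∑ v ∈ S, ∑ j, cf v j * (1 / (d j : ℝ) * lamY A v.val (D j) (d j) (f j) P X)) +
          slope A H t P ≤
          t * logHeight X + ε * (logHeight X + logHeight (A.x P)) + C :=
  Y_gen2 A Γ hΓ ht H hH hfib D d hd f hf S ci cf hci0 hcf0 hci hcf (fun P => slope A H t P)
    (fun P => slope_nonneg A H P) (fun k g' r' G' hG' hgr => slope_rows A H hH k g' r' G' hG' hgr)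
    ε hε

/-- The final theorem with a vertical divisor: closed subschemes `Y_j` of a family, weights, and a
form `R₀` of degree `e` which does not vanish on `A`. -/
theorem EF3V (Γ : AddSubgroup (A.Pts K)) (hΓ : Γ.FG) {n m s q t : ℕ} (ht : 0 < t)
    (H : Fin m → MvPolynomial (Fin n) (MvPolynomial (Fin (N + 1)) K))
    (hH : ∀ i, ∃ a b : ℕ, BH a b (H i))
    (hfib : ∀ (L : Type u) [Field L] [IsAlgClosed L] [Algebra K L] (P : A.Pts L), Gen A P →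
      (fib A H P).IsPrime ∧ Algebra.trdeg L (MvPolynomial (Fin n) L ⧸ fib A H P) = t)
    (D d : Fin s → ℕ) (hd : ∀ j, 0 < d j)
    (f : Fin s → Fin q → MvPolynomial (Fin n) (MvPolynomial (Fin (N + 1)) K))
    (hf : ∀ j l, BH (D j) (d j) (f j l))
    (S : Finset (NumberField.FinitePlace K))
    (ci : NumberField.InfinitePlace K → Fin s → ℝ)
    (cf : NumberField.FinitePlace K → Fin s → ℝ) (hci0 : ∀ v j, 0 ≤ ci v j)
    (hcf0 : ∀ v j, 0 ≤ cf v j)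
    (hci : ∀ v U, Codim A H t (cut f U) t ∨
      ∃ i : ℕ, Codim A H t (cut f U) i ∧ ∑ j ∈ U, ci v j ≤ i)
    (hcf : ∀ v ∈ S, ∀ U, Codim A H t (cut f U) t ∨
      ∃ i : ℕ, Codim A H t (cut f U) i ∧ ∑ j ∈ U, cf v j ≤ i) {e : ℕ}
    (R₀ : MvPolynomial (Fin (N + 1)) K) (hR₀ : R₀.IsHomogeneous e) (hR₀A : R₀ ∉ A.I)
    (ε : ℝ) (hε : 0 < ε) :
    ∃ (C : ℝ) (F : MvPolynomial (Fin n) (MvPolynomial (Fin (N + 1)) K)), ExcF A H F ∧
      ∀ P ∈ Γ, ∀ X : Fin n → K, X ≠ 0 → (∀ i, eval X (sp A P (H i)) = 0) →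
        eval X (sp A P F) ≠ 0 →
        (∀ j, (∃ v, ci v j ≠ 0) ∨ (∃ v ∈ S, cf v j ≠ 0) →
          ∃ l, eval X (sp A P (f j l)) ≠ 0) ∧ aeval (A.x P) R₀ ≠ 0 ∧
        (∑ v : NumberField.InfinitePlace K, (v.mult : ℝ) *
            ∑ j, ci v j * (1 / (d j : ℝ) * lamY A v.val (D j) (d j) (f j) P X)) +
          (∑ v ∈ S, ∑ j, cf v j * (1 / (d j : ℝ) * lamY A v.val (D j) (d j) (f j) P X)) +
          ((∑ v : NumberField.InfinitePlace K, (v.mult : ℝ) *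
              (e * Real.log (⨆ i, v (A.x P i)) - Real.log (v (aeval (A.x P) R₀)))) +
            ∑ v ∈ S, (e * Real.log (⨆ i, v (A.x P i)) - Real.log (v (aeval (A.x P) R₀)))) +
          slope A H t P ≤
          t * logHeight X + ε * (logHeight X + logHeight (A.x P)) + C := by
  obtain ⟨C₁, F₁, hF₁, h1⟩ := EF3 A Γ hΓ ht H hH hfib D d hd f hf S ci cf hci0 hcf0 hci hcf
    (ε / 2) (half_pos hε)
  obtain ⟨C₂, F₂, a, hF₂, hF₂A, h2⟩ := S_low A Γ hΓ hR₀ hR₀A S (half_pos hε)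
  have hfib' : ∀ (L : Type u) [Field L] [IsAlgClosed L] [Algebra K L] (P : A.Pts L), Gen A P →
      (fib A H P).IsPrime := fun L _ _ _ P hP => (hfib L P hP).1
  refine ⟨C₁ + C₂, F₁ * C F₂, ExcF_mul A H hfib' hF₁ (ExcF_C A H hfib' hF₂ hF₂A), ?_⟩
  intro P hP Y hY hHY hF
  rw [Z2_sp_mul, Z2_sp_C] at hF
  obtain ⟨h3, h4⟩ := h1 P hP Y hY hHY (left_ne_zero_of_mul hF)
  obtain ⟨h5, h6⟩ := h2 P hP (right_ne_zero_of_mul hF)
  refine ⟨h3, h5, ?_⟩
  have h7 : 0 ≤ logHeight Y := logHeight_nonneg _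
  have h8 : (∑ v : NumberField.InfinitePlace K, (v.mult : ℝ) *
        (e * Real.log (⨆ i, v (A.x P i)) - Real.log (v (aeval (A.x P) R₀)))) +
      ∑ v ∈ S, (e * Real.log (⨆ i, v (A.x P i)) - Real.log (v (aeval (A.x P) R₀))) ≤
      ε / 2 * logHeight (A.x P) + C₂ := h6
  have h9 : 0 ≤ ε / 2 * logHeight Y := mul_nonneg (half_pos hε).le h7
  linarith

end

end Pool.Agent.Lib.MP_17a322_nt.EF
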