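import Pool.Agent.Lib.MP_17a322_nt.EF.Defs

/-!
Moving hypersurfaces over abelian varieties: arbitrary bidegrees.
-/

universe u

namespace Pool.Agent.Lib.MP_17a322_nt.EF

open MvPolynomial Height
open Pool.Agent.Lib.MP_17a322_nt.VA
open Pool.Agent.Lib.MP_17a322_nt.SL

section

variable {K : Type u} [Field K] {N n : ℕ}

theorem Z2_mul {D d D' d' : ℕ} {Q Q' : MvPolynomial (Fin n) (MvPolynomial (Fin (N + 1)) K)}
    (h : BH D d Q) (h' : BH D' d' Q') : BH (D + D') (d + d') (Q * Q') := by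
  classical
  refine ⟨h.1.mul h'.1, fun μ => ?_⟩
  rw [coeff_mul]
  exact IsHomogeneous.sum _ _ _ fun p _ => (h.2 _).mul (h'.2 _)

theorem Z2_C {R : MvPolynomial (Fin (N + 1)) K} {ρ : ℕ} (h : R.IsHomogeneous ρ) :
    BH ρ 0 (C R : MvPolynomial (Fin n) (MvPolynomial (Fin (N + 1)) K)) := by
  classical
  refine ⟨isHomogeneous_C _ _, fun μ => ?_⟩
  rw [coeff_C]
  split_ifs
  · exact h
  · exact isHomogeneous_zero _ _ _

theorem Z2_pow {D d : ℕ} {Q : MvPolynomial (Fin n) (MvPolynomial (Fin (N + 1)) K)}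
    (h : BH D d Q) (k : ℕ) : BH (k * D) (k * d) (Q ^ k) := by
  induction k with
  | zero =>
    rw [pow_zero, zero_mul, zero_mul]
    have h1 := Z2_C (n := n) (isHomogeneous_one (Fin (N + 1)) K)
    rw [C_1] at h1
    exact h1
  | succ k ih =>
    rw [pow_succ, Nat.succ_mul, Nat.succ_mul]
    exact Z2_mul ih h

variable (A : AV K N)

theorem Z2_sp_mul {L : Type u} [Field L] [Algebra K L] (P : A.Pts L) (X : Fin n → L)
    (Q Q' : MvPolynomial (Fin n) (MvPolynomial (Fin (N + 1)) K)) :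
    eval X (sp A P (Q * Q')) = eval X (sp A P Q) * eval X (sp A P Q') := by
  unfold sp
  rw [map_mul, map_mul]

theorem Z2_sp_pow {L : Type u} [Field L] [Algebra K L] (P : A.Pts L) (X : Fin n → L)
    (Q : MvPolynomial (Fin n) (MvPolynomial (Fin (N + 1)) K)) (k : ℕ) :
    eval X (sp A P (Q ^ k)) = eval X (sp A P Q) ^ k := by
  unfold sp
  rw [map_pow, map_pow]

theorem Z2_sp_C {L : Type u} [Field L] [Algebra K L] (P : A.Pts L) (X : Fin n → L)
    (R : MvPolynomial (Fin (N + 1)) K) :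
    eval X (sp A P (C R : MvPolynomial (Fin n) (MvPolynomial (Fin (N + 1)) K))) =
      aeval (A.x P) R := by
  unfold sp
  rw [map_C, eval_C]
  rfl

theorem Z2_x_ne {L : Type u} [Field L] [Algebra K L] (P : A.Pts L) : A.x P ≠ 0 :=
  P.1.rep_nonzero

theorem Z2_coord : ∃ a : Fin (N + 1), (X a : MvPolynomial (Fin (N + 1)) K) ∉ A.I := by
  have h1 := Z2_x_ne A (0 : A.Pts K)
  obtain ⟨a, ha⟩ := Function.ne_iff.1 h1
  refine ⟨a, fun h => ha ?_⟩
  have h2 := (0 : A.Pts K).2 _ h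
  rw [aeval_X] at h2
  exact h2

theorem Z2_one : (1 : MvPolynomial (Fin (N + 1)) K) ∉ A.I := by
  intro h
  have h2 := (0 : A.Pts K).2 _ h
  rw [map_one] at h2
  exact one_ne_zero h2

/-- The local inequality. -/
theorem Z2_lam {L : Type u} [Field L] [Algebra K L] (v : AbsoluteValue L ℝ) {D d : ℕ} (k e : ℕ)
    (a : Fin (N + 1)) (hd : 0 < d) (hk : 0 < k)
    (Q : MvPolynomial (Fin n) (MvPolynomial (Fin (N + 1)) K)) (P : A.Pts L) (X' : Fin n → L)
    (ha : A.x P a ≠ 0) (hQ : eval X' (sp A P Q) ≠ 0) :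
    1 / (d : ℝ) * lamQ A v D d Q P X' ≤
      1 / ((k * d : ℕ) : ℝ) * lamQ A v (e + k * D) (k * d) (C (X a ^ e) * Q ^ k) P X' := by
  have h1 : v (eval X' (sp A P (C (X a ^ e) * Q ^ k))) =
      v (A.x P a) ^ e * v (eval X' (sp A P Q)) ^ k := by
    rw [Z2_sp_mul, Z2_sp_C, Z2_sp_pow, map_pow, aeval_X, map_mul, map_pow, map_pow]
  have h2 : v (A.x P a) ≤ ⨆ i, v (A.x P i) := Finite.le_ciSup_of_le a le_rfl
  have h3 : 0 < v (A.x P a) := v.pos ha
  have h4 : Real.log (v (A.x P a)) ≤ Real.log (⨆ i, v (A.x P i)) := Real.log_le_log h3 h2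
  have h5 : 0 < v (eval X' (sp A P Q)) := v.pos hQ
  have hd0 : (0 : ℝ) < d := Nat.cast_pos.2 hd
  have hk0 : (0 : ℝ) < k := Nat.cast_pos.2 hk
  unfold lamQ
  rw [h1, Real.log_mul (pow_pos h3 _).ne' (pow_pos h5 _).ne', Real.log_pow, Real.log_pow]
  push_cast
  rw [one_div, one_div, mul_inv, ← sub_nonneg]
  have h6 : (k : ℝ)⁻¹ * (d : ℝ)⁻¹ * ((k * d) * Real.log (⨆ l, v (X' l)) +
      (e + k * D) * Real.log (⨆ i, v (A.x P i)) -
      (e * Real.log (v (A.x P a)) + k * Real.log (v (eval X' (sp A P Q))))) -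
      (d : ℝ)⁻¹ * (d * Real.log (⨆ l, v (X' l)) + D * Real.log (⨆ i, v (A.x P i)) -
        Real.log (v (eval X' (sp A P Q)))) =
      (k : ℝ)⁻¹ * (d : ℝ)⁻¹ * (e * (Real.log (⨆ i, v (A.x P i)) - Real.log (v (A.x P a)))) := by
    field_simp
    ring
  rw [h6]
  have h7 : (0 : ℝ) ≤ e := Nat.cast_nonneg _
  have h8 : 0 ≤ Real.log (⨆ i, v (A.x P i)) - Real.log (v (A.x P a)) := sub_nonneg.2 h4
  positivity

theorem Z2_lin {g : ℕ} (G : Matrix (Fin g) (Fin n) (MvPolynomial (Fin (N + 1)) K)) {L : Type u}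
    [Field L] [Algebra K L] (P : A.Pts L) (Y : Fin n → L) (i : Fin g) :
    eval Y (sp A P (lin G i)) = ∑ l, aeval (A.x P) (G i l) * Y l := by
  unfold sp lin
  rw [map_sum, map_sum]
  refine Finset.sum_congr rfl fun l _ => ?_
  rw [map_mul, map_mul, map_C, eval_C, map_X, eval_X]
  rfl

theorem Z2_lin_BH {g D' : ℕ} (G : Matrix (Fin g) (Fin n) (MvPolynomial (Fin (N + 1)) K))
    (hG : ∀ i l, (G i l).IsHomogeneous D') (i : Fin g) : BH D' 1 (lin G i) := by
  classical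
  unfold lin
  refine ⟨IsHomogeneous.sum _ _ _ fun l _ => ?_, fun μ => ?_⟩
  · have h1 := (isHomogeneous_C (Fin n) (G i l)).mul
      (isHomogeneous_X (MvPolynomial (Fin (N + 1)) K) l)
    rw [zero_add] at h1
    exact h1
  · rw [coeff_sum]
    refine IsHomogeneous.sum _ _ _ fun l _ => ?_
    rw [coeff_C_mul, coeff_X]
    split_ifs
    · rw [mul_one]
      exact hG i l
    · rw [mul_zero]
      exact isHomogeneous_zero _ _ _

end

end Pool.Agent.Lib.MP_17a322_nt.EF
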